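import Mathlib

/-!
# [H72 WD EnB] THEOREM WD: the exponents near `c p / W`
-/

set_option autoImplicit false

namespace Pool.Agent.H72.WD

theorem wexp (p W Q T u j : ℕ) (hW : 1 ≤ W) (hT : Q + 1 ≤ T) (hQ : Q = 1 + W * u) (hj : j < p)
    (hc : ∃ c : ℤ, |(W : ℤ) * j - c * p| * T ≤ p) :
    ∃ c p' : ℕ, W * j + p / T = c * p + p' ∧ p' ≤ 2 * (p / T) ∧ (Q * j) / p = u * c ∧
      W * ((Q * j) % p) + Q * (p / T) = c * p + Q * p' := by
  obtain ⟨c, hc⟩ := hc
  have hp : 0 < p := by omega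
  have hT0 : 0 < T := by omega
  obtain ⟨E, hE⟩ : ∃ E, E = p / T := ⟨_, rfl⟩
  rw [← hE]
  have hTE : T * E ≤ p := by
    rw [hE]
    exact Nat.mul_div_le p T
  have hQE : Q * E < p := by
    rcases Nat.eq_zero_or_pos E with h0 | h0
    · rw [h0, mul_zero]
      exact hp
    · calc Q * E < (Q + 1) * E := Nat.mul_lt_mul_of_pos_right (Nat.lt_succ_self Q) h0
        _ ≤ T * E := Nat.mul_le_mul_right _ hT
        _ ≤ p := hTE
  have hQ1 : 1 ≤ Q := by omega
  have hEp : E < p := lt_of_le_of_lt (Nat.le_mul_of_pos_left E hQ1) hQE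
  have h1 : |(W : ℤ) * j - c * p| ≤ E := by
    have h2 : |(W : ℤ) * j - c * p| ≤ (p : ℤ) / (T : ℤ) := (Int.le_ediv_iff_mul_le (by omega)).2 hc
    rw [hE]
    push_cast
    exact h2
  obtain ⟨δ, hδ⟩ : ∃ δ : ℤ, δ = (W : ℤ) * j - c * p := ⟨_, rfl⟩
  rw [← hδ] at h1
  obtain ⟨h1a, h1b⟩ := abs_le.1 h1
  have hpZ : (0 : ℤ) < p := by exact_mod_cast hp
  have hjZ : (j : ℤ) < p := by exact_mod_cast hj
  have hj0 : (0 : ℤ) ≤ j := Int.natCast_nonneg j
  have hWZ : (1 : ℤ) ≤ W := by exact_mod_cast hW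
  have hEZ : (E : ℤ) < p := by exact_mod_cast hEp
  have hE0 : (0 : ℤ) ≤ E := Int.natCast_nonneg E
  have hQEZ : (Q : ℤ) * E < p := by exact_mod_cast hQE
  have hQ1Z : (1 : ℤ) ≤ Q := by exact_mod_cast hQ1
  have hWj : (0 : ℤ) ≤ (W : ℤ) * j := by positivity
  have hc0 : 0 ≤ c := by
    by_contra h
    push Not at h
    have h3 : c * (p : ℤ) ≤ -1 * p := mul_le_mul_of_nonneg_right (by omega) (by omega)
    linarith
  obtain ⟨c', rfl⟩ := Int.eq_ofNat_of_zero_le hc0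
  have hcW : (c' : ℤ) ≤ W := by
    by_contra h
    push Not at h
    have h3 : ((W : ℤ) + 1) * p ≤ (c' : ℤ) * p := mul_le_mul_of_nonneg_right (by omega) (by omega)
    have h4 : (W : ℤ) * j ≤ W * p := mul_le_mul_of_nonneg_left hjZ.le (by omega)
    linarith
  obtain ⟨r, hr⟩ : ∃ r : ℤ, r = j + u * δ := ⟨_, rfl⟩
  have hQZ : (Q : ℤ) = 1 + W * u := by exact_mod_cast hQ
  have hWr : (W : ℤ) * r = c' * p + Q * δ := by
    rw [hr, hQZ, hδ]
    ring
  have hQδ1 : -((Q : ℤ) * E) ≤ Q * δ := by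
    have := mul_le_mul_of_nonneg_left h1a (by omega : (0 : ℤ) ≤ Q)
    linarith
  have hQδ2 : (Q : ℤ) * δ ≤ Q * E := mul_le_mul_of_nonneg_left h1b (by omega : (0 : ℤ) ≤ Q)
  have hr0 : 0 ≤ r := by
    have h3 : 0 ≤ (W : ℤ) * r := by
      rw [hWr]
      rcases Nat.eq_zero_or_pos c' with h0 | h0
      · subst h0
        have h4 : 0 ≤ δ := by
          rw [hδ]
          simp only [Nat.cast_zero, zero_mul, sub_zero]
          exact hWj
        simp only [Nat.cast_zero, zero_mul, zero_add]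
        positivity
      · have h4 : (1 : ℤ) * p ≤ (c' : ℤ) * p := mul_le_mul_of_nonneg_right (by exact_mod_cast h0) (by omega)
        linarith
    exact nonneg_of_mul_nonneg_right h3 (by omega)
  have hrp : r < p := by
    have h3 : (W : ℤ) * r < W * p := by
      rw [hWr]
      rcases hcW.lt_or_eq with h0 | h0
      · have h4 : (c' : ℤ) * p ≤ ((W : ℤ) - 1) * p := mul_le_mul_of_nonneg_right (by omega) (by omega)
        linarith
      · have h4 : δ < 0 := by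
          rw [hδ, h0]
          have h5 : (W : ℤ) * j < W * p := mul_lt_mul_of_pos_left hjZ (by omega)
          linarith
        have h5 : (Q : ℤ) * δ < 0 := mul_neg_of_pos_of_neg (by omega) h4
        rw [h0]
        linarith
    exact lt_of_mul_lt_mul_left h3 (by omega)
  obtain ⟨r', rfl⟩ := Int.eq_ofNat_of_zero_le hr0
  have hrp' : r' < p := by exact_mod_cast hrp
  have hQj : r' + p * (u * c') = Q * j := by
    have h3 : ((r' + p * (u * c') : ℕ) : ℤ) = ((Q * j : ℕ) : ℤ) := by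
      push_cast
      rw [hr, hQZ, hδ]
      ring
    exact_mod_cast h3
  obtain ⟨h5, h6⟩ := (Nat.div_mod_unique hp).2 ⟨hQj, hrp'⟩
  obtain ⟨p', hp'⟩ : ∃ p' : ℕ, (p' : ℤ) = δ + E := ⟨(δ + E).toNat, Int.toNat_of_nonneg (by linarith)⟩
  refine ⟨c', p', ?_, ?_, h5, ?_⟩
  · have h3 : ((W * j + E : ℕ) : ℤ) = ((c' * p + p' : ℕ) : ℤ) := by
      push_cast
      rw [hp', hδ]
      ring
    exact_mod_cast h3
  · have h3 : (p' : ℤ) ≤ ((2 * E : ℕ) : ℤ) := by
      push_cast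
      rw [hp']
      linarith
    exact_mod_cast h3
  · rw [h6]
    have h3 : ((W * r' + Q * E : ℕ) : ℤ) = ((c' * p + Q * p' : ℕ) : ℤ) := by
      push_cast
      rw [hWr, hp']
      ring
    exact_mod_cast h3

end Pool.Agent.H72.WD
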