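import Pool.Agent.H72.WD.Tr
import Pool.Agent.H72.BK.Def

/-!
# [H72 WD EnC] THEOREM WD: the data `Dt` as a system `Rad` of VK
-/

set_option autoImplicit false

namespace Pool.Agent.H72.WD

open Finset NumberField
open Pool.Agent.H61.WN (ch)
open Pool.Agent.H72.BK (Rad)
open Pool.Agent.H72.BE (mon Gm vl)

variable {p b P M : ℕ} [Fact p.Prime] [NeZero P] [NeZero M] {A F : Type} [Field A] [NumberField A]
  [Field F] [NumberField F] [Algebra A F]

theorem co_zero (D : Dt p b P M A F) (j : ZMod p) : D.co 0 j = 0 := by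
  unfold Dt.co Dt.Z
  rw [zero_mul, map_zero, zero_div]

theorem rad_dt (D : Dt p b P M A F) (hb : 2 ≤ b) :
    Rad b (fun _ : Fin 1 => algebraMap (𝓞 ℚ) A (b : 𝓞 ℚ)) (fun _ : Fin 1 => p) F (fun _ => D.x) := by
  classical
  have hp : p.Prime := Fact.out
  have hbA : algebraMap (𝓞 ℚ) A (b : 𝓞 ℚ) = (b : A) := map_natCast _ _
  have hbR : (2 : ℝ) ≤ b := by exact_mod_cast hb
  refine ⟨hb, fun i => ?_, fun t i => ?_, fun t i => ?_, fun i => ?_, ?_, ?_⟩
  · simp only [hbA]
    exact isIntegral_algebraMap (R := ℤ) (x := (b : ℤ)) |> fun h => by simpa using h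
  · simp only [hbA, map_natCast, Complex.norm_natCast, le_refl]
  · simp only [hbA, map_natCast, Complex.norm_natCast]
    nlinarith
  · simp only [hbA, map_natCast]
    exact D.hx
  · rw [finrank_dt D, Finset.prod_const, Finset.card_univ, Fintype.card_fin, pow_one]
  · rw [Fintype.linearIndependent_iff]
    intro g hg l
    let e : Gm (fun _ : Fin 1 => p) ≃ ZMod p :=
      { toFun := fun l => l 0
        invFun := fun j => fun _ => j
        left_inv := fun l => by
          funext i
          rw [Subsingleton.elim i 0]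
        right_inv := fun j => rfl }
    have h1 : ∑ j : ZMod p, algebraMap A F (g (e.symm j)) * D.x ^ j.val = 0 := by
      rw [← hg]
      refine (Fintype.sum_equiv e _ _ fun l => ?_).symm
      rw [Equiv.symm_apply_apply, Algebra.smul_def]
      congr 1
      unfold mon vl
      rw [Fin.prod_univ_one]
      rfl
    have h2 := co_sum D (by omega) (fun j => g (e.symm j)) (e l)
    rw [h1, co_zero, Equiv.symm_apply_apply] at h2
    exact h2.symm

end Pool.Agent.H72.WD
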