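import Pool.Agent.H72.WD.Def
import Pool.Agent.H11.BK.TauH

/-!
# [H72 WD Fb] THEOREM WD: Frobenius automorphisms of cyclotomic fields

`ideal_q`: the prime ideal `𝔮` of `𝓞 ℚ` with `q ∈ 𝔮` is generated by `q` (`𝓞 ℚ ≃ ℤ`, `Rat.ringOfIntegersEquiv`), so an element of `𝔮.map (𝓞 ℚ → 𝓞 A)` is `q` times an integer of `A`.
`frq`: `tauH` (`H11/BK/TauH`) with `K = ℚ`, `k = A` (`IsGalois ℚ A` from `IsCyclotomicExtension.isGalois`), `ι = RingHom.id A`; `f = 1` in the last property; `ideal_q`.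
-/

set_option autoImplicit false

open NumberField

namespace Pool.Agent.H72.WD

theorem ideal_q {A : Type} [Field A] [NumberField A] (q : ℕ) (hq : q.Prime) (𝔮 : Ideal (𝓞 ℚ)) (h1 : 𝔮.IsPrime)
    (h2 : (q : 𝓞 ℚ) ∈ 𝔮) (c : 𝓞 A) (hc : c ∈ 𝔮.map (algebraMap (𝓞 ℚ) (𝓞 A))) : ∃ c' : 𝓞 A, c = q * c' := by
  have hle : 𝔮 ≤ Ideal.span {(q : 𝓞 ℚ)} := by
    intro x hx
    rw [Ideal.mem_span_singleton]
    let e := Rat.ringOfIntegersEquiv
    have hex : ((e x : ℤ) : 𝓞 ℚ) = x := by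
      have h := e.symm_apply_apply x
      rw [← h]
      simp
    by_contra hn
    have hcop : IsCoprime ((q : ℤ)) (e x) := by
      rw [Prime.coprime_iff_not_dvd (Nat.prime_iff_prime_int.1 hq)]
      rintro ⟨y, hy⟩
      apply hn
      refine ⟨(y : 𝓞 ℚ), ?_⟩
      rw [← hex, hy]
      push_cast
      ring
    obtain ⟨u, v, huv⟩ := hcop
    apply h1.ne_top
    rw [Ideal.eq_top_iff_one]
    have h3 : (1 : 𝓞 ℚ) = (u : 𝓞 ℚ) * (q : 𝓞 ℚ) + (v : 𝓞 ℚ) * x := by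
      rw [← hex]
      exact_mod_cast congrArg (Int.cast : ℤ → 𝓞 ℚ) huv.symm
    rw [h3]
    exact 𝔮.add_mem (𝔮.mul_mem_left _ h2) (𝔮.mul_mem_left _ hx)
  have h3 : 𝔮.map (algebraMap (𝓞 ℚ) (𝓞 A)) ≤ Ideal.span {(q : 𝓞 A)} := by
    refine (Ideal.map_mono hle).trans ?_
    rw [Ideal.map_span, Set.image_singleton, map_natCast]
  have h4 := h3 hc
  rw [Ideal.mem_span_singleton] at h4
  exact h4

theorem frq (A : Type) [Field A] [NumberField A] (n : ℕ) [NeZero n] [IsCyclotomicExtension {n} ℚ A] (q : ℕ)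
    (hq : q.Prime) (hqn : ¬ q ∣ n) : ∃ φ : A →+* A, FrQ A q q φ := by
  have := IsCyclotomicExtension.isGalois {n} ℚ A
  have h0 : @IsGalois ℚ _ ℚ _ DivisionRing.toRatAlgebra := by
    have h1 : (DivisionRing.toRatAlgebra : Algebra ℚ ℚ) = Algebra.id ℚ := Subsingleton.elim _ _
    rw [h1]
    infer_instance
  obtain ⟨𝔮, σ, s, hF, -, -, -, -, -⟩ := Pool.Agent.H11.BK.tauH (K := ℚ) (A := A) (k := A) (RingHom.id A) n q hq hqn
  obtain ⟨hp, hq2, h⟩ := hF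
  refine ⟨σ, ?_⟩
  intro a ha
  obtain ⟨c, hc, h3⟩ := h ⟨a, ha⟩
  obtain ⟨c', hc'⟩ := ideal_q q hq 𝔮 hp hq2 c hc
  refine ⟨c', c'.2, ?_⟩
  have h4 : ((c : 𝓞 A) : A) = (q : A) * (c' : A) := by
    rw [hc']
    push_cast
    ring
  rw [← h4]
  exact h3

/-- powers of a Frobenius automorphism -/
theorem frq_pow (A : Type) [Field A] (q f : ℕ) (φ : A →+* A) (h : FrQ A q q φ) : FrQ A (q ^ f) q (φ ^ f) := by
  induction f with
  | zero =>
    intro a _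
    refine ⟨0, isIntegral_zero, ?_⟩
    simp
  | succ f ih =>
    intro a ha
    obtain ⟨c, hc, h1⟩ := ih a ha
    obtain ⟨c2, hc2, h2⟩ := h a ha
    have hq : ∀ k : ℕ, IsIntegral ℤ ((k : ℕ) : A) := fun k => isIntegral_algebraMap (R := ℤ) (A := A) (x := (k : ℤ)) |> (by simpa using ·)
    have hφ : ∀ x : A, IsIntegral ℤ x → IsIntegral ℤ (φ x) := fun x hx => hx.map (φ : A →+* A).toIntAlgHom
    have h3 : (φ ^ (f + 1)) a = φ ((φ ^ f) a) := by
      rw [pow_succ', RingHom.mul_def]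
      rfl
    rw [h3, h1, map_add, map_pow, map_mul, map_natCast, h2]
    obtain ⟨d, hd⟩ := sub_dvd_pow_sub_pow (a ^ q + (q : A) * c2) (a ^ q) (q ^ f)
    have hsum := (Commute.all (a ^ q + (q : A) * c2) (a ^ q)).mul_geom_sum₂ (q ^ f)
    refine ⟨c2 * (∑ i ∈ Finset.range (q ^ f), (a ^ q + (q : A) * c2) ^ i * (a ^ q) ^ (q ^ f - 1 - i)) + φ c, ?_, ?_⟩
    · refine IsIntegral.add (hc2.mul (IsIntegral.sum _ fun i _ => ?_)) (hφ c hc)
      exact IsIntegral.mul (((ha.pow q).add ((hq q).mul hc2)).pow i) ((ha.pow q).pow _)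
    · have h4 : (a ^ q + (q : A) * c2 - a ^ q) = q * c2 := by ring
      rw [h4] at hsum
      have h5 : (a ^ q + (q : A) * c2) ^ (q ^ f) = a ^ (q ^ (f + 1)) + (q : A) * (c2 * (∑ i ∈ Finset.range (q ^ f), (a ^ q + (q : A) * c2) ^ i * (a ^ q) ^ (q ^ f - 1 - i))) := by
        have h6 : (a ^ q) ^ (q ^ f) = a ^ (q ^ (f + 1)) := by rw [← pow_mul, pow_succ, mul_comm]
        rw [← mul_assoc, hsum, h6]
        ring
      rw [h5]
      ring

end Pool.Agent.H72.WD
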