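import Pool.Agent.H72.WD.EnA
import Pool.Agent.H72.WD.EnB
import Pool.Agent.H72.WD.EnC
import Pool.Agent.H72.WD.Fb
import Pool.Agent.H72.BK.SixB
import Pool.Agent.H72.BK.FieldsK
import Pool.Agent.H72.BK.CoreK
import Pool.Agent.H69.BE.SevenR
import Pool.Agent.H11.BK.TauH

/-!
# [H72 WD En] THEOREM WD: the endgame (owner helper72)

As `H72/BK/CoreK.lean`, `r = 1`. `y ^ W = x`, `β = y ^ p`, `E = p / T`, `W j + E = c_j p + p'_j`, `0 ≤ p'_j ≤ 2 E`. `V_k = ∑_j a_k(j) β^(c_j) X^(p'_j)`: `V_k(y) = y^E s_k`. Newton's identities.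
-/

set_option autoImplicit false

namespace Pool.Agent.H72.WD

open Finset NumberField
open Pool.Agent.H61.WN (ch)
open Pool.Agent.H72.BK (exists_fK fieldsK rh_pow_comp rh_fix)
open Pool.Agent.H69.BE (sevenR)

theorem galQQ (h : Algebra ℚ ℚ) : @IsGalois ℚ _ ℚ _ h := by
  have : h = Algebra.id ℚ := Subsingleton.elim _ _
  subst this
  exact IsGalois.self ℚ

theorem endW (b : ℕ) (hb : 2 ≤ b) (d W Q1 : ℕ) (hd : 1 ≤ d) (hW : 1 ≤ W) :
    ∃ q f T : ℕ, q.Prime ∧ Q1 ≤ q ∧ 1 ≤ f ∧ 1 ≤ T ∧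
      ∀ (p P M n : ℕ) [Fact p.Prime] [NeZero P] [NeZero M] [NeZero n], T ≤ p → ¬ q ∣ n →
      ∀ (A F : Type) [Field A] [NumberField A] [Field F] [NumberField F] [Algebra A F]
        [IsCyclotomicExtension {n} ℚ A] [Algebra F ℂ] (D : Dt p b P M A F) (G : Fin d → ℂ) (s : ℕ → F),
        Function.Injective G → (∀ i, G i ≠ 0) → (∀ k, algebraMap F ℂ (s k) = ∑ i, G i ^ k) →
        (∀ k j, 1 ≤ k → k ≤ d → D.co (s k) j ≠ 0 → ∃ c : ℤ, |(W : ℤ) * j.val - c * p| * T ≤ p) →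
        (∀ φ : A →+* A, FrQ A (q ^ f) q φ → ∀ k j, 1 ≤ k → k ≤ d →
          (D.co (s k) j = 0 ∨ (q - 1) ∣ (q ^ f * j.val) / p) →
          D.co (s (q ^ f * k)) (((q ^ f : ℕ) : ZMod p) * j) = φ (D.co (s k) j)) →
        ∀ i, ∃ k s t : ℕ, 1 ≤ k ∧ G i ^ k * (b : ℂ) ^ s = (b : ℂ) ^ t := by
  classical
  obtain ⟨D0, hD1, hfields⟩ := fieldsK W hW (fun _ : Fin 1 => (b : 𝓞 ℚ)) (fun _ => by
    have hb0 : (b : 𝓞 ℚ) ≠ 0 := by exact_mod_cast (by omega : b ≠ 0)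
    exact hb0)
  obtain ⟨q, hqM, hq⟩ := Nat.exists_infinite_primes (Q1 + W + 1)
  have hqW : ¬ q ∣ W := fun h => by
    have := Nat.le_of_dvd hW h
    omega
  obtain ⟨f, hf, hfe, hQ⟩ := exists_fK q W 1 (W * Module.finrank ℚ ℚ) hq hW hqW le_rfl
  obtain ⟨Q, hQdef⟩ : ∃ Q, Q = q ^ f := ⟨_, rfl⟩
  have hQ1 : 1 ≤ Q := by
    rw [hQdef]
    exact Nat.one_le_pow _ _ hq.pos
  have hQ2 : 2 ≤ Q := by
    rw [hQdef]
    calc 2 ≤ q := hq.two_le
      _ = q ^ 1 := (pow_one q).symm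
      _ ≤ q ^ f := Nat.pow_le_pow_right hq.pos hf
  have hqQ : q ≤ Q := by
    rw [hQdef]
    exact Nat.le_self_pow (by omega) q
  have hWQ := hQ 1 le_rfl le_rfl
  rw [pow_one, ← hQdef] at hWQ
  obtain ⟨u', hu'⟩ := hWQ
  obtain ⟨u, hu⟩ : ∃ u, u = (q - 1) * u' := ⟨_, rfl⟩
  have hQu : Q = 1 + W * u := by
    rw [hu, ← mul_assoc, ← hu']
    omega
  refine ⟨q, f, D0 * (Q * (d + 1) * (2 * d)) + Q + 1, hq, by omega, hf, by omega, ?_⟩
  obtain ⟨T, hT⟩ : ∃ T, T = D0 * (Q * (d + 1) * (2 * d)) + Q + 1 := ⟨_, rfl⟩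
  rw [← hT, ← hQdef]
  intro p P M n _ _ _ _ hTp hqn A F _ _ _ _ _ _ _ D G s hGinj hG0 hs hsupp hfr
  have hp : p.Prime := Fact.out
  have hTQ : Q + 1 ≤ T := by
    rw [hT]
    omega
  obtain ⟨E, hE⟩ : ∃ E, E = p / T := ⟨_, rfl⟩
  -- exponents
  have hex : ∀ j : ZMod p, ∃ cp : ℕ × ℕ, cp.2 ≤ 2 * E ∧ ((∃ k, 1 ≤ k ∧ k ≤ d ∧ D.co (s k) j ≠ 0) →
      W * j.val + E = cp.1 * p + cp.2 ∧ (Q * j.val) / p = u * cp.1 ∧
      W * ((Q * j.val) % p) + Q * E = cp.1 * p + Q * cp.2) := by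
    intro j
    by_cases hj : ∃ k, 1 ≤ k ∧ k ≤ d ∧ D.co (s k) j ≠ 0
    · obtain ⟨k, hk1, hk2, hk3⟩ := hj
      obtain ⟨c, p', h1, h2, h3, h4⟩ := wexp p W Q T u j.val hW hTQ hQu (ZMod.val_lt j) (hsupp k j hk1 hk2 hk3)
      rw [← hE] at h1 h2 h4
      exact ⟨(c, p'), h2, fun _ => ⟨h1, h3, h4⟩⟩
    · exact ⟨(0, 0), Nat.zero_le _, fun h => absurd h hj⟩
  choose cp hcp2 hcp using hex
  obtain ⟨c, hc⟩ : ∃ c : ZMod p → ℕ, ∀ j, c j = (cp j).1 := ⟨_, fun _ => rfl⟩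
  obtain ⟨p', hp'⟩ : ∃ p' : ZMod p → ℕ, ∀ j, p' j = (cp j).2 := ⟨_, fun _ => rfl⟩
  simp only [← hc, ← hp'] at hcp hcp2
  have hq0 : (q : ZMod p) ≠ 0 := by
    rw [Ne, ZMod.natCast_eq_zero_iff]
    intro hd
    have := Nat.le_of_dvd hq.pos hd
    omega
  have hQ0 : (Q : ZMod p) ≠ 0 := by
    rw [hQdef, Nat.cast_pow]
    exact pow_ne_zero _ hq0
  obtain ⟨y, hy⟩ : ∃ y : ℂ, y ^ W = algebraMap F ℂ D.x :=
    IsAlgClosed.exists_pow_nat_eq (algebraMap F ℂ D.x) (n := W) hW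
  have hyb : y ^ (W * p) = (b : ℂ) := by
    rw [pow_mul, hy, ← map_pow, D.hx, map_natCast]
  have hbC : (b : ℂ) ≠ 0 := by
    have : b ≠ 0 := by omega
    exact_mod_cast this
  have hy0 : y ≠ 0 := by
    intro h0
    rw [h0, zero_pow (Nat.mul_pos hW hp.pos).ne'] at hyb
    exact hbC hyb.symm
  -- the coefficient field
  obtain ⟨k, ι, β, hkf, hkg, hι, hβe, hβd, hyK⟩ := hfields b (fun _ : Fin 1 => p) n A F (fun _ => D.x)
    (rad_dt D hb) (fun _ => y) (fun _ => hy)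
  have hknf : NumberField k := {}
  have hgQ : @IsGalois ℚ _ ℚ _ DivisionRing.toRatAlgebra := galQQ _
  obtain ⟨𝔮, σ, s₀, hFr, hcomm₀, ⟨n₀, hn₀⟩, -, hfix, hiter⟩ := Pool.Agent.H11.BK.tauH (K := ℚ) ι n q
    hq hqn
  obtain ⟨h𝔮, hp𝔮, -⟩ := hFr
  obtain ⟨τ, hτdef⟩ : ∃ τ : A →+* A, τ = σ ^ f := ⟨_, rfl⟩
  have hτ : FrQ A Q q τ := by
    intro a ha
    obtain ⟨c, hc1, hc2⟩ := hiter f ⟨a, ha⟩
    obtain ⟨c', hc'⟩ := ideal_q q hq 𝔮 h𝔮 hp𝔮 c hc1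
    refine ⟨(c' : A), c'.2, ?_⟩
    rw [hτdef, hQdef]
    have h3 : ((c : 𝓞 A) : A) = (q : A) * (c' : A) := by
      rw [hc']
      push_cast
      rfl
    rw [← h3]
    exact hc2
  obtain ⟨τk, hτk⟩ : ∃ τk : k →+* k, τk = s₀ ^ f := ⟨_, rfl⟩
  have hcomm : ∀ a, τk (ι a) = ι (τ a) := by
    intro a
    have h1 := rh_pow_comp ι s₀ σ hcomm₀ f
    rw [hτk, hτdef]
    exact congrArg (fun g : A →+* k => g a) h1
  have hβτ : τk (β 0) = β 0 := by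
    rw [hτk]
    exact rh_fix s₀ (β 0) _ f (hfix _ (β 0) (hβd 0)) hfe
  have hτn : τk ^ (n₀ + 1) = 1 := by
    rw [hτk, ← pow_mul, mul_comm, pow_mul, hn₀, one_pow]
  have hι' : ∀ a, algebraMap k ℂ (ι a) = algebraMap F ℂ (algebraMap A F a) := hι
  have hβe' : algebraMap k ℂ (β 0) = y ^ p := hβe 0
  -- the polynomials
  obtain ⟨V, hV⟩ : ∃ V : ℕ → MvPolynomial (Fin 1) k, ∀ m, V m =
      ∑ j : ZMod p, MvPolynomial.C (ι (D.co (s m) j) * β 0 ^ c j) * MvPolynomial.X 0 ^ p' j := ⟨_, fun _ => rfl⟩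
  have hXdeg : ∀ m : ℕ, (MvPolynomial.X 0 ^ m : MvPolynomial (Fin 1) k).degreeOf 0 ≤ m := by
    intro m
    refine (MvPolynomial.degreeOf_pow_le _ _ _).trans ?_
    rw [MvPolynomial.degreeOf_X, if_pos rfl, mul_one]
  have hVdeg : ∀ m, (V m).degreeOf 0 ≤ 2 * E := by
    intro m
    rw [hV]
    refine (MvPolynomial.degreeOf_sum_le _ _ _).trans (Finset.sup_le fun j _ => ?_)
    exact (MvPolynomial.degreeOf_C_mul_le _ _ _).trans ((hXdeg _).trans (hcp2 j))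
  have hVy : ∀ m, 1 ≤ m → m ≤ d → MvPolynomial.aeval (fun _ : Fin 1 => y) (V m) = y ^ E * algebraMap F ℂ (s m) := by
    intro m hm1 hm2
    rw [hV, map_sum]
    conv_rhs => rw [sum_co D (by omega) (s m), map_sum, Finset.mul_sum]
    refine Finset.sum_congr rfl fun j _ => ?_
    rw [map_mul, map_pow, MvPolynomial.aeval_C, MvPolynomial.aeval_X, map_mul, map_pow, hι', hβe', map_mul, map_pow, ← hy]
    by_cases h0 : D.co (s m) j = 0
    · rw [h0]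
      simp
    · have h1 := (hcp j ⟨m, hm1, hm2, h0⟩).1
      have h2 : (y ^ p) ^ c j * y ^ p' j = y ^ E * (y ^ W) ^ j.val := by
        rw [← pow_mul, ← pow_mul, ← pow_add, ← pow_add, add_comm E, h1, mul_comm p]
      rw [mul_assoc, h2]
      ring
  have hVQ : ∀ m, 1 ≤ m → m ≤ d → MvPolynomial.aeval (fun _ : Fin 1 => y ^ Q) (MvPolynomial.map τk (V m)) =
      (y ^ Q) ^ E * algebraMap F ℂ (s (Q * m)) := by
    intro m hm1 hm2
    rw [hV, map_sum, map_sum]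
    conv_rhs => rw [sum_co D (by omega) (s (Q * m)), map_sum, Finset.mul_sum]
    refine Fintype.sum_equiv (Equiv.mulLeft₀ (Q : ZMod p) hQ0) _ _ fun j => ?_
    rw [map_mul, map_pow, MvPolynomial.map_C, MvPolynomial.map_X, map_mul τk, map_pow τk, hcomm, hβτ,
      map_mul (MvPolynomial.aeval (fun _ : Fin 1 => y ^ Q)), map_pow (MvPolynomial.aeval (fun _ : Fin 1 => y ^ Q)),
      MvPolynomial.aeval_C, MvPolynomial.aeval_X, map_mul (algebraMap k ℂ), map_pow (algebraMap k ℂ), hι', hβe',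
      map_mul (algebraMap F ℂ), map_pow (algebraMap F ℂ), ← hy]
    change _ = (y ^ Q) ^ E * (algebraMap F ℂ (algebraMap A F (D.co (s (Q * m)) ((Q : ZMod p) * j))) * (y ^ W) ^ ((Q : ZMod p) * j).val)
    by_cases h0 : D.co (s m) j = 0
    · rw [hfr τ hτ m j hm1 hm2 (Or.inl h0), h0]
      simp
    · obtain ⟨-, h1, h2⟩ := hcp j ⟨m, hm1, hm2, h0⟩
      rw [hfr τ hτ m j hm1 hm2 (Or.inr (by
        rw [h1, hu]
        exact (Dvd.intro _ rfl : (q - 1) ∣ (q - 1) * u').mul_right _))]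
      have h3 : ((Q : ZMod p) * j).val = (Q * j.val) % p := by
        rw [ZMod.val_mul, ZMod.val_natCast, Nat.mod_mul_mod]
      have h4 : (y ^ p) ^ c j * (y ^ Q) ^ p' j = (y ^ Q) ^ E * (y ^ W) ^ ((Q * j.val) % p) := by
        rw [← pow_mul, ← pow_mul, ← pow_mul, ← pow_mul, ← pow_add, ← pow_add, add_comm (Q * E), h2, mul_comm p]
      rw [mul_assoc, h3, h4]
      ring
  -- the power sums of `y ^ E G_i`
  obtain ⟨v, hv⟩ : ∃ v : ℕ → MvPolynomial (Fin 1) k, ∀ m, v m = MvPolynomial.X 0 ^ ((m - 1) * E) * V m := ⟨_, fun _ => rfl⟩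
  have hvdeg : ∀ m, 1 ≤ m → m ≤ d → (v m).degreeOf 0 ≤ (2 * E) * m := by
    intro m hm1 _
    rw [hv]
    refine (MvPolynomial.degreeOf_mul_le _ _ _).trans ((Nat.add_le_add (hXdeg _) (hVdeg m)).trans ?_)
    obtain ⟨m', rfl⟩ : ∃ m', m = m' + 1 := ⟨m - 1, by omega⟩
    rw [Nat.add_sub_cancel]
    nlinarith [Nat.zero_le (m' * E)]
  obtain ⟨θ, hθ⟩ : ∃ θ : MvPolynomial (Fin 1) k →+* ℂ, θ =
    (MvPolynomial.aeval (fun _ : Fin 1 => y) : MvPolynomial (Fin 1) k →ₐ[k] ℂ).toRingHom := ⟨_, rfl⟩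
  obtain ⟨θQ, hθQ⟩ : ∃ θQ : MvPolynomial (Fin 1) k →+* ℂ, θQ =
    ((MvPolynomial.aeval (fun _ : Fin 1 => y ^ Q) :
      MvPolynomial (Fin 1) k →ₐ[k] ℂ).toRingHom.comp (MvPolynomial.map τk)) := ⟨_, rfl⟩
  have hθX : θ (MvPolynomial.X 0) = y := by
    rw [hθ]
    exact MvPolynomial.aeval_X _ _
  have hθQX : θQ (MvPolynomial.X 0) = y ^ Q := by
    rw [hθQ]
    change MvPolynomial.aeval (fun _ : Fin 1 => y ^ Q) (MvPolynomial.map τk (MvPolynomial.X 0)) = _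
    rw [MvPolynomial.map_X, MvPolynomial.aeval_X]
  have hθv : ∀ m, 1 ≤ m → m ≤ d → θ (v m) = ∑ i, (y ^ E * G i) ^ m := by
    intro m hm1 hm2
    have h1 : θ (V m) = y ^ E * algebraMap F ℂ (s m) := by
      rw [hθ]
      exact hVy m hm1 hm2
    rw [hv, map_mul, map_pow, hθX, h1, hs, ← mul_assoc, ← pow_add, Finset.mul_sum]
    refine Finset.sum_congr rfl fun i _ => ?_
    rw [mul_pow, ← pow_mul]
    congr 2
    obtain ⟨m', rfl⟩ : ∃ m', m = m' + 1 := ⟨m - 1, by omega⟩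
    rw [Nat.add_sub_cancel]
    ring
  have hθQv : ∀ m, 1 ≤ m → m ≤ d → θQ (v m) = ∑ i, ((y ^ Q) ^ E * G i ^ Q) ^ m := by
    intro m hm1 hm2
    have h1 : θQ (V m) = (y ^ Q) ^ E * algebraMap F ℂ (s (Q * m)) := by
      rw [hθQ]
      exact hVQ m hm1 hm2
    rw [hv, map_mul, map_pow, hθQX, h1, hs, ← mul_assoc, ← pow_add, Finset.mul_sum]
    refine Finset.sum_congr rfl fun i _ => ?_
    rw [mul_pow, ← pow_mul _ E m, ← pow_mul _ Q m]
    congr 2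
    obtain ⟨m', rfl⟩ : ∃ m', m = m' + 1 := ⟨m - 1, by omega⟩
    rw [Nat.add_sub_cancel]
    ring
  -- the polynomial
  obtain ⟨cc, hcc⟩ : ∃ cc : ℕ → MvPolynomial (Fin 1) k, ∀ m, cc m =
      MvPolynomial.C ((-1) ^ m) * (nw v m * MvPolynomial.X 0 ^ ((d - m) * E)) := ⟨_, fun _ => rfl⟩
  have hccdeg : ∀ m, m ≤ d → (cc m).degreeOf 0 ≤ 2 * d * E := by
    intro m hm
    rw [hcc]
    refine (MvPolynomial.degreeOf_C_mul_le _ _ _).trans ?_
    refine (MvPolynomial.degreeOf_mul_le _ _ _).trans ?_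
    refine (Nat.add_le_add (nw_deg 0 v (2 * E) d hvdeg m hm) (hXdeg _)).trans ?_
    obtain ⟨e, rfl⟩ : ∃ e, d = m + e := ⟨d - m, by omega⟩
    rw [Nat.add_sub_cancel_left]
    nlinarith [Nat.zero_le (e * E)]
  obtain ⟨Φ, hΦ⟩ : ∃ Φ : Polynomial (MvPolynomial (Fin 1) k), Φ =
      ∑ m ∈ Finset.range (d + 1), Polynomial.C (cc m) * Polynomial.X ^ (d - m) := ⟨_, rfl⟩
  have hcoeff : ∀ m, m ≤ d → Φ.coeff (d - m) = cc m := by
    intro m hm
    rw [hΦ, Polynomial.finsetSum_coeff]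
    simp only [Polynomial.coeff_C_mul, Polynomial.coeff_X_pow]
    rw [Finset.sum_eq_single m]
    · rw [if_pos rfl, mul_one]
    · intro m' hm' hne
      rw [Finset.mem_range] at hm'
      rw [if_neg (by omega), mul_zero]
    · intro h
      exact absurd (Finset.mem_range.2 (by omega)) h
  have hcoeff' : ∀ m, d < m → Φ.coeff m = 0 := by
    intro m hm
    rw [hΦ, Polynomial.finsetSum_coeff]
    simp only [Polynomial.coeff_C_mul, Polynomial.coeff_X_pow]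
    refine Finset.sum_eq_zero fun m' _ => ?_
    rw [if_neg (by omega), mul_zero]
  have hΦd : Φ.natDegree ≤ d := by
    rw [Polynomial.natDegree_le_iff_coeff_eq_zero]
    intro m hm
    exact hcoeff' m hm
  have hΦl : ∀ m (i : Fin 1), (Φ.coeff m).degreeOf i ≤ (fun _ : Fin 1 => 2 * d * E) i := by
    intro m i
    rw [Subsingleton.elim i 0]
    rcases le_or_gt m d with hm | hm
    · have h1 := hcoeff (d - m) (by omega)
      rw [Nat.sub_sub_self hm] at h1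
      rw [h1]
      exact hccdeg _ (by omega)
    · rw [hcoeff' m hm, MvPolynomial.degreeOf_zero]
      exact Nat.zero_le _
  have hTE : T * E ≤ p := by
    rw [hE]
    exact Nat.mul_div_le p T
  have hlt : D0 * (Q * (d + 1) * (2 * d * E)) < p := by
    rcases Nat.eq_zero_or_pos E with h0 | h0
    · rw [h0]
      simpa using hp.pos
    · calc D0 * (Q * (d + 1) * (2 * d * E)) = D0 * (Q * (d + 1) * (2 * d)) * E := by ring
        _ < T * E := Nat.mul_lt_mul_of_pos_right (by omega) h0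
        _ ≤ p := hTE
  have hev : ∀ (ϑ : MvPolynomial (Fin 1) k →+* ℂ) (Y z : ℂ) (γ : Fin d → ℂ), ϑ (MvPolynomial.X 0) = Y →
      (∀ m, 1 ≤ m → m ≤ d → ϑ (v m) = ∑ i, γ i ^ m) →
      Polynomial.eval₂ ϑ z Φ = ∏ i, (Y ^ E * z - γ i) := by
    intro ϑ Y z γ hY hγ
    rw [← nw_prod, hΦ, Polynomial.eval₂_finsetSum]
    refine Finset.sum_congr rfl fun m hm => ?_
    rw [Finset.mem_range] at hm
    rw [Polynomial.eval₂_mul, Polynomial.eval₂_C, Polynomial.eval₂_pow, Polynomial.eval₂_X, hcc, map_mul, map_mul,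
      map_pow ϑ (MvPolynomial.X 0), hY, nw_map ϑ v (fun i => ∑ j, γ j ^ i) d hγ m (by omega), mul_pow, ← pow_mul]
    have h1 : ϑ (MvPolynomial.C ((-1) ^ m)) = (-1) ^ m := by
      rw [MvPolynomial.C_pow, MvPolynomial.C_neg, MvPolynomial.C_1, map_pow, map_neg, map_one]
    rw [h1, mul_comm E]
    ring
  have hfin : ∀ i : Fin d, ∃ n a b : ℕ, 1 ≤ n ∧ G i ^ n * y ^ b = y ^ a := by
    intro i
    obtain ⟨n, a, b', h1, h2⟩ := sevenR τk n₀ hτn Φ d Q (fun _ => 2 * d * E) hd hQ2 hΦd hΦl (fun _ : Fin 1 => y)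
      (fun R hR hR0 => hyK R (fun i => lt_of_le_of_lt (Nat.mul_le_mul_left _ (hR i)) hlt) hR0)
      (by
        have h1 := hcoeff 0 (Nat.zero_le _)
        rw [Nat.sub_zero] at h1
        rw [h1, hcc, nw_zero, pow_zero, MvPolynomial.C_1, one_mul, one_mul, map_pow, MvPolynomial.aeval_X]
        exact pow_ne_zero _ hy0)
      G hGinj hG0
      (by
        intro i
        rw [← hθ, hev θ y (G i) (fun i => y ^ E * G i) hθX hθv]
        exact Finset.prod_eq_zero (Finset.mem_univ i) (sub_self _))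
      (by
        intro i
        rw [← hθQ, hev θQ (y ^ Q) (G i ^ Q) (fun i => (y ^ Q) ^ E * G i ^ Q) hθQX hθQv]
        exact Finset.prod_eq_zero (Finset.mem_univ i) (sub_self _))
      i
    refine ⟨n, a 0, b' 0, h1, ?_⟩
    rw [Fin.prod_univ_one, Fin.prod_univ_one] at h2
    exact h2
  intro i
  obtain ⟨n', s', t', hn', h1⟩ := hfin i
  refine ⟨n' * (W * p), t', s', Nat.mul_pos hn' (Nat.mul_pos hW hp.pos), ?_⟩
  have h2 : (G i ^ n' * y ^ t') ^ (W * p) = (y ^ s') ^ (W * p) := by rw [h1]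
  have h3 : ∀ e : ℕ, (y ^ e) ^ (W * p) = (b : ℂ) ^ e := fun e => by
    rw [← pow_mul, mul_comm, pow_mul, hyb]
  rw [mul_pow, ← pow_mul, h3, h3] at h2
  exact h2

end Pool.Agent.H72.WD
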