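import Pool.Agent.H72.BE.KronB
import Pool.Agent.H72.BD.Avoid

/-!
# [H72 WD Kr] THEOREM WD: semigroup and Kronecker

`S m j`: the coordinate `j` of the power sum `s_m` is not `0`. `kronr` (`H72/BE/KronB`) for `r = 1` (`Fin 1`, `b`, `m = p`, `a = j.val`) gives `q0`; `M = Q1 !`, `W = M * (q0 + 1)!`, given `T`:
`Nm` from `kronr` for `M` and `T' = T * W`; `X = max Nm q0`. For `n' = 1 + M t ≤ Nm` all prime factors are `> Q1 - 1` (`≥ Q1`; as `sm_of_mod` in `H72/BD`), `≤ Nm`; by induction on `n'` (prime factors)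
`S (n' m) (n' j)`; then `hbq` for `n' m`, `n' j`: `(n' j).val = n' j.val % p`. `kronr` gives `h ≤ q0 + 1` with `|h M j - c p| T' ≤ p`; `W = h M w'`, multiply by `w' ≤ W`.
-/

set_option autoImplicit false

namespace Pool.Agent.H72.WD

open Pool.Agent.H72.BE (BQ)

private theorem kr_semi (p : ℕ) [Fact p.Prime] (Q1 X Y : ℕ) (S : ℕ → ZMod p → Prop)
    (hcl : ∀ ℓ m : ℕ, ℓ.Prime → Q1 ≤ ℓ → ℓ ≤ X → m * ℓ ≤ Y → ∀ j, S m j →
      S (ℓ * m) ((ℓ : ZMod p) * j)) (m : ℕ) (j : ZMod p) (hm : m * X ≤ Y) (hS : S m j) :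
    ∀ n : ℕ, 1 ≤ n → n ≤ X → (∀ ℓ : ℕ, ℓ.Prime → ℓ ∣ n → Q1 ≤ ℓ) →
      S (n * m) ((n : ZMod p) * j) := by
  intro n
  induction n using Nat.strong_induction_on with
  | _ n ih =>
    intro h1 hX hsm
    rcases Nat.eq_or_lt_of_le h1 with h | h
    · rw [← h, one_mul, Nat.cast_one, one_mul]
      exact hS
    · have hp : n.minFac.Prime := Nat.minFac_prime (by omega)
      obtain ⟨c, hc⟩ := Nat.minFac_dvd n
      have hc1 : 1 ≤ c := by
        rcases Nat.eq_zero_or_pos c with h0 | h0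
        · rw [h0, mul_zero] at hc
          omega
        · exact h0
      have hcn : c < n := by
        have h2 := hp.two_le
        have h3 : 2 * c ≤ n.minFac * c := Nat.mul_le_mul_right c h2
        omega
      have h2 := ih c hcn hc1 (by omega) fun ℓ hℓ hd =>
        hsm ℓ hℓ (by rw [hc]; exact hd.mul_left _)
      have h3 : n.minFac ≤ X := le_trans (Nat.minFac_le (by omega)) hX
      have h4 : c * m * n.minFac ≤ Y := by
        have h5 : c * m * n.minFac = m * n := by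
          calc c * m * n.minFac = m * (n.minFac * c) := by ring
            _ = m * n := by rw [← hc]
        rw [h5]
        exact le_trans (Nat.mul_le_mul_left m hX) hm
      have h5 := hcl n.minFac (c * m) hp (hsm _ hp (Nat.minFac_dvd n)) h3 h4 _ h2
      have h6 : n.minFac * (c * m) = n * m := by
        rw [← mul_assoc, ← hc]
      have h7 : (n.minFac : ZMod p) * ((c : ZMod p) * j) = (n : ZMod p) * j := by
        rw [← mul_assoc, ← Nat.cast_mul, ← hc]
      rw [h6, h7] at h5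
      exact h5

theorem kr (b : ℕ) (hb : 2 ≤ b) (H Q1 : ℕ) (hQ1 : 1 ≤ Q1) : ∃ q0 W : ℕ, q0.Prime ∧ Q1 ≤ q0 ∧ 1 ≤ W ∧ ∀ T : ℕ, ∃ X : ℕ, q0 ≤ X ∧
    ∀ (p : ℕ) [Fact p.Prime] (Y : ℕ) (S : ℕ → ZMod p → Prop),
      (∀ ℓ m : ℕ, ℓ.Prime → Q1 ≤ ℓ → ℓ ≤ X → m * ℓ ≤ Y → ∀ j, S m j → S (ℓ * m) ((ℓ : ZMod p) * j)) →
      (∀ m j, m ≤ Y → S m j → BQ H q0 ((b : ℤ) ^ ((q0 * j.val) / p))) →
      ∀ m j, m * X ≤ Y → S m j → ∃ c : ℤ, |(W : ℤ) * j.val - c * p| * T ≤ p := by
  obtain ⟨q0, hq0, hQq, hk⟩ := Pool.Agent.H72.BE.kronr (r := 1) (fun _ => b) (fun _ => hb)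
    (fun i j hij => absurd (Subsingleton.elim i j) hij) H Q1
  refine ⟨q0, Q1.factorial * (q0 + 1).factorial, hq0, hQq,
    Nat.mul_pos (Nat.factorial_pos _) (Nat.factorial_pos _), fun T => ?_⟩
  obtain ⟨N, hN1, hN⟩ := hk Q1.factorial (T * (Q1.factorial * (q0 + 1).factorial))
    (Nat.factorial_pos _)
  refine ⟨max N q0, le_max_right _ _, fun p hp Y S hcl hbq m j hm hS => ?_⟩
  have hp0 : 0 < p := hp.out.pos
  obtain ⟨h, hh1, hh2, hh3⟩ := hN (fun _ => p) (fun _ => j.val) (fun _ => hp0) (by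
    intro t ht
    have hX : 1 + Q1.factorial * t ≤ max N q0 := le_trans ht (le_max_left _ _)
    have h1 := kr_semi p Q1 (max N q0) Y S hcl m j hm hS (1 + Q1.factorial * t) (by omega) hX
      (by
        intro ℓ hℓ hd
        by_contra hcon
        push Not at hcon
        have h2 : ℓ ∣ Q1.factorial := Nat.dvd_factorial hℓ.pos hcon.le
        have h3 : ℓ ∣ 1 := (Nat.dvd_add_left (h2.mul_right t)).1 hd
        exact hℓ.one_lt.ne' (Nat.dvd_one.1 h3))
    have h2 : (1 + Q1.factorial * t) * m ≤ Y := by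
      rw [mul_comm]
      exact le_trans (Nat.mul_le_mul_left m hX) hm
    have h3 := hbq _ _ h2 h1
    have h4 : (((1 + Q1.factorial * t : ℕ) : ZMod p) * j).val =
        (1 + Q1.factorial * t) * j.val % p := by
      rw [ZMod.val_mul, ZMod.val_natCast, Nat.mod_mul_mod]
    rw [h4] at h3
    simpa using h3)
  obtain ⟨k, hk2⟩ := hh3 0
  have hh4 : h ∣ (q0 + 1).factorial := Nat.dvd_factorial hh1 (by simpa using hh2)
  obtain ⟨w, hw⟩ := hh4
  refine ⟨w * k, ?_⟩
  have hwW : w ≤ Q1.factorial * (q0 + 1).factorial := by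
    have h1 : w ≤ (q0 + 1).factorial := by
      rw [hw]
      exact Nat.le_mul_of_pos_left _ hh1
    exact le_trans h1 (Nat.le_mul_of_pos_left _ (Nat.factorial_pos _))
  have e1 : ((Q1.factorial * (q0 + 1).factorial : ℕ) : ℤ) * j.val - w * k * p =
      w * ((h : ℤ) * Q1.factorial * j.val - k * p) := by
    rw [hw]
    push_cast
    ring
  rw [e1, abs_mul, abs_of_nonneg (Int.natCast_nonneg w)]
  have h5 : (0 : ℤ) ≤ |(h : ℤ) * Q1.factorial * j.val - k * p| := abs_nonneg _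
  have h6 : (w : ℤ) * T ≤ ((T * (Q1.factorial * (q0 + 1).factorial) : ℕ) : ℤ) := by
    have h7 : w * T ≤ T * (Q1.factorial * (q0 + 1).factorial) := by
      rw [mul_comm]
      exact Nat.mul_le_mul_left T hwW
    exact_mod_cast h7
  calc (w : ℤ) * |(h : ℤ) * Q1.factorial * j.val - k * p| * T
      = |(h : ℤ) * Q1.factorial * j.val - k * p| * (w * T) := by ring
    _ ≤ |(h : ℤ) * Q1.factorial * j.val - k * p| *
        ((T * (Q1.factorial * (q0 + 1).factorial) : ℕ) : ℤ) := mul_le_mul_of_nonneg_left h6 h5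
    _ ≤ p := hk2

end Pool.Agent.H72.WD
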