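import Mathlib
import Pool.Agent.H22.Lh.Sum

/-!
# [H72 WD Ps] THEOREM WD: the power sums

`G i`: the roots in `ℂ` of `minpoly F α` (simple: `CharZero`; see the beginning of `coreK`, `H72/BK/CoreK.lean`). `L = F(α)` (`IntermediateField.adjoin F {α}`, a number field, `[L : F] = d`),
`s k = Tr_(L/F)(α ^ k)`: `algebraMap F ℂ (s k) = ∑ G i ^ k` (`trace_eq_sum_embeddings`, or `PowerBasis.trace_gen_eq_sum_roots` for `α^k`, or `Algebra.trace_eq_sum_roots`).
Integral: `Algebra.isIntegral_trace`. `s (q k) - (s k)^q = q c`: in `ℂ`, `∑ G_i^(q k) - (∑ G_i^k)^q = q g` with `g` integral (`exists_add_pow_prime_eq` and induction on the number of terms, in the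
ring of algebraic integers), `c = (s (q k) - (s k)^q) / q`, integral since its image is. For `φ : F →+* ℂ`: `φ (s k) = ∑_(ψ over φ) ψ(α)^k` (`d` embeddings `ψ : L → ℂ` over `φ`), Cauchy-Schwarz:
`|φ (s k)|^2 ≤ d ∑_ψ |ψ α|^(2k)`; `∑_ψ |ψ α|^(2k) = [L : ℚ] meanC` (`H22/Lh/Sum.meanC_eq` is stated for `L : IntermediateField ℚ ℂ`: use the image of `L` in `ℂ` or restrict scalars), `[L : ℚ] = d [F : ℚ]`.
-/

set_option autoImplicit false

namespace Pool.Agent.H72.WD

open Finset

private theorem sum_pow_q {R ι : Type*} [CommRing R] [DecidableEq ι] (q : ℕ) (hq : q.Prime) (t : Finset ι) (f : ι → R) :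
    ∃ r : R, (∑ i ∈ t, f i) ^ q = ∑ i ∈ t, f i ^ q + q * r := by
  induction t using Finset.induction_on with
  | empty => exact ⟨0, by simp [hq.ne_zero]⟩
  | insert a t ha ih =>
    obtain ⟨r, hr⟩ := ih
    obtain ⟨r', hr'⟩ := exists_add_pow_prime_eq hq (f a) (∑ i ∈ t, f i)
    refine ⟨r + f a * (∑ i ∈ t, f i) * r', ?_⟩
    rw [Finset.sum_insert ha, Finset.sum_insert ha, hr', hr]
    ring

private theorem tr_roots {K L E : Type*} [Field K] [Field L] [Field E] [Algebra K L] [Algebra K E] [IsAlgClosed E]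
    [FiniteDimensional K L] [Algebra.IsSeparable K L] (pb : PowerBasis K L) (k : ℕ) :
    algebraMap K E (Algebra.trace K L (pb.gen ^ k)) =
      (((minpoly K pb.gen).aroots E).map (fun z => z ^ k)).sum := by
  classical
  have hsep : IsSeparable K pb.gen := Algebra.IsSeparable.isSeparable K _
  rw [trace_eq_sum_embeddings (E := E)]
  have h1 : ∑ σ : L →ₐ[K] E, σ (pb.gen ^ k) =
      ∑ y : {y : E // y ∈ (minpoly K pb.gen).aroots E}, y.1 ^ k := by
    refine Fintype.sum_equiv pb.liftEquiv' _ _ (fun σ => ?_)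
    rw [PowerBasis.liftEquiv'_apply_coe, map_pow]
  rw [h1, Finset.sum_mem_multiset _ _ (fun y => y ^ k) (fun x => rfl), Finset.sum_eq_multiset_sum,
    Multiset.toFinset_val, Multiset.dedup_eq_self.mpr]
  exact Polynomial.nodup_roots ((Polynomial.separable_map _).mpr hsep)

private theorem fn_of_mult {d : ℕ} (m : Multiset ℂ) (hm : Multiset.card m = d) :
    ∃ H : Fin d → ℂ, m = Multiset.map H Finset.univ.val := by
  have h1 : ∀ l : List ℂ, l.length = d → ∃ H : Fin d → ℂ, (l : Multiset ℂ) = Multiset.map H Finset.univ.val := by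
    intro l hl
    subst hl
    exact ⟨l.get, by rw [Fin.univ_val_map, List.ofFn_get]⟩
  obtain ⟨H, hH⟩ := h1 m.toList (by rw [Multiset.length_toList]; exact hm)
  exact ⟨H, by rw [← hH, Multiset.coe_toList]⟩

private theorem sum_fn {d : ℕ} {M : Type*} [AddCommMonoid M] (H : Fin d → ℂ) (F : ℂ → M) :
    ((Multiset.map H Finset.univ.val).map F).sum = ∑ i, F (H i) := by
  rw [Multiset.map_map]
  rfl

theorem psums (F : Type) [Field F] [NumberField F] [Algebra F ℂ] (α : ℂ) (hα : IsIntegral ℤ α) (hα0 : α ≠ 0)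
    (d : ℕ) (hd : (minpoly F α).natDegree = d) :
    ∃ (G : Fin d → ℂ) (s : ℕ → F), Function.Injective G ∧ (∀ i, G i ≠ 0) ∧ (∃ i, G i = α) ∧
      (∀ k, IsIntegral ℤ (s k)) ∧ (∀ k, algebraMap F ℂ (s k) = ∑ i, G i ^ k) ∧
      (∀ q k : ℕ, q.Prime → ∃ c : F, IsIntegral ℤ c ∧ s (q * k) = s k ^ q + q * c) ∧
      (∀ k, ∑ φ : F →+* ℂ, ‖φ (s k)‖ ^ 2 ≤
        (d : ℝ) ^ 2 * (Module.finrank ℚ F * Pool.H22.Lh.meanC (fun z => ‖z‖ ^ (2 * k)) α)) := by
  classical
  have hαF : IsIntegral F α := hα.tower_top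
  have hαQ : IsIntegral ℚ α := hα.tower_top
  have fd1 : FiniteDimensional F (IntermediateField.adjoin F {α}) :=
    IntermediateField.adjoin.finiteDimensional hαF
  have fd2 : FiniteDimensional ℚ (IntermediateField.adjoin F {α}) :=
    FiniteDimensional.trans ℚ F (IntermediateField.adjoin F {α})
  have nf : NumberField (IntermediateField.adjoin F {α}) := ⟨⟩
  obtain ⟨x, hx⟩ : ∃ x : IntermediateField.adjoin F {α}, x = IntermediateField.AdjoinSimple.gen F α := ⟨_, rfl⟩
  have hxα : ((x : IntermediateField.adjoin F {α}) : ℂ) = α := by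
    rw [hx]
    exact IntermediateField.AdjoinSimple.coe_gen F α
  have hmx : minpoly F x = minpoly F α := by
    rw [hx]
    exact IntermediateField.minpoly_gen F α
  have hxi : IsIntegral ℤ x := by
    refine (isIntegral_algHom_iff ((IntermediateField.val (IntermediateField.adjoin F {α})).restrictScalars ℤ)
      (IntermediateField.val (IntermediateField.adjoin F {α})).injective).1 ?_
    change IsIntegral ℤ ((x : IntermediateField.adjoin F {α}) : ℂ)
    rw [hxα]
    exact hα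
  obtain ⟨s, hs⟩ : ∃ s : ℕ → F, ∀ k, s k = Algebra.trace F (IntermediateField.adjoin F {α}) (x ^ k) := ⟨_, fun _ => rfl⟩
  -- the roots for an embedding
  have hroot : ∀ (φ : F →+* ℂ) (k : ℕ), φ (s k) = (((minpoly F α).map φ).roots.map (fun z => z ^ k)).sum := by
    intro φ k
    have h1 := @tr_roots F (IntermediateField.adjoin F {α}) ℂ _ _ _ _ φ.toAlgebra _ _ _
      (IntermediateField.adjoin.powerBasis hαF) k
    rw [IntermediateField.adjoin.powerBasis_gen, ← hx, ← hs, hmx] at h1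
    exact h1
  have hcard : ∀ φ : F →+* ℂ, Multiset.card ((minpoly F α).map φ).roots = d := by
    intro φ
    rw [← hd, ← Polynomial.natDegree_map φ]
    exact (Polynomial.splits_iff_card_roots.1 (IsAlgClosed.splits _))
  have hfun : ∀ φ : F →+* ℂ, ∃ H : Fin d → ℂ, ((minpoly F α).map φ).roots = Multiset.map H Finset.univ.val :=
    fun φ => fn_of_mult _ (hcard φ)
  choose H hH using hfun
  have hsH : ∀ (φ : F →+* ℂ) (k : ℕ), φ (s k) = ∑ i, H φ i ^ k := by
    intro φ k
    rw [hroot, hH, sum_fn]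
  have hsep : (minpoly F α).Separable := (minpoly.irreducible hαF).separable
  have hmem : ∀ z : ℂ, z ∈ ((minpoly F α).map (algebraMap F ℂ)).roots ↔ ∃ i, H (algebraMap F ℂ) i = z := by
    intro z
    rw [hH, Multiset.mem_map]
    constructor
    · rintro ⟨i, -, hi⟩
      exact ⟨i, hi⟩
    · rintro ⟨i, hi⟩
      exact ⟨i, Finset.mem_univ i, hi⟩
  have hne : (minpoly F α).map (algebraMap F ℂ) ≠ 0 :=
    Polynomial.map_ne_zero (minpoly.ne_zero hαF)
  have hGi : ∀ i, IsIntegral ℤ (H (algebraMap F ℂ) i) := by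
    intro i
    have h1 := (hmem _).2 ⟨i, rfl⟩
    rw [Polynomial.mem_roots hne, Polynomial.IsRoot.def, Polynomial.eval_map_algebraMap] at h1
    obtain ⟨P, hP, hP0⟩ := hα
    refine ⟨P, hP, ?_⟩
    have h2 : minpoly F α ∣ P.map (algebraMap ℤ F) := by
      apply minpoly.dvd
      rw [Polynomial.aeval_map_algebraMap]
      exact hP0
    obtain ⟨W, hW⟩ := h2
    have h3 : Polynomial.aeval (H (algebraMap F ℂ) i) (P.map (algebraMap ℤ F)) = 0 := by
      rw [hW, map_mul, h1, zero_mul]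
    rw [Polynomial.aeval_map_algebraMap] at h3
    exact h3
  refine ⟨H (algebraMap F ℂ), s, ?_, ?_, ?_, ?_, ?_, ?_, ?_⟩
  · have h1 : (((minpoly F α).map (algebraMap F ℂ)).roots).Nodup := Polynomial.nodup_roots hsep.map
    rw [hH] at h1
    intro i j hij
    exact Multiset.inj_on_of_nodup_map h1 i (Finset.mem_univ i) j (Finset.mem_univ j) hij
  · intro i h0
    have h1 := (hmem _).2 ⟨i, rfl⟩
    rw [Polynomial.mem_roots hne, h0, Polynomial.IsRoot.def, ← Polynomial.coeff_zero_eq_eval_zero,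
      Polynomial.coeff_map] at h1
    exact minpoly.coeff_zero_ne_zero hαF hα0 ((map_eq_zero _).1 h1)
  · apply (hmem α).1
    rw [Polynomial.mem_roots hne, Polynomial.IsRoot.def, Polynomial.eval_map_algebraMap]
    exact minpoly.aeval F α
  · intro k
    rw [hs]
    exact Algebra.isIntegral_trace (hxi.pow k)
  · intro k
    exact hsH _ k
  · intro q k hq
    have hq0 : (q : F) ≠ 0 := Nat.cast_ne_zero.2 hq.ne_zero
    refine ⟨(s (q * k) - s k ^ q) / q, ?_, by field_simp; ring⟩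
    have hinj : Function.Injective (algebraMap F ℂ) := (algebraMap F ℂ).injective
    obtain ⟨g, hg⟩ : ∃ g : Fin d → integralClosure ℤ ℂ, ∀ i, (g i : ℂ) = H (algebraMap F ℂ) i :=
      ⟨fun i => ⟨_, hGi i⟩, fun _ => rfl⟩
    obtain ⟨r, hr⟩ := sum_pow_q q hq Finset.univ (fun i => g i ^ k)
    have hr2 : (∑ i, H (algebraMap F ℂ) i ^ k) ^ q = ∑ i, (H (algebraMap F ℂ) i ^ k) ^ q + q * (r : ℂ) := by
      have h1 := congrArg (fun z : integralClosure ℤ ℂ => (z : ℂ)) hr
      push_cast at h1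
      simpa only [hg] using h1
    have h2 : algebraMap F ℂ ((s (q * k) - s k ^ q) / q) = -(r : ℂ) := by
      rw [map_div₀, map_sub, map_pow, hsH, hsH, map_natCast, hr2]
      have hq1 : (q : ℂ) ≠ 0 := Nat.cast_ne_zero.2 hq.ne_zero
      have h3 : ∀ i, H (algebraMap F ℂ) i ^ (q * k) = (H (algebraMap F ℂ) i ^ k) ^ q := fun i => by
        rw [← pow_mul, mul_comm k q]
      simp only [h3]
      field_simp
      ring
    have h4 : IsIntegral ℤ (algebraMap F ℂ ((s (q * k) - s k ^ q) / q)) := by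
      rw [h2]
      exact r.2.neg
    exact (isIntegral_algHom_iff ((Algebra.ofId F ℂ).restrictScalars ℤ) hinj).1 h4
  · intro k
    have h1 := Pool.H22.Lh.sum_tower (L := F) (M := IntermediateField.adjoin F {α}) x (fun z => ‖z‖ ^ (2 * k))
    rw [hmx, hd] at h1
    have h2 : minpoly ℚ x = minpoly ℚ α := by
      have h3 := minpoly.algHom_eq (A := ℚ)
        ((IntermediateField.val (IntermediateField.adjoin F {α})).restrictScalars ℚ)
        (IntermediateField.val (IntermediateField.adjoin F {α})).injective x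
      rw [← h3]
      change minpoly ℚ ((x : IntermediateField.adjoin F {α}) : ℂ) = _
      rw [hxα]
    rw [h2] at h1
    have h4 : ∀ φ : F →+* ℂ, ‖φ (s k)‖ ^ 2 ≤
        (d : ℝ) * (((minpoly F α).map φ).roots.map (fun z => ‖z‖ ^ (2 * k))).sum := by
      intro φ
      rw [hsH, hH, sum_fn]
      have h5 : ‖∑ i, H φ i ^ k‖ ≤ ∑ i, ‖H φ i‖ ^ k :=
        (norm_sum_le _ _).trans (le_of_eq (Finset.sum_congr rfl fun i _ => norm_pow _ _))
      calc ‖∑ i, H φ i ^ k‖ ^ 2 ≤ (∑ i, ‖H φ i‖ ^ k) ^ 2 := pow_le_pow_left₀ (norm_nonneg _) h5 2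
        _ ≤ (Finset.univ : Finset (Fin d)).card * ∑ i, (‖H φ i‖ ^ k) ^ 2 := sq_sum_le_card_mul_sum_sq
        _ = (d : ℝ) * ∑ i, ‖H φ i‖ ^ (2 * k) := by
            rw [Finset.card_univ, Fintype.card_fin]
            congr 1
            refine Finset.sum_congr rfl fun i _ => ?_
            rw [← pow_mul, mul_comm k 2]
    refine (Finset.sum_le_sum fun φ _ => h4 φ).trans (le_of_eq ?_)
    rw [← Finset.mul_sum, h1]
    unfold Pool.H22.Lh.meanC
    ring

/-- iteration: `s (q^f k) = s k ^ (q^f) + q c` -/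
theorem ps_iter (F : Type) [Field F] (s : ℕ → F) (hs : ∀ k, IsIntegral ℤ (s k)) (q : ℕ) (hq : q.Prime)
    (h : ∀ k : ℕ, ∃ c : F, IsIntegral ℤ c ∧ s (q * k) = s k ^ q + q * c) (f k : ℕ) :
    ∃ c : F, IsIntegral ℤ c ∧ s (q ^ f * k) = s k ^ (q ^ f) + q * c := by
  induction f with
  | zero => exact ⟨0, isIntegral_zero, by simp⟩
  | succ f ih =>
    obtain ⟨c, hc, h1⟩ := ih
    obtain ⟨c1, hc1, h2⟩ := h (q ^ f * k)
    obtain ⟨a, ha⟩ : ∃ a : integralClosure ℤ F, (a : F) = s k ^ (q ^ f) := ⟨⟨_, (hs k).pow _⟩, rfl⟩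
    obtain ⟨c', hc'⟩ : ∃ c' : integralClosure ℤ F, (c' : F) = c := ⟨⟨c, hc⟩, rfl⟩
    obtain ⟨e, he⟩ := sub_dvd_pow_sub_pow (a + q * c') a q
    have h3 : ((a : F) + q * c') ^ q - (a : F) ^ q = (((a : F) + q * c') - a) * e := by
      have h4 := congrArg (fun z : integralClosure ℤ F => (z : F)) he
      push_cast at h4
      exact h4
    refine ⟨c' * e + c1, (c'.2.mul e.2).add hc1, ?_⟩
    rw [pow_succ', mul_assoc, h2, h1, ← hc', ← ha]
    have h5 : s k ^ (q * q ^ f) = (a : F) ^ q := by rw [ha, ← pow_mul, mul_comm]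
    rw [h5]
    linear_combination h3

end Pool.Agent.H72.WD
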