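import Pool.Agent.H72.WD.Frf

/-!
# [H72 WD Rr] THEOREM WD: the row relation

`a := π φ(π) (φ (Z y j))/p`, `a' := φ(π) π (Z y' (Q j))/p`: both integral (`Den`; `φ` of the integer `π Z y j / p`). `a' - b^m a ∈ q 𝓞_A`, `m = Q j.val / p`: `p (a' - b^m a) = π φ(π) q w` by `Z_fr`, and
`q a'' = p a'''` with `p, q` coprime. Mean squares of `a`, `a'` are `≤ 16 b^2 E ≤ H^2` (`|π|, |φ(π)| ≤ 2` in all embeddings, `π = ζ_p⁻¹ - 1`; `Z_row`; `fr_sum`).
`a = 0` implies `a' = 0`: `a' ∈ q 𝓞_A` has mean square `< q^2` (a nonzero integer has mean square `≥ 1`: AM-GM and the norm). `a ≠ 0`: THUE: integers `u, w`, not both `0`,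
`u^2, w^2 ≤ q` (`|u|, |w| < q`), `u = w b^m` mod `q` (pigeonhole on `{0..⌊√q⌋}^2`). `w a' - u a ∈ q 𝓞_A` with mean square `≤ 2 q (2 H^2) < q^2`: `w a' = u a`. `u, w ≠ 0`. Divide `u, w` by their gcd
(it is prime to `q`): `u, w` coprime, `a = w a''`, `a' = u a''`, `a''` a nonzero integer (Bezout), so `w^2 ≤` mean square of `a` `≤ H^2`, the same for `u`.
`co = Z / (p b)`, `π φ(π) ≠ 0`: `w co y' (Q j) = u φ(co y j)`.
-/

set_option autoImplicit false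

namespace Pool.Agent.H72.WD

open Finset
open Pool.Agent.H61.WN (ch)

variable {P M : ℕ} [NeZero P] [NeZero M] {A : Type} [Field A] [NumberField A]

private theorem cy_norm (D : Cy P M A) (a : A) :
    ((Algebra.norm ℚ a : ℚ) : ℂ) = ∏ st : (ZMod P)ˣ × (ZMod M)ˣ, D.e st a := by
  have h1 := Algebra.norm_eq_prod_embeddings (K := ℚ) (L := A) ℂ a
  have h2 : (algebraMap ℚ ℂ) (Algebra.norm ℚ a) = ((Algebra.norm ℚ a : ℚ) : ℂ) := rfl
  rw [← h2, h1]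
  rw [← Fintype.prod_equiv (RingHom.equivRatAlgHom (R := A) (S := ℂ)) (fun σ => σ a) (fun σ => σ a)
    (fun σ => rfl)]
  exact (Function.Bijective.prod_comp D.he (fun σ : A →+* ℂ => σ a)).symm

private theorem cy_log (D : Cy P M A) (a : A) (ha : IsIntegral ℤ a) (ha0 : a ≠ 0) :
    0 ≤ ∑ st : (ZMod P)ˣ × (ZMod M)ˣ, Real.log ‖D.e st a‖ := by
  have h0 : ∑ st : (ZMod P)ˣ × (ZMod M)ˣ, Real.log ‖D.e st a‖ = Real.log |((Algebra.norm ℚ a : ℚ) : ℝ)| := by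
    rw [← Real.log_prod (fun st _ => norm_ne_zero_iff.2 ((map_ne_zero (D.e st)).2 ha0)), ← norm_prod,
      ← cy_norm D]
    congr 1
    rw [← Complex.ofReal_ratCast, Complex.norm_real, Real.norm_eq_abs]
  rw [h0]
  have h1 : IsIntegral ℤ (Algebra.norm ℚ a) := Algebra.isIntegral_norm ℚ ha
  obtain ⟨n, hn⟩ := IsIntegrallyClosed.isIntegral_iff.1 h1
  have h2 : Algebra.norm ℚ a ≠ 0 := Algebra.norm_ne_zero_iff.2 ha0
  have hn0 : n ≠ 0 := by
    rintro rfl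
    rw [map_zero] at hn
    exact h2 hn.symm
  have h3 : ((Algebra.norm ℚ a : ℚ) : ℝ) = (n : ℝ) := by
    rw [← hn]
    simp
  rw [h3]
  refine Real.log_nonneg ?_
  have h4 : (1 : ℤ) ≤ |n| := Int.one_le_abs hn0
  exact_mod_cast h4

/-- a nonzero integer has mean square `≥ 1` -/
theorem sq_ge (D : Cy P M A) (a : A) (ha : IsIntegral ℤ a) (ha0 : a ≠ 0) :
    (Fintype.card ((ZMod P)ˣ × (ZMod M)ˣ) : ℝ) ≤ ∑ st : (ZMod P)ˣ × (ZMod M)ˣ, ‖D.e st a‖ ^ 2 := by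
  have h1 := cy_log D a ha ha0
  have h2 : ∀ st : (ZMod P)ˣ × (ZMod M)ˣ, 1 + 2 * Real.log ‖D.e st a‖ ≤ ‖D.e st a‖ ^ 2 := by
    intro st
    have h3 : 0 < ‖D.e st a‖ := norm_pos_iff.2 ((map_ne_zero (D.e st)).2 ha0)
    have h4 := Real.log_le_sub_one_of_pos (pow_pos h3 2)
    rw [Real.log_pow] at h4
    push_cast at h4
    linarith
  calc (Fintype.card ((ZMod P)ˣ × (ZMod M)ˣ) : ℝ)
      ≤ ∑ st : (ZMod P)ˣ × (ZMod M)ˣ, (1 + 2 * Real.log ‖D.e st a‖) := by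
        rw [Finset.sum_add_distrib, ← Finset.mul_sum, Finset.sum_const, Finset.card_univ,
          nsmul_eq_mul, mul_one]
        linarith
    _ ≤ _ := Finset.sum_le_sum fun st _ => h2 st

/-- a multiple of `q` of mean square less than `q ^ 2` is zero -/
private theorem mul_small (D : Cy P M A) (q : ℕ) (c : A) (hc : IsIntegral ℤ c) (r : ℝ) (hr : r < (q : ℝ) ^ 2)
    (h : ∑ st : (ZMod P)ˣ × (ZMod M)ˣ, ‖D.e st (q * c)‖ ^ 2 ≤ r * Fintype.card ((ZMod P)ˣ × (ZMod M)ˣ)) : c = 0 := by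
  by_contra hc0
  have h1 := sq_ge D c hc hc0
  have h2 : ∑ st : (ZMod P)ˣ × (ZMod M)ˣ, ‖D.e st (q * c)‖ ^ 2 =
      (q : ℝ) ^ 2 * ∑ st : (ZMod P)ˣ × (ZMod M)ˣ, ‖D.e st c‖ ^ 2 := by
    rw [Finset.mul_sum]
    refine Finset.sum_congr rfl fun st _ => ?_
    rw [map_mul, map_natCast, norm_mul, Complex.norm_natCast, mul_pow]
  have h3 : (0 : ℝ) < Fintype.card ((ZMod P)ˣ × (ZMod M)ˣ) := by exact_mod_cast Fintype.card_pos
  rw [h2] at h
  have h4 : (q : ℝ) ^ 2 * Fintype.card ((ZMod P)ˣ × (ZMod M)ˣ) ≤ r * Fintype.card ((ZMod P)ˣ × (ZMod M)ˣ) :=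
    (mul_le_mul_of_nonneg_left h1 (by positivity)).trans h
  have h5 := le_of_mul_le_mul_right h4 h3
  linarith

private theorem sq_scale (D : Cy P M A) (u : ℤ) (a : A) :
    ∑ st : (ZMod P)ˣ × (ZMod M)ˣ, ‖D.e st (u * a)‖ ^ 2 = (u : ℝ) ^ 2 * ∑ st : (ZMod P)ˣ × (ZMod M)ˣ, ‖D.e st a‖ ^ 2 := by
  rw [Finset.mul_sum]
  refine Finset.sum_congr rfl fun st _ => ?_
  rw [map_mul, map_intCast, norm_mul, Complex.norm_intCast, mul_pow, sq_abs]

/-- Thue's lemma -/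
private theorem thue_int (q : ℕ) (hq : q.Prime) (z : ℤ) :
    ∃ u w : ℤ, (u ≠ 0 ∨ w ≠ 0) ∧ u ^ 2 ≤ q ∧ w ^ 2 ≤ q ∧ |u| < q ∧ |w| < q ∧ (q : ℤ) ∣ u - w * z := by
  have : NeZero q := ⟨hq.ne_zero⟩
  set n := Nat.sqrt q with hn
  have hcard : Fintype.card (ZMod q) < Fintype.card (Fin (n + 1) × Fin (n + 1)) := by
    rw [ZMod.card, Fintype.card_prod, Fintype.card_fin]
    exact Nat.lt_succ_sqrt q
  obtain ⟨x, y, hxy, hf⟩ := Fintype.exists_ne_map_eq_of_card_lt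
    (fun x : Fin (n + 1) × Fin (n + 1) => (((x.1 : ℕ) : ℤ) - ((x.2 : ℕ) : ℤ) * z : ZMod q)) hcard
  have hnn : n * n ≤ q := Nat.sqrt_le q
  have hnq : n < q := by
    by_contra h
    have h1 : q * q ≤ n * n := Nat.mul_le_mul (not_lt.1 h) (not_lt.1 h)
    have h2 := hq.two_le
    nlinarith
  have hb : ∀ i k : Fin (n + 1), |((i : ℕ) : ℤ) - ((k : ℕ) : ℤ)| ≤ n := by
    intro i k
    have h1 := i.2
    have h2 := k.2
    rw [abs_le]
    constructor <;> omega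
  have hb2 : ∀ t : ℤ, |t| ≤ n → t ^ 2 ≤ q := by
    intro t ht
    have h1 : t ^ 2 ≤ (n : ℤ) ^ 2 := by
      rw [← sq_abs t]
      exact pow_le_pow_left₀ (abs_nonneg t) ht 2
    have h2 : ((n : ℤ)) ^ 2 ≤ q := by
      rw [sq]
      exact_mod_cast hnn
    exact h1.trans h2
  have hnq' : (n : ℤ) < q := by exact_mod_cast hnq
  refine ⟨((x.1 : ℕ) : ℤ) - ((y.1 : ℕ) : ℤ), ((x.2 : ℕ) : ℤ) - ((y.2 : ℕ) : ℤ), ?_, hb2 _ (hb _ _), hb2 _ (hb _ _),
    (hb _ _).trans_lt hnq', (hb _ _).trans_lt hnq', ?_⟩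
  · by_contra h
    push Not at h
    refine hxy (Prod.ext (Fin.ext ?_) (Fin.ext ?_))
    · have := h.1
      omega
    · have := h.2
      omega
  · rw [← ZMod.intCast_zmod_eq_zero_iff_dvd]
    have h1 : ((((x.1 : ℕ) : ℤ) - ((x.2 : ℕ) : ℤ) * z : ℤ) : ZMod q) = ((((y.1 : ℕ) : ℤ) - ((y.2 : ℕ) : ℤ) * z : ℤ) : ZMod q) := by
      push_cast
      simpa using hf
    have h2 : (((x.1 : ℕ) : ℤ) - ((y.1 : ℕ) : ℤ) - (((x.2 : ℕ) : ℤ) - ((y.2 : ℕ) : ℤ)) * z) =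
        (((x.1 : ℕ) : ℤ) - ((x.2 : ℕ) : ℤ) * z) - (((y.1 : ℕ) : ℤ) - ((y.2 : ℕ) : ℤ) * z) := by ring
    rw [h2, Int.cast_sub, h1, sub_self]

private theorem int_int (u : ℤ) : IsIntegral ℤ ((u : ℤ) : A) := by
  simpa using (isIntegral_algebraMap (R := ℤ) (A := A) (x := u))

private theorem not_dvd_small (q : ℕ) (u : ℤ) (hu : u ≠ 0) (h : |u| < q) : ¬ (q : ℤ) ∣ u := by
  intro hd
  have h1 : (q : ℤ) ≤ |u| := Int.le_of_dvd (abs_pos.2 hu) ((dvd_abs _ _).2 hd)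
  omega

/-- the abstract row relation -/
theorem thue (D : Cy P M A) (q H : ℕ) (hq : q.Prime) (hH : 4 * H ^ 2 < q) (z : ℤ) (hz : ¬ (q : ℤ) ∣ z) (a a' c : A)
    (ha : IsIntegral ℤ a) (ha' : IsIntegral ℤ a') (hc : IsIntegral ℤ c) (h : a' - (z : A) * a = q * c)
    (h1 : ∑ st : (ZMod P)ˣ × (ZMod M)ˣ, ‖D.e st a‖ ^ 2 ≤ H ^ 2 * Fintype.card ((ZMod P)ˣ × (ZMod M)ˣ))
    (h2 : ∑ st : (ZMod P)ˣ × (ZMod M)ˣ, ‖D.e st a'‖ ^ 2 ≤ H ^ 2 * Fintype.card ((ZMod P)ˣ × (ZMod M)ˣ)) :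
    (a = 0 → a' = 0) ∧ (a ≠ 0 → ∃ u w : ℤ, |u| ≤ H ∧ |w| ≤ H ∧ ¬ (q : ℤ) ∣ u ∧ ¬ (q : ℤ) ∣ w ∧ (q : ℤ) ∣ u - w * z ∧
      (w : A) * a' = u * a) := by
  have hcard : (0 : ℝ) < Fintype.card ((ZMod P)ˣ × (ZMod M)ˣ) := by exact_mod_cast Fintype.card_pos
  have hHR : 4 * (H : ℝ) ^ 2 < q := by exact_mod_cast hH
  have hq1 : (1 : ℝ) < q := by exact_mod_cast hq.one_lt
  have hqq : (q : ℝ) < (q : ℝ) ^ 2 := by nlinarith
  have hHq : (H : ℝ) ^ 2 < (q : ℝ) ^ 2 := by nlinarith [sq_nonneg (H : ℝ)]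
  constructor
  · intro ha0
    rw [ha0, mul_zero, sub_zero] at h
    have hc0 : c = 0 := by
      refine mul_small D q c hc ((H : ℝ) ^ 2) hHq ?_
      rw [← h]
      exact h2
    rw [h, hc0, mul_zero]
  · intro ha0
    obtain ⟨u, w, huw, hu2, hw2, huq, hwq, hd⟩ := thue_int q hq z
    obtain ⟨k, hk⟩ := hd
    -- `w a' = u a`
    have hwu : (w : A) * a' - u * a = q * (w * c - k * a) := by
      have e1 : (u : A) = w * z + q * k := by
        have : u = w * z + q * k := by linarith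
        exact_mod_cast congrArg (fun t : ℤ => (t : A)) this
      have e2 : a' = z * a + q * c := by
        rw [← h]
        ring
      rw [e1, e2]
      ring
    have hzero : (w : A) * c - k * a = 0 := by
      refine mul_small D q _ (((int_int w).mul hc).sub ((int_int k).mul ha)) (4 * (q : ℝ) * (H : ℝ) ^ 2) (by nlinarith) ?_
      rw [← hwu]
      have e1 : ∀ st : (ZMod P)ˣ × (ZMod M)ˣ, ‖D.e st ((w : A) * a' - u * a)‖ ^ 2 ≤
          2 * ‖D.e st ((w : A) * a')‖ ^ 2 + 2 * ‖D.e st ((u : A) * a)‖ ^ 2 := by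
        intro st
        rw [map_sub]
        have e2 := norm_sub_le (D.e st ((w : A) * a')) (D.e st ((u : A) * a))
        have e3 := norm_nonneg (D.e st ((w : A) * a') - D.e st ((u : A) * a))
        nlinarith [sq_nonneg (‖D.e st ((w : A) * a')‖ - ‖D.e st ((u : A) * a)‖)]
      have hw2R : (w : ℝ) ^ 2 ≤ q := by exact_mod_cast hw2
      have hu2R : (u : ℝ) ^ 2 ≤ q := by exact_mod_cast hu2
      have e4 : (w : ℝ) ^ 2 * ∑ st : (ZMod P)ˣ × (ZMod M)ˣ, ‖D.e st a'‖ ^ 2 ≤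
          q * (H ^ 2 * Fintype.card ((ZMod P)ˣ × (ZMod M)ˣ)) :=
        mul_le_mul hw2R h2 (Finset.sum_nonneg fun _ _ => by positivity) (by positivity)
      have e5 : (u : ℝ) ^ 2 * ∑ st : (ZMod P)ˣ × (ZMod M)ˣ, ‖D.e st a‖ ^ 2 ≤
          q * (H ^ 2 * Fintype.card ((ZMod P)ˣ × (ZMod M)ˣ)) :=
        mul_le_mul hu2R h1 (Finset.sum_nonneg fun _ _ => by positivity) (by positivity)
      calc ∑ st : (ZMod P)ˣ × (ZMod M)ˣ, ‖D.e st ((w : A) * a' - u * a)‖ ^ 2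
          ≤ ∑ st : (ZMod P)ˣ × (ZMod M)ˣ, (2 * ‖D.e st ((w : A) * a')‖ ^ 2 + 2 * ‖D.e st ((u : A) * a)‖ ^ 2) :=
            Finset.sum_le_sum fun st _ => e1 st
        _ = 2 * ((w : ℝ) ^ 2 * ∑ st : (ZMod P)ˣ × (ZMod M)ˣ, ‖D.e st a'‖ ^ 2) +
            2 * ((u : ℝ) ^ 2 * ∑ st : (ZMod P)ˣ × (ZMod M)ˣ, ‖D.e st a‖ ^ 2) := by
          rw [Finset.sum_add_distrib, ← Finset.mul_sum, ← Finset.mul_sum, sq_scale, sq_scale]
        _ ≤ 4 * (q : ℝ) * (H : ℝ) ^ 2 * Fintype.card ((ZMod P)ˣ × (ZMod M)ˣ) := by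
          linarith
    have hrel : (w : A) * a' = u * a := by
      rw [hzero, mul_zero] at hwu
      exact sub_eq_zero.1 hwu
    have hw0 : w ≠ 0 := by
      rintro rfl
      have e1 : (u : A) * a = 0 := by
        rw [← hrel, Int.cast_zero, zero_mul]
      rcases mul_eq_zero.1 e1 with e2 | e2
      · rcases huw with e3 | e3
        · exact e3 (by exact_mod_cast e2)
        · exact e3 rfl
      · exact ha0 e2
    have hq0A : (q : A) ≠ 0 := by exact_mod_cast hq.ne_zero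
    have hcop : IsCoprime z (q : ℤ) := by
      have e1 : Prime (q : ℤ) := Nat.prime_iff_prime_int.1 hq
      exact (e1.irreducible.coprime_iff_not_dvd.2 hz).symm
    have hu0 : u ≠ 0 := by
      rintro rfl
      have e1 : a' = 0 := by
        rw [Int.cast_zero, zero_mul] at hrel
        rcases mul_eq_zero.1 hrel with e2 | e2
        · exact absurd (by exact_mod_cast e2) hw0
        · exact e2
      obtain ⟨r, s, hrs⟩ := hcop
      have e2 : a = q * (s * a - r * c) := by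
        have e3 : (r : A) * z + s * q = 1 := by exact_mod_cast congrArg (fun t : ℤ => (t : A)) hrs
        have e4 : (z : A) * a = -(q * c) := by
          rw [← h, e1]
          ring
        calc a = ((r : A) * z + s * q) * a := by rw [e3, one_mul]
          _ = r * ((z : A) * a) + s * q * a := by ring
          _ = q * (s * a - r * c) := by rw [e4]; ring
      have e3 : (s : A) * a - r * c = 0 := by
        refine mul_small D q _ (((int_int s).mul ha).sub ((int_int r).mul hc)) ((H : ℝ) ^ 2) hHq ?_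
        rw [← e2]
        exact h1
      rw [e3, mul_zero] at e2
      exact ha0 e2
    -- divide by the gcd
    obtain ⟨g, hg⟩ : ∃ g : ℤ, g = (Int.gcd u w : ℤ) := ⟨_, rfl⟩
    have hg0 : g ≠ 0 := by
      rw [hg]
      intro e
      have e2 := Int.gcd_eq_zero_iff.1 (by exact_mod_cast e)
      exact hu0 e2.1
    obtain ⟨u', hu'⟩ : g ∣ u := by rw [hg]; exact Int.gcd_dvd_left ..
    obtain ⟨w', hw'⟩ : g ∣ w := by rw [hg]; exact Int.gcd_dvd_right ..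
    have hbez : ∃ r s : ℤ, r * u' + s * w' = 1 := by
      have e1 := Int.gcd_eq_gcd_ab u w
      rw [← hg] at e1
      refine ⟨Int.gcdA u w, Int.gcdB u w, ?_⟩
      have e2 : g * (Int.gcdA u w * u' + Int.gcdB u w * w') = g * 1 := by
        calc g * (Int.gcdA u w * u' + Int.gcdB u w * w') = (g * u') * Int.gcdA u w + (g * w') * Int.gcdB u w := by ring
          _ = g * 1 := by rw [← hu', ← hw', mul_one]; exact e1.symm
      exact mul_left_cancel₀ hg0 e2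
    obtain ⟨r, s, hrs⟩ := hbez
    have hgA : (g : A) ≠ 0 := by exact_mod_cast hg0
    have hrel' : (w' : A) * a' = u' * a := by
      have e1 : (g : A) * (w' * a') = g * (u' * a) := by
        have e2 : (w : A) = g * w' := by exact_mod_cast congrArg (fun t : ℤ => (t : A)) hw'
        have e3 : (u : A) = g * u' := by exact_mod_cast congrArg (fun t : ℤ => (t : A)) hu'
        rw [e2, e3] at hrel
        linear_combination hrel
      exact mul_left_cancel₀ hgA e1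
    have hrsA : (r : A) * u' + s * w' = 1 := by exact_mod_cast congrArg (fun t : ℤ => (t : A)) hrs
    obtain ⟨a2, ha2⟩ : ∃ a2 : A, a2 = r * a' + s * a := ⟨_, rfl⟩
    have ha2i : IsIntegral ℤ a2 := by
      rw [ha2]
      exact ((int_int r).mul ha').add ((int_int s).mul ha)
    have e1 : a = w' * a2 := by
      rw [ha2]
      linear_combination (-1 : A) * a * hrsA - r * hrel'
    have e2 : a' = u' * a2 := by
      rw [ha2]
      linear_combination (-1 : A) * a' * hrsA + s * hrel'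
    have ha20 : a2 ≠ 0 := by
      rintro e
      rw [e, mul_zero] at e1
      exact ha0 e1
    have hge := sq_ge D a2 ha2i ha20
    have hsize : ∀ (t : ℤ) (x : A), x = t * a2 →
        ∑ st : (ZMod P)ˣ × (ZMod M)ˣ, ‖D.e st x‖ ^ 2 ≤ H ^ 2 * Fintype.card ((ZMod P)ˣ × (ZMod M)ˣ) → |t| ≤ H := by
      intro t x hx hx2
      rw [hx, sq_scale] at hx2
      have e3 : (t : ℝ) ^ 2 * Fintype.card ((ZMod P)ˣ × (ZMod M)ˣ) ≤ H ^ 2 * Fintype.card ((ZMod P)ˣ × (ZMod M)ˣ) :=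
        (mul_le_mul_of_nonneg_left hge (by positivity)).trans hx2
      have e4 : (t : ℝ) ^ 2 ≤ (H : ℝ) ^ 2 := le_of_mul_le_mul_right e3 hcard
      have e5 : t ^ 2 ≤ (H : ℤ) ^ 2 := by exact_mod_cast e4
      exact abs_le_of_sq_le_sq e5 (by positivity)
    have hu'0 : u' ≠ 0 := by
      rintro rfl
      rw [mul_zero] at hu'
      exact hu0 hu'
    have hw'0 : w' ≠ 0 := by
      rintro rfl
      rw [mul_zero] at hw'
      exact hw0 hw'
    have hqg : ¬ (q : ℤ) ∣ g := by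
      intro e
      refine not_dvd_small q u hu0 huq ?_
      rw [hu']
      exact e.mul_right _
    have hqP : Prime (q : ℤ) := Nat.prime_iff_prime_int.1 hq
    refine ⟨u', w', hsize u' a' e2 h2, hsize w' a e1 h1, ?_, ?_, ?_, hrel'⟩
    · intro e
      refine not_dvd_small q u hu0 huq ?_
      rw [hu']
      exact e.mul_left _
    · intro e
      refine not_dvd_small q w hw0 hwq ?_
      rw [hw']
      exact e.mul_left _
    · have e3 : (q : ℤ) ∣ g * (u' - w' * z) := by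
        refine ⟨k, ?_⟩
        rw [← hk, hu', hw']
        ring
      exact (hqP.dvd_or_dvd e3).resolve_left hqg

section pi

variable {p : ℕ} [Fact p.Prime]

private theorem zP_ne (D : Cy P M A) : D.zP ≠ 0 := by
  intro h
  have h1 := D.ezP 1 1
  rw [h, map_zero] at h1
  exact H61.WN.ch_ne_zero _ h1.symm

private theorem zP_int (D : Cy P M A) : IsIntegral ℤ (D.zP⁻¹) := by
  refine IsIntegral.of_pow (n := P) (NeZero.pos P) ?_
  have h1 : D.zP⁻¹ ^ P = 1 := by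
    refine (D.e (1, 1)).injective ?_
    rw [map_pow, map_inv₀, D.ezP, H61.WN.ch_inv, H61.WN.ch_pow, ZMod.natCast_self, zero_mul, H61.WN.ch_zero, map_one]
  rw [h1]
  exact isIntegral_one

private theorem pi_int (D : Cy P M A) (P1 : ℕ) : IsIntegral ℤ (D.pi P1) :=
  ((zP_int D).pow _).sub isIntegral_one

private theorem pi_norm (D : Cy P M A) (P1 : ℕ) (st : (ZMod P)ˣ × (ZMod M)ˣ) : ‖D.e st (D.pi P1)‖ ≤ 2 := by
  unfold Cy.pi
  rw [map_sub, map_one, map_pow, map_inv₀, show D.e st = D.e (st.1, st.2) from rfl, D.ezP]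
  have h1 : ‖((ch (st.1 : ZMod P))⁻¹ : ℂ) ^ P1‖ = 1 := by
    rw [norm_pow, norm_inv, H61.WN.norm_ch, inv_one, one_pow]
  calc ‖((ch (st.1 : ZMod P))⁻¹ : ℂ) ^ P1 - 1‖ ≤ ‖((ch (st.1 : ZMod P))⁻¹ : ℂ) ^ P1‖ + ‖(1 : ℂ)‖ := norm_sub_le _ _
    _ = 2 := by rw [h1, norm_one]; norm_num

private theorem pi_ne (D : Cy P M A) (P1 : ℕ) (hP : P = p * P1) : D.pi P1 ≠ 0 := by
  intro h
  have h1 : D.e (1, 1) (D.pi P1) = 0 := by rw [h, map_zero]
  unfold Cy.pi at h1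
  rw [map_sub, map_one, map_pow, map_inv₀, D.ezP, H61.WN.ch_inv, H61.WN.ch_pow, sub_eq_zero] at h1
  have h2 := H61.WN.ch_eq_one h1
  rw [Units.val_one, mul_neg, mul_one, neg_eq_zero, ZMod.natCast_eq_zero_iff] at h2
  have hP0 : 0 < P := NeZero.pos P
  have hP10 : 0 < P1 := by
    rcases Nat.eq_zero_or_pos P1 with h3 | h3
    · rw [h3, mul_zero] at hP
      omega
    · exact h3
  have h3 := Nat.le_of_dvd hP10 h2
  have h4 : 2 ≤ p := (Fact.out : p.Prime).two_le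
  rw [hP] at h3
  nlinarith

end pi

theorem rr {p b : ℕ} [Fact p.Prime] {F : Type} [Field F] [NumberField F] [Algebra A F] (D : Dt p b P M A F)
    (P1 : ℕ) (hP : P = p * P1) (hP1 : ∃ κ, P1 = p ^ κ) (hb : 1 ≤ b) (E H q f : ℕ) (hq : q.Prime) (hqb : ¬ q ∣ b) (hqp : q ≠ p)
    (hE : 16 * b ^ 2 * E ≤ H ^ 2) (hH : 4 * H ^ 2 < q) (φ : A →+* A) (hφ : FrQ A (q ^ f) q φ)
    (y y' c : F) (hy : IsIntegral ℤ y) (hy' : IsIntegral ℤ y') (hc : IsIntegral ℤ c) (hyy : y' = y ^ (q ^ f) + q * c)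
    (hE1 : D.En E y) (hE2 : D.En E y') (hd1 : D.Den P1 y) (hd2 : D.Den P1 y') (j : ZMod p) :
    (D.co y j = 0 → D.co y' (((q ^ f : ℕ) : ZMod p) * j) = 0) ∧
    (D.co y j ≠ 0 → ∃ u w : ℤ, |u| ≤ H ∧ |w| ≤ H ∧ ¬ (q : ℤ) ∣ u ∧ ¬ (q : ℤ) ∣ w ∧
      (q : ℤ) ∣ u - w * (b : ℤ) ^ ((q ^ f * j.val) / p) ∧
      (w : A) * D.co y' (((q ^ f : ℕ) : ZMod p) * j) = u * φ (D.co y j)) := by
  have hp : p.Prime := Fact.out
  have hpA : (p : A) ≠ 0 := by exact_mod_cast hp.ne_zero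
  have hbA : (b : A) ≠ 0 := by
    have : b ≠ 0 := by omega
    exact_mod_cast this
  obtain ⟨J, hJ⟩ : ∃ J, J = ((q ^ f : ℕ) : ZMod p) * j := ⟨_, rfl⟩
  obtain ⟨w1, hw1, hw1e⟩ := hd1 j
  obtain ⟨w2, hw2, hw2e⟩ := hd2 J
  obtain ⟨w3, hw3, hw3e⟩ := Z_fr D q f hq hqb φ hφ y y' c hy hc hyy j
  rw [← hJ] at hw3e ⊢
  obtain ⟨m, hm⟩ : ∃ m, m = (q ^ f * j.val) / p := ⟨_, rfl⟩
  rw [← hm] at hw3e ⊢
  obtain ⟨π, hπ⟩ : ∃ π, π = D.pi P1 := ⟨_, rfl⟩
  rw [← hπ] at hw1e hw2e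
  have hπ0 : π ≠ 0 := by
    rw [hπ]
    exact pi_ne (p := p) D.toCy P1 hP
  have hπi : IsIntegral ℤ π := by
    rw [hπ]
    exact pi_int D.toCy P1
  have hφπ0 : φ π ≠ 0 := (map_ne_zero φ).2 hπ0
  have hφπi : IsIntegral ℤ (φ π) := (fr_int φ π).2 hπi
  have hφw1 : φ π * φ (D.Z y j) = p * φ w1 := by
    rw [← map_mul, hw1e, map_mul, map_natCast]
  obtain ⟨a, ha⟩ : ∃ a, a = π * φ w1 := ⟨_, rfl⟩
  obtain ⟨a', ha'⟩ : ∃ a', a' = φ π * w2 := ⟨_, rfl⟩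
  have hai : IsIntegral ℤ a := by
    rw [ha]
    exact hπi.mul ((fr_int φ w1).2 hw1)
  have hai' : IsIntegral ℤ a' := by
    rw [ha']
    exact hφπi.mul hw2
  have hpa : (p : A) * a = π * φ π * φ (D.Z y j) := by
    rw [ha, mul_assoc π, hφw1]
    ring
  have hpa' : (p : A) * a' = π * φ π * D.Z y' J := by
    rw [ha', mul_comm π, mul_assoc (φ π), hw2e]
    ring
  have hqP : Prime (q : ℤ) := Nat.prime_iff_prime_int.1 hq
  have hqpd : ¬ (q : ℤ) ∣ (p : ℤ) := by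
    intro h
    have h1 : q ∣ p := by exact_mod_cast h
    exact hqp ((Nat.prime_dvd_prime_iff_eq hq hp).1 h1)
  obtain ⟨r, s, hrs⟩ : IsCoprime (p : ℤ) (q : ℤ) := (hqP.irreducible.coprime_iff_not_dvd.2 hqpd).symm
  have hrsA : (r : A) * p + s * q = 1 := by exact_mod_cast congrArg (fun t : ℤ => (t : A)) hrs
  have hz : ¬ (q : ℤ) ∣ (b : ℤ) ^ m := by
    intro h
    have h1 := hqP.dvd_of_dvd_pow h
    exact hqb (by exact_mod_cast h1)
  obtain ⟨c', hc'⟩ : ∃ c' : A, c' = r * (π * φ π * w3) + s * (a' - (b : A) ^ m * a) := ⟨_, rfl⟩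
  have hbi : IsIntegral ℤ ((b : A) ^ m) := by
    have := (int_int (A := A) (b : ℤ)).pow m
    simpa using this
  have hc'i : IsIntegral ℤ c' := by
    rw [hc']
    exact ((int_int r).mul ((hπi.mul hφπi).mul hw3)).add ((int_int s).mul (hai'.sub (hbi.mul hai)))
  have hrel : a' - (((b : ℤ) ^ m : ℤ) : A) * a = q * c' := by
    have e1 : (((b : ℤ) ^ m : ℤ) : A) = (b : A) ^ m := by push_cast; ring
    rw [e1]
    have e2 : (p : A) * (a' - (b : A) ^ m * a) = q * (π * φ π * w3) := by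
      have e3 : (p : A) * (a' - (b : A) ^ m * a) = p * a' - (b : A) ^ m * (p * a) := by ring
      rw [e3, hpa, hpa']
      linear_combination (π * φ π) * hw3e
    rw [hc']
    linear_combination (-1 : A) * (a' - (b : A) ^ m * a) * hrsA + (r : A) * e2
  -- sizes
  have hcardF : ((Fintype.card (((ZMod P)ˣ × (ZMod M)ˣ) × ZMod p) : ℕ) : ℝ) =
      Fintype.card ((ZMod P)ˣ × (ZMod M)ˣ) * p := by
    rw [Fintype.card_prod, ZMod.card]
    push_cast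
    ring
  have hpR : (0 : ℝ) < p := by exact_mod_cast hp.pos
  have hZs : ∀ v : F, D.En E v → ∀ i : ZMod p,
      16 * ∑ st : (ZMod P)ˣ × (ZMod M)ˣ, ‖D.e st (D.Z v i)‖ ^ 2 ≤
        (p : ℝ) ^ 2 * (H ^ 2 * Fintype.card ((ZMod P)ˣ × (ZMod M)ˣ)) := by
    intro v hv i
    have e1 := Z_row D v i
    have e2 : ∑ st : ((ZMod P)ˣ × (ZMod M)ˣ) × ZMod p, ‖D.ee st v‖ ^ 2 ≤
        E * (Fintype.card ((ZMod P)ˣ × (ZMod M)ˣ) * p) := by
      rw [← hcardF]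
      exact hv
    have e3 : (16 : ℝ) * b ^ 2 * E ≤ H ^ 2 := by exact_mod_cast hE
    calc 16 * ∑ st : (ZMod P)ˣ × (ZMod M)ˣ, ‖D.e st (D.Z v i)‖ ^ 2
        ≤ 16 * ((b : ℝ) ^ 2 * p * (E * (Fintype.card ((ZMod P)ˣ × (ZMod M)ˣ) * p))) :=
          mul_le_mul_of_nonneg_left (e1.trans (mul_le_mul_of_nonneg_left e2 (by positivity))) (by norm_num)
      _ = (16 * (b : ℝ) ^ 2 * E) * ((p : ℝ) ^ 2 * Fintype.card ((ZMod P)ˣ × (ZMod M)ˣ)) := by ring
      _ ≤ H ^ 2 * ((p : ℝ) ^ 2 * Fintype.card ((ZMod P)ˣ × (ZMod M)ˣ)) :=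
          mul_le_mul_of_nonneg_right e3 (by positivity)
      _ = (p : ℝ) ^ 2 * (H ^ 2 * Fintype.card ((ZMod P)ˣ × (ZMod M)ˣ)) := by ring
  have hφn : ∀ st : (ZMod P)ˣ × (ZMod M)ˣ, ‖D.e st (φ π)‖ ≤ 2 := by
    intro st
    obtain ⟨st', h'⟩ := D.he.2 ((D.e st).comp φ)
    have e1 : D.e st (φ π) = D.e st' π := by
      rw [h']
      rfl
    rw [e1, hπ]
    exact pi_norm D.toCy P1 st'
  have hπn : ∀ st : (ZMod P)ˣ × (ZMod M)ˣ, ‖D.e st π‖ ≤ 2 := by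
    intro st
    rw [hπ]
    exact pi_norm D.toCy P1 st
  have hsz : ∀ x v : A, (p : A) * x = π * φ π * v →
      16 * ∑ st : (ZMod P)ˣ × (ZMod M)ˣ, ‖D.e st v‖ ^ 2 ≤
        (p : ℝ) ^ 2 * (H ^ 2 * Fintype.card ((ZMod P)ˣ × (ZMod M)ˣ)) →
      ∑ st : (ZMod P)ˣ × (ZMod M)ˣ, ‖D.e st x‖ ^ 2 ≤ H ^ 2 * Fintype.card ((ZMod P)ˣ × (ZMod M)ˣ) := by
    intro x v hx hv
    have e1 : ∀ st : (ZMod P)ˣ × (ZMod M)ˣ, (p : ℝ) ^ 2 * ‖D.e st x‖ ^ 2 ≤ 16 * ‖D.e st v‖ ^ 2 := by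
      intro st
      have e2 : (p : ℝ) * ‖D.e st x‖ = ‖D.e st π‖ * ‖D.e st (φ π)‖ * ‖D.e st v‖ := by
        have e3 := congrArg (fun t => ‖D.e st t‖) hx
        simp only [map_mul, norm_mul, map_natCast, Complex.norm_natCast] at e3
        exact e3
      have e3 : ‖D.e st π‖ * ‖D.e st (φ π)‖ ≤ 4 := by
        calc ‖D.e st π‖ * ‖D.e st (φ π)‖ ≤ 2 * 2 := mul_le_mul (hπn st) (hφn st) (norm_nonneg _) (by norm_num)
          _ = 4 := by norm_num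
      have e4 : (p : ℝ) * ‖D.e st x‖ ≤ 4 * ‖D.e st v‖ := by
        rw [e2]
        exact mul_le_mul_of_nonneg_right e3 (norm_nonneg _)
      calc (p : ℝ) ^ 2 * ‖D.e st x‖ ^ 2 = ((p : ℝ) * ‖D.e st x‖) ^ 2 := by ring
        _ ≤ (4 * ‖D.e st v‖) ^ 2 := pow_le_pow_left₀ (by positivity) e4 2
        _ = 16 * ‖D.e st v‖ ^ 2 := by ring
    have e2 : (p : ℝ) ^ 2 * ∑ st : (ZMod P)ˣ × (ZMod M)ˣ, ‖D.e st x‖ ^ 2 ≤
        (p : ℝ) ^ 2 * (H ^ 2 * Fintype.card ((ZMod P)ˣ × (ZMod M)ˣ)) := by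
      refine le_trans ?_ hv
      rw [Finset.mul_sum, Finset.mul_sum]
      exact Finset.sum_le_sum fun st _ => e1 st
    exact le_of_mul_le_mul_left e2 (by positivity)
  have h1 : ∑ st : (ZMod P)ˣ × (ZMod M)ˣ, ‖D.e st a‖ ^ 2 ≤ H ^ 2 * Fintype.card ((ZMod P)ˣ × (ZMod M)ˣ) := by
    refine hsz a (φ (D.Z y j)) hpa ?_
    have e1 := fr_sum D.toCy φ (fun t => ‖t‖ ^ 2) (D.Z y j)
    rw [e1]
    exact hZs y hE1 j
  have h2 : ∑ st : (ZMod P)ˣ × (ZMod M)ˣ, ‖D.e st a'‖ ^ 2 ≤ H ^ 2 * Fintype.card ((ZMod P)ˣ × (ZMod M)ˣ) :=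
    hsz a' (D.Z y' J) hpa' (hZs y' hE2 J)
  obtain ⟨t1, t2⟩ := thue D.toCy q H hq hH ((b : ℤ) ^ m) hz a a' c' hai hai' hc'i hrel h1 h2
  have hππ : π * φ π ≠ 0 := mul_ne_zero hπ0 hφπ0
  have hpb : (p : A) * b ≠ 0 := mul_ne_zero hpA hbA
  constructor
  · intro h0
    have e1 : D.Z y j = 0 := by
      unfold Dt.co at h0
      rcases div_eq_zero_iff.1 h0 with e | e
      · exact e
      · exact absurd e hpb
    have e2 : a = 0 := by
      rw [e1, map_zero, mul_zero] at hpa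
      exact (mul_eq_zero.1 hpa).resolve_left hpA
    have e3 := t1 e2
    rw [e3, mul_zero] at hpa'
    have e4 : D.Z y' J = 0 := (mul_eq_zero.1 hpa'.symm).resolve_left hππ
    unfold Dt.co
    rw [e4, zero_div]
  · intro h0
    have e1 : a ≠ 0 := by
      intro e
      rw [e, mul_zero] at hpa
      have e2 : φ (D.Z y j) = 0 := (mul_eq_zero.1 hpa.symm).resolve_left hππ
      have e3 : D.Z y j = 0 := (map_eq_zero φ).1 e2
      refine h0 ?_
      unfold Dt.co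
      rw [e3, zero_div]
    obtain ⟨u, w, g1, g2, g3, g4, g5, g6⟩ := t2 e1
    refine ⟨u, w, g1, g2, g3, g4, g5, ?_⟩
    have e2 : (w : A) * D.Z y' J = u * φ (D.Z y j) := by
      have e3 : (π * φ π) * ((w : A) * D.Z y' J) = (π * φ π) * (u * φ (D.Z y j)) := by
        linear_combination (-(w : A)) * hpa' + (u : A) * hpa + (p : A) * g6
      exact mul_left_cancel₀ hππ e3
    unfold Dt.co
    rw [map_div₀, map_mul, map_natCast, map_natCast, ← mul_div_assoc, ← mul_div_assoc, e2]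

end Pool.Agent.H72.WD
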