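import Pool.Agent.H72.WD.Sf
import Pool.Agent.H72.WD.Rr
import Pool.Agent.H72.WD.Kr
import Pool.Agent.H72.WD.Ps
import Pool.Agent.H72.WD.En

/-!
# [H72 WD Co] THEOREM WD: the core theorem (owner helper72)

`E = 2 d^2`, `H = 8 b d` (`16 b^2 E ≤ H^2`), `Q1 ≥` `Q0` of `sf`, `4 H^2 + 1`, `Q2`. `kr`: `q0`, `W`. `endW`: `q`, `f`, `T`. `kr` with `T`: `X'`. `X = max X' q`. `K` = all indices of power sums used.
-/

set_option autoImplicit false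

namespace Pool.Agent.H72.WD

open Finset NumberField
open Pool.Agent.H61.WN (ch)

/-- Fermat -/
theorem fermat_pow (q b m : ℕ) (hq : q.Prime) (hqb : ¬ q ∣ b) (hm : (q - 1) ∣ m) : (q : ℤ) ∣ (b : ℤ) ^ m - 1 := by
  have := Fact.mk hq
  obtain ⟨t, rfl⟩ := hm
  rw [← ZMod.intCast_zmod_eq_zero_iff_dvd]
  push_cast
  have hb : (b : ZMod q) ≠ 0 := by
    rw [Ne, ZMod.natCast_eq_zero_iff]
    exact hqb
  rw [pow_mul, ZMod.pow_card_sub_one_eq_one hb, one_pow, sub_self]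

theorem core (b : ℕ) (hb : 2 ≤ b) (d Q2 : ℕ) (hd : 1 ≤ d) : ∃ Q1 X K p₀ : ℕ, Q2 ≤ Q1 ∧
    ∀ (p P P1 M n : ℕ) [Fact p.Prime] [NeZero P] [NeZero M] [NeZero n], p₀ ≤ p → P = p * P1 → (∃ κ, P1 = p ^ κ) →
    (∀ q : ℕ, q.Prime → Q1 ≤ q → q ≤ X → ¬ q ∣ n) →
    ∀ (A F : Type) [Field A] [NumberField A] [Field F] [NumberField F] [Algebra A F]
      [IsCyclotomicExtension {n} ℚ A] [Algebra F ℂ] (_ : Dt p b P M A F) (α : ℂ),
      IsIntegral ℤ α → α ≠ 0 → (minpoly F α).natDegree = d →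
      (∀ k, k ≤ K → Pool.H22.Lh.meanC (fun z => ‖z‖ ^ (2 * k)) α ≤ 21 / 20) →
      ∃ k s t : ℕ, 1 ≤ k ∧ α ^ k * (b : ℂ) ^ s = (b : ℂ) ^ t := by
  classical
  obtain ⟨E, hE⟩ : ∃ E, E = 2 * d ^ 2 := ⟨_, rfl⟩
  obtain ⟨H, hH⟩ : ∃ H, H = 8 * b * d := ⟨_, rfl⟩
  have hEH : 16 * b ^ 2 * E ≤ H ^ 2 := by
    rw [hE, hH]
    nlinarith [Nat.zero_le (b ^ 2 * d ^ 2)]
  have hH1 : 1 ≤ H := by
    rw [hH]
    have : 1 ≤ b * d := Nat.mul_pos (by omega) hd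
    nlinarith
  obtain ⟨Q0, hsf⟩ := sf b hb E
  obtain ⟨Q1, hQ1⟩ : ∃ Q1, Q1 = Q0 + 4 * H ^ 2 + 1 + Q2 + b + 2 := ⟨_, rfl⟩
  obtain ⟨q0, W, hq0, hQ10, hW, hkr⟩ := kr b hb H Q1 (by omega)
  obtain ⟨q, f, T, hq, hQ1q, hf, hT1, hend⟩ := endW b hb d W Q1 hd hW
  obtain ⟨X', hqX', hX'⟩ := hkr T
  obtain ⟨-, p₁, hqp₁, hsfq⟩ := hsf q hq (by omega)
  obtain ⟨Y, hY⟩ : ∃ Y, Y = d * X' := ⟨_, rfl⟩
  obtain ⟨KK, hKK⟩ : ∃ KK, KK = q0 * Y + q ^ f * d + Y := ⟨_, rfl⟩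
  refine ⟨Q1, X' + q, q * KK + KK, p₁ + (X' + q) + b + T + 1, by omega, ?_⟩
  intro p P P1 M n _ _ _ _ hp0 hP hP1 hn A F _ _ _ _ _ _ _ D α hα hα0 hdeg hmean
  have hp : p.Prime := Fact.out
  have hpb : ¬ p ∣ b := fun h => by
    have := Nat.le_of_dvd (by omega) h
    omega
  have hbℓ : ∀ ℓ : ℕ, Q1 ≤ ℓ → ¬ ℓ ∣ b := fun ℓ hℓ h => by
    have := Nat.le_of_dvd (by omega) h
    omega
  obtain ⟨G, s, hGinj, hG0, ⟨i0, hi0⟩, hsint, hs, hsq, hsen⟩ := psums F α hα hα0 d hdeg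
  have hcard : Fintype.card (((ZMod P)ˣ × (ZMod M)ˣ) × ZMod p) = Module.finrank ℚ F := by
    rw [← Embeddings.card F ℂ]
    exact Fintype.card_of_bijective D.hee
  -- energies
  have hEn : ∀ m, m ≤ q * KK + KK → D.En E (s m) := by
    intro m hm
    unfold Dt.En
    have h1 := hsen m
    have h2 : ∑ st : ((ZMod P)ˣ × (ZMod M)ˣ) × ZMod p, ‖D.ee st (s m)‖ ^ 2 = ∑ φ : F →+* ℂ, ‖φ (s m)‖ ^ 2 :=
      Fintype.sum_bijective D.ee D.hee _ _ fun _ => rfl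
    rw [h2, hcard]
    refine h1.trans ?_
    have h3 := hmean m hm
    have h4 : (0 : ℝ) ≤ (d : ℝ) ^ 2 * Module.finrank ℚ F := by positivity
    have h5 := mul_le_mul_of_nonneg_left h3 h4
    rw [hE]
    push_cast
    nlinarith
  obtain ⟨φq, hφq⟩ := frq A n q hq (hn q hq hQ1q (by omega))
  have hqp : q < p := by omega
  -- denominators
  have hDen : ∀ m, m ≤ KK → D.Den P1 (s m) := by
    intro m hm
    obtain ⟨c, hc, hcc⟩ := hsq q m hq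
    exact hsfq p P P1 M (by omega) hP hP1 hpb A F D φq (s m) (s (q * m)) c hφq (hsint _) (hsint _) hc hcc
      (hEn m (by omega)) (hEn (q * m) (by
        have := Nat.mul_le_mul_left q hm
        omega))
  -- row relations
  have hrr : ∀ (ℓ g m : ℕ), ℓ.Prime → Q1 ≤ ℓ → ℓ ≤ X' + q → m ≤ KK → ℓ ^ g * m ≤ KK → ∀ φ : A →+* A, FrQ A (ℓ ^ g) ℓ φ →
      ∀ j, (D.co (s m) j = 0 → D.co (s (ℓ ^ g * m)) (((ℓ ^ g : ℕ) : ZMod p) * j) = 0) ∧
      (D.co (s m) j ≠ 0 → ∃ u w : ℤ, |u| ≤ H ∧ |w| ≤ H ∧ ¬ (ℓ : ℤ) ∣ u ∧ ¬ (ℓ : ℤ) ∣ w ∧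
      (ℓ : ℤ) ∣ u - w * (b : ℤ) ^ ((ℓ ^ g * j.val) / p) ∧
      (w : A) * D.co (s (ℓ ^ g * m)) (((ℓ ^ g : ℕ) : ZMod p) * j) = u * φ (D.co (s m) j)) := by
    intro ℓ g m hℓ hℓ1 hℓ2 hm1 hm2 φ hφ j
    obtain ⟨c, hc, hcc⟩ := ps_iter F s hsint ℓ hℓ (fun k => hsq ℓ k hℓ) g m
    exact rr D P1 hP hP1 (by omega) E H ℓ g hℓ (hbℓ ℓ hℓ1) (by omega) hEH (by omega) φ hφ (s m) (s (ℓ ^ g * m)) c
      (hsint _) (hsint _) hc hcc (hEn _ (by omega)) (hEn _ (by omega)) (hDen _ hm1) (hDen _ hm2) j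
  have hYKK : Y ≤ KK := by omega
  have hsupp := hX' p Y (fun m j => D.co (s m) j ≠ 0)
    (by
      intro ℓ m hℓ hℓ1 hℓ2 hmℓ j hj
      obtain ⟨φ, hφ⟩ := frq A n ℓ hℓ (hn ℓ hℓ hℓ1 (by omega))
      have hmY : m ≤ Y := le_trans (Nat.le_mul_of_pos_right m hℓ.pos) hmℓ
      have h1 := (hrr ℓ 1 m hℓ hℓ1 (by omega) (by omega) (by rw [pow_one, mul_comm]; omega) φ
        (by rw [pow_one]; exact hφ) j).2 hj
      obtain ⟨u, w, -, -, hu, -, -, h2⟩ := h1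
      rw [pow_one] at h2
      intro h0
      rw [h0, mul_zero] at h2
      rcases mul_eq_zero.1 h2.symm with h3 | h3
      · have h4 : u = 0 := by exact_mod_cast h3
        exact hu (by rw [h4]; exact dvd_zero _)
      · exact hj ((map_eq_zero φ).1 h3))
    (by
      intro m j hm hj
      obtain ⟨φ, hφ⟩ := frq A n q0 hq0 (hn q0 hq0 hQ10 (by omega))
      have h3 : q0 * m ≤ q0 * Y := Nat.mul_le_mul_left _ hm
      have h1 := (hrr q0 1 m hq0 hQ10 (by omega) (by omega) (by rw [pow_one]; omega) φ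
        (by rw [pow_one]; exact hφ) j).2 hj
      obtain ⟨u, w, hu, hw, -, hw2, h2, -⟩ := h1
      rw [pow_one] at h2
      exact ⟨u, w, hu, hw, hw2, h2⟩)
  obtain ⟨k, s', t', h1, h2⟩ := hend p P M n (by omega) (hn q hq hQ1q (by omega)) A F D G s hGinj hG0 hs
    (by
      intro k j hk1 hk2 hj
      exact hsupp k j (by rw [hY]; exact Nat.mul_le_mul_right _ hk2) hj)
    (by
      intro φ hφ k j hk1 hk2 hj
      have hkd : k ≤ KK := by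
        have h3 : k * 1 ≤ d * X' := Nat.mul_le_mul hk2 (le_trans hq0.pos hqX')
        omega
      have hkq : q ^ f * k ≤ KK := by
        have := Nat.mul_le_mul_left (q ^ f) hk2
        omega
      obtain ⟨h1, h2⟩ := hrr q f k hq hQ1q (by omega) hkd hkq φ hφ j
      by_cases h0 : D.co (s k) j = 0
      · rw [h1 h0, h0, map_zero]
      · obtain ⟨u, w, hu, hw, hu2, hw2, h3, h4⟩ := h2 h0
        have h5 := fermat_pow q b _ hq (hbℓ q hQ1q) (hj.resolve_left h0)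
        have h6 : (q : ℤ) ∣ u - w := by
          have h7 : u - w = (u - w * (b : ℤ) ^ ((q ^ f * j.val) / p)) + w * ((b : ℤ) ^ ((q ^ f * j.val) / p) - 1) := by ring
          rw [h7]
          exact dvd_add h3 (h5.mul_left w)
        have h7 : u = w := by
          have h8 : |u - w| < q := by
            refine lt_of_le_of_lt (abs_sub u w) ?_
            have h9 : 2 * H < q := by nlinarith
            have h10 : (2 : ℤ) * H < q := by exact_mod_cast h9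
            linarith
          have h9 := Int.eq_zero_of_abs_lt_dvd h6 h8
          omega
        rw [h7] at h4
        have hw0 : (w : A) ≠ 0 := by
          intro h8
          have h9 : w = 0 := by exact_mod_cast h8
          exact hw2 (by rw [h9]; exact dvd_zero _)
        exact mul_left_cancel₀ hw0 h4)
    i0
  rw [hi0] at h2
  exact ⟨k, s', t', h1, h2⟩

end Pool.Agent.H72.WD
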