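import Pool.Agent.H72.WD.Tr

/-!
# [H72 WD Cof] THEOREM WD: the mixed differences of the traces

`w := x^(p-1)`; `b^t x^(p-t) = b w^t` for `0 ≤ t ≤ p` (`x^p = b`), so `∑_t (-1)^(l-t) C(l,t) b^t Z y t = Tr_(F/A)(y b (w - 1)^l)` (`t ≤ l < p`, `(t : ZMod p).val = t`).
`(w-1)^p = p v'`, `v'` integral: `(w-1)^p - (w^p - 1)` is `p` times an integer (`exists_add_pow_prime_eq` or `sub_pow`), `w^p = b^(p-1) = 1 + p c` (Fermat, `p ∤ b`).
`π^(p-1) = p v`, `v` integral (`π + 1 = ζ_p⁻¹`; `p = ∏ (1 - ζ^i)`, see `H84/WI/Pi.pi_pow` or: `((1 + π)^p - 1)/π = p + .. + π^(p-1) = 0`).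
`u := π^k (w-1)^l / p`: `u^(p(p-1)) = v^(pk) v'^((p-1)l) p^(pk + (p-1)l - p(p-1))`, and `pk + (p-1)l ≥ p(p-1)` as `k + l ≥ p`; so `u` is integral in `F`, and
`π^k Tr(y b (w-1)^l) = p Tr(y b u)` (`π ∈ A`). Model: `H84/WI/Co.lean`, `H61/WN/Cod.lean`.
-/

set_option autoImplicit false

namespace Pool.Agent.H72.WD

open Finset
open Pool.Agent.H61.WN (ch)

variable {p b P M : ℕ} [Fact p.Prime] [NeZero P] [NeZero M] {A F : Type} [Field A] [NumberField A]
  [Field F] [NumberField F] [Algebra A F]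

private theorem aeval_integral {K : Type} [Field K] [NumberField K] {w : K} (hw : IsIntegral ℤ w)
    (R : Polynomial ℤ) : IsIntegral ℤ (Polynomial.aeval w R) := by
  have h := (Polynomial.aeval (⟨w, hw⟩ : integralClosure ℤ K) R).2
  have h2 : ((Polynomial.aeval (⟨w, hw⟩ : integralClosure ℤ K) R : integralClosure ℤ K) : K) =
      Polynomial.aeval w R := by
    exact Polynomial.aeval_subalgebra_coe R (integralClosure ℤ K) ⟨w, hw⟩
  rw [← h2]
  exact h

private theorem aeval_congr_p {K : Type} [Field K] [NumberField K] {w : K} (hw : IsIntegral ℤ w)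
    (P Q : Polynomial ℤ)
    (h : P.map (Int.castRingHom (ZMod p)) = Q.map (Int.castRingHom (ZMod p))) :
    ∃ v : K, IsIntegral ℤ v ∧ Polynomial.aeval w P = Polynomial.aeval w Q + (p : K) * v := by
  have h1 : Polynomial.C (p : ℤ) ∣ P - Q := by
    rw [Polynomial.C_dvd_iff_dvd_coeff]
    intro i
    have h2 := congrArg (fun f => Polynomial.coeff f i) h
    simp only [Polynomial.coeff_map, eq_intCast] at h2
    rw [Polynomial.coeff_sub, ← ZMod.intCast_zmod_eq_zero_iff_dvd]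
    push_cast
    rw [h2, sub_self]
  obtain ⟨R, hR⟩ := h1
  refine ⟨Polynomial.aeval w R, aeval_integral hw R, ?_⟩
  have h3 : P = Q + Polynomial.C (p : ℤ) * R := by rw [← hR]; ring
  rw [h3, map_add, map_mul, Polynomial.aeval_C]
  simp

private theorem pow_char_sub {K : Type} [Field K] [NumberField K] {w : K} (hw : IsIntegral ℤ w) :
    ∃ v : K, IsIntegral ℤ v ∧ (w - 1) ^ p = (w ^ p - 1) + (p : K) * v := by
  have hp : p.Prime := Fact.out
  obtain ⟨v, hv, h⟩ := aeval_congr_p (p := p) hw ((Polynomial.X - 1) ^ p)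
    (Polynomial.X ^ p - 1) (by
      rw [Polynomial.map_pow, Polynomial.map_sub, Polynomial.map_X, Polynomial.map_one,
        Polynomial.map_sub, Polynomial.map_pow, Polynomial.map_X, Polynomial.map_one,
        sub_pow_char, one_pow])
  refine ⟨v, hv, ?_⟩
  simpa using h

private theorem zP_pow (D : Cy P M A) : D.zP ^ P = 1 := by
  have h1 : D.e (1, 1) (D.zP ^ P) = 1 := by
    rw [map_pow, D.ezP, Pool.Agent.H61.WN.ch_pow, CharP.cast_eq_zero, zero_mul,
      Pool.Agent.H61.WN.ch_zero]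
  exact (D.e (1, 1)).injective (by rw [h1, map_one])

private theorem zeta_pow (D : Cy P M A) (P1 : ℕ) (hP : P = p * P1) : (D.zP⁻¹ ^ P1) ^ p = 1 := by
  rw [← pow_mul, mul_comm P1 p, ← hP, inv_pow, zP_pow, inv_one]

private theorem zeta_ne (D : Cy P M A) (P1 : ℕ) (hP : P = p * P1) : D.zP⁻¹ ^ P1 - 1 ≠ 0 := by
  have hp : p.Prime := Fact.out
  intro h
  have h0 : D.zP ^ P1 = 1 := by
    have h1 : D.zP⁻¹ ^ P1 = 1 := sub_eq_zero.1 h
    rw [inv_pow] at h1
    exact inv_eq_one.1 h1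
  have h1 := congrArg (D.e (1, 1)) h0
  rw [map_pow, D.ezP, map_one, Pool.Agent.H61.WN.ch_pow, Units.val_one, mul_one] at h1
  have h2 := Pool.Agent.H61.WN.ch_eq_one h1
  rw [ZMod.natCast_eq_zero_iff] at h2
  have hP0 : 0 < P := Nat.pos_of_ne_zero (NeZero.ne P)
  have h3 : 0 < P1 := by
    rcases Nat.eq_zero_or_pos P1 with h4 | h4
    · rw [h4, mul_zero] at hP
      omega
    · exact h4
  have h5 := Nat.le_of_dvd h3 h2
  have h6 := hp.two_le
  have h7 : 2 * P1 ≤ p * P1 := Nat.mul_le_mul_right _ h6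
  omega

private theorem zeta_int (D : Cy P M A) (P1 : ℕ) (hP : P = p * P1) : IsIntegral ℤ (D.zP⁻¹ ^ P1) :=
  IsIntegral.of_pow (Fact.out : p.Prime).pos (by rw [zeta_pow D P1 hP]; exact isIntegral_one)

theorem pi_pow (D : Cy P M A) (P1 : ℕ) (hP : P = p * P1) (hP1 : ∃ κ, P1 = p ^ κ) :
    ∃ v : A, IsIntegral ℤ v ∧ D.pi P1 ^ (p - 1) = p * v := by
  have hp : p.Prime := Fact.out
  have hgeom : ∑ i ∈ range p, (D.zP⁻¹ ^ P1) ^ i = 0 := by
    have h1 : (D.zP⁻¹ ^ P1 - 1) * ∑ i ∈ range p, (D.zP⁻¹ ^ P1) ^ i = 0 := by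
      rw [mul_comm, geom_sum_mul, zeta_pow D P1 hP, sub_self]
    rcases mul_eq_zero.1 h1 with h | h
    · exact absurd h (zeta_ne D P1 hP)
    · exact h
  obtain ⟨v, hv, h⟩ := aeval_congr_p (p := p) (zeta_int D P1 hP) ((Polynomial.X - 1) ^ (p - 1))
    (∑ i ∈ range p, Polynomial.X ^ i) (by
      rw [Polynomial.map_pow, Polynomial.map_sub, Polynomial.map_X, Polynomial.map_one,
        Polynomial.map_sum]
      simp only [Polynomial.map_pow, Polynomial.map_X]
      rw [← Polynomial.cyclotomic_prime (ZMod p) p]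
      have := Polynomial.cyclotomic_mul_prime_pow_eq (ZMod p) (p := p) (m := 1) (k := 1)
        (by rw [Nat.dvd_one]; exact hp.one_lt.ne') one_pos
      simp only [pow_one, mul_one, Polynomial.cyclotomic_one, Nat.sub_self, pow_zero] at this
      exact this.symm)
  refine ⟨v, hv, ?_⟩
  rw [map_pow, map_sub, Polynomial.aeval_X, map_one, map_sum] at h
  simp only [map_pow, Polynomial.aeval_X] at h
  rw [hgeom, zero_add] at h
  exact h

private theorem nat_int {K : Type} [Field K] [NumberField K] (n : ℕ) : IsIntegral ℤ (n : K) := by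
  have h := isIntegral_algebraMap (R := ℤ) (A := K) (x := (n : ℤ))
  simpa using h

private theorem x_int (D : Dt p b P M A F) : IsIntegral ℤ D.x :=
  IsIntegral.of_pow (Fact.out : p.Prime).pos (by rw [D.hx]; exact nat_int b)

private theorem xi_pow (D : Dt p b P M A F) (hpb : ¬ p ∣ b) :
    ∃ v : F, IsIntegral ℤ v ∧ (D.x ^ (p - 1) - 1) ^ p = (p : F) * v := by
  have hp : p.Prime := Fact.out
  obtain ⟨v, hv, h⟩ := pow_char_sub (p := p) (w := D.x ^ (p - 1)) ((x_int D).pow (p - 1))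
  have h1 : (p : ℤ) ∣ (b : ℤ) ^ (p - 1) - 1 := by
    rw [← ZMod.intCast_zmod_eq_zero_iff_dvd]
    push_cast
    rw [ZMod.pow_card_sub_one_eq_one, sub_self]
    intro h0
    exact hpb ((ZMod.natCast_eq_zero_iff b p).1 h0)
  obtain ⟨t, ht⟩ := h1
  refine ⟨(t : F) + v, ?_, ?_⟩
  · exact (isIntegral_algebraMap (R := ℤ) (A := F) (x := t)).add hv
  · rw [h, ← pow_mul, mul_comm (p - 1) p, pow_mul, D.hx]
    have h2 : (b : F) ^ (p - 1) - 1 = (p : F) * (t : F) := by exact_mod_cast congrArg (Int.cast : ℤ → F) ht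
    rw [h2]
    ring

private theorem Z_nat (D : Dt p b P M A F) (y : F) (t : ℕ) (ht : t < p) :
    (b : A) ^ t * D.Z y (t : ZMod p) = Algebra.trace A F (y * (b * (D.x ^ (p - 1)) ^ t)) := by
  have hp : p.Prime := Fact.out
  rw [Dt.Z, ZMod.val_natCast_of_lt ht]
  have h1 : y * ((b : F) * (D.x ^ (p - 1)) ^ t) = ((b : A) ^ t) • (y * D.x ^ (p - t)) := by
    rw [Algebra.smul_def, map_pow, map_natCast, ← D.hx, ← pow_mul, ← pow_mul]
    have h2 : D.x ^ p * D.x ^ ((p - 1) * t) = D.x ^ (p * t) * D.x ^ (p - t) := by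
      rw [← pow_add, ← pow_add]
      congr 1
      obtain ⟨q, rfl⟩ : ∃ q, p = q + 1 := ⟨p - 1, (Nat.sub_add_cancel hp.one_le).symm⟩
      rw [Nat.add_sub_cancel]
      have h3 : q + 1 - t + t = q + 1 := Nat.sub_add_cancel ht.le
      have h4 : (q + 1) * t = q * t + t := by ring
      rw [h4]
      omega
    rw [h2]
    ring
  rw [h1, map_smul, smul_eq_mul]

private theorem trace_int (y : F) (hy : IsIntegral ℤ y) : IsIntegral ℤ (Algebra.trace A F y) := by
  haveI : FiniteDimensional A F := Module.Finite.of_restrictScalars_finite ℚ A F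
  exact Algebra.isIntegral_trace hy

theorem Z_cod (D : Dt p b P M A F) (P1 : ℕ) (hP : P = p * P1) (hP1 : ∃ κ, P1 = p ^ κ) (hpb : ¬ p ∣ b)
    (y : F) (hy : IsIntegral ℤ y) (k l : ℕ) (hk : k < p) (hl : l < p) (hkl : p ≤ k + l) :
    ∃ w : A, IsIntegral ℤ w ∧
      D.pi P1 ^ k * ∑ t ∈ range (l + 1), (-1) ^ (l - t) * (l.choose t : A) * ((b : A) ^ t * D.Z y (t : ZMod p)) = p * w := by
  have hp : p.Prime := Fact.out
  have hpF : (p : F) ≠ 0 := by exact_mod_cast hp.ne_zero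
  obtain ⟨v, hv, hpi⟩ := pi_pow (D.toCy) P1 hP hP1
  obtain ⟨v', hv', hxi⟩ := xi_pow D hpb
  obtain ⟨w, hw⟩ : ∃ w : F, w = D.x ^ (p - 1) := ⟨_, rfl⟩
  obtain ⟨q, hq⟩ : ∃ q : F, q = algebraMap A F (D.pi P1) := ⟨_, rfl⟩
  have hvF : IsIntegral ℤ (algebraMap A F v) := hv.map (algebraMap A F).toIntAlgHom
  have hqp : q ^ (p - 1) = (p : F) * algebraMap A F v := by
    rw [hq, ← map_pow, hpi, map_mul, map_natCast]
  rw [← hw] at hxi
  -- the sum is a trace
  have hsum : ∑ t ∈ range (l + 1), (-1) ^ (l - t) * (l.choose t : A) * ((b : A) ^ t * D.Z y (t : ZMod p)) =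
      Algebra.trace A F (y * b * (w - 1) ^ l) := by
    have e2 : (w - 1) ^ l = ∑ t ∈ range (l + 1), w ^ t * (-1) ^ (l - t) * (l.choose t : F) := by
      rw [sub_eq_add_neg, add_pow]
    rw [e2, mul_sum, map_sum]
    refine sum_congr rfl fun t ht => ?_
    rw [mem_range] at ht
    rw [Z_nat D y t (by omega), ← hw]
    have h1 : y * b * (w ^ t * (-1) ^ (l - t) * (l.choose t : F)) =
        ((-1) ^ (l - t) * (l.choose t : A)) • (y * (b * w ^ t)) := by
      rw [Algebra.smul_def, map_mul, map_pow, map_neg, map_one, map_natCast]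
      ring
    rw [h1, map_smul, smul_eq_mul]
  -- `q^k (w-1)^l = p u`
  obtain ⟨u, hu⟩ : ∃ u : F, u = q ^ k * (w - 1) ^ l / (p : F) := ⟨_, rfl⟩
  have hG : q ^ k * (w - 1) ^ l = (p : F) * u := by rw [hu]; field_simp
  obtain ⟨e, he⟩ : ∃ e, p * k + (p - 1) * l = p * (p - 1) + e := by
    refine ⟨p * k + (p - 1) * l - p * (p - 1), ?_⟩
    have h8 : p * (p - 1) ≤ p * k + (p - 1) * l := by
      obtain ⟨q', hq'⟩ : ∃ q', p = q' + 1 := ⟨p - 1, (Nat.sub_add_cancel hp.one_le).symm⟩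
      rw [hq'] at hkl ⊢
      simp only [Nat.add_sub_cancel] at hkl ⊢
      nlinarith [Nat.mul_le_mul_left q' hkl]
    omega
  have hpow : u ^ (p * (p - 1)) = (algebraMap A F v) ^ (p * k) * v' ^ ((p - 1) * l) * (p : F) ^ e := by
    have h9 : ((p : F) * u) ^ (p * (p - 1)) = (q ^ (p - 1)) ^ (p * k) *
        ((w - 1) ^ p) ^ ((p - 1) * l) := by
      rw [← hG, mul_pow, ← pow_mul, ← pow_mul, ← pow_mul, ← pow_mul]
      rw [show k * (p * (p - 1)) = (p - 1) * (p * k) by ring,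
        show l * (p * (p - 1)) = p * ((p - 1) * l) by ring]
    rw [hqp, hxi, mul_pow, mul_pow (p : F) v', mul_pow (p : F) _ (p * k)] at h9
    have h10 : (p : F) ^ (p * (p - 1)) ≠ 0 := pow_ne_zero _ hpF
    apply mul_left_cancel₀ h10
    rw [h9]
    have h11 : (p : F) ^ (p * k) * (p : F) ^ ((p - 1) * l) =
        (p : F) ^ (p * (p - 1)) * (p : F) ^ e := by
      rw [← pow_add, he, pow_add]
    calc _ = (algebraMap A F v) ^ (p * k) * v' ^ ((p - 1) * l) *
          ((p : F) ^ (p * k) * (p : F) ^ ((p - 1) * l)) := by ring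
      _ = _ := by rw [h11]; ring
  have hpos : 0 < p * (p - 1) := by
    have := hp.two_le
    exact Nat.mul_pos hp.pos (by omega)
  have huint : IsIntegral ℤ u := by
    refine IsIntegral.of_pow (n := p * (p - 1)) hpos ?_
    rw [hpow]
    exact ((hvF.pow _).mul (hv'.pow _)).mul ((nat_int p).pow _)
  refine ⟨Algebra.trace A F (y * b * u), trace_int _ ((hy.mul (nat_int b)).mul huint), ?_⟩
  rw [hsum, ← smul_eq_mul, ← map_smul]
  have h12 : (D.pi P1 ^ k) • (y * b * (w - 1) ^ l) = (p : A) • (y * b * u) := by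
    rw [Algebra.smul_def, Algebra.smul_def, map_pow, ← hq, map_natCast]
    calc q ^ k * (y * b * (w - 1) ^ l) = y * b * (q ^ k * (w - 1) ^ l) := by ring
      _ = _ := by rw [hG]; ring
  rw [h12, map_smul, smul_eq_mul]

end Pool.Agent.H72.WD
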