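import Pool.Agent.H11.BK.DescK
import Pool.Agent.H11.BK.Drop
import Pool.Agent.H61.WN.Ex

/-!
# [H72 WD De] THEOREM WD: the descent for the primes `q ∣ N` of a fixed window

Port of `H11/BK/DesK`, `DescK` (for `K = ℚ`, one radical `x^p = b`) to systems WITHOUT the condition `Nat.Coprime n m` (here `p ∣ N`): this condition is only used in `frob_cong` for `¬ q ∣ p`
(line 338 of DesK), and here `q ≤ X < p`, `q > b`. (The order `ℤ[ζ][x]` contains `p b 𝓞`: `Tr(y x^(p-j)) = p b A_j ∈ ℤ[ζ]`, so `frob_cong` can also be proved directly.)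
The degree `[ℚ(ζ,x) : ℚ(ζ)] = p` for every `N`: `hb'` (`X^p - b` is irreducible over `ℚ(ζ_N)`, as in `H61/WN/Ex`), or the field `deg` of a structure.
Then induction on `N`: as long as a prime `q ∣ N`, `Q1 ≤ q ≤ X`, exists, the descent gives `η`, `ζ^q` (primitive of order `N/q`, `p ∣ N/q` as `q ≠ p`), same height. `c` = minimum over the `q ≤ X`.
-/

set_option autoImplicit false

open NumberField IntermediateField

namespace Pool.Agent.H72.WD

namespace De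

open Pool.Agent.H4.OG (intOf mem_intOf)
open Pool.Agent.H11.BK (AA FF ξF xF mem_FF_ξ mem_FF mem_AA FF_mono kill_F gen_top dgr ints_b nf_of_fin degree_map height_map height_mul_root)

private theorem gal_one {K L : Type} [Field K] [Field L] [Algebra K L] {ξ : L}
    (htop : Algebra.adjoin K {ξ} = ⊤) (s : L ≃ₐ[K] L) (hs : s ξ = ξ) : s = 1 := by
  have h1 : (s : L →ₐ[K] L) = AlgHom.id K L :=
    AlgHom.ext_of_adjoin_eq_top htop fun y hy => by
      rw [Set.mem_singleton_iff] at hy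
      rw [hy]
      exact hs
  ext y
  exact DFunLike.congr_fun h1 y

private theorem gal_cyc {K L : Type} [Field K] [Field L] [Algebra K L] [FiniteDimensional K L]
    {n q : ℕ} (hn : 1 ≤ n)
    {ξ : L} (hξ : IsPrimitiveRoot ξ n) (hq : q.Prime) (hqn : q ∣ n) {a : K}
    (ha : algebraMap K L a = ξ ^ q) (htop : Algebra.adjoin K {ξ} = ⊤) :
    IsCyclic (L ≃ₐ[K] L) := by
  have : NeZero q := ⟨hq.ne_zero⟩
  have hξ0 : ξ ≠ 0 := hξ.ne_zero (by omega)
  have hζ : IsPrimitiveRoot (ξ ^ (n / q)) q := by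
    refine hξ.pow hn ?_
    rw [Nat.div_mul_cancel hqn]
  by_cases hA : q ∣ n / q
  · -- case A
    have hfix : ∀ (s : L ≃ₐ[K] L) (z : L), z ^ q = 1 → s z = z := by
      intro s z hz
      obtain ⟨i, -, rfl⟩ := hζ.eq_pow_of_pow_eq_one hz
      have h1 : ξ ^ (n / q) = algebraMap K L (a ^ (n / q / q)) := by
        rw [map_pow, ha, ← pow_mul, Nat.mul_div_cancel' hA]
      rw [h1, ← map_pow, AlgEquiv.commutes]
    have hr : ∀ s : L ≃ₐ[K] L, (s ξ / ξ) ^ q = 1 := by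
      intro s
      have h1 : s (ξ ^ q) = ξ ^ q := by rw [← ha, AlgEquiv.commutes]
      rw [div_pow, ← map_pow, h1, div_self (pow_ne_zero _ hξ0)]
    let f : (L ≃ₐ[K] L) →* L :=
      { toFun := fun s => s ξ / ξ
        map_one' := by
          show ξ / ξ = 1
          exact div_self hξ0
        map_mul' := fun s t => by
          show s (t ξ) / ξ = s ξ / ξ * (t ξ / ξ)
          have h1 := hfix s _ (hr t)
          rw [map_div₀] at h1
          have hs0 : s ξ ≠ 0 := (map_ne_zero s).2 hξ0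
          rw [div_eq_iff hs0] at h1
          rw [h1]
          field_simp }
    refine isCyclic_of_injective_ringHom f fun s t hst => ?_
    have h1 : s ξ / ξ = t ξ / ξ := hst
    have h2 : s ξ = t ξ := by
      field_simp at h1
      exact h1
    have h3 : t⁻¹ * s = 1 := gal_one htop _ (by
      show t.symm (s ξ) = ξ
      rw [h2, AlgEquiv.symm_apply_apply])
    exact (inv_mul_eq_one.1 h3).symm
  · -- case B
    have : Fact q.Prime := ⟨hq⟩
    have hcop : Nat.Coprime q (n / q) := (Nat.Prime.coprime_iff_not_dvd hq).2 hA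
    let f : (L ≃ₐ[K] L) →* ZMod q := (Units.coeHom (ZMod q)).comp (hζ.autToPow K)
    refine isCyclic_of_injective_ringHom f ?_
    refine Function.Injective.comp (g := fun u : (ZMod q)ˣ => (u : ZMod q)) Units.val_injective ?_
    rw [injective_iff_map_eq_one]
    intro s hs
    have h1 : s (ξ ^ (n / q)) = ξ ^ (n / q) := by
      rw [← hζ.autToPow_spec K s, hs]
      rw [Units.val_one, ZMod.val_one, pow_one]
    refine gal_one htop s ?_
    have h2 : s (ξ ^ q) = ξ ^ q := by rw [← ha, AlgEquiv.commutes]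
    -- (s ξ / ξ) ^ q = 1, (s ξ / ξ) ^ (n/q) = 1
    have h3 : (s ξ / ξ) ^ q = 1 := by
      rw [div_pow, ← map_pow, h2, div_self (pow_ne_zero _ hξ0)]
    have h4 : (s ξ / ξ) ^ (n / q) = 1 := by
      rw [div_pow, ← map_pow, h1, div_self (pow_ne_zero _ hξ0)]
    have h5 : s ξ / ξ = 1 := by
      have h6 := Nat.dvd_gcd (orderOf_dvd_of_pow_eq_one h3) (orderOf_dvd_of_pow_eq_one h4)
      rw [hcop.gcd_eq_one, Nat.dvd_one, orderOf_eq_one_iff] at h6
      exact h6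
    exact (div_eq_one_iff_eq hξ0).1 h5

private theorem gal_abs {K L : Type} [Field K] [Field L] [Algebra K L] [CharZero K] {n q : ℕ}
    (hn : 1 ≤ n) {ξ : L} (hξ : IsPrimitiveRoot ξ n) (hq : q.Prime) (hqn : q ∣ n) {a : K}
    (ha : algebraMap K L a = ξ ^ q) (htop : Algebra.adjoin K {ξ} = ⊤)
    (hne : ξ ∉ Set.range (algebraMap K L)) :
    ∃ s : L ≃ₐ[K] L, (∀ y, s y = y ↔ y ∈ Set.range (algebraMap K L)) ∧
      ∀ k : ℕ, ∃ η : L, η ^ n = 1 ∧ s η = (ξ ^ (n / q)) ^ k * η := by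
  have : NeZero n := ⟨by omega⟩
  have : NeZero q := ⟨hq.ne_zero⟩
  have : Fact q.Prime := ⟨hq⟩
  have hξ0 : ξ ≠ 0 := hξ.ne_zero (by omega)
  have hc : IsCyclotomicExtension {n} K L := by
    rw [IsCyclotomicExtension.iff_adjoin_eq_top]
    refine ⟨fun r hr _ => ?_, ?_⟩
    · rw [Set.mem_singleton_iff] at hr
      rw [hr]
      exact ⟨ξ, hξ⟩
    · rw [eq_top_iff, ← htop]
      refine Algebra.adjoin_mono ?_
      rw [Set.singleton_subset_iff]
      exact ⟨n, rfl, by omega, hξ.pow_eq_one⟩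
  have : FiniteDimensional K L := IsCyclotomicExtension.finiteDimensional {n} K L
  have : IsGalois K L := IsCyclotomicExtension.isGalois {n} K L
  obtain ⟨s, hs⟩ := (gal_cyc hn hξ hq hqn ha htop).exists_generator
  have hfix : ∀ y, s y = y ↔ y ∈ Set.range (algebraMap K L) := by
    intro y
    refine ⟨fun hy => ?_, fun ⟨z, hz⟩ => by rw [← hz, AlgEquiv.commutes]⟩
    rw [IsGalois.mem_range_algebraMap_iff_fixed]
    intro f
    have h1 : s ∈ MulAction.stabilizer (L ≃ₐ[K] L) y := hy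
    have h2 : f ∈ MulAction.stabilizer (L ≃ₐ[K] L) y :=
      (Subgroup.zpowers_le.2 h1) (hs f)
    exact h2
  refine ⟨s, hfix, fun k => ?_⟩
  have hζ : IsPrimitiveRoot (ξ ^ (n / q)) q := by
    refine hξ.pow hn ?_
    rw [Nat.div_mul_cancel hqn]
  have h1 : s (ξ ^ q) = ξ ^ q := by rw [← ha, AlgEquiv.commutes]
  have h2 : (s ξ / ξ) ^ q = 1 := by
    rw [div_pow, ← map_pow, h1, div_self (pow_ne_zero _ hξ0)]
  obtain ⟨c, -, hc2⟩ := hζ.eq_pow_of_pow_eq_one h2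
  have h3 : s ξ = (ξ ^ (n / q)) ^ c * ξ := by
    rw [hc2, div_mul_cancel₀ _ hξ0]
  have hc0 : (c : ZMod q) ≠ 0 := by
    intro h0
    rw [ZMod.natCast_eq_zero_iff] at h0
    obtain ⟨t, rfl⟩ := h0
    rw [pow_mul, hζ.pow_eq_one, one_pow, one_mul] at h3
    exact hne ((hfix ξ).1 h3)
  refine ⟨ξ ^ ((c : ZMod q)⁻¹ * k).val, ?_, ?_⟩
  · rw [← pow_mul, mul_comm, pow_mul, hξ.pow_eq_one, one_pow]
  · rw [map_pow, h3, mul_pow, ← pow_mul]
    congr 1
    have h4 : c * ((c : ZMod q)⁻¹ * k).val ≡ k [MOD q] := by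
      rw [← ZMod.natCast_eq_natCast_iff, Nat.cast_mul, ZMod.natCast_zmod_val, ← mul_assoc,
        mul_inv_cancel₀ hc0, one_mul]
    exact pow_eq_pow_of_modEq h4 hζ.pow_eq_one

/-- A system without the conditions on the degree and without coprimality. -/
structure Sy {K : Type} [Field K] [NumberField K] {r : ℕ} {Ω : Type} [Field Ω] [Algebra K Ω] (b : Fin r → 𝓞 K) (n : ℕ)
    (m : Fin r → ℕ) (ξ : Ω) (x : Fin r → Ω) : Prop where
  hn : 1 ≤ n
  hm : ∀ i, 1 ≤ m i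
  prim : IsPrimitiveRoot ξ n
  hx : ∀ i, x i ^ m i = algebraMap (𝓞 K) Ω (b i)

variable {K : Type} [Field K] [NumberField K] {r : ℕ} {Ω : Type} [Field Ω] [CharZero Ω]
  [Algebra K Ω] {b : Fin r → 𝓞 K} {n : ℕ} {m : Fin r → ℕ} {ξ : Ω} {x : Fin r → Ω}

omit [CharZero Ω] in
theorem Sy.integral_ξ (h : Sy b n m ξ x) : IsIntegral ℤ ξ := by
  refine IsIntegral.of_pow (n := n) h.hn ?_
  rw [h.prim.pow_eq_one]
  exact isIntegral_one

omit [CharZero Ω] in
theorem Sy.integral_x (h : Sy b n m ξ x) (i : Fin r) : IsIntegral ℤ (x i) := by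
  refine IsIntegral.of_pow (n := m i) (h.hm i) ?_
  rw [h.hx]
  exact ints_b b i

theorem Sy.fin_A (h : Sy b n m ξ x) : FiniteDimensional K (AA K ξ) :=
  IntermediateField.adjoin.finiteDimensional (h.integral_ξ.tower_top)

theorem Sy.fin_F (h : Sy b n m ξ x) : FiniteDimensional K (FF K ξ x) := by
  unfold FF
  have hfin : Finite (({ξ} ∪ Set.range x : Set Ω)) :=
    ((Set.finite_singleton ξ).union (Set.finite_range x)).to_subtype
  refine IntermediateField.finiteDimensional_adjoin (S := {ξ} ∪ Set.range x) ?_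
  rintro y (hy | ⟨i, rfl⟩)
  · rw [Set.mem_singleton_iff] at hy
    rw [hy]
    exact h.integral_ξ.tower_top
  · exact (h.integral_x i).tower_top

theorem Sy.nf_A (h : Sy b n m ξ x) : NumberField (AA K ξ) :=
  have := h.fin_A
  nf_of_fin _

theorem Sy.nf_F (h : Sy b n m ξ x) : NumberField (FF K ξ x) :=
  have := h.fin_F
  nf_of_fin _

private theorem fc_pred {F : Type} [Field F] [NumberField F] (s : 𝓞 F ≃+* 𝓞 F) (q : ℕ)
    (hq : q.Prime) : (∀ y z : 𝓞 F, (∃ c, s y ^ q - y ^ q = q * c) →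
      (∃ c, s z ^ q - z ^ q = q * c) → ∃ c, s (y + z) ^ q - (y + z) ^ q = q * c) ∧
    (∀ y z : 𝓞 F, (∃ c, s y ^ q - y ^ q = q * c) →
      (∃ c, s z ^ q - z ^ q = q * c) → ∃ c, s (y * z) ^ q - (y * z) ^ q = q * c) ∧
    ∀ y : 𝓞 F, (∃ c, s y ^ q - y ^ q = q * c) → ∃ c, s (-y) ^ q - (-y) ^ q = q * c := by
  refine ⟨?_, ?_, ?_⟩
  · rintro y z ⟨c, hc⟩ ⟨d, hd⟩
    obtain ⟨t, ht⟩ := exists_add_pow_prime_eq hq (s y) (s z)
    obtain ⟨u, hu⟩ := exists_add_pow_prime_eq hq y z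
    refine ⟨c + d + s y * s z * t - y * z * u, ?_⟩
    rw [map_add, ht, hu]
    linear_combination hc + hd
  · rintro y z ⟨c, hc⟩ ⟨d, hd⟩
    refine ⟨c * s z ^ q + y ^ q * d, ?_⟩
    rw [map_mul, mul_pow, mul_pow]
    linear_combination (s z ^ q) * hc + y ^ q * hd
  · rintro y ⟨c, hc⟩
    refine ⟨(-1) ^ q * c, ?_⟩
    rw [map_neg, neg_pow, neg_pow y]
    linear_combination (-1) ^ q * hc

/-- `N E ∏ m_i` kills the integers of `K(ξ, x)` modulo every ring which contains `𝓞 K`, `ξ` and the `x i`. -/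
theorem Sy.kill_ring [Algebra.IsAlgebraic K Ω] (h : Sy b n m ξ x) (N : ℕ)
    (hN : ∀ (A : Type) [Field A] [NumberField A] [Algebra K A] (n : ℕ) (ξ : A), 1 ≤ n →
      IsPrimitiveRoot ξ n → IntermediateField.adjoin K {ξ} = ⊤ → ∀ (R : Subring A),
      (∀ s : 𝓞 K, algebraMap (𝓞 K) A s ∈ R) → ξ ∈ R → ∀ a : 𝓞 A, (N : A) * (a : A) ∈ R)
    (E : ℕ) (hE : (∏ i, b i) ∣ (E : 𝓞 K)) (R : Subring Ω)
    (hK : ∀ s : 𝓞 K, algebraMap (𝓞 K) Ω s ∈ R) (hξ : ξ ∈ R) (hx : ∀ i, x i ∈ R) (z : Ω)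
    (hz : z ∈ FF K ξ x) (hzi : IsIntegral ℤ z) :
    ((N * E * ∏ i, m i : ℕ) : Ω) * z ∈ R := by
  have := h.nf_A
  -- the integers of `K(ξ)`
  have hA : ∀ a ∈ intOf (AA K ξ), (N : Ω) * a ∈ R := by
    intro a ha
    rw [mem_intOf] at ha
    obtain ⟨a', ha'⟩ : ∃ a' : AA K ξ, (a' : Ω) = a := ⟨⟨a, ha.1⟩, rfl⟩
    have hai : IsIntegral ℤ a' := by
      refine (isIntegral_algHom_iff (IsScalarTower.toAlgHom ℤ (AA K ξ) Ω)
        (algebraMap (AA K ξ) Ω).injective).1 ?_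
      change IsIntegral ℤ (a' : Ω)
      rw [ha']
      exact ha.2
    have h1 := hN (AA K ξ) n ⟨ξ, mem_AA ξ⟩ h.hn (IsPrimitiveRoot.of_map_of_injective
      (f := algebraMap (AA K ξ) Ω) h.prim (algebraMap (AA K ξ) Ω).injective) (gen_top ξ)
      (R.comap (algebraMap (AA K ξ) Ω)) (fun s => hK s) hξ ⟨a', hai⟩
    have h2 : algebraMap (AA K ξ) Ω ((N : AA K ξ) * a') ∈ R := h1
    rw [map_mul, map_natCast] at h2
    rw [← ha']
    exact h2
  have h1 := kill_F h.hm h.hx z ((mem_intOf _ _).2 ⟨hz, hzi⟩)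
  have h2 := Pool.Agent.H11.FR.mem_sup_closure _ _ _ h1
  have h3 : ∀ w ∈ AddSubgroup.closure {t : Ω | ∃ a ∈ intOf (AA K ξ),
      ∃ w ∈ Subring.closure (Set.range x), t = a * w}, (N : Ω) * w ∈ R := by
    intro w hw
    induction hw using AddSubgroup.closure_induction with
    | mem w hw =>
      obtain ⟨a, ha, w, hw, rfl⟩ := hw
      rw [← mul_assoc]
      refine R.mul_mem (hA a ha) ?_
      have h4 : Subring.closure (Set.range x) ≤ R := by
        rw [Subring.closure_le]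
        rintro _ ⟨i, rfl⟩
        exact hx i
      exact h4 hw
    | zero =>
      rw [mul_zero]
      exact R.zero_mem
    | add u v _ _ hu hv =>
      rw [mul_add]
      exact R.add_mem hu hv
    | neg u _ hu =>
      rw [mul_neg]
      exact R.neg_mem hu
  have h4 := h3 _ h2
  obtain ⟨c, hc⟩ := hE
  have h5 : ((N * E * ∏ i, m i : ℕ) : Ω) * z = algebraMap (𝓞 K) Ω c *
      ((N : Ω) * (algebraMap (𝓞 K) Ω (∏ i, (m i : 𝓞 K) * b i) * z)) := by
    have h6 : ((E : ℕ) : Ω) = algebraMap (𝓞 K) Ω (∏ i, b i) * algebraMap (𝓞 K) Ω c := by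
      rw [← map_mul, ← hc, map_natCast]
    rw [Finset.prod_mul_distrib, map_mul (algebraMap (𝓞 K) Ω), Nat.cast_mul, Nat.cast_mul,
      Nat.cast_prod, h6]
    have h7 : algebraMap (𝓞 K) Ω (∏ i, (m i : 𝓞 K)) = ∏ i, (m i : Ω) := by
      rw [map_prod]
      exact Finset.prod_congr rfl fun i _ => map_natCast _ _
    rw [h7]
    ring
  rw [h5]
  exact R.mul_mem (hK c) h4

theorem Sy.frob_cong [Algebra.IsAlgebraic K Ω] (h : Sy b n m ξ x)
    [NumberField (FF K ξ x)] (N : ℕ)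
    (hN : ∀ (A : Type) [Field A] [NumberField A] [Algebra K A] (n : ℕ) (ξ : A), 1 ≤ n →
      IsPrimitiveRoot ξ n → IntermediateField.adjoin K {ξ} = ⊤ → ∀ (R : Subring A),
      (∀ s : 𝓞 K, algebraMap (𝓞 K) A s ∈ R) → ξ ∈ R → ∀ a : 𝓞 A, (N : A) * (a : A) ∈ R)
    (E : ℕ) (hE : (∏ i, b i) ∣ (E : 𝓞 K)) (q : ℕ) (hq : q.Prime)
    (hqN : ¬ q ∣ N) (hqE : ¬ q ∣ E) (hqm : ∀ i, ¬ q ∣ m i) (s : FF K ξ x ≃+* FF K ξ x)
    (hsK : ∀ y : K, s (algebraMap K (FF K ξ x) y) = algebraMap K (FF K ξ x) y)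
    (hsx : ∀ i, s (xF K ξ x i) = xF K ξ x i) (hsξ : s (ξF K ξ x ^ q) = ξF K ξ x ^ q) :
    ∀ y : 𝓞 (FF K ξ x), ∃ c : 𝓞 (FF K ξ x),
      s (y : FF K ξ x) ^ q - (y : FF K ξ x) ^ q = q * (c : FF K ξ x) := by
  obtain ⟨s', hs'⟩ : ∃ s' : 𝓞 (FF K ξ x) ≃+* 𝓞 (FF K ξ x), ∀ y,
      algebraMap (𝓞 (FF K ξ x)) (FF K ξ x) (s' y) = s (algebraMap (𝓞 (FF K ξ x)) (FF K ξ x) y) :=
    ⟨RingOfIntegers.mapRingEquiv s, fun y => rfl⟩
  obtain ⟨padd, pmul, pneg⟩ := fc_pred s' q hq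
  obtain ⟨R, hR⟩ : ∃ R : Subring Ω, ∀ z : Ω, z ∈ R ↔ ∃ y : 𝓞 (FF K ξ x),
      ((y : FF K ξ x) : Ω) = z ∧ ∃ c, s' y ^ q - y ^ q = q * c := by
    refine ⟨{ carrier := {z | ∃ y : 𝓞 (FF K ξ x), ((y : FF K ξ x) : Ω) = z ∧
                ∃ c, s' y ^ q - y ^ q = q * c}
              zero_mem' := ⟨0, by simp, 0, by rw [map_zero, sub_self, mul_zero]⟩
              one_mem' := ⟨1, by simp, 0, by rw [map_one, sub_self, mul_zero]⟩
              add_mem' := ?_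
              neg_mem' := ?_
              mul_mem' := ?_ }, fun z => Iff.rfl⟩
    · rintro _ _ ⟨y, rfl, hy⟩ ⟨t, rfl, ht⟩
      exact ⟨y * t, rfl, pmul y t hy ht⟩
    · rintro _ _ ⟨y, rfl, hy⟩ ⟨t, rfl, ht⟩
      exact ⟨y + t, rfl, padd y t hy ht⟩
    · rintro _ ⟨y, rfl, hy⟩
      exact ⟨-y, rfl, pneg y hy⟩
  have hgen : ∀ (w : FF K ξ x) (hw : IsIntegral ℤ (w : Ω)), s (w ^ q) = w ^ q → (w : Ω) ∈ R := by
    intro w hw hsw
    have hint : IsIntegral ℤ w :=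
      (isIntegral_algHom_iff (IsScalarTower.toAlgHom ℤ (FF K ξ x) Ω)
        (algebraMap (FF K ξ x) Ω).injective).1 hw
    obtain ⟨t, ht⟩ : ∃ t : 𝓞 (FF K ξ x), algebraMap (𝓞 (FF K ξ x)) (FF K ξ x) t = w :=
      ⟨⟨w, hint⟩, rfl⟩
    rw [hR]
    refine ⟨t, congrArg Subtype.val ht, 0, ?_⟩
    apply RingOfIntegers.coe_injective
    rw [mul_zero, map_sub, map_pow, map_pow, hs', map_zero, ht, ← map_pow, hsw, sub_self]
  have hKR : ∀ t : 𝓞 K, algebraMap (𝓞 K) Ω t ∈ R := by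
    intro t
    refine hgen (algebraMap K (FF K ξ x) (t : K)) (Pool.Agent.H11.FR.isIntegral_algebraMap_int t) ?_
    rw [map_pow, hsK]
  have hξR : ξ ∈ R := hgen (ξF K ξ x) h.integral_ξ hsξ
  have hxR : ∀ i, x i ∈ R := fun i => hgen (xF K ξ x i) (h.integral_x i) (by rw [map_pow, hsx])
  intro y
  have hyi : IsIntegral ℤ ((y : FF K ξ x) : Ω) :=
    y.isIntegral_coe.map (algebraMap (FF K ξ x) Ω).toIntAlgHom
  have h1 := h.kill_ring N hN E hE R hKR hξR hxR _ (y : FF K ξ x).2 hyi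
  obtain ⟨M, hM⟩ : ∃ M, M = N * E * ∏ i, m i := ⟨_, rfl⟩
  rw [← hM, hR] at h1
  obtain ⟨t, ht, c, hc⟩ := h1
  have htN : t = (M : 𝓞 (FF K ξ x)) * y := by
    apply RingOfIntegers.coe_injective
    apply Subtype.ext
    rw [map_mul, map_natCast]
    exact ht
  have hcop : Nat.Coprime (M ^ q) q := by
    apply Nat.Coprime.pow_left
    rw [hM]
    refine Nat.Coprime.mul_left (Nat.Coprime.mul_left
      ((Nat.Prime.coprime_iff_not_dvd hq).2 hqN).symm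
      ((Nat.Prime.coprime_iff_not_dvd hq).2 hqE).symm) ?_
    exact (Nat.Coprime.prod_right fun i _ => (Nat.Prime.coprime_iff_not_dvd hq).2 (hqm i)).symm
  have hbez : ∃ u v : ℤ, u * (M ^ q : ℕ) + v * q = 1 := by
    have h1 : IsCoprime ((M ^ q : ℕ) : ℤ) (q : ℤ) := Nat.isCoprime_iff_coprime.2 hcop
    exact h1
  obtain ⟨u, v, huv⟩ := hbez
  have huv' : (u : 𝓞 (FF K ξ x)) * (M : 𝓞 (FF K ξ x)) ^ q + v * q = 1 := by
    have h1 := congrArg (fun z : ℤ => (z : 𝓞 (FF K ξ x))) huv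
    push_cast at h1
    exact h1
  rw [htN, map_mul, map_natCast, mul_pow, mul_pow] at hc
  refine ⟨u * c + v * (s' y ^ q - y ^ q), ?_⟩
  have h2 : s' y ^ q - y ^ q = q * (u * c + v * (s' y ^ q - y ^ q)) := by
    linear_combination (-(s' y ^ q - y ^ q)) * huv' + u * hc
  have h3 := congrArg (algebraMap (𝓞 (FF K ξ x)) (FF K ξ x)) h2
  rw [map_sub, map_pow, map_pow, hs', map_mul, map_natCast] at h3
  exact h3

theorem Sy.exists_s (h : Sy b n m ξ x) (q : ℕ) (hq : q.Prime) (hqn : q ∣ n)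
    (hξ : ξ ∉ FF K (ξ ^ q) x) :
    ∃ s : FF K ξ x ≃+* FF K ξ x, (∀ y : FF K ξ x, s y = y ↔ (y : Ω) ∈ FF K (ξ ^ q) x) ∧
      ∀ k : ℕ, ∃ η : FF K ξ x, η ^ n = 1 ∧ s η = (ξF K ξ x ^ (n / q)) ^ k * η := by
  have hle : FF K (ξ ^ q) x ≤ FF K ξ x := FF_mono ξ (ξ ^ q) x (pow_mem (mem_FF_ξ ξ x) q)
  let alg : Algebra (FF K (ξ ^ q) x) (FF K ξ x) :=
    (IntermediateField.inclusion hle).toRingHom.toAlgebra
  have tow : IsScalarTower (FF K (ξ ^ q) x) (FF K ξ x) Ω := IsScalarTower.of_algebraMap_eq' rfl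
  have htop : Algebra.adjoin (FF K (ξ ^ q) x) {ξF K ξ x} = ⊤ := by
    have halg : IsIntegral (FF K (ξ ^ q) x) ξ := h.integral_ξ.tower_top
    have h1 : ∀ y ∈ FF K ξ x, y ∈ IntermediateField.adjoin (FF K (ξ ^ q) x) {ξ} := by
      intro y hy
      have h2 : IntermediateField.adjoin K ({ξ} ∪ Set.range x) ≤
          (IntermediateField.adjoin (FF K (ξ ^ q) x) {ξ}).restrictScalars K := by
        rw [IntermediateField.adjoin_le_iff]
        rintro z (hz | ⟨i, rfl⟩)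
        · rw [Set.mem_singleton_iff] at hz
          rw [hz]
          exact IntermediateField.mem_adjoin_simple_self _ ξ
        · exact (IntermediateField.adjoin (FF K (ξ ^ q) x) {ξ}).algebraMap_mem
            ⟨x i, mem_FF (ξ ^ q) x i⟩
      exact h2 hy
    rw [Algebra.eq_top_iff]
    intro y
    have h3 := h1 y y.2
    rw [← IntermediateField.mem_toSubalgebra,
      IntermediateField.adjoin_simple_toSubalgebra_of_isAlgebraic halg.isAlgebraic] at h3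
    have h4 : (Algebra.adjoin (FF K (ξ ^ q) x) {ξF K ξ x}).map
        (IsScalarTower.toAlgHom (FF K (ξ ^ q) x) (FF K ξ x) Ω) =
        Algebra.adjoin (FF K (ξ ^ q) x) {ξ} := by
      rw [AlgHom.map_adjoin, Set.image_singleton]
      rfl
    rw [← h4] at h3
    obtain ⟨z, hz, hzy⟩ := h3
    have h5 : z = y := Subtype.ext hzy
    rw [← h5]
    exact hz
  have hξF : IsPrimitiveRoot (ξF K ξ x) n :=
    IsPrimitiveRoot.of_map_of_injective (f := (FF K ξ x).val) h.prim (FF K ξ x).val.injective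
  obtain ⟨s, hs, hk⟩ := gal_abs h.hn hξF hq hqn
    (a := (⟨ξ ^ q, mem_FF_ξ _ x⟩ : FF K (ξ ^ q) x)) (Subtype.ext rfl) htop
    (fun ⟨z, hz⟩ => hξ (by
      have h1 : (z : Ω) = ξ := congrArg Subtype.val hz
      have h2 := z.2
      rwa [h1] at h2))
  exact ⟨s.toRingEquiv, fun y => (hs y).trans ⟨fun ⟨z, hz⟩ => by
    rw [← hz]
    exact z.2, fun hy => ⟨⟨y, hy⟩, rfl⟩⟩, hk⟩

private theorem ext_hom {F Ω M : Type} [Field F] [Field Ω] [Field M] [Algebra F Ω]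
    [Algebra.IsAlgebraic F Ω] [IsAlgClosed M] (f : F →+* M) :
    ∃ σ : Ω →+* M, ∀ y, σ (algebraMap F Ω y) = f y := by
  let _ : Algebra F M := f.toAlgebra
  exact ⟨(IsAlgClosed.lift : Ω →ₐ[F] M), fun y => (IsAlgClosed.lift : Ω →ₐ[F] M).commutes y⟩

private theorem ext_aeval {F Ω : Type} [Field F] [Field Ω] [Algebra F Ω] (s : F ≃+* F)
    (σ : Ω →+* Ω) (hσ : ∀ y, σ (algebraMap F Ω y) = algebraMap F Ω (s y))
    (f : Polynomial F) (α : Ω) (hf : Polynomial.aeval α f = 0) :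
    Polynomial.aeval (σ α) (f.map (s : F →+* F)) = 0 := by
  rw [Polynomial.aeval_def, Polynomial.eval₂_map]
  have h1 : (algebraMap F Ω).comp (s : F →+* F) = σ.comp (algebraMap F Ω) := by
    ext y
    exact (hσ y).symm
  rw [h1, ← Polynomial.hom_eval₂, ← Polynomial.aeval_def, hf, map_zero]

theorem Sy.desc [Algebra.IsAlgebraic K Ω] [IsAlgClosed Ω] (h : Sy b n m ξ x) (N : ℕ)
    (hN : ∀ (A : Type) [Field A] [NumberField A] [Algebra K A] (n : ℕ) (ξ : A), 1 ≤ n →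
      IsPrimitiveRoot ξ n → IntermediateField.adjoin K {ξ} = ⊤ → ∀ (R : Subring A),
      (∀ s : 𝓞 K, algebraMap (𝓞 K) A s ∈ R) → ξ ∈ R → ∀ a : 𝓞 A, (N : A) * (a : A) ∈ R)
    (E : ℕ) (hE : (∏ i, b i) ∣ (E : 𝓞 K)) (q : ℕ) (hq : q.Prime) (hq2 : 3 ≤ q) (hqn : q ∣ n)
    (hqN : ¬ q ∣ N) (hqE : ¬ q ∣ E) (hqm : ∀ i, ¬ q ∣ m i)
    (α : Ω) (d : ℕ) (hd : (minpoly (FF K ξ x) α).natDegree = d)
    (hh : 2 * q * d * absLogHeight₁ α + d * Real.log 2 < Real.log q) :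
    ∃ η : Ω, η ^ n = 1 ∧ (minpoly (FF K (ξ ^ q) x) (η * α)).natDegree ≤ d := by
  by_cases hξ : ξ ∈ FF K (ξ ^ q) x
  · have h1 : FF K (ξ ^ q) x = FF K ξ x := le_antisymm
      (FF_mono ξ (ξ ^ q) x (pow_mem (mem_FF_ξ ξ x) q)) (FF_mono (ξ ^ q) ξ x hξ)
    refine ⟨1, one_pow _, ?_⟩
    rw [h1, one_mul]
    exact hd.le
  have := h.nf_F
  obtain ⟨s, hs1, hs2⟩ := h.exists_s q hq hqn hξ
  have hprim : IsPrimitiveRoot (ξF K ξ x) n :=
    IsPrimitiveRoot.of_map_of_injective (f := algebraMap (FF K ξ x) Ω) h.prim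
      (algebraMap (FF K ξ x) Ω).injective
  have hζ : IsPrimitiveRoot (ξF K ξ x ^ (n / q)) q := by
    refine hprim.pow h.hn ?_
    rw [Nat.div_mul_cancel hqn]
  have hsx : ∀ i, s (xF K ξ x i) = xF K ξ x i := fun i => (hs1 _).2 (mem_FF (ξ ^ q) x i)
  have hsξ : s (ξF K ξ x ^ q) = ξF K ξ x ^ q := (hs1 _).2 (mem_FF_ξ (ξ ^ q) x)
  have hfr := h.frob_cong N hN E hE q hq hqN hqE hqm s
    (fun y => (hs1 _).2 ((FF K (ξ ^ q) x).algebraMap_mem y)) hsx hsξ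
  have hαK : IsIntegral K α := Algebra.IsIntegral.isIntegral α
  have hαQ : IsIntegral ℚ α := isIntegral_trans (R := ℚ) (A := K) α hαK
  have hαF : IsIntegral (FF K ξ x) α := hαK.tower_top
  have halg : Algebra.IsAlgebraic (FF K ξ x) Ω :=
    Algebra.IsAlgebraic.tower_top (K := K) (FF K ξ x)
  obtain ⟨σ, hσ⟩ := ext_hom (F := FF K ξ x) (Ω := Ω) (M := Ω)
    ((algebraMap (FF K ξ x) Ω).comp (s : FF K ξ x →+* FF K ξ x))
  have hσ' : ∀ y, σ (algebraMap (FF K ξ x) Ω y) = algebraMap (FF K ξ x) Ω (s y) := hσ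
  have hβ := ext_aeval s σ hσ' (minpoly (FF K ξ x) α) α (minpoly.aeval _ _)
  obtain ⟨k, hk⟩ := Pool.Agent.H72.BE.desc_height q hq hq2 _ hζ s hfr α (σ α) hαQ d hd hβ hh
  obtain ⟨η, hηn, hη⟩ := hs2 k
  have hmin : minpoly (FF K ξ x) (algebraMap (FF K ξ x) Ω ((ξF K ξ x ^ (n / q)) ^ k) * σ α) =
      minpoly (FF K ξ x) α :=
    (minpoly.eq_of_irreducible_of_monic (minpoly.irreducible hαF) hk (minpoly.monic hαF)).symm
  have hnorm : Normal (FF K ξ x) Ω := by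
    have : IsAlgClosure (FF K ξ x) Ω := ⟨inferInstance, inferInstance⟩
    exact IsAlgClosure.normal (FF K ξ x) Ω
  obtain ⟨τ, hτ⟩ := isConjRoot_iff_exists_algEquiv.1 hmin
  obtain ⟨ρ, hρ⟩ : ∃ ρ : Ω ≃ₐ[FF K ξ x] Ω,
      ρ (algebraMap (FF K ξ x) Ω ((ξF K ξ x ^ (n / q)) ^ k) * σ α) = α :=
    ⟨τ.symm, by rw [← hτ, AlgEquiv.symm_apply_apply]⟩
  have hn0 : n ≠ 0 := by have := h.hn; omega
  have hη0 : η ≠ 0 := by
    rintro rfl
    rw [zero_pow hn0] at hηn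
    exact zero_ne_one hηn
  set ηΩ : Ω := algebraMap (FF K ξ x) Ω η with hηΩ
  have hη0' : ηΩ ≠ 0 := (map_ne_zero _).2 hη0
  -- the homomorphism `ρ ∘ σ`
  set ω : Ω →+* Ω := (ρ : Ω →+* Ω).comp σ with hω
  have hωF : ∀ y, ω (algebraMap (FF K ξ x) Ω y) = algebraMap (FF K ξ x) Ω (s y) := by
    intro y
    show ρ (σ (algebraMap (FF K ξ x) Ω y)) = _
    rw [hσ', AlgEquiv.commutes]
  have hωα : ω (ηΩ * α) = ηΩ * α := by
    show ρ (σ (ηΩ * α)) = _
    rw [map_mul, hηΩ, hσ', hη]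
    have h1 : ρ (algebraMap (FF K ξ x) Ω ((ξF K ξ x ^ (n / q)) ^ k * η) * σ α) =
        ρ (algebraMap (FF K ξ x) Ω ((ξF K ξ x ^ (n / q)) ^ k) * σ α) * algebraMap (FF K ξ x) Ω η := by
      rw [← AlgEquiv.commutes ρ η, ← map_mul, map_mul (algebraMap (FF K ξ x) Ω)]
      congr 1
      ring
    rw [h1, hρ, mul_comm]
  have hα'F : IsIntegral (FF K ξ x) (ηΩ * α) :=
    (Algebra.IsIntegral.isIntegral (R := FF K ξ x) (ηΩ * α))
  set f := minpoly (FF K ξ x) (ηΩ * α) with hf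
  have hfmon : f.Monic := minpoly.monic hα'F
  have hfd : f.natDegree ≤ d := by
    have h1 : Polynomial.aeval (ηΩ * α) ((minpoly (FF K ξ x) α).scaleRoots η) = 0 :=
      Polynomial.scaleRoots_aeval_eq_zero (minpoly.aeval _ _)
    have h2 := minpoly.dvd _ _ h1
    have h3 : (minpoly (FF K ξ x) α).scaleRoots η ≠ 0 :=
      ((Polynomial.monic_scaleRoots_iff η).2 (minpoly.monic hαF)).ne_zero
    have h4 := Polynomial.natDegree_le_of_dvd h2 h3
    rw [Polynomial.natDegree_scaleRoots, hd] at h4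
    exact h4
  have hfs : f.map (s : FF K ξ x →+* FF K ξ x) = f := by
    have h1 := ext_aeval s ω hωF f (ηΩ * α) (minpoly.aeval _ _)
    rw [hωα] at h1
    have h2 := minpoly.dvd _ _ h1
    have h3 : (f.map (s : FF K ξ x →+* FF K ξ x)).natDegree = f.natDegree :=
      hfmon.natDegree_map _
    exact Polynomial.eq_of_monic_of_dvd_of_natDegree_le hfmon (hfmon.map _) h2 h3.le
  have hcoef : ∀ i, ((f.coeff i : FF K ξ x) : Ω) ∈ FF K (ξ ^ q) x := by
    intro i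
    rw [← hs1]
    have h1 := congrArg (fun p => Polynomial.coeff p i) hfs
    rw [Polynomial.coeff_map] at h1
    exact h1
  have hlift : f.map (algebraMap (FF K ξ x) Ω) ∈
      Polynomial.lifts (algebraMap (FF K (ξ ^ q) x) Ω) := by
    rw [Polynomial.lifts_iff_coeff_lifts]
    intro i
    rw [Polynomial.coeff_map]
    exact ⟨⟨_, hcoef i⟩, rfl⟩
  obtain ⟨g, hg1, hg2, hg3⟩ := Polynomial.lifts_and_natDegree_eq_and_monic hlift (hfmon.map _)
  refine ⟨ηΩ, ?_, ?_⟩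
  · rw [hηΩ, ← map_pow, hηn, map_one]
  · have h1 : Polynomial.aeval (ηΩ * α) g = 0 := by
      rw [Polynomial.aeval_def, ← Polynomial.eval_map, hg1, Polynomial.eval_map,
        ← Polynomial.aeval_def]
      exact minpoly.aeval _ _
    have h2 := Polynomial.natDegree_le_of_dvd (minpoly.dvd _ _ h1) hg3.ne_zero
    rw [hg2, hfmon.natDegree_map] at h2
    exact h2.trans hfd

theorem cyc_Q (A : Type) [Field A] [NumberField A] [inst : Algebra ℚ A] (n : ℕ) (ξ : A) (hn : 1 ≤ n)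
    (hξ : IsPrimitiveRoot ξ n) (hgen : IntermediateField.adjoin ℚ {ξ} = ⊤) (R : Subring A)
    (_ : ∀ s : 𝓞 ℚ, algebraMap (𝓞 ℚ) A s ∈ R) (hR : ξ ∈ R) (a : 𝓞 A) : ((1 : ℕ) : A) * (a : A) ∈ R := by
  have hinst : inst = DivisionRing.toRatAlgebra := Subsingleton.elim _ _
  subst hinst
  have hn0 : NeZero n := ⟨by omega⟩
  have htop : Algebra.adjoin ℚ ({ξ} : Set A) = ⊤ := by
    have halg : IsAlgebraic ℚ ξ := Algebra.IsAlgebraic.isAlgebraic _
    rw [← IntermediateField.adjoin_simple_toSubalgebra_of_isAlgebraic halg, hgen,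
      IntermediateField.top_toSubalgebra]
  have hc : IsCyclotomicExtension {n} ℚ A := by
    rw [IsCyclotomicExtension.iff_adjoin_eq_top]
    refine ⟨fun r hr _ => ?_, ?_⟩
    · rw [Set.mem_singleton_iff] at hr
      rw [hr]
      exact ⟨ξ, hξ⟩
    · rw [eq_top_iff, ← htop]
      refine Algebra.adjoin_mono ?_
      rw [Set.singleton_subset_iff]
      exact ⟨n, rfl, by omega, hξ.pow_eq_one⟩
  obtain ⟨y, hy⟩ := (IsCyclotomicExtension.Rat.isIntegralClosure_adjoin_singleton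
    hξ).isIntegral_iff.1 (RingOfIntegers.isIntegral_coe a)
  have hy' : (a : A) = (y : A) := hy.symm
  rw [Nat.cast_one, one_mul, hy']
  have h1 : ∀ y ∈ Algebra.adjoin ℤ ({ξ} : Set A), y ∈ R := by
    intro y hy
    induction hy using Algebra.adjoin_induction with
    | mem w hw =>
      rw [Set.mem_singleton_iff] at hw
      rw [hw]
      exact hR
    | algebraMap t =>
      have h2 : (algebraMap ℤ A t : A) = (t : A) := by simp
      rw [h2]
      exact intCast_mem R t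
    | add u v _ _ h2 h3 => exact R.add_mem h2 h3
    | mul u v _ _ h2 h3 => exact R.mul_mem h2 h3
  exact h1 _ y.2

theorem h_root {Ω : Type} [Field Ω] [CharZero Ω] [inst : Algebra ℚ Ω] [Algebra.IsAlgebraic ℚ Ω] (α z : Ω) (k : ℕ)
    (hk : 1 ≤ k) (hz : z ^ k = 1) : absLogHeight₁ (z * α) = absLogHeight₁ α := by
  have hinst : inst = DivisionRing.toRatAlgebra := Subsingleton.elim _ _
  subst hinst
  exact height_mul_root α z k hk hz

theorem nd_congr {Ω : Type} [Field Ω] [Algebra ℚ Ω] {F F' : IntermediateField ℚ Ω} (h : F = F') (a : Ω) :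
    (minpoly F a).natDegree = (minpoly F' a).natDegree := by
  subst h
  rfl

theorem step (b d q : ℕ) (hq : q.Prime) (hb : 2 ≤ b) (hq1 : 2 ^ (d + 1) + b + 3 ≤ q) : ∃ c : ℝ, 0 < c ∧
    ∀ (Ω : Type) [Field Ω] [CharZero Ω] [Algebra ℚ Ω] [Algebra.IsAlgebraic ℚ Ω] [IsAlgClosed Ω] (p N : ℕ)
      (ζ x α : Ω), p.Prime → q < p → 1 ≤ N → q ∣ N → IsPrimitiveRoot ζ N → x ^ p = (b : Ω) →
      (minpoly (IntermediateField.adjoin ℚ ({ζ, x} : Set Ω)) α).natDegree ≤ d → absLogHeight₁ α < c →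
      ∃ η : Ω, η ^ N = 1 ∧
        (minpoly (IntermediateField.adjoin ℚ ({ζ ^ q, x} : Set Ω)) (η * α)).natDegree ≤ d := by
  have hp2 : 0 < 2 ^ (d + 1) := Nat.two_pow_pos _
  have hbig : 2 ^ (d + 1) < q := by omega
  have hl2 : 0 < Real.log 2 := Real.log_pos (by norm_num)
  have hq0 : 0 < q := hq.pos
  have hqr : (0 : ℝ) < q := by exact_mod_cast hq0
  have hd0 : (0 : ℝ) ≤ d := Nat.cast_nonneg d
  have hden : (0 : ℝ) < 2 * q * (d + 1) + 1 := by positivity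
  refine ⟨Real.log 2 / (2 * q * (d + 1) + 1), by positivity, ?_⟩
  intro Ω _ _ inst _ _ p N ζ x α hp hqp hN hqN hζ hx hdeg hh
  have hinst : inst = DivisionRing.toRatAlgebra := Subsingleton.elim _ _
  subst hinst
  have hFF : ∀ ζ' : Ω, FF ℚ ζ' (fun _ : Fin 1 => x) = IntermediateField.adjoin ℚ ({ζ', x} : Set Ω) := by
    intro ζ'
    unfold FF
    rw [Set.range_const, Set.singleton_union]
  have hS : Sy (K := ℚ) (fun _ : Fin 1 => ((b : ℕ) : 𝓞 ℚ)) N (fun _ => p) ζ (fun _ => x) := by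
    refine ⟨hN, fun _ => hp.one_lt.le, hζ, fun _ => ?_⟩
    rw [hx, map_natCast]
  have hαi : IsIntegral ℚ α := Algebra.IsIntegral.isIntegral α
  obtain ⟨-, hh0⟩ := height_map (RingHom.id Ω) α hαi
  obtain ⟨d', hd'⟩ : ∃ d' : ℕ, (minpoly (FF ℚ ζ (fun _ : Fin 1 => x)) α).natDegree = d' := ⟨_, rfl⟩
  have hd'd : d' ≤ d := by
    rw [← hd', nd_congr (hFF ζ)]
    exact hdeg
  have hd'r : (d' : ℝ) ≤ d := by exact_mod_cast hd'd
  have hd'0 : (0 : ℝ) ≤ d' := Nat.cast_nonneg d'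
  have hlogq : ((d : ℝ) + 1) * Real.log 2 < Real.log q := by
    have h1 : (2 : ℝ) ^ (d + 1) < q := by exact_mod_cast hbig
    have h2 := Real.log_lt_log (by positivity) h1
    rw [Real.log_pow] at h2
    push_cast at h2
    exact h2
  have hbd : 2 * (q : ℝ) * d' * absLogHeight₁ α + d' * Real.log 2 < Real.log q := by
    have h1 : absLogHeight₁ α * (2 * q * (d + 1) + 1) < Real.log 2 := (lt_div_iff₀ hden).1 hh
    have h2 : 2 * (q : ℝ) * d' * absLogHeight₁ α ≤ 2 * (q : ℝ) * d * absLogHeight₁ α := by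
      refine mul_le_mul_of_nonneg_right ?_ hh0
      exact mul_le_mul_of_nonneg_left hd'r (by positivity)
    have h3 : 2 * (q : ℝ) * d * absLogHeight₁ α ≤ absLogHeight₁ α * (2 * q * (d + 1) + 1) := by
      have h4 : 0 ≤ absLogHeight₁ α * (2 * q + 1) := by positivity
      nlinarith
    have h4 : (d' : ℝ) * Real.log 2 ≤ d * Real.log 2 := mul_le_mul_of_nonneg_right hd'r hl2.le
    nlinarith
  obtain ⟨η, hη, hdeg'⟩ := hS.desc 1 (fun A _ _ _ n ξ hn hξ hgen R hK hR a =>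
      cyc_Q A n ξ hn hξ hgen R hK hR a) b (by rw [Fin.prod_univ_one]) q hq (by omega) hqN
    (fun h => by
      have := Nat.le_of_dvd (by omega) h
      omega)
    (fun h => by
      have := Nat.le_of_dvd (by omega) h
      omega)
    (fun _ h => by
      rcases (Nat.dvd_prime hp).1 h with h1 | h1
      · exact hq.one_lt.ne' h1
      · omega) α d' hd' hbd
  refine ⟨η, hη, ?_⟩
  rw [nd_congr (hFF (ζ ^ q))] at hdeg'
  exact hdeg'.trans hd'd

end De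

theorem des (b : ℕ) (hb : 2 ≤ b) (d Q1 X : ℕ) (hQ1 : 2 ^ (d + 1) + b + 3 ≤ Q1) : ∃ c : ℝ, 0 < c ∧
    ∀ (Ω : Type) [Field Ω] [CharZero Ω] [Algebra ℚ Ω] [Algebra.IsAlgebraic ℚ Ω] [IsAlgClosed Ω] (p N : ℕ) (ζ x α : Ω),
      p.Prime → X < p → Q1 ≤ p → (∀ r : ℕ, r ^ p ≠ b) → 1 ≤ N → p ∣ N → IsPrimitiveRoot ζ N → x ^ p = (b : Ω) → α ≠ 0 →
      (minpoly (IntermediateField.adjoin ℚ ({ζ, x} : Set Ω)) α).natDegree ≤ d → absLogHeight₁ α < c →
      ∃ (N' : ℕ) (ζ' η : Ω) (k : ℕ), 1 ≤ N' ∧ p ∣ N' ∧ (∀ q : ℕ, q.Prime → Q1 ≤ q → q ≤ X → ¬ q ∣ N') ∧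
        IsPrimitiveRoot ζ' N' ∧ 1 ≤ k ∧ η ^ k = 1 ∧
        (minpoly (IntermediateField.adjoin ℚ ({ζ', x} : Set Ω)) (η * α)).natDegree ≤ d := by
  classical
  have hstep : ∀ q : ℕ, ∃ c : ℝ, 0 < c ∧ (q.Prime → Q1 ≤ q →
      ∀ (Ω : Type) [Field Ω] [CharZero Ω] [Algebra ℚ Ω] [Algebra.IsAlgebraic ℚ Ω] [IsAlgClosed Ω] (p N : ℕ)
      (ζ x α : Ω), p.Prime → q < p → 1 ≤ N → q ∣ N → IsPrimitiveRoot ζ N → x ^ p = (b : Ω) →
      (minpoly (IntermediateField.adjoin ℚ ({ζ, x} : Set Ω)) α).natDegree ≤ d → absLogHeight₁ α < c →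
      ∃ η : Ω, η ^ N = 1 ∧
        (minpoly (IntermediateField.adjoin ℚ ({ζ ^ q, x} : Set Ω)) (η * α)).natDegree ≤ d) := by
    intro q
    by_cases h : q.Prime ∧ Q1 ≤ q
    · obtain ⟨c, hc, h1⟩ := De.step b d q h.1 hb (hQ1.trans h.2)
      exact ⟨c, hc, fun _ _ => h1⟩
    · exact ⟨1, one_pos, fun h1 h2 => absurd ⟨h1, h2⟩ h⟩
  choose cq hcq hdq using hstep
  obtain ⟨i₀, hi₀, hmin⟩ := Finset.exists_min_image (Finset.range (X + 1)) cq ⟨0, by simp⟩
  refine ⟨cq i₀, hcq i₀, ?_⟩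
  intro Ω _ _ _ _ _ p N
  induction N using Nat.strong_induction_on with
  | _ N ih =>
  intro ζ x α hp hXp hQp hb' hN hpN hζ hx h0 hdeg hh
  by_cases hq : ∃ q : ℕ, q.Prime ∧ Q1 ≤ q ∧ q ≤ X ∧ q ∣ N
  · obtain ⟨q, hqp, hq1, hqX, hqN⟩ := hq
    obtain ⟨η, hη, hdeg'⟩ := hdq q hqp hq1 Ω p N ζ x α hp (by omega) hN hqN hζ hx hdeg
      (hh.trans_le (hmin q (Finset.mem_range.2 (by omega))))
    have hη0 : η ≠ 0 := by
      rintro rfl
      rw [zero_pow (by omega)] at hη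
      exact zero_ne_one hη
    have hN' : 1 ≤ N / q := Nat.div_pos (Nat.le_of_dvd hN hqN) hqp.pos
    have hpN' : p ∣ N / q := by
      have h1 : p ∣ q * (N / q) := by rwa [Nat.mul_div_cancel' hqN]
      rcases (Nat.Prime.dvd_mul hp).1 h1 with h2 | h2
      · have := Nat.le_of_dvd hqp.pos h2
        omega
      · exact h2
    have hζ' : IsPrimitiveRoot (ζ ^ q) (N / q) := hζ.pow hN (Nat.mul_div_cancel' hqN).symm
    obtain ⟨N', ζ', η', k, h1, h2, h3, h4, h5, h6, h7⟩ := ih (N / q) (Nat.div_lt_self hN hqp.one_lt)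
      (ζ ^ q) x (η * α) hp hXp hQp hb' hN' hpN' hζ' hx (mul_ne_zero hη0 h0) hdeg' (by
        rw [De.h_root α η N hN hη]
        exact hh)
    refine ⟨N', ζ', η' * η, k * N, h1, h2, h3, h4, Nat.mul_pos h5 hN, ?_, ?_⟩
    · rw [mul_pow, pow_mul, h6, one_pow, one_mul, mul_comm, pow_mul, hη, one_pow]
    · rw [mul_assoc]
      exact h7
  · push Not at hq
    refine ⟨N, ζ, 1, 1, hN, hpN, fun q h1 h2 h3 => hq q h1 h2 h3, hζ, le_refl _, one_pow _, ?_⟩
    rw [one_mul]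
    exact hdeg

end Pool.Agent.H72.WD
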