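import Pool.Agent.H61.WN.Def

/-!
# [H72 WD Def] THEOREM WD (MP_187c26_nt): bounded degree over `ℚ(ζ_N, b^(1/p))`, all `N`, all `p`: definitions

`Cy P M A`: the field `A = ℚ(ζ_P, ζ_M)` (`P` a power of `p`, `M` prime to `p`), all its embeddings labelled by `(ZMod P)ˣ × (ZMod M)ˣ`.
`π = ζ_p⁻¹ - 1 = zP^(-P1) - 1`, `P = p P1`. `LL w i t = (1/P) ∑_s e(s,t)(π w) e(-s i / P)` (`i : ZMod P`, `t : (ZMod M)ˣ`): the coefficients of
`π w` at `zP ^ i`, vectors in the lattice `VV M` of the `(∑_a c_a e(t a / M))_t`, `c_a ∈ ℤ`. `qf` is the mean square on it.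
`Dt p b P M A F`: `F = A(x)`, `x ^ p = b`. `Z y j = Tr_(F/A)(y x^(p - j))`, `co y j = Z y j / (p b)`: `y = ∑_j co y j x^j`.
-/

set_option autoImplicit false

namespace Pool.Agent.H72.WD

open Finset
open Pool.Agent.H61.WN (ch)

/-- `A = ℚ(ζ_P, ζ_M)` with all its embeddings -/
structure Cy (P M : ℕ) [NeZero P] [NeZero M] (A : Type) [Field A] [NumberField A] where
  zP : A
  zM : A
  e : (ZMod P)ˣ × (ZMod M)ˣ → (A →+* ℂ)
  he : Function.Bijective e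
  ezP : ∀ s t, e (s, t) zP = ch (s : ZMod P)
  ezM : ∀ s t, e (s, t) zM = ch (t : ZMod M)
  rep : ∀ w : A, IsIntegral ℤ w → ∃ c : ZMod P → ZMod M → ℤ,
    w = ∑ i, ∑ a, (c i a : A) * (zP ^ i.val * zM ^ a.val)

/-- `F = A(x)`, `x ^ p = b`, with all its embeddings -/
structure Dt (p b P M : ℕ) [NeZero p] [NeZero P] [NeZero M] (A F : Type) [Field A] [NumberField A]
    [Field F] [NumberField F] [Algebra A F] extends Cy P M A where
  x : F
  ρ : ℝ
  hx : x ^ p = (b : F)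
  hρ : 1 ≤ ρ
  hρp : ρ ^ p = (b : ℝ)
  ee : ((ZMod P)ˣ × (ZMod M)ˣ) × ZMod p → (F →+* ℂ)
  hee : Function.Bijective ee
  eeA : ∀ st w (a : A), ee (st, w) (algebraMap A F a) = e st a
  eex : ∀ st w, ee (st, w) x = (ρ : ℂ) * ch w

section

variable {P M : ℕ} [NeZero P] [NeZero M] {A : Type} [Field A] [NumberField A]

/-- `π = ζ_p⁻¹ - 1`, `P = p P1` -/
noncomputable def Cy.pi (D : Cy P M A) (P1 : ℕ) : A := D.zP⁻¹ ^ P1 - 1

/-- the coefficient of `π w` at `zP ^ i` -/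
noncomputable def Cy.LL (D : Cy P M A) (P1 : ℕ) (w : A) (i : ZMod P) (t : (ZMod M)ˣ) : ℂ :=
  (∑ s : (ZMod P)ˣ, D.e (s, t) (D.pi P1 * w) * ch (-((s : ZMod P) * i))) / P

end

/-- the lattice of the `(∑_a c_a e(t a / M))_t` -/
def VV (M : ℕ) [NeZero M] : AddSubgroup ((ZMod M)ˣ → ℂ) where
  carrier := {v | ∃ c : ZMod M → ℤ, ∀ t, v t = ∑ a, (c a : ℂ) * ch ((t : ZMod M) * a)}
  zero_mem' := ⟨0, fun t => by simp⟩
  add_mem' := by
    rintro u v ⟨c, hc⟩ ⟨c', hc'⟩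
    refine ⟨c + c', fun t => ?_⟩
    rw [Pi.add_apply, hc, hc', ← Finset.sum_add_distrib]
    refine Finset.sum_congr rfl fun a _ => ?_
    rw [Pi.add_apply]
    push_cast
    ring
  neg_mem' := by
    rintro u ⟨c, hc⟩
    refine ⟨-c, fun t => ?_⟩
    rw [Pi.neg_apply, hc, ← Finset.sum_neg_distrib]
    refine Finset.sum_congr rfl fun a _ => ?_
    rw [Pi.neg_apply]
    push_cast
    ring

/-- the mean square -/
noncomputable def qf {M : ℕ} [NeZero M] (v : (ZMod M)ˣ → ℂ) : ℝ :=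
  (∑ t, ‖v t‖ ^ 2) / Fintype.card (ZMod M)ˣ

/-- reduction from the lattice `V` to `ℤ`: structure theorems for integral functions of small energy hold for `V`-valued functions -/
def Good (V : Type) [AddCommGroup V] (q : V → ℝ) : Prop :=
  ∀ (G : Type) [Fintype G] (C : (G → ℤ) → Prop) (N : AddSubgroup (G → ℤ)) (E : ℝ),
    (∀ c : G → ℤ, C c → ∑ g, (c g : ℝ) ^ 2 ≤ E → c ∈ N) →
    ∀ f : G → V, (∀ ψ : V →+ ℤ, C (fun g => ψ (f g))) → ∑ g, q (f g) ≤ E →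
      ∀ ψ : V →+ ℤ, (fun g => ψ (f g)) ∈ N

/-- `φ` is `a ↦ a ^ Q` modulo `q` on the integers of `A` -/
def FrQ (A : Type) [Field A] (Q q : ℕ) (φ : A →+* A) : Prop :=
  ∀ a : A, IsIntegral ℤ a → ∃ c : A, IsIntegral ℤ c ∧ φ a = a ^ Q + q * c

section

variable {p b P M : ℕ} [NeZero p] [NeZero P] [NeZero M] {A F : Type} [Field A] [NumberField A]
  [Field F] [NumberField F] [Algebra A F]

/-- `Tr_(F/A)(y x^(p - j))` -/
noncomputable def Dt.Z (D : Dt p b P M A F) (y : F) (j : ZMod p) : A :=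
  Algebra.trace A F (y * D.x ^ (p - j.val))

/-- the coordinate of `y` at `x^j` -/
noncomputable def Dt.co (D : Dt p b P M A F) (y : F) (j : ZMod p) : A := D.Z y j / (p * b)

/-- the denominators of the coordinates of `y` are at most `b π` -/
def Dt.Den (D : Dt p b P M A F) (P1 : ℕ) (y : F) : Prop :=
  ∀ j, ∃ w : A, IsIntegral ℤ w ∧ D.pi P1 * D.Z y j = p * w

/-- mean square at most `E` -/
def Dt.En (D : Dt p b P M A F) (E : ℕ) (y : F) : Prop :=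
  ∑ st : ((ZMod P)ˣ × (ZMod M)ˣ) × ZMod p, ‖D.ee st y‖ ^ 2 ≤
    E * Fintype.card (((ZMod P)ˣ × (ZMod M)ˣ) × ZMod p)

end

end Pool.Agent.H72.WD
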