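import Mathlib

/-!
# [H72 WD EnA] THEOREM WD: the elementary symmetric functions from the power sums (Newton)
-/

set_option autoImplicit false

namespace Pool.Agent.H72.WD

open Finset

/-- Newton's recursion: the `k`-th elementary symmetric function from the power sums `v` -/
noncomputable def nw {R : Type} [CommRing R] [Algebra ℚ R] (v : ℕ → R) (k : ℕ) : R :=
  if k = 0 then 1 else
    algebraMap ℚ R (k : ℚ)⁻¹ * ((-1) ^ (k + 1) * ∑ i : Fin k, (-1) ^ (i : ℕ) * nw v (i : ℕ) * v (k - (i : ℕ)))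
termination_by k
decreasing_by exact i.2

theorem nw_zero {R : Type} [CommRing R] [Algebra ℚ R] (v : ℕ → R) : nw v 0 = 1 := by
  rw [nw, if_pos rfl]

theorem nw_pos {R : Type} [CommRing R] [Algebra ℚ R] (v : ℕ → R) (k : ℕ) (hk : k ≠ 0) :
    nw v k = algebraMap ℚ R (k : ℚ)⁻¹ * ((-1) ^ (k + 1) * ∑ i : Fin k, (-1) ^ (i : ℕ) * nw v (i : ℕ) * v (k - (i : ℕ))) := by
  rw [nw, if_neg hk]

/-- functoriality; only the power sums `1 ≤ i ≤ d` are used -/
theorem nw_map {R S : Type} [CommRing R] [Algebra ℚ R] [CommRing S] [Algebra ℚ S] (θ : R →+* S) (v : ℕ → R) (w : ℕ → S)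
    (d : ℕ) (h : ∀ i, 1 ≤ i → i ≤ d → θ (v i) = w i) (k : ℕ) (hk : k ≤ d) : θ (nw v k) = nw w k := by
  induction k using Nat.strong_induction_on with
  | _ k ih =>
    rcases Nat.eq_zero_or_pos k with h0 | h0
    · subst h0
      rw [nw_zero, nw_zero, map_one]
    · rw [nw_pos v k h0.ne', nw_pos w k h0.ne', map_mul, map_mul, map_sum, RingHom.map_rat_algebraMap, map_pow, map_neg, map_one]
      congr 2
      refine Finset.sum_congr rfl fun i _ => ?_
      have hi := i.2
      rw [map_mul, map_mul, map_pow, map_neg, map_one, ih i hi (by omega), h _ (by omega) (by omega)]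

theorem nw_esymm (d : ℕ) (γ : Fin d → ℂ) (k : ℕ) :
    nw (fun i => ∑ j, γ j ^ i) k = (Finset.univ.val.map γ).esymm k := by
  induction k using Nat.strong_induction_on with
  | _ k ih =>
    rcases Nat.eq_zero_or_pos k with h0 | h0
    · subst h0
      rw [nw_zero, ← MvPolynomial.aeval_esymm_eq_multiset_esymm (Fin d) ℂ (S := ℂ), MvPolynomial.esymm_zero, map_one]
    · rw [nw_pos _ k h0.ne']
      have h1 := congrArg (MvPolynomial.aeval γ : MvPolynomial (Fin d) ℂ →ₐ[ℂ] ℂ) (MvPolynomial.mul_esymm_eq_sum (Fin d) ℂ k)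
      rw [map_mul, map_natCast, map_mul, map_pow, map_neg, map_one, map_sum, MvPolynomial.aeval_esymm_eq_multiset_esymm] at h1
      have hk : (k : ℂ) ≠ 0 := by exact_mod_cast h0.ne'
      rw [map_inv₀, map_natCast]
      apply mul_left_cancel₀ hk
      rw [h1, mul_inv_cancel_left₀ hk]
      congr 1
      have h2 : ∑ i : Fin k, (-1 : ℂ) ^ (i : ℕ) * nw (fun i => ∑ j, γ j ^ i) (i : ℕ) * (∑ j, γ j ^ (k - (i : ℕ))) =
          ∑ i ∈ Finset.range k, (-1 : ℂ) ^ i * nw (fun i => ∑ j, γ j ^ i) i * (∑ j, γ j ^ (k - i)) :=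
        Fin.sum_univ_eq_sum_range (fun i => (-1 : ℂ) ^ i * nw (fun i => ∑ j, γ j ^ i) i * (∑ j, γ j ^ (k - i))) k
      rw [h2]
      refine Finset.sum_bij (fun i _ => (i, k - i)) ?_ ?_ ?_ ?_
      · intro i hi
        rw [Finset.mem_range] at hi
        rw [Finset.mem_filter, Finset.HasAntidiagonal.mem_antidiagonal]
        exact ⟨by simp only; omega, hi⟩
      · intro i _ j _ hij
        exact (Prod.mk.inj hij).1
      · rintro ⟨i, j⟩ hij
        rw [Finset.mem_filter, Finset.HasAntidiagonal.mem_antidiagonal] at hij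
        refine ⟨i, Finset.mem_range.2 hij.2, ?_⟩
        have h3 := hij.1
        simp only at h3
        rw [Prod.mk.injEq]
        exact ⟨rfl, by omega⟩
      · intro i hi
        rw [Finset.mem_range] at hi
        rw [map_mul, map_mul, map_pow, map_neg, map_one, MvPolynomial.aeval_esymm_eq_multiset_esymm, ih i hi]
        congr 1
        rw [MvPolynomial.psum, map_sum]
        refine Finset.sum_congr rfl fun j _ => ?_
        rw [map_pow, MvPolynomial.aeval_X]

/-- the polynomial with the roots `γ`, from the power sums -/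
theorem nw_prod (d : ℕ) (γ : Fin d → ℂ) (z : ℂ) :
    ∑ k ∈ Finset.range (d + 1), (-1) ^ k * (nw (fun i => ∑ j, γ j ^ i) k * z ^ (d - k)) = ∏ j, (z - γ j) := by
  have h1 := congrArg (Polynomial.eval z) (Multiset.prod_X_sub_X_eq_sum_esymm (Finset.univ.val.map γ))
  rw [Multiset.card_map, Finset.card_val, Finset.card_univ, Fintype.card_fin, Polynomial.eval_finsetSum] at h1
  have h2 : Polynomial.eval z ((Multiset.map (fun t => Polynomial.X - Polynomial.C t) (Multiset.map γ Finset.univ.val)).prod) =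
      ∏ j, (z - γ j) := by
    rw [Multiset.map_map, ← Finset.prod_eq_multiset_prod, Polynomial.eval_prod]
    refine Finset.prod_congr rfl fun j _ => ?_
    simp
  rw [h2] at h1
  rw [h1]
  refine Finset.sum_congr rfl fun k _ => ?_
  rw [nw_esymm]
  simp

theorem nw_deg {k : Type} [Field k] [Algebra ℚ k] {σ : Type} (i : σ) (v : ℕ → MvPolynomial σ k) (e d : ℕ)
    (h : ∀ m, 1 ≤ m → m ≤ d → (v m).degreeOf i ≤ e * m) (m : ℕ) (hm : m ≤ d) : (nw v m).degreeOf i ≤ e * m := by
  induction m using Nat.strong_induction_on with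
  | _ m ih =>
    rcases Nat.eq_zero_or_pos m with h0 | h0
    · subst h0
      rw [nw_zero, ← MvPolynomial.C_1, MvPolynomial.degreeOf_C]
      exact Nat.zero_le _
    · rw [nw_pos v m h0.ne', MvPolynomial.algebraMap_apply]
      refine (MvPolynomial.degreeOf_C_mul_le _ _ _).trans ?_
      have hC : ∀ n : ℕ, ((-1) ^ n : MvPolynomial σ k) = MvPolynomial.C ((-1) ^ n) := fun n => by
        rw [MvPolynomial.C_pow, MvPolynomial.C_neg, MvPolynomial.C_1]
      rw [hC]
      refine (MvPolynomial.degreeOf_C_mul_le _ _ _).trans ?_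
      refine (MvPolynomial.degreeOf_sum_le _ _ _).trans (Finset.sup_le fun j _ => ?_)
      have hj := j.2
      rw [hC, mul_assoc]
      refine (MvPolynomial.degreeOf_C_mul_le _ _ _).trans ?_
      refine (MvPolynomial.degreeOf_mul_le _ _ _).trans ?_
      have h1 := ih j hj (by omega)
      have h2 := h (m - j) (by omega) (by omega)
      refine (Nat.add_le_add h1 h2).trans ?_
      rw [← Nat.mul_add]
      exact Nat.mul_le_mul_left _ (by omega)

end Pool.Agent.H72.WD
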