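import Pool.Agent.H72.WD.Def
import Pool.Agent.H61.WN.Ex

/-!
# [H72 WD Ex] THEOREM WD: existence of the data

`N = P M`, `P = p^(κ+1)`, `M` prime to `p`. `A = ℚ(ζ)`, `F = ℚ(ζ, x)` (intermediate fields of `ℂ`; the algebra `A → F` is the inclusion, `F → ℂ` the inclusion). `zP = ζ^M`, `zM = ζ^P`
(primitive of orders `P`, `M`). Embeddings of `F`: `H61/WN/Ex.exists_dat` (for `N`, labels `(ZMod N)ˣ × ZMod p`, `e z = ch_N(s)`), `(ZMod N)ˣ ≃ (ZMod P)ˣ × (ZMod M)ˣ` by the Chinese remainder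
theorem; with `e(s,w)(ζ) = ch_N(s)`: `e(ζ^M) = ch_N(M s) = ch_P(s mod P)`, `e(ζ^P) = ch_M(s mod M)` (`ch_level`). The embedding `e st` of `A` is the restriction of `ee (st, 0)` (the image of `ζ` does not
depend on `w`); bijective: the embeddings of `ℚ(ζ)` are determined by the image of `ζ`, a primitive `N`-th root of unity, every one extends to `F`.
`rep`: the integers of `A` are `ℤ[ζ]` (`IsCyclotomicExtension.Rat.isIntegralClosure_adjoin_singleton`, all `N`), and `ζ` is a product of powers of `zP`, `zM`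
(`ζ = zP^u zM^v` with `M u + P v = 1` mod `N`): every power `ζ^k` is `zP^i.val zM^a.val` for one `(i, a)`.
-/

set_option autoImplicit false

namespace Pool.Agent.H72.WD

open Finset NumberField
open Pool.Agent.H61.WN (ch)

private theorem ex_crt {P M : ℕ} [NeZero P] [NeZero M] (h : P.Coprime M) :
    ∃ E : (ZMod P)ˣ × (ZMod M)ˣ ≃ (ZMod (P * M))ˣ,
      ∀ st, (((E st : (ZMod (P * M))ˣ) : ZMod (P * M)).val : ZMod P) = (st.1 : ZMod P) ∧
        (((E st : (ZMod (P * M))ˣ) : ZMod (P * M)).val : ZMod M) = (st.2 : ZMod M) := by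
  refine ⟨((Units.mapEquiv (ZMod.chineseRemainder h).toMulEquiv).trans MulEquiv.prodUnits).symm.toEquiv,
    fun st => ?_⟩
  have h1 := ((Units.mapEquiv (ZMod.chineseRemainder h).toMulEquiv).trans
    MulEquiv.prodUnits).apply_symm_apply st
  set u := ((Units.mapEquiv (ZMod.chineseRemainder h).toMulEquiv).trans MulEquiv.prodUnits).symm st with hu
  have h2 : ((ZMod.chineseRemainder h) (u : ZMod (P * M))) = ((st.1 : ZMod P), (st.2 : ZMod M)) := by
    rw [← h1]
    rfl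
  rw [← ZMod.natCast_zmod_val (u : ZMod (P * M)), map_natCast] at h2
  exact ⟨congrArg Prod.fst h2, congrArg Prod.snd h2⟩

private theorem ex_pow {A : Type} [Field A] {ζ : A} {P M : ℕ} [NeZero P] [NeZero M] (h : P.Coprime M)
    (hζ : IsPrimitiveRoot ζ (P * M)) (k : ℕ) :
    ∃ (i : ZMod P) (a : ZMod M), ζ ^ k = (ζ ^ M) ^ i.val * (ζ ^ P) ^ a.val := by
  have hP : 0 < P := Nat.pos_of_ne_zero (NeZero.ne P)
  have hM : 0 < M := Nat.pos_of_ne_zero (NeZero.ne M)
  have hζ0 : ζ ≠ 0 := hζ.ne_zero (Nat.mul_ne_zero hP.ne' hM.ne')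
  have h1 : ∀ (Q : ℕ) [NeZero Q] (z : A), z ^ Q = 1 → z ≠ 0 → ∀ n : ℤ, z ^ n = z ^ (n : ZMod Q).val := by
    intro Q _ z hz hz0 n
    have h2 : ((n : ZMod Q).val : ℤ) = n % Q := ZMod.val_intCast n
    rw [← zpow_natCast, h2]
    conv_lhs => rw [← Int.mul_ediv_add_emod n Q, zpow_add₀ hz0, zpow_mul, zpow_natCast, hz, one_zpow, one_mul]
  have h3 : ((P.gcd M : ℕ) : ℤ) = P * P.gcdA M + M * P.gcdB M := Nat.gcd_eq_gcd_ab P M
  have h3' : (1 : ℤ) = P * P.gcdA M + M * P.gcdB M := by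
    rw [← h3, h]; rfl
  refine ⟨((k * P.gcdB M : ℤ) : ZMod P), ((k * P.gcdA M : ℤ) : ZMod M), ?_⟩
  rw [← h1 P (ζ ^ M) (by rw [← pow_mul, mul_comm]; exact hζ.pow_eq_one) (pow_ne_zero _ hζ0),
    ← h1 M (ζ ^ P) (by rw [← pow_mul]; exact hζ.pow_eq_one) (pow_ne_zero _ hζ0), ← zpow_natCast, ← zpow_natCast ζ M,
    ← zpow_natCast ζ P, ← zpow_mul, ← zpow_mul, ← zpow_add₀ hζ0]
  congr 1
  calc (k : ℤ) = k * (P * P.gcdA M + M * P.gcdB M) := by rw [← h3', mul_one]
    _ = M * (k * P.gcdB M) + P * (k * P.gcdA M) := by ring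

private theorem ex_rep {A : Type} [Field A] [NumberField A] {ζ : A} {P M : ℕ} [NeZero P] [NeZero M] (h : P.Coprime M)
    (hζ : IsPrimitiveRoot ζ (P * M)) (hc : IsCyclotomicExtension {P * M} ℚ A) (w : A) (hw : IsIntegral ℤ w) :
    ∃ c : ZMod P → ZMod M → ℤ, w = ∑ i, ∑ a, (c i a : A) * ((ζ ^ M) ^ i.val * (ζ ^ P) ^ a.val) := by
  classical
  have hne : NeZero (P * M) := inferInstance
  have h1 := IsCyclotomicExtension.Rat.isIntegralClosure_adjoin_singleton (hcycl := hc) hζ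
  obtain ⟨y, hy⟩ := (h1.isIntegral_iff).1 hw
  have h2 : w ∈ Algebra.adjoin ℤ ({ζ} : Set A) := by
    rw [← hy]
    exact y.2
  rw [Algebra.adjoin_singleton_eq_range_aeval] at h2
  obtain ⟨f, hf⟩ := h2
  have hf' : w = ∑ k ∈ f.support, (f.coeff k : A) * ζ ^ k := by
    rw [← hf]
    show Polynomial.aeval ζ f = _
    rw [Polynomial.aeval_def, Polynomial.eval₂_eq_sum, Polynomial.sum_def]
    rfl
  rw [hf']
  refine Finset.sum_induction _ (fun w => ∃ c : ZMod P → ZMod M → ℤ,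
    w = ∑ i, ∑ a, (c i a : A) * ((ζ ^ M) ^ i.val * (ζ ^ P) ^ a.val)) ?_ ?_ ?_
  · rintro u v ⟨c, hc⟩ ⟨c', hc'⟩
    refine ⟨c + c', ?_⟩
    rw [hc, hc', ← Finset.sum_add_distrib]
    refine Finset.sum_congr rfl fun i _ => ?_
    rw [← Finset.sum_add_distrib]
    refine Finset.sum_congr rfl fun a _ => ?_
    rw [Pi.add_apply, Pi.add_apply]
    push_cast
    ring
  · exact ⟨0, by simp⟩
  · intro k _
    obtain ⟨i, a, hia⟩ := ex_pow h hζ k
    refine ⟨fun i' a' => if i' = i ∧ a' = a then f.coeff k else 0, ?_⟩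
    rw [Finset.sum_eq_single i, Finset.sum_eq_single a]
    · beta_reduce
      rw [if_pos ⟨rfl, rfl⟩, hia]
    · intro a' _ ha'
      beta_reduce
      rw [if_neg (fun hh => ha' hh.2)]
      simp
    · intro hh
      exact absurd (Finset.mem_univ _) hh
    · intro i' _ hi'
      refine Finset.sum_eq_zero fun a' _ => ?_
      beta_reduce
      rw [if_neg (fun hh => hi' hh.1)]
      simp
    · intro hh
      exact absurd (Finset.mem_univ _) hh

private theorem ex_aux {p b P M : ℕ} [Fact p.Prime] [NeZero P] [NeZero M] {F : Type} [Field F] [NumberField F]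
    (h : P.Coprime M) (D : Pool.Agent.H61.WN.Dat p (P * M) b F) :
    ∃ (A : Type) (_ : Field A) (_ : NumberField A) (_ : Algebra A F) (E : Dt p b P M A F),
      IsCyclotomicExtension {P * M} ℚ A ∧ E.x = D.x := by
  classical
  have hne : NeZero (P * M) := inferInstance
  have hP : 0 < P := Nat.pos_of_ne_zero (NeZero.ne P)
  have hM : 0 < M := Nat.pos_of_ne_zero (NeZero.ne M)
  obtain ⟨C, hC⟩ := ex_crt h
  have hcyc : IsCyclotomicExtension {P * M} ℚ (IntermediateField.adjoin ℚ ({D.z} : Set F)) :=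
    D.z_prim.intermediateField_adjoin_isCyclotomicExtension ℚ
  have hmem : D.z ∈ IntermediateField.adjoin ℚ ({D.z} : Set F) := IntermediateField.mem_adjoin_simple_self ℚ _
  have hζ' : IsPrimitiveRoot (⟨D.z, hmem⟩ : IntermediateField.adjoin ℚ ({D.z} : Set F)) (P * M) :=
    IsPrimitiveRoot.of_map_of_injective (f := (IntermediateField.adjoin ℚ ({D.z} : Set F)).val) D.z_prim
      (IntermediateField.adjoin ℚ ({D.z} : Set F)).val.injective
  have hext : ∀ φ φ' : (IntermediateField.adjoin ℚ ({D.z} : Set F)) →+* ℂ, φ ⟨D.z, hmem⟩ = φ' ⟨D.z, hmem⟩ →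
      φ = φ' := by
    intro φ φ' hφ
    have h1 : φ.toRatAlgHom = φ'.toRatAlgHom := by
      refine IntermediateField.algHom_ext_of_eq_adjoin ℚ rfl ?_
      intro y hy
      rw [Set.mem_singleton_iff] at hy
      subst hy
      exact hφ
    refine RingHom.ext fun y => ?_
    exact congrArg (fun ψ : (IntermediateField.adjoin ℚ ({D.z} : Set F)) →ₐ[ℚ] ℂ => ψ y) h1
  have hval : ∀ (u : (ZMod (P * M))ˣ) (w : ZMod p),
      ((D.e (u, w)).comp (algebraMap (IntermediateField.adjoin ℚ ({D.z} : Set F)) F)) ⟨D.z, hmem⟩ =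
        ch (u : ZMod (P * M)) := fun u w => D.ez u w
  have hcard : Fintype.card ((IntermediateField.adjoin ℚ ({D.z} : Set F)) →+* ℂ) =
      Fintype.card ((ZMod P)ˣ × (ZMod M)ˣ) := by
    rw [NumberField.Embeddings.card, Fintype.card_congr C, ZMod.card_units_eq_totient]
    exact IsCyclotomicExtension.Rat.finrank (P * M) _
  have hbij : Function.Bijective fun st : (ZMod P)ˣ × (ZMod M)ˣ =>
      (D.e (C st, 0)).comp (algebraMap (IntermediateField.adjoin ℚ ({D.z} : Set F)) F) := by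
    rw [Fintype.bijective_iff_injective_and_card]
    refine ⟨?_, hcard.symm⟩
    intro st st' hst
    have h1 := congrArg (fun φ : (IntermediateField.adjoin ℚ ({D.z} : Set F)) →+* ℂ => φ ⟨D.z, hmem⟩) hst
    beta_reduce at h1
    rw [hval, hval] at h1
    exact C.injective (Units.ext (Pool.Agent.H61.WN.ch_inj h1))
  refine ⟨IntermediateField.adjoin ℚ ({D.z} : Set F), inferInstance, inferInstance, inferInstance,
    { zP := ⟨D.z, hmem⟩ ^ M, zM := ⟨D.z, hmem⟩ ^ P,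
      e := fun st => (D.e (C st, 0)).comp (algebraMap (IntermediateField.adjoin ℚ ({D.z} : Set F)) F),
      he := hbij, ezP := ?_, ezM := ?_, rep := ?_, x := D.x, ρ := D.ρ, hx := D.hx, hρ := D.hρ, hρp := D.hρp,
      ee := fun st => D.e (C st.1, st.2), hee := ?_, eeA := ?_, eex := ?_ }, ?_, rfl⟩
  · intro s t
    rw [map_pow, hval, Pool.Agent.H61.WN.ch_pow]
    have h1 := Pool.Agent.H61.WN.ch_level (N := P * M) P (dvd_mul_right P M)
      (((C (s, t) : (ZMod (P * M))ˣ) : ZMod (P * M)).val : ℤ)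
    rw [Nat.mul_div_cancel_left M hP] at h1
    push_cast at h1
    rw [ZMod.natCast_zmod_val, (hC (s, t)).1] at h1
    exact h1
  · intro s t
    rw [map_pow, hval, Pool.Agent.H61.WN.ch_pow]
    have h1 := Pool.Agent.H61.WN.ch_level (N := P * M) M (dvd_mul_left M P)
      (((C (s, t) : (ZMod (P * M))ˣ) : ZMod (P * M)).val : ℤ)
    rw [Nat.mul_div_cancel P hM] at h1
    push_cast at h1
    rw [ZMod.natCast_zmod_val, (hC (s, t)).2] at h1
    exact h1
  · exact fun w hw => ex_rep h hζ' hcyc w hw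
  · exact D.he.comp (Equiv.prodCongr C (Equiv.refl (ZMod p))).bijective
  · intro st w a
    have h1 := hext ((D.e (C st, w)).comp (algebraMap (IntermediateField.adjoin ℚ ({D.z} : Set F)) F))
      ((D.e (C st, 0)).comp (algebraMap (IntermediateField.adjoin ℚ ({D.z} : Set F)) F)) (by rw [hval, hval])
    exact congrArg (fun φ : (IntermediateField.adjoin ℚ ({D.z} : Set F)) →+* ℂ => φ a) h1
  · exact fun st w => D.ex (C st) w
  · exact hcyc

private theorem ex_top_aux {ζ x : ℂ} (L : IntermediateField ℚ ℂ)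
    (hL : L = IntermediateField.adjoin ℚ ({ζ, x} : Set ℂ)) (hζ : ζ ∈ L) (hx : x ∈ L) :
    @IntermediateField.adjoin ℚ _ L _ L.algebra' ({⟨ζ, hζ⟩, ⟨x, hx⟩} : Set L) = ⊤ := by
  apply IntermediateField.map_injective L.val
  rw [IntermediateField.adjoin_map, Set.image_pair, ← AlgHom.fieldRange_eq_map,
    IntermediateField.fieldRange_val]
  exact hL.symm

private theorem ex_top {ζ x : ℂ} (L : IntermediateField ℚ ℂ)
    (hL : L = IntermediateField.adjoin ℚ ({ζ, x} : Set ℂ)) (hζ : ζ ∈ L) (hx : x ∈ L)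
    (inst : Algebra ℚ L) :
    @IntermediateField.adjoin ℚ _ L _ inst ({⟨ζ, hζ⟩, ⟨x, hx⟩} : Set L) = ⊤ := by
  have h : inst = L.algebra' := Subsingleton.elim _ _
  subst h
  exact ex_top_aux L hL hζ hx

private theorem ex_main (p b : ℕ) [Fact p.Prime] (hp3 : 3 ≤ p) (hb : 2 ≤ b) (hb' : ∀ r : ℕ, r ^ p ≠ b) (P M : ℕ)
    [NeZero P] [NeZero M] (h : P.Coprime M) (hpN : p ∣ P * M) (ζ x : ℂ) (hζ : IsPrimitiveRoot ζ (P * M))
    (hx : x ^ p = (b : ℂ)) (L : IntermediateField ℚ ℂ) (hL : L = IntermediateField.adjoin ℚ ({ζ, x} : Set ℂ)) :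
    ∃ (A : Type) (_ : Field A) (_ : NumberField A) (_ : NumberField L) (_ : Algebra A L) (D : Dt p b P M A L),
      IsCyclotomicExtension {P * M} ℚ A ∧ algebraMap L ℂ D.x = x := by
  have hp : p.Prime := Fact.out
  have hPM : 0 < P * M := Nat.pos_of_ne_zero (NeZero.ne _)
  have hζi : IsIntegral ℚ ζ := IsIntegral.of_pow hPM (by rw [hζ.pow_eq_one]; exact isIntegral_one)
  have hxi : IsIntegral ℚ x := IsIntegral.of_pow hp.pos (by
    rw [hx]
    have h0 := isIntegral_algebraMap (R := ℚ) (A := ℂ) (x := (b : ℚ))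
    simpa using h0)
  have hfd : FiniteDimensional ℚ L := by
    rw [hL]
    refine IntermediateField.finiteDimensional_adjoin fun y hy => ?_
    rcases hy with rfl | hy
    · exact hζi
    · rw [Set.mem_singleton_iff.1 hy]
      exact hxi
  have hNF : NumberField L := ⟨⟩
  have hmζ : ζ ∈ L := by rw [hL]; exact IntermediateField.subset_adjoin _ _ (by simp)
  have hmx : x ∈ L := by rw [hL]; exact IntermediateField.subset_adjoin _ _ (by simp)
  have hprim : IsPrimitiveRoot (⟨ζ, hmζ⟩ : L) (P * M) := by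
    have h2 : IsPrimitiveRoot ((algebraMap L ℂ) ⟨ζ, hmζ⟩) (P * M) := hζ
    exact IsPrimitiveRoot.of_map_of_injective h2 (algebraMap L ℂ).injective
  have hxL : (⟨x, hmx⟩ : L) ^ p = ((b : ℕ) : L) := by
    apply Subtype.ext
    simpa using hx
  obtain ⟨D, -, hDx⟩ := Pool.Agent.H61.WN.exists_dat (p := p) (N := P * M) (b := b) (F := L) hp3 hb hb' hpN
    ⟨ζ, hmζ⟩ ⟨x, hmx⟩ hprim hxL (ex_top L hL hmζ hmx _)
  obtain ⟨A, i1, i2, i3, E, hc, hE⟩ := ex_aux h D
  exact ⟨A, i1, i2, hNF, i3, E, hc, by rw [hE, hDx]; rfl⟩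

theorem exists_dt (p b : ℕ) [Fact p.Prime] (hp3 : 3 ≤ p) (hb : 2 ≤ b) (hb' : ∀ r : ℕ, r ^ p ≠ b) (N : ℕ)
    (hN : 1 ≤ N) (hpN : p ∣ N) (ζ x : ℂ) (hζ : IsPrimitiveRoot ζ N) (hx : x ^ p = (b : ℂ)) :
    ∃ (P P1 M : ℕ) (_ : NeZero P) (_ : NeZero M) (A F : Type) (_ : Field A) (_ : NumberField A) (_ : Field F)
      (_ : NumberField F) (_ : Algebra A F) (_ : Algebra F ℂ) (D : Dt p b P M A F),
      P = p * P1 ∧ (∃ κ, P1 = p ^ κ) ∧ N = P * M ∧ IsCyclotomicExtension {N} ℚ A ∧ algebraMap F ℂ D.x = x ∧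
      ∀ α : ℂ, (minpoly F α).natDegree = (minpoly (IntermediateField.adjoin ℚ ({ζ, x} : Set ℂ)) α).natDegree := by
  have hp : p.Prime := Fact.out
  obtain ⟨k, M, h1, h2⟩ := Nat.exists_eq_pow_mul_and_not_dvd (by omega : N ≠ 0) p hp.ne_one
  obtain ⟨κ, rfl⟩ : ∃ κ, k = κ + 1 := by
    cases k with
    | zero => rw [pow_zero, one_mul] at h2; exact absurd (h2 ▸ hpN) h1
    | succ k => exact ⟨k, rfl⟩
  have hP0 : NeZero (p ^ (κ + 1)) := ⟨pow_ne_zero _ hp.ne_zero⟩
  have hM0 : NeZero M := ⟨by rintro rfl; exact h1 (dvd_zero p)⟩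
  have hcop : (p ^ (κ + 1)).Coprime M := (Nat.Prime.coprime_iff_not_dvd hp).2 h1 |>.pow_left _
  subst h2
  obtain ⟨A, i1, i2, i3, i4, D, hc, hD⟩ := ex_main p b hp3 hb hb' (p ^ (κ + 1)) M hcop hpN ζ x hζ hx _ rfl
  exact ⟨p ^ (κ + 1), p ^ κ, M, hP0, hM0, A, IntermediateField.adjoin ℚ ({ζ, x} : Set ℂ), i1, i2, inferInstance, i3,
    i4, inferInstance, D, by rw [pow_succ, mul_comm], ⟨κ, rfl⟩, rfl, hc, hD, fun α => rfl⟩

end Pool.Agent.H72.WD
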