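import Pool.Agent.H84.WI.Mom
import Pool.Agent.H22.Lh.Hgt

/-!
# [H72 WD Mo] THEOREM WD: small height and a bounded moment

`H84/WI/Mom.mom` for each `k ≤ K` with the constant `|C| + 1`: `t^(4k) ≤ 1 + t^(4K)` for `t ≥ 0`, `k ≤ K`. `ι` = the roots of `minpoly ℚ α` (or the embeddings of `ℚ(α)`), `H22/Lh/Hgt.height_eq`
(`absLogHeight₁ α = meanC lp α`, `lp z = posLog ‖z‖`), `H22/Lh/Sum.meanC_eq`. `c` = minimum of the finitely many constants.
-/

set_option autoImplicit false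

namespace Pool.Agent.H72.WD

open Finset NumberField

theorem mo (K : ℕ) (C : ℝ) : ∃ c : ℝ, 0 < c ∧ ∀ α : ℂ, IsIntegral ℤ α → absLogHeight₁ α < c →
    Pool.H22.Lh.meanC (fun z => ‖z‖ ^ (4 * K)) α ≤ C →
    ∀ k, k ≤ K → Pool.H22.Lh.meanC (fun z => ‖z‖ ^ (2 * k)) α ≤ 21 / 20 := by
  choose c hc h using fun k : ℕ => Pool.Agent.H84.WI.mom k (|C| + 1)
  have hne : (Finset.range (K + 1)).Nonempty := ⟨0, Finset.mem_range.2 (Nat.succ_pos K)⟩
  refine ⟨(Finset.range (K + 1)).inf' hne c, (Finset.lt_inf'_iff hne).2 fun k _ => hc k, ?_⟩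
  intro α hα hh hC k hk
  have hck : (Finset.range (K + 1)).inf' hne c ≤ c k :=
    Finset.inf'_le c (Finset.mem_range.2 (Nat.lt_succ_of_le hk))
  have hQ : IsIntegral ℚ α := hα.tower_top
  have : FiniteDimensional ℚ (IntermediateField.adjoin ℚ {α}) :=
    IntermediateField.adjoin.finiteDimensional hQ
  have : NumberField (IntermediateField.adjoin ℚ {α}) := {}
  set L := IntermediateField.adjoin ℚ {α} with hL
  set x : L := IntermediateField.AdjoinSimple.gen ℚ α with hx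
  have hxα : (x : ℂ) = α := IntermediateField.AdjoinSimple.coe_gen ℚ α
  have hcard : (Fintype.card (L →+* ℂ) : ℝ) = (Module.finrank ℚ L : ℝ) := by
    rw [NumberField.Embeddings.card L ℂ]
  have hpos : (0 : ℝ) < (Module.finrank ℚ L : ℝ) := by
    exact_mod_cast (Module.finrank_pos (R := ℚ) (M := L))
  have hs : ∀ F : ℂ → ℝ, ∑ τ : L →+* ℂ, F (τ x) = (Module.finrank ℚ L : ℝ) * Pool.H22.Lh.meanC F α := by
    intro F
    have h1 := Pool.H22.Lh.meanC_eq L x F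
    rwa [hxα] at h1
  have key := h k (L →+* ℂ) (fun τ => ‖τ x‖) (fun τ => norm_nonneg _) ?_ ?_
  · have h1 := hs (fun z => ‖z‖ ^ (2 * k))
    rw [hcard] at key
    rw [h1] at key
    have h2 : (Module.finrank ℚ L : ℝ) * Pool.H22.Lh.meanC (fun z => ‖z‖ ^ (2 * k)) α
        ≤ (Module.finrank ℚ L : ℝ) * (21 / 20) := by linarith
    exact le_of_mul_le_mul_left h2 hpos
  · have h1 := hs Pool.H22.Lh.lp
    rw [← Pool.H22.Lh.height_eq α hα] at h1
    rw [hcard]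
    have h2 : ∑ τ : L →+* ℂ, Real.posLog ‖τ x‖ = ∑ τ : L →+* ℂ, Pool.H22.Lh.lp (τ x) := rfl
    rw [h2, h1]
    have h3 : absLogHeight₁ α ≤ c k := hh.le.trans hck
    nlinarith
  · have h1 := hs (fun z => ‖z‖ ^ (4 * K))
    have h2 : ∑ τ : L →+* ℂ, ‖τ x‖ ^ (4 * k) ≤ ∑ τ : L →+* ℂ, (1 + ‖τ x‖ ^ (4 * K)) := by
      refine Finset.sum_le_sum fun τ _ => ?_
      rcases le_total ‖τ x‖ 1 with h3 | h3
      · have h4 : ‖τ x‖ ^ (4 * k) ≤ 1 := pow_le_one₀ (norm_nonneg _) h3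
        have h5 : 0 ≤ ‖τ x‖ ^ (4 * K) := pow_nonneg (norm_nonneg _) _
        linarith
      · have h4 : ‖τ x‖ ^ (4 * k) ≤ ‖τ x‖ ^ (4 * K) := pow_le_pow_right₀ h3 (by omega)
        linarith
    rw [Finset.sum_add_distrib, Finset.sum_const, Finset.card_univ, nsmul_eq_mul, mul_one, hcard] at h2
    rw [hcard]
    refine h2.trans ?_
    rw [h1]
    have h3 : Pool.H22.Lh.meanC (fun z => ‖z‖ ^ (4 * K)) α ≤ |C| := hC.trans (le_abs_self C)
    nlinarith

/-- multiplication by a root of unity does not change the moments -/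
theorem mean_unit (K : ℕ) (α η : ℂ) (n : ℕ) (hn : 1 ≤ n) (hη : η ^ n = 1) (hα : IsIntegral ℤ α) :
    Pool.H22.Lh.meanC (fun z => ‖z‖ ^ K) (η * α) = Pool.H22.Lh.meanC (fun z => ‖z‖ ^ K) α :=
  Pool.H22.Lh.mean_root α η hα.tower_top n hn hη (fun t => t ^ K)

end Pool.Agent.H72.WD
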