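import Pool.Agent.H11.BK.Zero

/-!
# [H72 WD Sm] THEOREM WD: small `p` (`p < p₀`)

`α` has degree `≤ p₀ d` over `ℚ(ζ)` (`x` has degree `≤ p` over `ℚ(ζ)`; `ℚ(ζ, x, α)`). `H11/BK/Zero.zero` for `K = ℚ`, `b : Fin 0`, degree `p₀ d` (see `small_AA` in `H11/BK/DegL.lean` for the use with
`Fin 0`; `dgr ℚ ξ (Fin.elim0) α = (minpoly (FF ..) α).natDegree`). `ζ` is a primitive root of some order.
-/

set_option autoImplicit false

open NumberField IntermediateField

namespace Pool.Agent.H72.WD

theorem sm_deg {Ω : Type} [Field Ω] [CharZero Ω] [Algebra ℚ Ω] [Algebra.IsAlgebraic ℚ Ω]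
    (b p d : ℕ) (ζ x α : Ω) (hp : 1 ≤ p) (hx : x ^ p = (b : Ω))
    (hd : (minpoly (IntermediateField.adjoin ℚ ({ζ, x} : Set Ω)) α).natDegree ≤ d) :
    (minpoly (IntermediateField.adjoin ℚ ({ζ} : Set Ω)) α).natDegree ≤ p * d := by
  set E := IntermediateField.adjoin ℚ ({ζ} : Set Ω) with hE
  set F := IntermediateField.adjoin E ({x} : Set Ω) with hF
  have hL : F.restrictScalars ℚ = IntermediateField.adjoin ℚ ({ζ, x} : Set Ω) := by
    exact IntermediateField.adjoin_simple_adjoin_simple ℚ ζ x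
  rw [← hL] at hd
  change (minpoly F α).natDegree ≤ d at hd
  have hxE : IsIntegral E x := (Algebra.IsIntegral.isIntegral (R := ℚ) x).tower_top
  have hαE : IsIntegral E α := (Algebra.IsIntegral.isIntegral (R := ℚ) α).tower_top
  have hαF : IsIntegral F α := (Algebra.IsIntegral.isIntegral (R := ℚ) α).tower_top
  have i1 : FiniteDimensional E F := IntermediateField.adjoin.finiteDimensional hxE
  have i2 : FiniteDimensional F (IntermediateField.adjoin F ({α} : Set Ω)) :=
    IntermediateField.adjoin.finiteDimensional hαF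
  have h1 : Module.finrank E F ≤ p := by
    rw [hF, IntermediateField.adjoin.finrank hxE]
    have h2 : Polynomial.aeval x (Polynomial.X ^ p - Polynomial.C (b : E)) = 0 := by
      rw [map_sub, map_pow, Polynomial.aeval_X, Polynomial.aeval_C, map_natCast, hx, sub_self]
    have h3 := minpoly.min E x (Polynomial.monic_X_pow_sub_C (b : E) (by omega)) h2
    have h4 := Polynomial.natDegree_le_natDegree h3
    rwa [Polynomial.natDegree_X_pow_sub_C] at h4
  have h2 : Module.finrank F (IntermediateField.adjoin F ({α} : Set Ω)) ≤ d := by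
    rw [IntermediateField.adjoin.finrank hαF]
    exact hd
  let M := (IntermediateField.adjoin F ({α} : Set Ω)).restrictScalars E
  have h3 : Module.finrank E M = Module.finrank E F * Module.finrank F (IntermediateField.adjoin F ({α} : Set Ω)) :=
    (Module.finrank_mul_finrank E F (IntermediateField.adjoin F ({α} : Set Ω))).symm
  have i3 : FiniteDimensional E M := by
    have := Module.Finite.trans (R := E) F (IntermediateField.adjoin F ({α} : Set Ω))
    exact this
  have hαM : α ∈ M := IntermediateField.mem_adjoin_simple_self F α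
  have h4 : (minpoly E α).natDegree = Module.finrank E (IntermediateField.adjoin E ({α} : Set Ω)) :=
    (IntermediateField.adjoin.finrank hαE).symm
  have h5 : IntermediateField.adjoin E ({α} : Set Ω) ≤ M := by
    rw [IntermediateField.adjoin_le_iff, Set.singleton_subset_iff]
    exact hαM
  rw [h4]
  refine (IntermediateField.finrank_le_of_le_right h5).trans ?_
  rw [h3]
  exact Nat.mul_le_mul h1 h2

theorem small_p (d p₀ : ℕ) : ∃ c : ℝ, 0 < c ∧ ∀ (Ω : Type) [Field Ω] [CharZero Ω] [Algebra ℚ Ω] [Algebra.IsAlgebraic ℚ Ω] [IsAlgClosed Ω]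
    (b p N : ℕ) (ζ x α : Ω), 1 ≤ p → p < p₀ → 1 ≤ N → ζ ^ N = 1 → x ^ p = (b : Ω) → α ≠ 0 →
    (minpoly (IntermediateField.adjoin ℚ ({ζ, x} : Set Ω)) α).natDegree ≤ d → absLogHeight₁ α < c →
    ∃ k : ℕ, 1 ≤ k ∧ α ^ k = 1 := by
  obtain ⟨c, hc, h⟩ := Pool.Agent.H11.BK.zero (K := ℚ) (fun i : Fin 0 => i.elim0) (p₀ * d)
  refine ⟨c, hc, ?_⟩
  intro Ω _ _ _ _ _ b p N ζ x α hp hpp hN hζ hx hα hd hh
  have hdg := sm_deg b p d ζ x α hp hx hd
  have hn : 1 ≤ orderOf ζ := orderOf_pos_iff.2 (isOfFinOrder_iff_pow_eq_one.2 ⟨N, hN, hζ⟩)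
  have hFF : Pool.Agent.H11.BK.FF ℚ ζ (fun i : Fin 0 => i.elim0) = Pool.Agent.H11.BK.AA ℚ ζ := by
    unfold Pool.Agent.H11.BK.FF Pool.Agent.H11.BK.AA
    congr 1
    rw [Set.range_eq_empty, Set.union_empty]
  obtain ⟨k, hk, j, hj⟩ := h Ω (orderOf ζ) (fun i : Fin 0 => i.elim0) ζ (fun i : Fin 0 => i.elim0) α
    { hn := hn
      hm := fun i => i.elim0
      cn := fun i => i.elim0
      prim := IsPrimitiveRoot.orderOf ζ
      hx := fun i => i.elim0
      deg := by rw [hFF, Finset.univ_eq_empty, Finset.prod_empty, one_mul] } hα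
    (by
      unfold Pool.Agent.H11.BK.dgr
      rw [hFF]
      exact hdg.trans (Nat.mul_le_mul_right _ hpp.le)) hh
  refine ⟨k, hk, ?_⟩
  rw [hj, Finset.univ_eq_empty, Finset.prod_empty]

end Pool.Agent.H72.WD
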