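import Pool.Agent.H72.WD.Co
import Pool.Agent.H72.WD.Mo
import Pool.Agent.H72.WD.Ex
import Pool.Agent.H72.WD.De
import Pool.Agent.H72.WD.Sm

/-!
# [H72 WD Fi] THEOREM WD: assembly (owner helper72)
-/

set_option autoImplicit false

namespace Pool.Agent.H72.WD

open Finset NumberField

/-- the conclusion of `core` -/
def CoreP (b d Q1 X K p₀ : ℕ) : Prop :=
  ∀ (p P P1 M n : ℕ) [Fact p.Prime] [NeZero P] [NeZero M] [NeZero n], p₀ ≤ p → P = p * P1 → (∃ κ, P1 = p ^ κ) →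
    (∀ q : ℕ, q.Prime → Q1 ≤ q → q ≤ X → ¬ q ∣ n) →
    ∀ (A F : Type) [Field A] [NumberField A] [Field F] [NumberField F] [Algebra A F]
      [IsCyclotomicExtension {n} ℚ A] [Algebra F ℂ] (_ : Dt p b P M A F) (α : ℂ),
      IsIntegral ℤ α → α ≠ 0 → (minpoly F α).natDegree = d →
      (∀ k, k ≤ K → Pool.H22.Lh.meanC (fun z => ‖z‖ ^ (2 * k)) α ≤ 21 / 20) →
      ∃ k s t : ℕ, 1 ≤ k ∧ α ^ k * (b : ℂ) ^ s = (b : ℂ) ^ t

theorem core_all (b : ℕ) (hb : 2 ≤ b) (Q2 d : ℕ) : ∃ X K p₀ : ℕ, ∀ d', 1 ≤ d' → d' ≤ d →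
    ∃ Q1 X' K' p' : ℕ, Q2 ≤ Q1 ∧ X' ≤ X ∧ K' ≤ K ∧ p' ≤ p₀ ∧ CoreP b d' Q1 X' K' p' := by
  induction d with
  | zero => exact ⟨0, 0, 0, fun d' h1 h2 => absurd h1 (by omega)⟩
  | succ d ih =>
    obtain ⟨X, K, p₀, h⟩ := ih
    obtain ⟨Q1, X1, K1, p1, h1, h2⟩ := core b hb (d + 1) Q2 (by omega)
    refine ⟨max X X1, max K K1, max p₀ p1, fun d' h3 h4 => ?_⟩
    rcases Nat.lt_or_ge d' (d + 1) with h5 | h5
    · obtain ⟨Q1', X', K', p', h6, h7, h8, h9, h10⟩ := h d' h3 (by omega)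
      exact ⟨Q1', X', K', p', h6, h7.trans (le_max_left _ _), h8.trans (le_max_left _ _), h9.trans (le_max_left _ _), h10⟩
    · obtain rfl : d' = d + 1 := by omega
      exact ⟨Q1, X1, K1, p1, h1, le_max_right _ _, le_max_right _ _, le_max_right _ _, h2⟩

theorem nd_mapK {k Ω Ω' : Type} [Field k] [Field Ω] [Algebra k Ω] [Field Ω'] [Algebra k Ω'] (φ : Ω →ₐ[k] Ω')
    (L : IntermediateField k Ω) (α : Ω) : (minpoly (L.map φ) (φ α)).natDegree = (minpoly L α).natDegree := by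
  let e : L ≃ₐ[k] L.map φ := IntermediateField.equivMap L φ
  let : Algebra L Ω' := (φ.toRingHom.comp (algebraMap L Ω)).toAlgebra
  let τ : Ω →ₐ[L] Ω' := { φ.toRingHom with commutes' := fun r => rfl }
  have h2 : minpoly L (τ α) = minpoly L α := minpoly.algHom_eq τ τ.injective α
  have h4 : τ α = φ α := rfl
  rw [Pool.Agent.H11.BK.nd_equiv (T := Ω') e.toRingEquiv (fun y => rfl) (φ α), ← h4, h2]

theorem nd_map {k Ω Ω' : Type} [Field k] [Field Ω] [Algebra k Ω] [Field Ω'] [Algebra k Ω'] (φ : Ω →ₐ[k] Ω')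
    (ζ x α : Ω) : (minpoly (IntermediateField.adjoin k ({φ ζ, φ x} : Set Ω')) (φ α)).natDegree =
      (minpoly (IntermediateField.adjoin k ({ζ, x} : Set Ω)) α).natDegree := by
  have h1 : (IntermediateField.adjoin k ({ζ, x} : Set Ω)).map φ = IntermediateField.adjoin k ({φ ζ, φ x} : Set Ω') := by
    rw [IntermediateField.adjoin_map, Set.image_pair]
  rw [← h1]
  exact nd_mapK φ _ α

theorem exists_closure (k E : Type) [Field k] [Field E] [CharZero E] [Algebra k E] [IsAlgClosed E] :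
    ∃ (Ω : Type) (_ : Field Ω) (_ : CharZero Ω) (_ : Algebra k Ω) (_ : Algebra.IsAlgebraic k Ω) (_ : IsAlgClosed Ω)
      (φ : Ω →ₐ[k] E), ∀ z : E, IsIntegral k z → ∃ w, φ w = z := by
  have hclos : IsAlgClosure k (algebraicClosure k E) := inferInstance
  have hc : CharZero (algebraicClosure k E) := inferInstance
  exact ⟨algebraicClosure k E, inferInstance, hc, inferInstance, inferInstance, IsAlgClosure.isAlgClosed k,
    (algebraicClosure k E).val, fun z hz => ⟨⟨z, mem_algebraicClosure_iff'.2 hz⟩, rfl⟩⟩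

theorem nd_mono {Ω : Type} [Field Ω] [Algebra ℚ Ω] (K K' : IntermediateField ℚ Ω) (h : K ≤ K') (α : Ω)
    (hα : IsIntegral ℚ α) : (minpoly K' α).natDegree ≤ (minpoly K α).natDegree := by
  have hK : IsIntegral K α := hα.tower_top
  have h1 : Polynomial.aeval α ((minpoly K α).map (IntermediateField.inclusion h : K →+* K')) = 0 := by
    rw [Polynomial.aeval_def, Polynomial.eval₂_map]
    exact minpoly.aeval K α
  have h2 := minpoly.dvd K' α h1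
  have h3 := Polynomial.natDegree_le_of_dvd h2 ((minpoly.monic hK).map _).ne_zero
  rwa [(minpoly.monic hK).natDegree_map] at h3

theorem not_pow (b p : ℕ) (hb : 2 ≤ b) (hp : b < p) (r : ℕ) : r ^ p ≠ b := by
  intro h
  rcases Nat.lt_or_ge r 2 with h1 | h1
  · interval_cases r
    · rw [zero_pow (by omega)] at h
      omega
    · rw [one_pow] at h
      omega
  · have h2 : 2 ^ p ≤ r ^ p := Nat.pow_le_pow_left h1 p
    have h3 : p < 2 ^ p := Nat.lt_two_pow_self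
    omega

theorem wd (b : ℕ) (hb : 2 ≤ b) (d : ℕ) : ∃ Q : ℕ, ∀ C : ℝ, ∃ c : ℝ, 0 < c ∧
    ∀ (p N : ℕ) (ζ x α : ℂ), p.Prime → 1 ≤ N → ζ ^ N = 1 → x ^ p = (b : ℂ) → IsIntegral ℤ α → α ≠ 0 →
      (minpoly (IntermediateField.adjoin ℚ ({ζ, x} : Set ℂ)) α).natDegree ≤ d →
      Pool.H22.Lh.meanC (fun z => ‖z‖ ^ Q) α ≤ C →
      (∃ k s t : ℕ, 1 ≤ k ∧ α ^ k * (b : ℂ) ^ s = (b : ℂ) ^ t) ∨ c ≤ absLogHeight₁ α := by
  classical
  obtain ⟨Q2, hQ2⟩ : ∃ Q2, Q2 = 2 ^ (d + 1) + b + 3 := ⟨_, rfl⟩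
  obtain ⟨X, K, p₀, hcore⟩ := core_all b hb Q2 d
  refine ⟨4 * K, fun C => ?_⟩
  obtain ⟨c1, hc1, hmo⟩ := mo K C
  obtain ⟨c2, hc2, hdes⟩ := des b hb d Q2 X (by omega)
  obtain ⟨p₁, hp₁⟩ : ∃ p₁, p₁ = p₀ + X + Q2 + b + 4 := ⟨_, rfl⟩
  obtain ⟨c3, hc3, hsm⟩ := small_p d p₁
  refine ⟨min c1 (min c2 c3), lt_min hc1 (lt_min hc2 hc3), ?_⟩
  intro p N ζ x α hp hN hζ hx hα hα0 hdeg hmean
  rcases le_or_gt (min c1 (min c2 c3)) (absLogHeight₁ α) with hh | hh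
  · exact Or.inr hh
  left
  have hh1 : absLogHeight₁ α < c1 := lt_of_lt_of_le hh (min_le_left _ _)
  have hh2 : absLogHeight₁ α < c2 := lt_of_lt_of_le hh ((min_le_right _ _).trans (min_le_left _ _))
  have hh3 : absLogHeight₁ α < c3 := lt_of_lt_of_le hh ((min_le_right _ _).trans (min_le_right _ _))
  have hmoα := hmo α hα hh1 hmean
  have hαQ : IsIntegral ℚ α := hα.tower_top
  -- the field of algebraic numbers
  obtain ⟨Ω, i1, i2, inst, i4, i5, φ, hφ⟩ := exists_closure ℚ ℂ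
  have hinst : inst = DivisionRing.toRatAlgebra := Subsingleton.elim _ _
  subst hinst
  have hξ : ∀ (n : ℕ) (z : ℂ) (a : ℕ), 1 ≤ n → z ^ n = (a : ℂ) → IsIntegral ℚ z := by
    intro n z a hn hz
    refine IsIntegral.of_pow hn ?_
    rw [hz]
    have h0 := isIntegral_algebraMap (R := ℚ) (A := ℂ) (x := (a : ℚ))
    simpa using h0
  obtain ⟨ζ₀, rfl⟩ := hφ ζ (hξ N ζ 1 hN (by rw [hζ]; simp))
  obtain ⟨x₀, hx₀⟩ := hφ x (hξ p x b hp.one_lt.le hx)
  obtain ⟨α₀, hα₀⟩ := hφ α hαQ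
  have hheight : absLogHeight₁ α₀ = absLogHeight₁ α := by
    have h1 := (Pool.Agent.H11.BK.height_map (φ : Ω →+* ℂ) α₀ (Algebra.IsIntegral.isIntegral _)).1
    rw [← hα₀]
    exact h1.symm
  have hα0' : α₀ ≠ 0 := fun h => hα0 (by rw [← hα₀, h, map_zero])
  have hxΩ : x₀ ^ p = ((b : ℕ) : Ω) := by
    have h0 : φ (x₀ ^ p) = φ ((b : ℕ) : Ω) := by rw [map_pow, hx₀, hx, map_natCast]
    exact φ.injective h0
  rcases Nat.lt_or_ge p p₁ with hpp | hpp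
  · -- small `p`
    obtain ⟨k, hk, hk2⟩ := hsm Ω b p N ζ₀ x₀ α₀ hp.one_lt.le hpp hN
      (by
        have h0 : φ (ζ₀ ^ N) = φ 1 := by rw [map_pow, hζ, map_one]
        exact φ.injective h0)
      hxΩ hα0'
      (by
        rw [← nd_map φ ζ₀ x₀ α₀, hx₀, hα₀]
        exact hdeg)
      (by rw [hheight]; exact hh3)
    refine ⟨k, 0, 0, hk, ?_⟩
    rw [pow_zero, mul_one, ← hα₀, ← map_pow, hk2, map_one]
  · -- large `p`
    have hNp : N * p ≠ 0 := Nat.mul_ne_zero (by omega) hp.ne_zero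
    have hprim := Complex.isPrimitiveRoot_exp (N * p) hNp
    obtain ⟨ζ₁, hζ₁⟩ : ∃ ζ₁ : ℂ, IsPrimitiveRoot ζ₁ (N * p) := ⟨_, hprim⟩
    obtain ⟨ζ₂, hζ₂⟩ := hφ ζ₁ (hξ (N * p) ζ₁ 1 (Nat.pos_of_ne_zero hNp) (by rw [hζ₁.pow_eq_one]; simp))
    have hne : NeZero (N * p) := ⟨hNp⟩
    obtain ⟨i, -, hi⟩ := hζ₁.eq_pow_of_pow_eq_one (ξ := φ ζ₀) (by rw [pow_mul, hζ, one_pow])
    have hle : IntermediateField.adjoin ℚ ({φ ζ₀, x} : Set ℂ) ≤ IntermediateField.adjoin ℚ ({ζ₁, x} : Set ℂ) := by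
      rw [IntermediateField.adjoin_le_iff]
      intro z hz
      rcases hz with rfl | hz
      · change φ ζ₀ ∈ IntermediateField.adjoin ℚ ({ζ₁, x} : Set ℂ)
        rw [← hi]
        exact pow_mem (IntermediateField.subset_adjoin ℚ _ (by simp)) _
      · rw [Set.mem_singleton_iff.1 hz]
        exact IntermediateField.subset_adjoin ℚ _ (by simp)
    have hdeg1 := (nd_mono _ _ hle α hαQ).trans hdeg
    have hbp : ∀ r : ℕ, r ^ p ≠ b := not_pow b p hb (by omega)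
    obtain ⟨N', ζ', η, k₁, hN', hpN', hwin, hζ', hk₁, hη, hdeg2⟩ := hdes Ω p (N * p)
      ζ₂ x₀ α₀ hp (by omega) (by omega) hbp (Nat.pos_of_ne_zero hNp) (dvd_mul_left _ _)
      (IsPrimitiveRoot.of_map_of_injective (f := φ) (by rw [hζ₂]; exact hζ₁) φ.injective)
      hxΩ hα0'
      (by
        rw [← nd_map φ ζ₂ x₀ α₀, hζ₂, hx₀, hα₀]
        exact hdeg1)
      (by rw [hheight]; exact hh2)
    rw [← nd_map φ ζ' x₀ (η * α₀), map_mul, hx₀, hα₀] at hdeg2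
    obtain ⟨η', hη'⟩ : ∃ η' : ℂ, η' = φ η := ⟨_, rfl⟩
    have hηC : η' ^ k₁ = 1 := by
      rw [hη', ← map_pow, hη, map_one]
    rw [← hη'] at hdeg2
    have hζC : IsPrimitiveRoot (φ ζ') N' := hζ'.map_of_injective φ.injective
    have hηint : IsIntegral ℤ η' := IsIntegral.of_pow hk₁ (by rw [hηC]; exact isIntegral_one)
    have hη0 : η' ≠ 0 := by
      intro h
      rw [h, zero_pow (by omega)] at hηC
      exact zero_ne_one hηC
    have := Fact.mk hp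
    obtain ⟨P, P1, M, hP0, hM0, A, F, i1, i2, i3, i4, i5, i6, D, hP, hP1, hNPM, hcyc, -, hnd⟩ :=
      exists_dt p b (by omega) hb hbp N' hN' hpN' _ x hζC hx
    have hn0 : NeZero N' := ⟨by omega⟩
    have hβi : IsIntegral ℤ (η' * α) := hηint.mul hα
    have hβ1 : 1 ≤ (minpoly F (η' * α)).natDegree := minpoly.natDegree_pos hβi.tower_top
    have hβd : (minpoly F (η' * α)).natDegree ≤ d := by
      rw [hnd]
      exact hdeg2
    obtain ⟨Q1, X', K', p', h1, h2, h3, h4, h5⟩ := hcore _ hβ1 hβd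
    obtain ⟨k, s, t, h6, h7⟩ := h5 p P P1 M N' (by omega) hP hP1 (fun q hq h8 h9 => hwin q hq (by omega) (by omega))
      A F D (η' * α) hβi (mul_ne_zero hη0 hα0) rfl (fun k hk => by
        rw [mean_unit (2 * k) α η' k₁ hk₁ hηC hα]
        exact hmoα k (by omega))
    refine ⟨k * k₁, s * k₁, t * k₁, Nat.mul_pos h6 hk₁, ?_⟩
    have h8 : ((η' * α) ^ k * (b : ℂ) ^ s) ^ k₁ = ((b : ℂ) ^ t) ^ k₁ := by rw [h7]
    have h9 : (η' ^ k) ^ k₁ = 1 := by rw [← pow_mul, mul_comm, pow_mul, hηC, one_pow]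
    have h10 : ((η' * α) ^ k * (b : ℂ) ^ s) ^ k₁ = (η' ^ k) ^ k₁ * (α ^ (k * k₁) * (b : ℂ) ^ (s * k₁)) := by ring
    rw [h10, h9, one_mul, ← pow_mul] at h8
    exact h8

end Pool.Agent.H72.WD
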