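import Pool.Agent.H72.WD.Tr

/-!
# [H72 WD Frf] THEOREM WD: Frobenius

`Z_fr`, `Q = q^f`, `u = y x^(p-j)`, `m = Q j.val / p`, `r = (Q j).val = Q j.val % p`. `Q (p - j.val) = (p - r) + p (Q - 1 - m)` (`m ≤ Q - 1`), so
`Tr(u^Q) = b^(Q-1-m) Z (y^Q) (Q j)`. `Tr(u^Q) - Tr(u)^Q ∈ q 𝓞_A`: at the embedding `e st` the difference is `∑ c_w^Q - (∑ c_w)^Q`, `c_w` integral: `q` times an
integral number (`exists_add_pow_prime_pow_eq` or `add_pow_char_pow` in `𝓞/(q)`, induction on the number of terms), and `(Tr(u^Q) - Tr(u)^Q)/q` is integral iff its image is.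
`φ(Z y j) = (Z y j)^Q + q c`. `Z y' (Q j) = Z (y^Q) (Q j) + q Z c (Q j)`. Multiply by `b^m`: `b^(Q-1) = 1` mod `q`.
`fr_bij`: `φ` is bijective (`A` a number field: `ℚ`-linear injective), the inverse maps integers to integers. `fr_sum`: `φ` permutes the embeddings (`σ ↦ σ ∘ φ` is
injective on the finite set of the embeddings).
-/

set_option autoImplicit false

namespace Pool.Agent.H72.WD

open Finset
open Pool.Agent.H61.WN (ch)

variable {p b P M : ℕ} [Fact p.Prime] [NeZero P] [NeZero M] {A F : Type} [Field A] [NumberField A]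
  [Field F] [NumberField F] [Algebra A F]

theorem fr_bij (φ : A →+* A) : ∃ φ' : A →+* A, (∀ a, φ (φ' a) = a) ∧ (∀ a, φ' (φ a) = a) := by
  have h1 : Function.Injective φ := φ.injective
  have h2 : Function.Surjective φ := by
    have h3 : Function.Injective (φ.toRatAlgHom.toLinearMap : A →ₗ[ℚ] A) := h1
    exact LinearMap.injective_iff_surjective.1 h3
  let E : A ≃+* A := RingEquiv.ofBijective φ ⟨h1, h2⟩
  exact ⟨E.symm.toRingHom, fun a => E.apply_symm_apply a, fun a => E.symm_apply_apply a⟩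

theorem fr_int (φ : A →+* A) (a : A) : IsIntegral ℤ (φ a) ↔ IsIntegral ℤ a :=
  isIntegral_algHom_iff φ.toIntAlgHom φ.injective

theorem fr_sum (D : Cy P M A) (φ : A →+* A) (h : ℂ → ℝ) (a : A) :
    ∑ st : (ZMod P)ˣ × (ZMod M)ˣ, h (D.e st (φ a)) = ∑ st : (ZMod P)ˣ × (ZMod M)ˣ, h (D.e st a) := by
  obtain ⟨φ', h1, h2⟩ := fr_bij φ
  let E : (ZMod P)ˣ × (ZMod M)ˣ ≃ (A →+* ℂ) := Equiv.ofBijective D.e D.he
  let T : (A →+* ℂ) ≃ (A →+* ℂ) :=
    { toFun := fun ψ => ψ.comp φ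
      invFun := fun ψ => ψ.comp φ'
      left_inv := fun ψ => by
        ext a
        exact congrArg ψ (h1 a)
      right_inv := fun ψ => by
        ext a
        exact congrArg ψ (h2 a) }
  refine Fintype.sum_equiv ((E.trans T).trans E.symm) _ _ fun st => ?_
  have h3 : D.e (((E.trans T).trans E.symm) st) = (D.e st).comp φ := by
    show E (E.symm (T (E st))) = T (E st)
    exact E.apply_symm_apply _
  rw [h3]
  rfl

/-- the power `q ^ f` of a sum -/
private theorem sum_pow_q {R ι : Type} [CommRing R] (q f : ℕ) (hq : q.Prime) (s : Finset ι) (c : ι → R) :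
    ∃ r : R, (∑ i ∈ s, c i) ^ (q ^ f) = ∑ i ∈ s, c i ^ (q ^ f) + q * r := by
  classical
  induction s using Finset.induction_on with
  | empty =>
    refine ⟨0, ?_⟩
    rw [Finset.sum_empty, Finset.sum_empty, zero_pow (pow_pos hq.pos f).ne', mul_zero, add_zero]
  | insert i s hi ih =>
    obtain ⟨r, hr⟩ := ih
    obtain ⟨t, ht⟩ := exists_add_pow_prime_pow_eq hq (c i) (∑ j ∈ s, c j) f
    refine ⟨r + c i * (∑ j ∈ s, c j) * t, ?_⟩
    rw [Finset.sum_insert hi, Finset.sum_insert hi, ht, hr]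
    ring

/-- the trace of the power `q ^ f` -/
private theorem tr_pow_q (D : Dt p b P M A F) (q f : ℕ) (hq : q.Prime) (u : F) (hu : IsIntegral ℤ u) :
    ∃ c : A, IsIntegral ℤ c ∧ Algebra.trace A F (u ^ (q ^ f)) - (Algebra.trace A F u) ^ (q ^ f) = q * c := by
  classical
  have hqA : (q : A) ≠ 0 := Nat.cast_ne_zero.2 hq.ne_zero
  obtain ⟨c, hc⟩ : ∃ c : A, c = (Algebra.trace A F (u ^ (q ^ f)) - (Algebra.trace A F u) ^ (q ^ f)) / q := ⟨_, rfl⟩
  refine ⟨c, ?_, by rw [hc]; field_simp⟩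
  obtain ⟨st⟩ : Nonempty ((ZMod P)ˣ × (ZMod M)ˣ) := inferInstance
  have hcw : ∀ w : ZMod p, IsIntegral ℤ (D.ee (st, w) u) := fun w =>
    (isIntegral_algHom_iff (D.ee (st, w)).toIntAlgHom (D.ee (st, w)).injective).2 hu
  obtain ⟨r, hr⟩ := sum_pow_q (R := integralClosure ℤ ℂ) q f hq (Finset.univ : Finset (ZMod p))
    (fun w => ⟨D.ee (st, w) u, hcw w⟩)
  have hr' := congrArg (Subtype.val : integralClosure ℤ ℂ → ℂ) hr
  have h1 : (((∑ w : ZMod p, (⟨D.ee (st, w) u, hcw w⟩ : integralClosure ℤ ℂ)) ^ (q ^ f) : integralClosure ℤ ℂ) : ℂ) =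
      (∑ w : ZMod p, D.ee (st, w) u) ^ (q ^ f) := by
    push_cast
    rfl
  have h2 : (((∑ w : ZMod p, (⟨D.ee (st, w) u, hcw w⟩ : integralClosure ℤ ℂ) ^ (q ^ f) + q * r : integralClosure ℤ ℂ)) : ℂ) =
      ∑ w : ZMod p, (D.ee (st, w) u) ^ (q ^ f) + q * (r : ℂ) := by
    push_cast
    rfl
  have h3 : (∑ w : ZMod p, D.ee (st, w) u) ^ (q ^ f) = ∑ w : ZMod p, (D.ee (st, w) u) ^ (q ^ f) + q * (r : ℂ) :=
    h1.symm.trans (hr'.trans h2)
  have h4 : D.e st c = -(r : ℂ) := by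
    have h5 : (q : ℂ) ≠ 0 := Nat.cast_ne_zero.2 hq.ne_zero
    have h6 : D.e st ((q : A) * c) = (q : ℂ) * -(r : ℂ) := by
      have h7 : (q : A) * c = Algebra.trace A F (u ^ (q ^ f)) - (Algebra.trace A F u) ^ (q ^ f) := by
        rw [hc]
        field_simp
      rw [h7, map_sub, map_pow (D.e st), e_tr, e_tr, h3]
      have h8 : ∑ w : ZMod p, D.ee (st, w) (u ^ (q ^ f)) = ∑ w : ZMod p, (D.ee (st, w) u) ^ (q ^ f) :=
        Finset.sum_congr rfl fun w _ => map_pow _ _ _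
      rw [h8]
      ring
    rw [map_mul, map_natCast] at h6
    exact mul_left_cancel₀ h5 h6
  have h5 : IsIntegral ℤ (D.e st c) := by
    rw [h4]
    exact IsIntegral.neg r.2
  exact (isIntegral_algHom_iff (D.e st).toIntAlgHom (D.e st).injective).1 h5

theorem Z_fr (D : Dt p b P M A F) (q f : ℕ) (hq : q.Prime) (hqb : ¬ q ∣ b) (φ : A →+* A) (hφ : FrQ A (q ^ f) q φ)
    (y y' c : F) (hy : IsIntegral ℤ y) (hc : IsIntegral ℤ c) (hyy : y' = y ^ (q ^ f) + q * c) (j : ZMod p) :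
    ∃ w : A, IsIntegral ℤ w ∧ D.Z y' (((q ^ f : ℕ) : ZMod p) * j) - (b : A) ^ ((q ^ f * j.val) / p) * φ (D.Z y j) = q * w := by
  classical
  have hp : p.Prime := Fact.out
  obtain ⟨Q, hQ⟩ : ∃ Q, Q = q ^ f := ⟨_, rfl⟩
  have hQ0 : 0 < Q := by rw [hQ]; exact pow_pos hq.pos f
  have hbint : ∀ k : ℕ, IsIntegral ℤ ((b : A) ^ k) := fun k => (isIntegral_algebraMap (R := ℤ) (A := A) (x := (b : ℤ))).pow k |> fun h => by
    simpa using h
  obtain ⟨u, hu⟩ : ∃ u : F, u = y * D.x ^ (p - j.val) := ⟨_, rfl⟩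
  have hxint : IsIntegral ℤ D.x := by
    refine IsIntegral.of_pow hp.pos ?_
    rw [D.hx]
    exact isIntegral_algebraMap (R := ℤ) (A := F) (x := (b : ℤ)) |> fun h => by simpa using h
  have huint : IsIntegral ℤ u := by
    rw [hu]
    exact hy.mul (hxint.pow _)
  obtain ⟨c1, hc1, hc1'⟩ := hφ (D.Z y j) (Z_int D y hy j)
  obtain ⟨c2, hc2, hc2'⟩ := tr_pow_q D q f hq u huint
  rw [← hQ] at hc1' hc2' hyy ⊢
  -- the residue
  have hval : ((Q : ZMod p) * j).val = (Q * j.val) % p := by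
    have h4 : (Q : ZMod p) * j = ((Q * j.val : ℕ) : ZMod p) := by
      rw [Nat.cast_mul, ZMod.natCast_zmod_val]
    rw [h4, ZMod.val_natCast]
  obtain ⟨m, hm⟩ : ∃ m, m = (Q * j.val) / p := ⟨_, rfl⟩
  obtain ⟨r, hr⟩ : ∃ r, r = (Q * j.val) % p := ⟨_, rfl⟩
  have hmr : p * m + r = Q * j.val := by
    rw [hm, hr]
    exact Nat.div_add_mod _ _
  have hrp : r < p := by
    rw [hr]
    exact Nat.mod_lt _ hp.pos
  have hjp : j.val < p := ZMod.val_lt j
  have hmQ : m + 1 ≤ Q := by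
    have h1 : m < Q := by
      rw [hm]
      refine (Nat.div_lt_iff_lt_mul hp.pos).2 ?_
      exact Nat.mul_lt_mul_of_pos_left hjp hQ0
    exact h1
  obtain ⟨k, hk⟩ : ∃ k, Q = m + 1 + k := ⟨Q - (m + 1), by omega⟩
  have hexp : (p - j.val) * Q = (p - r) + p * k := by
    obtain ⟨a, ha⟩ : ∃ a, p = j.val + a := ⟨p - j.val, by omega⟩
    obtain ⟨a', ha'⟩ : ∃ a', p = r + a' := ⟨p - r, by omega⟩
    have h1 : p - j.val = a := by omega
    have h2 : p - r = a' := by omega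
    rw [h1, h2]
    have h3 : p * Q = Q * j.val + a * Q := by
      calc p * Q = (j.val + a) * Q := by rw [← ha]
        _ = _ := by ring
    have h4 : p * Q = p * m + p + p * k := by
      rw [hk]
      ring
    omega
  have hupow : u ^ Q = algebraMap A F ((b : A) ^ k) * (y ^ Q * D.x ^ (p - r)) := by
    rw [hu, mul_pow, ← pow_mul, hexp, pow_add, pow_mul, D.hx, map_pow, map_natCast]
    ring
  have htr : Algebra.trace A F (u ^ Q) = (b : A) ^ k * D.Z (y ^ Q) ((Q : ZMod p) * j) := by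
    rw [hupow, ← Algebra.smul_def, map_smul, smul_eq_mul, Dt.Z, hval, ← hr]
  have hZu : Algebra.trace A F u = D.Z y j := by
    rw [hu, Dt.Z]
  have hZy' : D.Z y' ((Q : ZMod p) * j) = D.Z (y ^ Q) ((Q : ZMod p) * j) + q * D.Z c ((Q : ZMod p) * j) := by
    rw [hyy, Dt.Z, Dt.Z, Dt.Z, add_mul, map_add]
    congr 1
    have h1 : (q : F) * c * D.x ^ (p - ((Q : ZMod p) * j).val) =
        (q : A) • (c * D.x ^ (p - ((Q : ZMod p) * j).val)) := by
      rw [Algebra.smul_def, map_natCast]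
      ring
    rw [h1, map_smul, smul_eq_mul]
  -- Fermat
  obtain ⟨l, hl⟩ : ∃ l : ℤ, (b : ℤ) ^ (m + k) = 1 + q * l := by
    have : Fact q.Prime := ⟨hq⟩
    have hbq : (b : ZMod q) ≠ 0 := by
      rw [Ne, ZMod.natCast_eq_zero_iff]
      exact hqb
    have h1 : (b : ZMod q) ^ (m + k) = 1 := by
      have h2 : q - 1 ∣ m + k := by
        have h3 : m + k = q ^ f - 1 := by omega
        rw [h3]
        simpa using Nat.sub_dvd_pow_sub_pow q 1 f
      obtain ⟨e, he⟩ := h2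
      rw [he, pow_mul, ZMod.pow_card_sub_one_eq_one hbq, one_pow]
    have h2 : (q : ℤ) ∣ (b : ℤ) ^ (m + k) - 1 := by
      rw [← ZMod.intCast_zmod_eq_zero_iff_dvd]
      push_cast
      rw [h1, sub_self]
    obtain ⟨l, hl⟩ := h2
    exact ⟨l, by linarith⟩
  have hl' : (b : A) ^ (m + k) = 1 + q * (l : A) := by
    have h1 := congrArg (Int.cast : ℤ → A) hl
    push_cast at h1
    exact h1
  refine ⟨D.Z c ((Q : ZMod p) * j) - l * D.Z (y ^ Q) ((Q : ZMod p) * j) + (b : A) ^ m * c2 - (b : A) ^ m * c1, ?_, ?_⟩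
  · have h1 : IsIntegral ℤ (l : A) := isIntegral_algebraMap (R := ℤ) (A := A) (x := l) |> fun h => by simpa using h
    exact (((Z_int D c hc _).sub (h1.mul (Z_int D _ (hy.pow _) _))).add ((hbint m).mul hc2)).sub ((hbint m).mul hc1)
  · rw [← hm, hZy', hc1', ← hZu]
    have h2 : Algebra.trace A F u ^ Q = (b : A) ^ k * D.Z (y ^ Q) ((Q : ZMod p) * j) - q * c2 := by
      rw [← htr]
      linear_combination -hc2'
    rw [h2]
    have h3 : (b : A) ^ m * (b : A) ^ k = 1 + q * (l : A) := by rw [← pow_add, hl']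
    linear_combination (-(D.Z (y ^ Q) ((Q : ZMod p) * j))) * h3

end Pool.Agent.H72.WD
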