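import Pool.Agent.H72.WD.Def

/-!
# [H72 WD Ga] THEOREM WD, LEMMA R: the abstract steps

`Good V q` (Def). `good_Z`: `V = ℤ`: use `ψ = id` for the hypothesis, and every `ψ` is the multiplication by `ψ 1`, `N` is a subgroup.
`good_equiv`: transport along an isomorphism.
STEP A (`good_A`): `V'` is generated by `U` copies of `V` orthogonally: `ι : (U → V) →+ V'` surjective, `q' (ι v) = ∑_u q (v u)`.
`ι` is injective: if `ι v = 0` then `∑ q (v u) = q' 0 = q' (ι 0) = ∑ q 0 = 0`, so `q (v u) = 0`, `v u = 0`. So `V' ≃ (U → V)`. For `f : G → V'`, `f = ι ∘ F`: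
for each `u` the function `g ↦ F g u` has all `ψ (F g u)` in `C` (`v' ↦ ψ ((ι⁻¹ v') u)` is a homomorphism), `∑_g q (F g u) ≤ ∑_g q' (f g) ≤ E`. So
`ψ' ∘ F · u ∈ N` for all `ψ'`, and `ψ (f g) = ∑_u ψ (ι (single u (F g u)))`, sum of elements of `N`.
STEP B (`good_B`): `ι : (U → V) →+ V'` surjective, `2 (|U| - 1) q' (ι v) = ∑_(j,k) q (v j - v k)` (`|U| ≥ 2`). `ι v = 0` iff `v` is constant (as `q' 0 = 0`; for `v = 0`).
For `f = ι ∘ F` and `j k`: `f_jk g := F g j - F g k` has `ψ ∘ f_jk` in `C` for all `ψ` (`v' ↦ ψ (v j - v k)` for any `v` with `ι v = v'` is a well defined homomorphism).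
Call `j ~ k` if `ψ ∘ f_jk ∈ N` for all `ψ`: an equivalence relation. If all `j ~ k`: fix `k₀`, `ψ (f g) = ∑_j ψ (ι (single j (F g j - F g k₀)))` (`ι` of a constant is `0`), in `N`.
Otherwise at least `2 (|U| - 1)` ordered pairs are not equivalent (a class of `a` elements, `1 ≤ a < |U|`, gives `2 a (|U| - a) ≥ 2 (|U| - 1)`), for each of them
`∑_g q (f_jk g) > E` (otherwise the hypothesis `Good V q` gives `j ~ k`), so `2 (|U| - 1) ∑_g q' (f g) ≥ ∑_(bad (j,k)) ∑_g q (f_jk g) > 2 (|U| - 1) E`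
(the other terms are `≥ 0`). Contradiction. (If `E < 0` the sum of the `q` is never `≤ E`; the strict inequality holds since there is at least one bad pair.)
-/

set_option autoImplicit false

namespace Pool.Agent.H72.WD

open Finset

theorem good_Z : Good ℤ (fun n => (n : ℝ) ^ 2) := by
  intro G _ C N E h f hC hE ψ
  have h1 : (fun g => f g) ∈ N := by
    refine h _ ?_ hE
    exact hC (AddMonoidHom.id ℤ)
  have h2 : (fun g => ψ (f g)) = ψ 1 • (fun g => f g) := by
    funext g
    have : ψ (f g) = ψ (f g • (1 : ℤ)) := by simp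
    rw [this, map_zsmul]
    simp [mul_comm]
  rw [h2]
  exact N.zsmul_mem h1 _

theorem good_equiv {V V' : Type} [AddCommGroup V] [AddCommGroup V'] (q : V → ℝ) (q' : V' → ℝ) (e : V ≃+ V')
    (hq : ∀ v, q' (e v) = q v) (h : Good V q) : Good V' q' := by
  intro G _ C N E hN f hC hE ψ
  have h1 := h G C N E hN (fun g => e.symm (f g)) (fun φ => hC (φ.comp e.symm.toAddMonoidHom)) (by
    refine le_trans (le_of_eq ?_) hE
    refine Finset.sum_congr rfl fun g _ => ?_
    rw [← hq, e.apply_symm_apply]) (ψ.comp e.toAddMonoidHom)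
  have h2 : (fun g => (ψ.comp e.toAddMonoidHom) (e.symm (f g))) = fun g => ψ (f g) := by
    funext g
    simp
  rw [h2] at h1
  exact h1

private lemma sum_single_hom {V U : Type} [AddCommGroup V] [Fintype U] [DecidableEq U] (ψ : (U → V) →+ ℤ)
    (v : U → V) : ψ v = ∑ u, (ψ.comp (AddMonoidHom.single (fun _ : U => V) u)) (v u) := by
  conv_lhs => rw [← Finset.univ_sum_single v]
  rw [map_sum]
  rfl

private lemma good_pi {V U : Type} [AddCommGroup V] [Fintype U] [DecidableEq U] (q : V → ℝ)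
    (hq0 : ∀ v, 0 ≤ q v) (h : Good V q) : Good (U → V) (fun v => ∑ u, q (v u)) := by
  intro G _ C N E hN f hC hE ψ
  have h1 : ∀ u, ∀ φ : V →+ ℤ, (fun g => φ (f g u)) ∈ N := by
    intro u
    refine h G C N E hN (fun g => f g u) (fun φ => hC (φ.comp (Pi.evalAddMonoidHom (fun _ : U => V) u))) ?_
    refine le_trans (Finset.sum_le_sum fun g _ => ?_) hE
    exact Finset.single_le_sum (f := fun u => q (f g u)) (fun i _ => hq0 _) (Finset.mem_univ u)
  have h2 : (fun g => ψ (f g)) =
      ∑ u, fun g => (ψ.comp (AddMonoidHom.single (fun _ : U => V) u)) (f g u) := by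
    funext g
    rw [Finset.sum_apply]
    exact sum_single_hom ψ (f g)
  rw [h2]
  exact N.sum_mem fun u _ => h1 u _

theorem good_A {V V' U : Type} [AddCommGroup V] [AddCommGroup V'] [Fintype U] [DecidableEq U] (q : V → ℝ) (q' : V' → ℝ)
    (ι : (U → V) →+ V') (hι : Function.Surjective ι) (hq0 : ∀ v, 0 ≤ q v) (hq : ∀ v, q v = 0 → v = 0)
    (hqz : q 0 = 0) (hi : ∀ v : U → V, q' (ι v) = ∑ u, q (v u)) (h : Good V q) : Good V' q' := by
  have h0 : q' 0 = 0 := by
    have := hi 0
    rw [map_zero] at this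
    rw [this]
    simp [hqz]
  have hinj : Function.Injective ι := by
    rw [injective_iff_map_eq_zero]
    intro v hv
    have h1 := hi v
    rw [hv, h0] at h1
    funext u
    have h2 := (Finset.sum_eq_zero_iff_of_nonneg (fun u _ => hq0 (v u))).1 h1.symm u (Finset.mem_univ u)
    exact hq _ h2
  exact good_equiv _ q' (AddEquiv.ofBijective ι ⟨hinj, hι⟩) (fun v => hi v) (good_pi q hq0 h)

theorem good_B {V V' U : Type} [AddCommGroup V] [AddCommGroup V'] [Fintype U] [DecidableEq U] (hU : 2 ≤ Fintype.card U)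
    (q : V → ℝ) (q' : V' → ℝ) (ι : (U → V) →+ V') (hι : Function.Surjective ι) (hc : ∀ a : V, ι (fun _ => a) = 0)
    (hq0 : ∀ v, 0 ≤ q v) (hq : ∀ v, q v = 0 → v = 0) (hqz : q 0 = 0)
    (hi : ∀ v : U → V, 2 * ((Fintype.card U : ℝ) - 1) * q' (ι v) = ∑ j, ∑ k, q (v j - v k)) (h : Good V q) :
    Good V' q' := by
  classical
  have hU' : (2 : ℝ) ≤ Fintype.card U := by exact_mod_cast hU
  have hpos : 0 < 2 * ((Fintype.card U : ℝ) - 1) := by linarith
  have h0 : q' 0 = 0 := by
    have := hi 0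
    rw [map_zero] at this
    simp only [Pi.zero_apply, sub_zero, hqz, Finset.sum_const_zero] at this
    rcases mul_eq_zero.1 this with h1 | h1
    · linarith
    · exact h1
  have hker : ∀ v : U → V, ι v = 0 → ∀ j k, v j = v k := by
    intro v hv j k
    have h1 := hi v
    rw [hv, h0, mul_zero] at h1
    have h2 := (Finset.sum_eq_zero_iff_of_nonneg
      (fun j _ => Finset.sum_nonneg fun k _ => hq0 (v j - v k))).1 h1.symm j (Finset.mem_univ j)
    have h3 := (Finset.sum_eq_zero_iff_of_nonneg (fun k _ => hq0 (v j - v k))).1 h2 k (Finset.mem_univ k)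
    exact sub_eq_zero.1 (hq _ h3)
  choose s hs using hι
  have hker2 : ∀ v w : U → V, ι v = ι w → ∀ j k, v j - v k = w j - w k := by
    intro v w hvw j k
    have h1 := hker (v - w) (by rw [map_sub, hvw, sub_self]) j k
    simp only [Pi.sub_apply] at h1
    have h2 : v j - w j - (v k - w k) = 0 := by rw [h1, sub_self]
    have h3 : (v j - v k) - (w j - w k) = v j - w j - (v k - w k) := by abel
    exact sub_eq_zero.1 (h3.trans h2)
  let δ : U → U → (V' →+ V) := fun j k => AddMonoidHom.mk' (fun v' => s v' j - s v' k) (by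
    intro a b
    have h1 := hker2 (s (a + b)) (s a + s b) (by rw [map_add, hs, hs, hs]) j k
    rw [h1]
    simp only [Pi.add_apply]
    abel)
  have hδ : ∀ j k v', δ j k v' = s v' j - s v' k := fun j k v' => rfl
  intro G _ C N E hN f hC hE ψ
  let R : U → U → Prop := fun j k => ∀ φ : V →+ ℤ, (fun g => φ (δ j k (f g))) ∈ N
  have hsymm : ∀ j k, R j k → R k j := by
    intro j k hjk φ
    have h1 : (fun g => φ (δ k j (f g))) = -(fun g => φ (δ j k (f g))) := by
      funext g
      rw [Pi.neg_apply, ← map_neg]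
      congr 1
      rw [hδ, hδ]
      abel
    rw [h1]
    exact N.neg_mem (hjk φ)
  have htrans : ∀ j k l, R j k → R k l → R j l := by
    intro j k l hjk hkl φ
    have h1 : (fun g => φ (δ j l (f g))) = (fun g => φ (δ j k (f g))) + (fun g => φ (δ k l (f g))) := by
      funext g
      rw [Pi.add_apply, ← map_add]
      congr 1
      rw [hδ, hδ, hδ]
      abel
    rw [h1]
    exact N.add_mem (hjk φ) (hkl φ)
  have hrefl : ∀ j, R j j := by
    intro j φ
    have h1 : (fun g => φ (δ j j (f g))) = 0 := by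
      funext g
      rw [hδ, sub_self, map_zero]
      rfl
    rw [h1]
    exact N.zero_mem
  have hbad : ∀ j k, ¬ R j k → E < ∑ g, q (δ j k (f g)) := by
    intro j k hjk
    by_contra hle
    push Not at hle
    exact hjk (h G C N E hN (fun g => δ j k (f g)) (fun φ => hC (φ.comp (δ j k))) hle)
  by_cases hall : ∀ j k, R j k
  · have hne : Nonempty U := Fintype.card_pos_iff.1 (by omega)
    obtain ⟨k₀⟩ := hne
    have h1 : ∀ v', v' = ∑ j, ι (Pi.single j (δ j k₀ v')) := by
      intro v'
      rw [← map_sum]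
      have h2 : (∑ j, Pi.single j (δ j k₀ v') : U → V) = fun j => s v' j - s v' k₀ := by
        rw [← Finset.univ_sum_single (fun j => s v' j - s v' k₀)]
        exact Finset.sum_congr rfl fun j _ => by rw [hδ]
      rw [h2]
      have h3 : (fun j => s v' j - s v' k₀ : U → V) = s v' - fun _ => s v' k₀ := rfl
      rw [h3, map_sub, hc, sub_zero, hs]
    have h2 : (fun g => ψ (f g)) = ∑ j, fun g =>
        ((ψ.comp ι).comp (AddMonoidHom.single (fun _ : U => V) j)) (δ j k₀ (f g)) := by
      funext g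
      rw [Finset.sum_apply]
      conv_lhs => rw [h1 (f g)]
      rw [map_sum]
      rfl
    rw [h2]
    exact N.sum_mem fun j _ => hall j k₀ _
  · exfalso
    push Not at hall
    obtain ⟨j₀, k₀, hjk⟩ := hall
    let S : Finset U := Finset.univ.filter fun j => R j₀ j
    have hj₀ : j₀ ∈ S := by simp only [S, Finset.mem_filter, Finset.mem_univ, true_and]; exact hrefl j₀
    have hk₀ : k₀ ∈ Sᶜ := by
      simp only [S, Finset.mem_compl, Finset.mem_filter, Finset.mem_univ, true_and]
      exact hjk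
    have hbad2 : ∀ j ∈ S, ∀ k ∈ Sᶜ, ¬ R j k := by
      intro j hj k hk hR
      simp only [S, Finset.mem_filter, Finset.mem_univ, true_and, Finset.mem_compl] at hj hk
      exact hk (htrans _ _ _ hj hR)
    have hE0 : 0 ≤ E := by
      refine le_trans (Finset.sum_nonneg fun g _ => ?_) hE
      have h1 := hi (s (f g))
      rw [hs] at h1
      have h2 : 0 ≤ 2 * ((Fintype.card U : ℝ) - 1) * q' (f g) := by
        rw [h1]
        exact Finset.sum_nonneg fun j _ => Finset.sum_nonneg fun k _ => hq0 _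
      exact nonneg_of_mul_nonneg_right h2 hpos
    have hsum : 2 * ((Fintype.card U : ℝ) - 1) * ∑ g, q' (f g) =
        ∑ x ∈ (Finset.univ : Finset (U × U)), ∑ g, q (δ x.1 x.2 (f g)) := by
      rw [Finset.mul_sum, Finset.sum_comm]
      refine Finset.sum_congr rfl fun g _ => ?_
      have h1 := hi (s (f g))
      rw [hs] at h1
      rw [h1, ← Finset.univ_product_univ, Finset.sum_product]
      rfl
    let T : Finset (U × U) := (S ×ˢ Sᶜ) ∪ (Sᶜ ×ˢ S)
    have hdisj : Disjoint (S ×ˢ Sᶜ) (Sᶜ ×ˢ S) := by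
      rw [Finset.disjoint_left]
      rintro ⟨j, k⟩ h1 h2
      simp only [Finset.mem_product, Finset.mem_compl] at h1 h2
      exact h2.1 h1.1
    have hTcard : 2 * ((Fintype.card U : ℝ) - 1) ≤ (T.card : ℝ) := by
      have h1 : T.card = 2 * (S.card * Sᶜ.card) := by
        rw [Finset.card_union_of_disjoint hdisj, Finset.card_product, Finset.card_product]
        ring
      have h2 : S.card + Sᶜ.card = Fintype.card U := Finset.card_add_card_compl S
      have h3 : 1 ≤ S.card := Finset.card_pos.2 ⟨_, hj₀⟩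
      have h4 : 1 ≤ Sᶜ.card := Finset.card_pos.2 ⟨_, hk₀⟩
      rw [h1, ← h2]
      push_cast
      have h3' : (1 : ℝ) ≤ S.card := by exact_mod_cast h3
      have h4' : (1 : ℝ) ≤ (Sᶜ).card := by exact_mod_cast h4
      nlinarith
    have hTb : ∀ x ∈ T, E < ∑ g, q (δ x.1 x.2 (f g)) := by
      rintro ⟨j, k⟩ hx
      rcases Finset.mem_union.1 hx with hx | hx
      · rw [Finset.mem_product] at hx
        exact hbad j k (hbad2 j hx.1 k hx.2)
      · rw [Finset.mem_product] at hx
        exact hbad j k fun hR => hbad2 k hx.2 j hx.1 (hsymm _ _ hR)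
    have hTne : T.Nonempty := ⟨(j₀, k₀), Finset.mem_union_left _ (Finset.mem_product.2 ⟨hj₀, hk₀⟩)⟩
    have h5 : (T.card : ℝ) * E < ∑ x ∈ T, ∑ g, q (δ x.1 x.2 (f g)) := by
      rw [← nsmul_eq_mul, ← Finset.sum_const]
      exact Finset.sum_lt_sum_of_nonempty hTne hTb
    have h6 : ∑ x ∈ T, ∑ g, q (δ x.1 x.2 (f g)) ≤
        ∑ x ∈ (Finset.univ : Finset (U × U)), ∑ g, q (δ x.1 x.2 (f g)) :=
      Finset.sum_le_sum_of_subset_of_nonneg (Finset.subset_univ _)
        fun x _ _ => Finset.sum_nonneg fun g _ => hq0 _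
    have h7 : 2 * ((Fintype.card U : ℝ) - 1) * E ≤ (T.card : ℝ) * E := mul_le_mul_of_nonneg_right hTcard hE0
    have h8 : 2 * ((Fintype.card U : ℝ) - 1) * ∑ g, q' (f g) ≤ 2 * ((Fintype.card U : ℝ) - 1) * E :=
      mul_le_mul_of_nonneg_left hE hpos.le
    linarith

end Pool.Agent.H72.WD
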