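import Pool.Agent.H72.WD.Ga

/-!
# [H72 WD Gb] THEOREM WD, LEMMA R: from `M` to `ℓ M`, `ℓ ∣ M`

`ι v = (t ↦ ∑_(u < ℓ) ch_(ℓM)(t u) v_u(t mod M))` for `v : Fin ℓ → VV M`. Surjective: `c : ZMod (ℓ M) → ℤ` is `c_u(a) = c(u + ℓ a)`, `ch_(ℓM)(t (u + ℓ a)) =
ch_(ℓM)(t u) ch_M(t a)` (`ch_level`). Form: the units `t` of `ZMod (ℓ M)` above a unit `t₀` of `ZMod M` are all the lifts `t₁ + M r`, `r mod ℓ` (`ℓ ∣ M`),
`∑_r |∑_u ch(t₁ u) ch_ℓ(r u) v_u(t₀)|^2 = ℓ ∑_u |v_u(t₀)|^2`, and `φ(ℓ M) = ℓ φ(M)`. `qf v = 0` implies `v = 0`.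
-/

set_option autoImplicit false

namespace Pool.Agent.H72.WD

open Finset
open Pool.Agent.H61.WN (ch)

theorem qf_nonneg {M : ℕ} [NeZero M] (v : (ZMod M)ˣ → ℂ) : 0 ≤ qf v := by
  unfold qf
  positivity

theorem qf_zero {M : ℕ} [NeZero M] (v : (ZMod M)ˣ → ℂ) (h : qf v = 0) : v = 0 := by
  unfold qf at h
  have hc : (Fintype.card (ZMod M)ˣ : ℝ) ≠ 0 := by exact_mod_cast Fintype.card_ne_zero
  rcases div_eq_zero_iff.1 h with h1 | h1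
  · rw [Finset.sum_eq_zero_iff_of_nonneg fun _ _ => by positivity] at h1
    funext t
    have h2 := h1 t (Finset.mem_univ t)
    rw [sq_eq_zero_iff, norm_eq_zero] at h2
    exact h2
  · exact absurd h1 hc

/-- sums over the fibres of a surjective homomorphism -/
private theorem gb_fib {G H : Type} [Group G] [Fintype G] [Group H] [Fintype H] [DecidableEq H]
    (π : G →* H) (hπ : Function.Surjective π) (f : H → ℝ) :
    (Fintype.card H : ℝ) * ∑ g, f (π g) = Fintype.card G * ∑ h, f h := by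
  obtain ⟨c, hc⟩ : ∃ c : ℕ, ∀ h : H, (univ.filter fun g => π g = h).card = c :=
    ⟨(univ.filter fun g => π g = 1).card, fun h =>
      MonoidHom.card_fiber_eq_of_mem_range π (hπ h) (hπ 1)⟩
  have h1 : ∀ φ : H → ℝ, ∑ g, φ (π g) = c * ∑ h, φ h := by
    intro φ
    rw [← Finset.sum_fiberwise (s := (univ : Finset G)) (g := π) (f := fun g => φ (π g)), Finset.mul_sum]
    refine Finset.sum_congr rfl fun h _ => ?_
    rw [Finset.sum_congr rfl (g := fun _ => φ h) fun g hg => by rw [(Finset.mem_filter.1 hg).2],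
      Finset.sum_const, hc h, nsmul_eq_mul]
  have h2 := h1 fun _ => 1
  simp only [Finset.sum_const, Finset.card_univ, nsmul_eq_mul, mul_one] at h2
  rw [h1 f, h2]
  ring

section dvd

variable {M ℓ : ℕ} [NeZero M] [NeZero (ℓ * M)]

private theorem gb_M2 (hd : ℓ ∣ M) : (M : ZMod (ℓ * M)) * (M : ZMod (ℓ * M)) = 0 := by
  have h1 : ((M * M : ℕ) : ZMod (ℓ * M)) = 0 := by
    rw [ZMod.natCast_eq_zero_iff]
    exact Nat.mul_dvd_mul_right hd M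
  rw [← h1]
  push_cast
  ring

private theorem gb_unit (hd : ℓ ∣ M) (t : (ZMod (ℓ * M))ˣ) :
    IsUnit ((t : ZMod (ℓ * M)) + (M : ZMod (ℓ * M))) := by
  have h1 : IsNilpotent (M : ZMod (ℓ * M)) := ⟨2, by rw [sq]; exact gb_M2 hd⟩
  exact h1.isUnit_add_left_of_commute t.isUnit (Commute.all _ _)

private noncomputable def tau (hd : ℓ ∣ M) (t : (ZMod (ℓ * M))ˣ) : (ZMod (ℓ * M))ˣ := (gb_unit hd t).unit

private theorem tau_coe (hd : ℓ ∣ M) (t : (ZMod (ℓ * M))ˣ) :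
    ((tau hd t : (ZMod (ℓ * M))ˣ) : ZMod (ℓ * M)) = (t : ZMod (ℓ * M)) + (M : ZMod (ℓ * M)) :=
  (gb_unit hd t).unit_spec

private theorem tau_bij (hd : ℓ ∣ M) : Function.Bijective (tau hd) := by
  refine Finite.injective_iff_bijective.1 fun a c h => Units.ext ?_
  have h1 := congrArg (fun x : (ZMod (ℓ * M))ˣ => (x : ZMod (ℓ * M))) h
  simp only [tau_coe] at h1
  exact add_right_cancel h1

private noncomputable def pr (M ℓ : ℕ) [NeZero M] [NeZero (ℓ * M)] : (ZMod (ℓ * M))ˣ →* (ZMod M)ˣ :=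
  ZMod.unitsMap (Nat.dvd_mul_left M ℓ)

private theorem pr_coe (t : (ZMod (ℓ * M))ˣ) :
    ((pr M ℓ t : (ZMod M)ˣ) : ZMod M) = ZMod.castHom (Nat.dvd_mul_left M ℓ) (ZMod M) (t : ZMod (ℓ * M)) :=
  rfl

private theorem pr_tau (hd : ℓ ∣ M) (t : (ZMod (ℓ * M))ˣ) : pr M ℓ (tau hd t) = pr M ℓ t := by
  refine Units.ext ?_
  rw [pr_coe, pr_coe, tau_coe, map_add, map_natCast, CharP.cast_eq_zero, add_zero]

/-- `ch_(ℓM)(t (ℓ a)) = ch_M((t mod M) a)` -/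
private theorem ch_pr (t : (ZMod (ℓ * M))ˣ) (a : ZMod M) :
    ch ((t : ZMod (ℓ * M)) * ((ℓ * a.val : ℕ) : ZMod (ℓ * M))) = ch (((pr M ℓ t : (ZMod M)ˣ) : ZMod M) * a) := by
  have hM : 0 < M := Nat.pos_of_ne_zero (NeZero.ne M)
  have h1 := H61.WN.ch_level (N := ℓ * M) M (Nat.dvd_mul_left M ℓ)
    (((t : ZMod (ℓ * M)).val : ℤ) * (a.val : ℤ))
  rw [Nat.mul_div_cancel ℓ hM] at h1
  have e1 : (t : ZMod (ℓ * M)) * ((ℓ * a.val : ℕ) : ZMod (ℓ * M)) =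
      (((ℓ : ℕ) * (((t : ZMod (ℓ * M)).val : ℤ) * (a.val : ℤ)) : ℤ) : ZMod (ℓ * M)) := by
    push_cast
    rw [ZMod.natCast_zmod_val]
    ring
  have e2 : ((((t : ZMod (ℓ * M)).val : ℤ) * (a.val : ℤ) : ℤ) : ZMod M) =
      ((pr M ℓ t : (ZMod M)ˣ) : ZMod M) * a := by
    have e3 : ((pr M ℓ t : (ZMod M)ˣ) : ZMod M) = (((t : ZMod (ℓ * M)).val : ℕ) : ZMod M) := by
      rw [pr_coe]
      conv_lhs => rw [← ZMod.natCast_zmod_val (t : ZMod (ℓ * M))]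
      rw [map_natCast]
    rw [e3]
    push_cast
    rw [ZMod.natCast_zmod_val]
  rw [e1, h1, e2]

/-- the sums over the fibres of the nontrivial characters -/
private theorem gb_sum (hd : ℓ ∣ M) (k : ℤ) (hk : ¬ (ℓ : ℤ) ∣ k) (F : (ZMod M)ˣ → ℂ) :
    ∑ t : (ZMod (ℓ * M))ˣ, ch ((t : ZMod (ℓ * M)) * (k : ZMod (ℓ * M))) * F (pr M ℓ t) = 0 := by
  obtain ⟨S, hS⟩ : ∃ S : ℂ, S = ∑ t : (ZMod (ℓ * M))ˣ,
    ch ((t : ZMod (ℓ * M)) * (k : ZMod (ℓ * M))) * F (pr M ℓ t) := ⟨_, rfl⟩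
  have h1 : S = ch ((M : ZMod (ℓ * M)) * (k : ZMod (ℓ * M))) * S := by
    conv_lhs => rw [hS, ← (tau_bij hd).sum_comp]
    conv_rhs => rw [hS, Finset.mul_sum]
    refine Finset.sum_congr rfl fun t _ => ?_
    rw [tau_coe, pr_tau, add_mul, H61.WN.ch_add]
    ring
  have h2 : ch ((M : ZMod (ℓ * M)) * (k : ZMod (ℓ * M))) ≠ 1 := by
    intro h
    have h3 := H61.WN.ch_eq_one h
    have h4 : (((M : ℤ) * k : ℤ) : ZMod (ℓ * M)) = 0 := by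
      push_cast
      exact h3
    rw [ZMod.intCast_zmod_eq_zero_iff_dvd] at h4
    apply hk
    push_cast at h4
    rw [mul_comm (M : ℤ) k] at h4
    have hM : (M : ℤ) ≠ 0 := by exact_mod_cast NeZero.ne M
    exact Int.dvd_of_mul_dvd_mul_right hM h4
  rw [← hS]
  have h5 : (1 - ch ((M : ZMod (ℓ * M)) * (k : ZMod (ℓ * M)))) * S = 0 := by
    rw [sub_mul, one_mul, ← h1, sub_self]
  rcases mul_eq_zero.1 h5 with h6 | h6
  · exact absurd (sub_eq_zero.1 h6).symm h2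
  · exact h6

end dvd

/-- the generators of `VV M` -/
private noncomputable def gen (M : ℕ) [NeZero M] (a : ZMod M) : VV M :=
  ⟨fun t => ch ((t : ZMod M) * a), fun c => if c = a then 1 else 0, fun t => by
    rw [Finset.sum_eq_single a]
    · simp
    · intro c _ hc
      simp [hc]
    · intro h
      exact absurd (Finset.mem_univ a) h⟩

private theorem gen_coe {M : ℕ} [NeZero M] (a : ZMod M) (t : (ZMod M)ˣ) :
    (gen M a : (ZMod M)ˣ → ℂ) t = ch ((t : ZMod M) * a) := rfl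

/-- every member is an integral combination of the generators -/
private theorem gen_sum {M : ℕ} [NeZero M] (v : VV M) :
    ∃ c : ZMod M → ℤ, v = ∑ a, c a • gen M a := by
  obtain ⟨c, hc⟩ := v.2
  refine ⟨c, Subtype.ext ?_⟩
  funext t
  rw [hc t, AddSubgroup.val_finsetSum, Finset.sum_apply]
  refine Finset.sum_congr rfl fun a _ => ?_
  rw [AddSubgroup.coe_zsmul, Pi.smul_apply, gen_coe, zsmul_eq_mul]

section iota

variable {M ℓ : ℕ} [NeZero M] [NeZero (ℓ * M)]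

private theorem io_mem (v : Fin ℓ → VV M) :
    (fun t : (ZMod (ℓ * M))ˣ => ∑ u : Fin ℓ, ch ((t : ZMod (ℓ * M)) * ((u : ℕ) : ZMod (ℓ * M))) *
      (v u : (ZMod M)ˣ → ℂ) (pr M ℓ t)) ∈ VV (ℓ * M) := by
  have h1 : (fun t : (ZMod (ℓ * M))ˣ => ∑ u : Fin ℓ, ch ((t : ZMod (ℓ * M)) * ((u : ℕ) : ZMod (ℓ * M))) *
      (v u : (ZMod M)ˣ → ℂ) (pr M ℓ t)) = ∑ u : Fin ℓ, fun t : (ZMod (ℓ * M))ˣ =>
      ch ((t : ZMod (ℓ * M)) * ((u : ℕ) : ZMod (ℓ * M))) * (v u : (ZMod M)ˣ → ℂ) (pr M ℓ t) := by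
    funext t
    rw [Finset.sum_apply]
  rw [h1]
  refine sum_mem fun u _ => ?_
  obtain ⟨c, hc⟩ := (v u).2
  have h2 : (fun t : (ZMod (ℓ * M))ˣ => ch ((t : ZMod (ℓ * M)) * ((u : ℕ) : ZMod (ℓ * M))) *
      (v u : (ZMod M)ˣ → ℂ) (pr M ℓ t)) = ∑ a : ZMod M, c a •
      ((gen (ℓ * M) (((u : ℕ) + ℓ * a.val : ℕ) : ZMod (ℓ * M)) : VV (ℓ * M)) : (ZMod (ℓ * M))ˣ → ℂ) := by
    funext t
    rw [hc, Finset.sum_apply, Finset.mul_sum]
    refine Finset.sum_congr rfl fun a _ => ?_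
    rw [Pi.smul_apply, gen_coe, zsmul_eq_mul, ← ch_pr, Nat.cast_add, mul_add, H61.WN.ch_add]
    ring
  rw [h2]
  exact sum_mem fun a _ => AddSubgroup.zsmul_mem _ (gen (ℓ * M) _).2 _

private noncomputable def io (M ℓ : ℕ) [NeZero M] [NeZero (ℓ * M)] : (Fin ℓ → VV M) →+ VV (ℓ * M) where
  toFun v := ⟨_, io_mem v⟩
  map_zero' := by
    refine Subtype.ext ?_
    funext t
    show ∑ u : Fin ℓ, ch ((t : ZMod (ℓ * M)) * ((u : ℕ) : ZMod (ℓ * M))) * (0 : ℂ) = 0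
    simp
  map_add' v w := by
    refine Subtype.ext ?_
    funext t
    show ∑ u : Fin ℓ, ch ((t : ZMod (ℓ * M)) * ((u : ℕ) : ZMod (ℓ * M))) *
      ((v u : (ZMod M)ˣ → ℂ) (pr M ℓ t) + (w u : (ZMod M)ˣ → ℂ) (pr M ℓ t)) =
      (∑ u : Fin ℓ, ch ((t : ZMod (ℓ * M)) * ((u : ℕ) : ZMod (ℓ * M))) * (v u : (ZMod M)ˣ → ℂ) (pr M ℓ t)) +
      ∑ u : Fin ℓ, ch ((t : ZMod (ℓ * M)) * ((u : ℕ) : ZMod (ℓ * M))) * (w u : (ZMod M)ˣ → ℂ) (pr M ℓ t)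
    rw [← Finset.sum_add_distrib]
    exact Finset.sum_congr rfl fun u _ => mul_add _ _ _

private theorem io_coe (v : Fin ℓ → VV M) (t : (ZMod (ℓ * M))ˣ) :
    (io M ℓ v : (ZMod (ℓ * M))ˣ → ℂ) t = ∑ u : Fin ℓ,
      ch ((t : ZMod (ℓ * M)) * ((u : ℕ) : ZMod (ℓ * M))) * (v u : (ZMod M)ˣ → ℂ) (pr M ℓ t) := rfl

private theorem io_surj (hℓ : 0 < ℓ) : Function.Surjective (io M ℓ) := by
  intro w
  obtain ⟨c, hc⟩ := gen_sum w
  have h1 : ∀ n : ZMod (ℓ * M), ∃ v : Fin ℓ → VV M, io M ℓ v = gen (ℓ * M) n := by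
    intro n
    have hlt : n.val / ℓ < M := by
      rw [Nat.div_lt_iff_lt_mul hℓ]
      calc n.val < ℓ * M := ZMod.val_lt n
        _ = M * ℓ := mul_comm _ _
    refine ⟨Pi.single ⟨n.val % ℓ, Nat.mod_lt _ hℓ⟩ (gen M ((n.val / ℓ : ℕ) : ZMod M)), Subtype.ext ?_⟩
    funext t
    rw [io_coe, gen_coe, Finset.sum_eq_single ⟨n.val % ℓ, Nat.mod_lt _ hℓ⟩]
    · rw [Pi.single_eq_same, gen_coe, ← ch_pr, ← H61.WN.ch_add, ← mul_add, ZMod.val_cast_of_lt hlt,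
        ← Nat.cast_add, Nat.mod_add_div, ZMod.natCast_zmod_val]
    · intro u _ hu
      rw [Pi.single_eq_of_ne hu]
      show _ * (0 : ℂ) = 0
      rw [mul_zero]
    · intro h
      exact absurd (Finset.mem_univ _) h
  choose v hv using h1
  refine ⟨∑ n, c n • v n, ?_⟩
  rw [map_sum, hc]
  refine Finset.sum_congr rfl fun n _ => ?_
  rw [map_zsmul, hv]

private theorem io_qf (hℓ : 0 < ℓ) (hd : ℓ ∣ M) (v : Fin ℓ → VV M) :
    qf (io M ℓ v : (ZMod (ℓ * M))ˣ → ℂ) = ∑ u, qf (v u : (ZMod M)ˣ → ℂ) := by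
  classical
  have h1 : ∑ t : (ZMod (ℓ * M))ˣ, ‖(io M ℓ v : (ZMod (ℓ * M))ˣ → ℂ) t‖ ^ 2 =
      ∑ u : Fin ℓ, ∑ t : (ZMod (ℓ * M))ˣ, ‖(v u : (ZMod M)ˣ → ℂ) (pr M ℓ t)‖ ^ 2 := by
    have h2 : ((∑ t : (ZMod (ℓ * M))ˣ, ‖(io M ℓ v : (ZMod (ℓ * M))ˣ → ℂ) t‖ ^ 2 : ℝ) : ℂ) =
        ((∑ u : Fin ℓ, ∑ t : (ZMod (ℓ * M))ˣ, ‖(v u : (ZMod M)ˣ → ℂ) (pr M ℓ t)‖ ^ 2 : ℝ) : ℂ) := by
      push_cast
      have h3 : ∀ t : (ZMod (ℓ * M))ˣ, ((‖(io M ℓ v : (ZMod (ℓ * M))ˣ → ℂ) t‖ : ℂ)) ^ 2 =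
          ∑ u : Fin ℓ, ∑ u' : Fin ℓ, ch ((t : ZMod (ℓ * M)) * (((u : ℤ) - (u' : ℤ) : ℤ) : ZMod (ℓ * M))) *
            ((v u : (ZMod M)ˣ → ℂ) (pr M ℓ t) * (starRingEnd ℂ) ((v u' : (ZMod M)ˣ → ℂ) (pr M ℓ t))) := by
        intro t
        rw [← Complex.mul_conj', io_coe, map_sum, Finset.sum_mul_sum]
        refine Finset.sum_congr rfl fun u _ => Finset.sum_congr rfl fun u' _ => ?_
        rw [map_mul, ← H61.WN.ch_neg]
        have e1 : (t : ZMod (ℓ * M)) * (((u : ℤ) - (u' : ℤ) : ℤ) : ZMod (ℓ * M)) =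
            (t : ZMod (ℓ * M)) * ((u : ℕ) : ZMod (ℓ * M)) + -((t : ZMod (ℓ * M)) * ((u' : ℕ) : ZMod (ℓ * M))) := by
          push_cast
          ring
        rw [e1, H61.WN.ch_add]
        ring
      rw [Finset.sum_congr rfl fun t _ => h3 t, Finset.sum_comm]
      refine Finset.sum_congr rfl fun u _ => ?_
      rw [Finset.sum_comm, Finset.sum_eq_single u]
      · refine Finset.sum_congr rfl fun t _ => ?_
        rw [sub_self, Int.cast_zero, mul_zero, H61.WN.ch_zero, one_mul, Complex.mul_conj']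
      · intro u' _ hu'
        refine gb_sum hd _ ?_ (fun s => (v u : (ZMod M)ˣ → ℂ) s * (starRingEnd ℂ) ((v u' : (ZMod M)ˣ → ℂ) s))
        intro hdv
        apply hu'
        have h4 := Int.eq_zero_of_abs_lt_dvd hdv (by
          rw [abs_lt]
          have := u.2
          have := u'.2
          constructor <;> omega)
        apply Fin.ext
        omega
      · intro h
        exact absurd (Finset.mem_univ _) h
    exact_mod_cast h2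
  have hG : (Fintype.card (ZMod (ℓ * M))ˣ : ℝ) ≠ 0 := by exact_mod_cast Fintype.card_ne_zero
  have hH : (Fintype.card (ZMod M)ˣ : ℝ) ≠ 0 := by exact_mod_cast Fintype.card_ne_zero
  unfold qf
  rw [h1, Finset.sum_div]
  refine Finset.sum_congr rfl fun u _ => ?_
  have h5 := gb_fib (pr M ℓ) (ZMod.unitsMap_surjective (Nat.dvd_mul_left M ℓ))
    (fun s => ‖(v u : (ZMod M)ˣ → ℂ) s‖ ^ 2)
  rw [div_eq_div_iff hG hH, mul_comm, h5]
  ring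

end iota

theorem good_dvd (M ℓ : ℕ) [NeZero M] [NeZero (ℓ * M)] (hℓ : ℓ.Prime) (hd : ℓ ∣ M)
    (h : Good (VV M) (fun v => qf (v : (ZMod M)ˣ → ℂ))) : Good (VV (ℓ * M)) (fun v => qf (v : (ZMod (ℓ * M))ˣ → ℂ)) := by
  refine good_A (U := Fin ℓ) _ _ (io M ℓ) (io_surj hℓ.pos) (fun v => qf_nonneg _)
    (fun v hv => Subtype.ext (qf_zero _ hv)) ?_ (fun v => io_qf hℓ.pos hd v) h
  show qf (0 : (ZMod M)ˣ → ℂ) = 0
  unfold qf
  simp

end Pool.Agent.H72.WD
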