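import Pool.Agent.H72.WD.Gb

/-!
# [H72 WD Gc] THEOREM WD, LEMMA R: from `M` to `ℓ M`, `ℓ` prime to `M`, and the conclusion

`ι v = (t ↦ ∑_(j : ZMod ℓ) ch_ℓ(t j) v_j(t mod M))` for `v : ZMod ℓ → VV M`. Surjective: `ZMod (ℓ M) ≃ ZMod ℓ × ZMod M`, every element is `M j + ℓ a`, and
`ch_(ℓM)(t (M j + ℓ a)) = ch_ℓ(t j) ch_M(t a)`. Form: the units above `t₀` are the `(r, t₀)`, `r` a unit mod `ℓ`;
`∑_(r ≠ 0) |∑_j ch_ℓ(r j) v_j|^2 = ℓ ∑ |v_j|^2 - |∑ v_j|^2 = (1/2) ∑_(j,k) |v_j - v_k|^2`, `φ(ℓ M) = (ℓ - 1) φ(M)`: `good_B` with `U = ZMod ℓ`.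
`good_VV`: `induction_on_primes` (`M = 1`: `VV 1 ≃+ ℤ`, the vector `(ZMod 1)ˣ → ℂ` is one integer, `good_equiv`, `good_Z`).
-/

set_option autoImplicit false

namespace Pool.Agent.H72.WD

open Finset
open Pool.Agent.H61.WN (ch)

section cop

set_option linter.unusedSectionVars false

variable {M ℓ : ℕ} [NeZero M] [NeZero ℓ] [NeZero (ℓ * M)]

/-- the units of `ZMod (ℓ M)` -/
private noncomputable def un (h : Nat.Coprime ℓ M) : (ZMod (ℓ * M))ˣ ≃ (ZMod ℓ)ˣ × (ZMod M)ˣ :=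
  ((Units.mapEquiv (ZMod.chineseRemainder h).toMulEquiv).trans MulEquiv.prodUnits).toEquiv

private lemma un_fst (h : Nat.Coprime ℓ M) (t : (ZMod (ℓ * M))ˣ) :
    (((un h t).1 : (ZMod ℓ)ˣ) : ZMod ℓ) = (((t : ZMod (ℓ * M)).val : ℤ) : ZMod ℓ) := by
  have h1 : (((un h t).1 : (ZMod ℓ)ˣ) : ZMod ℓ) = (ZMod.chineseRemainder h (t : ZMod (ℓ * M))).1 := rfl
  rw [h1]
  have h2 : (t : ZMod (ℓ * M)) = (((t : ZMod (ℓ * M)).val : ℤ) : ZMod (ℓ * M)) := by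
    rw [Int.cast_natCast, ZMod.natCast_zmod_val]
  conv_lhs => rw [h2]
  rw [map_intCast]
  rfl

private lemma un_snd (h : Nat.Coprime ℓ M) (t : (ZMod (ℓ * M))ˣ) :
    (((un h t).2 : (ZMod M)ˣ) : ZMod M) = (((t : ZMod (ℓ * M)).val : ℤ) : ZMod M) := by
  have h1 : (((un h t).2 : (ZMod M)ˣ) : ZMod M) = (ZMod.chineseRemainder h (t : ZMod (ℓ * M))).2 := rfl
  rw [h1]
  have h2 : (t : ZMod (ℓ * M)) = (((t : ZMod (ℓ * M)).val : ℤ) : ZMod (ℓ * M)) := by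
    rw [Int.cast_natCast, ZMod.natCast_zmod_val]
  conv_lhs => rw [h2]
  rw [map_intCast]
  rfl

/-- `M j + ℓ a` -/
private def En (ja : ZMod ℓ × ZMod M) : ZMod (ℓ * M) :=
  ((M * ja.1.val + ℓ * ja.2.val : ℤ) : ZMod (ℓ * M))

private lemma En_inj (h : Nat.Coprime ℓ M) : Function.Injective (En (M := M) (ℓ := ℓ)) := by
  rintro ⟨j, a⟩ ⟨j', a'⟩ hh
  have h1 := congrArg (ZMod.chineseRemainder h) hh
  unfold En at h1
  rw [map_intCast, map_intCast] at h1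
  have h2 := congrArg Prod.fst h1
  have h3 := congrArg Prod.snd h1
  simp only [Prod.fst_intCast, Prod.snd_intCast] at h2 h3
  push_cast at h2 h3
  simp only [CharP.cast_eq_zero, zero_mul, add_zero, zero_add, ZMod.natCast_val, ZMod.cast_id', id_eq] at h2 h3
  have hM : IsUnit ((M : ℕ) : ZMod ℓ) := (ZMod.unitOfCoprime M h.symm).isUnit
  have hl : IsUnit ((ℓ : ℕ) : ZMod M) := (ZMod.unitOfCoprime ℓ h).isUnit
  exact Prod.ext (hM.mul_left_cancel h2) (hl.mul_left_cancel h3)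

private lemma En_bij (h : Nat.Coprime ℓ M) : Function.Bijective (En (M := M) (ℓ := ℓ)) := by
  refine (Fintype.bijective_iff_injective_and_card _).2 ⟨En_inj h, ?_⟩
  rw [Fintype.card_prod, ZMod.card, ZMod.card, ZMod.card]

private lemma ch_En (h : Nat.Coprime ℓ M) (t : (ZMod (ℓ * M))ˣ) (j : ZMod ℓ) (a : ZMod M) :
    ch ((t : ZMod (ℓ * M)) * En (j, a)) =
      ch (((un h t).1 : ZMod ℓ) * j) * ch (((un h t).2 : ZMod M) * a) := by
  have hl0 : 0 < ℓ := Nat.pos_of_ne_zero (NeZero.ne ℓ)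
  have hM0 : 0 < M := Nat.pos_of_ne_zero (NeZero.ne M)
  have h1 := Pool.Agent.H61.WN.ch_level (N := ℓ * M) ℓ (Dvd.intro _ rfl)
    (((t : ZMod (ℓ * M)).val : ℤ) * j.val)
  have h2 := Pool.Agent.H61.WN.ch_level (N := ℓ * M) M (Dvd.intro_left _ rfl)
    (((t : ZMod (ℓ * M)).val : ℤ) * a.val)
  rw [Nat.mul_div_cancel_left M hl0] at h1
  rw [Nat.mul_div_cancel ℓ hM0] at h2
  have h3 : ((((t : ZMod (ℓ * M)).val : ℤ) * j.val : ℤ) : ZMod ℓ) = ((un h t).1 : ZMod ℓ) * j := by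
    rw [un_fst]
    push_cast
    rw [ZMod.natCast_zmod_val j]
  have h4 : ((((t : ZMod (ℓ * M)).val : ℤ) * a.val : ℤ) : ZMod M) = ((un h t).2 : ZMod M) * a := by
    rw [un_snd]
    push_cast
    rw [ZMod.natCast_zmod_val a]
  rw [h3] at h1
  rw [h4] at h2
  rw [← h1, ← h2, ← Pool.Agent.H61.WN.ch_add]
  congr 1
  unfold En
  push_cast
  rw [ZMod.natCast_zmod_val (t : ZMod (ℓ * M))]
  ring

/-- the map `ι` -/
private lemma io_mem (h : Nat.Coprime ℓ M) (v : ZMod ℓ → VV M) :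
    (fun t : (ZMod (ℓ * M))ˣ => ∑ j : ZMod ℓ, ch (((un h t).1 : ZMod ℓ) * j) *
      (v j : (ZMod M)ˣ → ℂ) (un h t).2) ∈ VV (ℓ * M) := by
  have h1 : ∀ j, ∃ c : ZMod M → ℤ, ∀ t, (v j : (ZMod M)ˣ → ℂ) t = ∑ a, (c a : ℂ) * ch ((t : ZMod M) * a) :=
    fun j => (v j).2
  choose c hc using h1
  let e := Equiv.ofBijective _ (En_bij (ℓ := ℓ) (M := M) h)
  refine ⟨fun x => c (e.symm x).1 (e.symm x).2, fun t => ?_⟩
  rw [← e.sum_comp, Fintype.sum_prod_type]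
  refine Finset.sum_congr rfl fun j _ => ?_
  rw [hc, Finset.mul_sum]
  refine Finset.sum_congr rfl fun a _ => ?_
  beta_reduce
  rw [e.symm_apply_apply]
  have h2 : e (j, a) = En (j, a) := rfl
  rw [h2, ch_En h]
  ring

private noncomputable def io (h : Nat.Coprime ℓ M) : (ZMod ℓ → VV M) →+ VV (ℓ * M) :=
  AddMonoidHom.mk' (fun v => ⟨_, io_mem h v⟩) (by
    intro v w
    apply Subtype.ext
    funext t
    simp only [Pi.add_apply, AddSubgroup.coe_add, mul_add, Finset.sum_add_distrib])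

private lemma io_apply (h : Nat.Coprime ℓ M) (v : ZMod ℓ → VV M) (t : (ZMod (ℓ * M))ˣ) :
    (io h v : (ZMod (ℓ * M))ˣ → ℂ) t = ∑ j : ZMod ℓ, ch (((un h t).1 : ZMod ℓ) * j) *
      (v j : (ZMod M)ˣ → ℂ) (un h t).2 := rfl

private lemma io_surj (h : Nat.Coprime ℓ M) : Function.Surjective (io (M := M) (ℓ := ℓ) h) := by
  rintro ⟨w, c, hc⟩
  refine ⟨fun j => ⟨fun t => ∑ a, (c (En (j, a)) : ℂ) * ch ((t : ZMod M) * a), fun a => c (En (j, a)), fun t => rfl⟩, ?_⟩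
  apply Subtype.ext
  funext t
  rw [io_apply]
  have h1 : w t = ∑ x, (c x : ℂ) * ch ((t : ZMod (ℓ * M)) * x) := hc t
  let e := Equiv.ofBijective _ (En_bij (ℓ := ℓ) (M := M) h)
  change _ = w t
  rw [h1, ← e.sum_comp, Fintype.sum_prod_type]
  refine Finset.sum_congr rfl fun j _ => ?_
  change ch _ * ∑ a, (c (En (j, a)) : ℂ) * ch ((((un h t).2 : (ZMod M)ˣ) : ZMod M) * a) = _
  rw [Finset.mul_sum]
  refine Finset.sum_congr rfl fun a _ => ?_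
  have h2 : e (j, a) = En (j, a) := rfl
  rw [h2, ch_En h]
  ring

end cop

section parseval

variable {ℓ : ℕ}

private lemma pars [NeZero ℓ] (w : ZMod ℓ → ℂ) :
    ∑ r : ZMod ℓ, ‖∑ j, ch (r * j) * w j‖ ^ 2 = ℓ * ∑ j, ‖w j‖ ^ 2 := by
  have h0 : ∀ z : ℂ, ((‖z‖ ^ 2 : ℝ) : ℂ) = z * (starRingEnd ℂ) z := fun z => by
    rw [Complex.mul_conj, Complex.normSq_eq_norm_sq]
  apply Complex.ofReal_injective
  push_cast [h0]
  simp only [map_sum, map_mul]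
  have h1 : ∀ r : ZMod ℓ, (∑ j, ch (r * j) * w j) * ∑ k, (starRingEnd ℂ) (ch (r * k)) * (starRingEnd ℂ) (w k) =
      ∑ j, ∑ k, (w j * (starRingEnd ℂ) (w k)) * ch (r * (j - k)) := by
    intro r
    rw [Finset.sum_mul_sum]
    refine Finset.sum_congr rfl fun j _ => Finset.sum_congr rfl fun k _ => ?_
    rw [← Pool.Agent.H61.WN.ch_neg, mul_sub, sub_eq_add_neg, Pool.Agent.H61.WN.ch_add]
    ring
  simp only [h1]
  rw [Finset.sum_comm]
  rw [Finset.mul_sum]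
  refine Finset.sum_congr rfl fun j _ => ?_
  rw [Finset.sum_comm]
  have h2 : ∀ k : ZMod ℓ, ∑ r : ZMod ℓ, (w j * (starRingEnd ℂ) (w k)) * ch (r * (j - k)) =
      if j = k then (ℓ : ℂ) * (w j * (starRingEnd ℂ) (w k)) else 0 := by
    intro k
    rw [← Finset.mul_sum, Pool.Agent.H61.WN.sum_ch_mul]
    by_cases hjk : j = k
    · rw [if_pos hjk, if_pos (by rw [hjk, sub_self])]
      ring
    · rw [if_neg hjk, if_neg (by rwa [sub_eq_zero]), mul_zero]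
  simp only [h2]
  rw [Finset.sum_ite_eq Finset.univ j]
  simp

private lemma pairs {U : Type} [Fintype U] (w : U → ℂ) :
    ∑ j, ∑ k, ‖w j - w k‖ ^ 2 = 2 * (Fintype.card U * ∑ j, ‖w j‖ ^ 2 - ‖∑ j, w j‖ ^ 2) := by
  have h0 : ∀ z : ℂ, ((‖z‖ ^ 2 : ℝ) : ℂ) = z * (starRingEnd ℂ) z := fun z => by
    rw [Complex.mul_conj, Complex.normSq_eq_norm_sq]
  apply Complex.ofReal_injective
  push_cast [h0]
  simp only [map_sum, map_sub]
  have h1 : ∀ j k, (w j - w k) * ((starRingEnd ℂ) (w j) - (starRingEnd ℂ) (w k)) =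
      w j * (starRingEnd ℂ) (w j) + w k * (starRingEnd ℂ) (w k) - w j * (starRingEnd ℂ) (w k)
        - w k * (starRingEnd ℂ) (w j) := fun j k => by ring
  simp only [h1, Finset.sum_sub_distrib, Finset.sum_add_distrib, Finset.sum_const, Finset.card_univ,
    nsmul_eq_mul, ← Finset.mul_sum, ← Finset.sum_mul]
  ring

private lemma units_sum [Fact ℓ.Prime] (F : ZMod ℓ → ℝ) :
    ∑ r : (ZMod ℓ)ˣ, F (r : ZMod ℓ) = ∑ r : ZMod ℓ, F r - F 0 := by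
  classical
  have h1 : ∑ r : ZMod ℓ, F r = F 0 + ∑ r ∈ Finset.univ.erase (0 : ZMod ℓ), F r :=
    (Finset.add_sum_erase _ _ (Finset.mem_univ _)).symm
  rw [h1, add_sub_cancel_left]
  refine Finset.sum_bij' (fun r _ => (r : ZMod ℓ)) (fun r hr => Units.mk0 r (Finset.ne_of_mem_erase hr)) ?_ ?_ ?_ ?_ ?_
  · intro r _
    exact Finset.mem_erase.2 ⟨r.ne_zero, Finset.mem_univ _⟩
  · intro r _
    exact Finset.mem_univ _
  · intro r _
    exact Units.ext rfl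
  · intro r _
    rfl
  · intro r _
    rfl

private lemma units_pars [Fact ℓ.Prime] [NeZero ℓ] (w : ZMod ℓ → ℂ) :
    2 * ∑ r : (ZMod ℓ)ˣ, ‖∑ j, ch ((r : ZMod ℓ) * j) * w j‖ ^ 2 = ∑ j, ∑ k, ‖w j - w k‖ ^ 2 := by
  rw [units_sum (fun r => ‖∑ j, ch (r * j) * w j‖ ^ 2), pars, pairs, ZMod.card]
  simp [Pool.Agent.H61.WN.ch_zero]

end parseval

private lemma sq_io {M ℓ : ℕ} [NeZero M] [NeZero ℓ] [NeZero (ℓ * M)] [Fact ℓ.Prime] (hc : Nat.Coprime ℓ M)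
    (v : ZMod ℓ → VV M) :
    2 * ∑ t : (ZMod (ℓ * M))ˣ, ‖(io hc v : (ZMod (ℓ * M))ˣ → ℂ) t‖ ^ 2 =
      ∑ t0 : (ZMod M)ˣ, ∑ j, ∑ k, ‖(v j : (ZMod M)ˣ → ℂ) t0 - (v k : (ZMod M)ˣ → ℂ) t0‖ ^ 2 := by
  let F : (ZMod ℓ)ˣ × (ZMod M)ˣ → ℝ := fun rt =>
    ‖∑ j : ZMod ℓ, ch ((rt.1 : ZMod ℓ) * j) * (v j : (ZMod M)ˣ → ℂ) rt.2‖ ^ 2
  have h2 : ∑ t : (ZMod (ℓ * M))ˣ, ‖(io hc v : (ZMod (ℓ * M))ˣ → ℂ) t‖ ^ 2 = ∑ rt, F rt := by
    rw [← (un hc).sum_comp F]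
    exact Finset.sum_congr rfl fun t _ => by rw [io_apply]
  have h3 : ∑ rt, F rt = ∑ t0 : (ZMod M)ˣ, ∑ r : (ZMod ℓ)ˣ, F (r, t0) := Fintype.sum_prod_type_right F
  rw [h2, h3, Finset.mul_sum]
  exact Finset.sum_congr rfl fun t0 _ => units_pars fun j => (v j : (ZMod M)ˣ → ℂ) t0

private lemma qf_sub {M : ℕ} [NeZero M] (u w : VV M) : qf ((u - w : VV M) : (ZMod M)ˣ → ℂ) =
    (∑ t0 : (ZMod M)ˣ, ‖(u : (ZMod M)ˣ → ℂ) t0 - (w : (ZMod M)ˣ → ℂ) t0‖ ^ 2) / Fintype.card (ZMod M)ˣ := by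
  rw [AddSubgroup.coe_sub]
  rfl

private lemma qf_sum {M ℓ : ℕ} [NeZero M] [NeZero ℓ] (v : ZMod ℓ → VV M) :
    ∑ j, ∑ k, qf ((v j - v k : VV M) : (ZMod M)ˣ → ℂ) =
      (∑ t0 : (ZMod M)ˣ, ∑ j, ∑ k, ‖(v j : (ZMod M)ˣ → ℂ) t0 - (v k : (ZMod M)ˣ → ℂ) t0‖ ^ 2) /
        Fintype.card (ZMod M)ˣ := by
  simp only [qf_sub, ← Finset.sum_div]
  congr 1
  rw [Finset.sum_comm (s := (Finset.univ : Finset (ZMod M)ˣ))]
  refine Finset.sum_congr rfl fun j _ => ?_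
  rw [Finset.sum_comm]

theorem good_cop (M ℓ : ℕ) [NeZero M] [NeZero (ℓ * M)] (hℓ : ℓ.Prime) (hd : ¬ ℓ ∣ M)
    (h : Good (VV M) (fun v => qf (v : (ZMod M)ˣ → ℂ))) : Good (VV (ℓ * M)) (fun v => qf (v : (ZMod (ℓ * M))ˣ → ℂ)) := by
  have : Fact ℓ.Prime := ⟨hℓ⟩
  have : NeZero ℓ := ⟨hℓ.ne_zero⟩
  have hc : Nat.Coprime ℓ M := (Nat.Prime.coprime_iff_not_dvd hℓ).2 hd
  have hcst : ∀ a : VV M, io hc (fun _ => a) = 0 := by
    intro a
    apply Subtype.ext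
    funext t
    rw [io_apply, ← Finset.sum_mul]
    have h1 : ∑ j : ZMod ℓ, ch (((un hc t).1 : ZMod ℓ) * j) = 0 := by
      have h2 := Pool.Agent.H61.WN.sum_ch_mul (((un hc t).1 : ZMod ℓ))
      rw [if_neg (Units.ne_zero _)] at h2
      rw [← h2]
      exact Finset.sum_congr rfl fun j _ => by rw [mul_comm]
    rw [h1, zero_mul]
    rfl
  have hcard : Fintype.card (ZMod (ℓ * M))ˣ = (ℓ - 1) * Fintype.card (ZMod M)ˣ := by
    rw [Fintype.card_congr (un hc), Fintype.card_prod, ZMod.card_units_eq_totient, ZMod.card_units_eq_totient,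
      Nat.totient_prime hℓ]
  have hMpos : (0 : ℝ) < Fintype.card (ZMod M)ˣ := by exact_mod_cast Fintype.card_pos
  have hl1 : (0 : ℝ) < (ℓ : ℝ) - 1 := by
    have : (2 : ℝ) ≤ ℓ := by exact_mod_cast hℓ.two_le
    linarith
  have hcard' : (Fintype.card (ZMod (ℓ * M))ˣ : ℝ) = ((ℓ : ℝ) - 1) * Fintype.card (ZMod M)ˣ := by
    rw [hcard]
    push_cast [Nat.cast_sub hℓ.one_le]
    ring
  have hform : ∀ v : ZMod ℓ → VV M, 2 * ((Fintype.card (ZMod ℓ) : ℝ) - 1) *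
      qf (io hc v : (ZMod (ℓ * M))ˣ → ℂ) = ∑ j, ∑ k, qf ((v j - v k : VV M) : (ZMod M)ˣ → ℂ) := by
    intro v
    rw [qf_sum, ← sq_io hc, ZMod.card]
    unfold qf
    rw [hcard']
    field_simp
  exact good_B (V := VV M) (V' := VV (ℓ * M)) (U := ZMod ℓ) (by rw [ZMod.card]; exact hℓ.two_le)
    (fun v : VV M => qf (v : (ZMod M)ˣ → ℂ)) (fun v : VV (ℓ * M) => qf (v : (ZMod (ℓ * M))ˣ → ℂ)) (io hc)
    (io_surj hc) hcst (fun v => qf_nonneg _) (fun v hv => Subtype.ext (qf_zero _ hv)) (by simp [qf]) hform h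

theorem good_one [NeZero 1] : Good (VV 1) (fun v => qf (v : (ZMod 1)ˣ → ℂ)) := by
  have hch : ∀ x : ZMod 1, ch x = 1 := fun x => by
    rw [Subsingleton.elim x 0, Pool.Agent.H61.WN.ch_zero]
  let e0 : ℤ →+ VV 1 := AddMonoidHom.mk' (fun n => ⟨fun _ => (n : ℂ), ⟨fun _ => n, fun t => by
    rw [Fintype.sum_unique, hch, mul_one]⟩⟩) (by
      intro a b
      apply Subtype.ext
      funext t
      change (((a + b : ℤ)) : ℂ) = (a : ℂ) + (b : ℂ)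
      push_cast
      ring)
  have hval : ∀ n t, (e0 n : (ZMod 1)ˣ → ℂ) t = (n : ℂ) := fun n t => rfl
  have hbij : Function.Bijective e0 := by
    constructor
    · intro a b hab
      have h1 : (e0 a : (ZMod 1)ˣ → ℂ) 1 = (e0 b : (ZMod 1)ˣ → ℂ) 1 := by rw [hab]
      rw [hval, hval] at h1
      exact_mod_cast h1
    · rintro ⟨v, c, hc⟩
      refine ⟨c 0, ?_⟩
      apply Subtype.ext
      funext t
      rw [hval]
      have h1 : v t = ∑ a, (c a : ℂ) * ch ((t : ZMod 1) * a) := hc t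
      change _ = v t
      rw [h1, Fintype.sum_unique, hch, mul_one]
      exact congrArg (fun x => ((c x : ℤ) : ℂ)) (Subsingleton.elim _ _)
  refine good_equiv (fun n : ℤ => (n : ℝ) ^ 2) _ (AddEquiv.ofBijective e0 hbij) ?_ good_Z
  intro n
  change qf (e0 n : (ZMod 1)ˣ → ℂ) = _
  unfold qf
  have h1 : ∀ t, ‖(e0 n : (ZMod 1)ˣ → ℂ) t‖ ^ 2 = (n : ℝ) ^ 2 := by
    intro t
    rw [hval, Complex.norm_intCast, sq_abs]
  simp only [h1, Finset.sum_const, Finset.card_univ, nsmul_eq_mul]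
  have hpos : (0 : ℝ) < Fintype.card (ZMod 1)ˣ := by exact_mod_cast Fintype.card_pos
  field_simp

theorem good_VV (M : ℕ) [NeZero M] : Good (VV M) (fun v => qf (v : (ZMod M)ˣ → ℂ)) := by
  have key : ∀ n : ℕ, ∀ [NeZero n], Good (VV n) (fun v => qf (v : (ZMod n)ˣ → ℂ)) := by
    intro n
    induction n using induction_on_primes with
    | zero => intro h0; exact absurd rfl (NeZero.ne 0)
    | one => intro _; exact good_one
    | prime_mul p a hp ih =>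
      intro hpa
      have : NeZero a := ⟨right_ne_zero_of_mul (NeZero.ne (p * a))⟩
      by_cases hd : p ∣ a
      · exact good_dvd a p hp hd ih
      · exact good_cop a p hp hd ih
  exact key M

end Pool.Agent.H72.WD
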