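import Pool.Agent.H72.WD.Fi

/-!
# [H72 WD Grp] THEOREM WD: groups `Γ` with `x ^ (m p) ∈ μ_∞ b^ℤ` (owner helper72)
-/

set_option autoImplicit false

namespace Pool.Agent.H72.WD

open Finset NumberField IntermediateField

section generic

variable {k E : Type} [Field k] [Field E] [Algebra k E]

theorem deg_le (F₀ M : IntermediateField k E) (h : F₀ ≤ M) [FiniteDimensional k M] (α : E) (hα : IsIntegral k α) :
    Module.finrank k F₀ * (minpoly F₀ α).natDegree ≤ Module.finrank k M * (minpoly M α).natDegree := by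
  have hF₀ : FiniteDimensional k F₀ :=
    FiniteDimensional.of_injective (inclusion h).toLinearMap (inclusion h).injective
  have hαF : IsIntegral F₀ α := hα.tower_top
  have hαM : IsIntegral M α := hα.tower_top
  have i1 : FiniteDimensional M M⟮α⟯ := adjoin.finiteDimensional hαM
  have i2 : FiniteDimensional k M⟮α⟯ := Module.Finite.trans (R := k) M M⟮α⟯
  rw [← adjoin.finrank hαF, ← adjoin.finrank hαM, Module.finrank_mul_finrank, Module.finrank_mul_finrank]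
  have h1 : F₀⟮α⟯.restrictScalars k ≤ M⟮α⟯.restrictScalars k := by
    intro z hz
    have hz' : z ∈ F₀⟮α⟯ := hz
    change z ∈ M⟮α⟯
    induction hz' using IntermediateField.adjoin_induction with
    | mem x hx =>
      rw [Set.mem_singleton_iff.1 hx]
      exact mem_adjoin_simple_self M α
    | algebraMap x => exact M⟮α⟯.algebraMap_mem ⟨(x : E), h x.2⟩
    | add x y _ _ hx hy => exact add_mem (hx ‹_›) (hy ‹_›)
    | inv x _ hx => exact inv_mem (hx ‹_›)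
    | mul x y _ _ hx hy => exact mul_mem (hx ‹_›) (hy ‹_›)
  have i3 : FiniteDimensional k (M⟮α⟯.restrictScalars k) := i2
  exact finrank_le_of_le_right h1

theorem adj_pow (F : IntermediateField k E) [FiniteDimensional k F] (y : E) (m : ℕ) (hm : 1 ≤ m) (hy : y ^ m ∈ F) :
    ∃ G : IntermediateField k E, F ≤ G ∧ y ∈ G ∧ FiniteDimensional k G ∧ Module.finrank k G ≤ Module.finrank k F * m := by
  have hyF : IsIntegral F y := IsIntegral.of_pow hm (by
    have := isIntegral_algebraMap (R := F) (A := E) (x := (⟨y ^ m, hy⟩ : F))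
    exact this)
  have i1 : FiniteDimensional F F⟮y⟯ := adjoin.finiteDimensional hyF
  have i2 : FiniteDimensional k F⟮y⟯ := Module.Finite.trans (R := k) F F⟮y⟯
  refine ⟨F⟮y⟯.restrictScalars k, ?_, mem_adjoin_simple_self F y, i2, ?_⟩
  · intro z hz
    exact F⟮y⟯.algebraMap_mem ⟨z, hz⟩
  · change Module.finrank k F⟮y⟯ ≤ _
    rw [← Module.finrank_mul_finrank k F F⟮y⟯, adjoin.finrank hyF]
    refine Nat.mul_le_mul_left _ ?_
    have h2 : Polynomial.aeval y (Polynomial.X ^ m - Polynomial.C (⟨y ^ m, hy⟩ : F)) = 0 := by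
      rw [map_sub, map_pow, Polynomial.aeval_X, Polynomial.aeval_C]
      exact sub_self _
    have h3 := minpoly.min F y (Polynomial.monic_X_pow_sub_C (⟨y ^ m, hy⟩ : F) (by omega)) h2
    have h4 := Polynomial.natDegree_le_natDegree h3
    rwa [Polynomial.natDegree_X_pow_sub_C] at h4

theorem nd_cover (L : IntermediateField k E) (S : ℕ → IntermediateField k E) (hmono : ∀ N N', N ∣ N' → S N ≤ S N')
    (hcov : ∀ z ∈ L, ∃ N, 1 ≤ N ∧ z ∈ S N) (α : E) (hα : IsIntegral k α) :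
    ∃ N, 1 ≤ N ∧ (minpoly (S N) α).natDegree ≤ (minpoly L α).natDegree := by
  have hαL : IsIntegral L α := hα.tower_top
  have hmon := minpoly.monic hαL
  obtain ⟨f, hf⟩ : ∃ f, f = minpoly L α := ⟨_, rfl⟩
  rw [← hf] at hmon ⊢
  have h1 : ∀ i, ∃ N, 1 ≤ N ∧ ((f.coeff i : L) : E) ∈ S N := fun i => hcov _ (f.coeff i).2
  choose N hN hNi using h1
  refine ⟨∏ i ∈ Finset.range (f.natDegree + 1), N i, Nat.pos_of_ne_zero (Finset.prod_ne_zero_iff.2 fun i _ => by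
    have := hN i
    omega), ?_⟩
  obtain ⟨N', hN'⟩ : ∃ N', N' = ∏ i ∈ Finset.range (f.natDegree + 1), N i := ⟨_, rfl⟩
  rw [← hN']
  have hcoef : ∀ i, ((f.coeff i : L) : E) ∈ S N' := by
    intro i
    by_cases hi : i ∈ Finset.range (f.natDegree + 1)
    · exact hmono _ _ (by rw [hN']; exact Finset.dvd_prod_of_mem _ hi) (hNi i)
    · rw [Finset.mem_range, not_lt] at hi
      rw [Polynomial.coeff_eq_zero_of_natDegree_lt (by omega)]
      exact zero_mem _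
  have hlift : f.map (algebraMap L E) ∈ Polynomial.lifts (algebraMap (S N') E) := by
    rw [Polynomial.lifts_iff_coeff_lifts]
    intro i
    rw [Polynomial.coeff_map]
    exact ⟨⟨_, hcoef i⟩, rfl⟩
  obtain ⟨g, hg1, hg2, hg3⟩ := Polynomial.lifts_and_natDegree_eq_and_monic hlift (hmon.map _)
  have h2 : Polynomial.aeval α g = 0 := by
    rw [Polynomial.aeval_def, ← Polynomial.eval_map, hg1, Polynomial.eval_map,
      ← Polynomial.aeval_def, hf]
    exact minpoly.aeval _ _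
  have h3 := Polynomial.natDegree_le_of_dvd (minpoly.dvd _ _ h2) hg3.ne_zero
  rw [hg2, hmon.natDegree_map] at h3
  exact h3

end generic

/-- small `p` over `ℂ` -/
theorem small_C (d p₀ : ℕ) : ∃ c : ℝ, 0 < c ∧ ∀ (b p N : ℕ) (ζ x α : ℂ), 1 ≤ p → p < p₀ → 1 ≤ N → ζ ^ N = 1 →
    x ^ p = (b : ℂ) → IsIntegral ℚ α → α ≠ 0 →
    (minpoly (IntermediateField.adjoin ℚ ({ζ, x} : Set ℂ)) α).natDegree ≤ d → absLogHeight₁ α < c →
    ∃ k : ℕ, 1 ≤ k ∧ α ^ k = 1 := by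
  obtain ⟨c, hc, hsm⟩ := small_p d p₀
  refine ⟨c, hc, ?_⟩
  intro b p N ζ x α hp hpp hN hζ hx hαQ hα0 hdeg hh
  obtain ⟨Ω, i1, i2, inst, i4, i5, φ, hφ⟩ := exists_closure ℚ ℂ
  have hinst : inst = DivisionRing.toRatAlgebra := Subsingleton.elim _ _
  subst hinst
  have hξ : ∀ (n : ℕ) (z : ℂ) (a : ℕ), 1 ≤ n → z ^ n = (a : ℂ) → IsIntegral ℚ z := by
    intro n z a hn hz
    refine IsIntegral.of_pow hn ?_
    rw [hz]
    have h0 := isIntegral_algebraMap (R := ℚ) (A := ℂ) (x := (a : ℚ))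
    simpa using h0
  obtain ⟨ζ₀, rfl⟩ := hφ ζ (hξ N ζ 1 hN (by rw [hζ]; simp))
  obtain ⟨x₀, rfl⟩ := hφ x (hξ p x b hp hx)
  obtain ⟨α₀, rfl⟩ := hφ α hαQ
  have hheight := (Pool.Agent.H11.BK.height_map (φ : Ω →+* ℂ) α₀ (Algebra.IsIntegral.isIntegral _)).1
  obtain ⟨k, hk, hk2⟩ := hsm Ω b p N ζ₀ x₀ α₀ hp hpp hN
    (by
      have h0 : φ (ζ₀ ^ N) = φ 1 := by rw [map_pow, hζ, map_one]
      exact φ.injective h0)
    (by
      have h0 : φ (x₀ ^ p) = φ ((b : ℕ) : Ω) := by rw [map_pow, hx, map_natCast]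
      exact φ.injective h0)
    (fun h => hα0 (by rw [h, map_zero]))
    (by
      rw [← nd_map φ ζ₀ x₀ α₀]
      exact hdeg)
    (by
      have h1 : absLogHeight₁ (φ α₀) = absLogHeight₁ α₀ := hheight
      rw [← h1]
      exact hh)
  exact ⟨k, hk, by rw [← map_pow, hk2, map_one]⟩

/-- the degree over `ℚ(ζ, x)` -/
theorem grp_deg (K : IntermediateField ℚ ℂ) [FiniteDimensional ℚ K] (Γ : Set ℂ) (b p m : ℕ) (hb : b ≠ 0) (hp : 1 ≤ p)
    (hm : 1 ≤ m)
    (hΓ : ∀ z ∈ Γ, ∃ (N : ℕ) (n : ℤ), 1 ≤ N ∧ (z ^ (m * p)) ^ N = ((b : ℂ) ^ n) ^ N) (α : ℂ) (hα : IsIntegral ℚ α) :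
    ∃ (N : ℕ) (ζ x : ℂ), 1 ≤ N ∧ ζ ^ N = 1 ∧ x ^ p = (b : ℂ) ∧
      (minpoly (IntermediateField.adjoin ℚ ({ζ, x} : Set ℂ)) α).natDegree ≤
        m * Module.finrank ℚ K * (minpoly (IntermediateField.adjoin ℚ ((K : Set ℂ) ∪ Γ)) α).natDegree := by
  obtain ⟨y, hy⟩ : ∃ y : ℂ, y ^ (m * p) = (b : ℂ) :=
    IsAlgClosed.exists_pow_nat_eq (b : ℂ) (Nat.mul_pos hm hp)
  have hbC : (b : ℂ) ≠ 0 := by exact_mod_cast hb
  have hmp : m * p ≠ 0 := (Nat.mul_pos hm hp).ne'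
  have hy0 : y ≠ 0 := by
    intro h
    rw [h, zero_pow hmp] at hy
    exact hbC hy.symm
  obtain ⟨ξ, hξ⟩ : ∃ ξ : ℕ → ℂ, ∀ N, N ≠ 0 → IsPrimitiveRoot (ξ N) N :=
    ⟨fun N => Complex.exp (2 * Real.pi * Complex.I / N), fun N hN => Complex.isPrimitiveRoot_exp N hN⟩
  have hroot : ∀ N N' : ℕ, N ≠ 0 → ∀ z : ℂ, z ^ N = 1 → N ∣ N' → N' ≠ 0 → ∃ i, ξ N' ^ i = z := by
    intro N N' hN z hz hNN hN'
    have : NeZero N' := ⟨hN'⟩
    obtain ⟨c, rfl⟩ := hNN
    obtain ⟨i, -, hi⟩ := (hξ _ hN').eq_pow_of_pow_eq_one (ξ := z) (by rw [pow_mul, hz, one_pow])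
    exact ⟨i, hi⟩
  obtain ⟨S, hS⟩ : ∃ S : ℕ → IntermediateField ℚ ℂ, ∀ N, S N = if N = 0 then ⊤ else
      IntermediateField.adjoin ℚ ((K : Set ℂ) ∪ {ξ N, y}) := ⟨_, fun _ => rfl⟩
  have hS' : ∀ N, N ≠ 0 → S N = IntermediateField.adjoin ℚ ((K : Set ℂ) ∪ {ξ N, y}) := fun N hN => by
    rw [hS, if_neg hN]
  have hKS : ∀ N, N ≠ 0 → K ≤ S N := by
    intro N hN z hz
    rw [hS' N hN]
    exact subset_adjoin _ _ (Or.inl hz)
  have hξS : ∀ N, N ≠ 0 → ξ N ∈ S N := by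
    intro N hN
    rw [hS' N hN]
    exact subset_adjoin _ _ (Or.inr (Or.inl rfl))
  have hyS : ∀ N, N ≠ 0 → y ∈ S N := by
    intro N hN
    rw [hS' N hN]
    exact subset_adjoin _ _ (Or.inr (Or.inr rfl))
  have hmono : ∀ N N', N ∣ N' → S N ≤ S N' := by
    intro N N' hNN
    by_cases hN' : N' = 0
    · rw [hS N', if_pos hN']
      exact le_top
    · have hN : N ≠ 0 := fun h => hN' (by rw [h] at hNN; exact Nat.eq_zero_of_zero_dvd hNN)
      rw [hS' N hN, adjoin_le_iff]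
      rintro z (hz | rfl | hz)
      · exact hKS N' hN' hz
      · obtain ⟨i, hi⟩ := hroot N N' hN (ξ N) (hξ N hN).pow_eq_one hNN hN'
        change ξ N ∈ S N'
        rw [← hi]
        exact pow_mem (hξS N' hN') _
      · rw [Set.mem_singleton_iff.1 hz]
        exact hyS N' hN'
  have hcov : ∀ z ∈ IntermediateField.adjoin ℚ ((K : Set ℂ) ∪ Γ), ∃ N, 1 ≤ N ∧ z ∈ S N := by
    intro z hz
    induction hz using IntermediateField.adjoin_induction with
    | mem z hz =>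
      rcases hz with hz | hz
      · exact ⟨1, le_rfl, hKS 1 one_ne_zero hz⟩
      · obtain ⟨N, n, hN, h1⟩ := hΓ z hz
        have hN0 : m * p * N ≠ 0 := Nat.mul_ne_zero hmp (by omega)
        refine ⟨m * p * N, Nat.pos_of_ne_zero hN0, ?_⟩
        have hyn : y ^ n ≠ 0 := zpow_ne_zero _ hy0
        have h2 : (z / y ^ n) ^ (m * p * N) = 1 := by
          rw [div_pow, pow_mul, h1, ← zpow_natCast (y ^ n), ← zpow_mul, mul_comm n, zpow_mul, zpow_natCast, pow_mul, hy]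
          have h3 : ((b : ℂ) ^ N) ^ n = ((b : ℂ) ^ n) ^ N := by
            rw [← zpow_natCast, ← zpow_natCast, ← zpow_mul, ← zpow_mul, mul_comm]
          rw [h3]
          exact div_self (pow_ne_zero _ (zpow_ne_zero _ hbC))
        obtain ⟨i, hi⟩ := hroot (m * p * N) (m * p * N) hN0 _ h2 dvd_rfl hN0
        have h3 : z = ξ (m * p * N) ^ i * y ^ n := by
          rw [hi]
          field_simp
        rw [h3]
        exact mul_mem (pow_mem (hξS _ hN0) _) (zpow_mem (hyS _ hN0) _)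
    | algebraMap x => exact ⟨1, le_rfl, (S 1).algebraMap_mem x⟩
    | add x y _ _ hx hy =>
      obtain ⟨N, hN, h1⟩ := hx
      obtain ⟨N', hN', h2⟩ := hy
      exact ⟨N * N', Nat.mul_pos hN hN', add_mem (hmono _ _ (dvd_mul_right _ _) h1) (hmono _ _ (dvd_mul_left _ _) h2)⟩
    | inv x _ hx =>
      obtain ⟨N, hN, h1⟩ := hx
      exact ⟨N, hN, inv_mem h1⟩
    | mul x y _ _ hx hy =>
      obtain ⟨N, hN, h1⟩ := hx
      obtain ⟨N', hN', h2⟩ := hy
      exact ⟨N * N', Nat.mul_pos hN hN', mul_mem (hmono _ _ (dvd_mul_right _ _) h1) (hmono _ _ (dvd_mul_left _ _) h2)⟩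
  obtain ⟨N, hN, hdeg⟩ := nd_cover _ S hmono hcov α hα
  have hN0 : N ≠ 0 := by omega
  refine ⟨N, ξ N, y ^ m, hN, (hξ N hN0).pow_eq_one, by rw [← pow_mul, hy], ?_⟩
  obtain ⟨F₀, hF₀⟩ : ∃ F₀, F₀ = IntermediateField.adjoin ℚ ({ξ N, y ^ m} : Set ℂ) := ⟨_, rfl⟩
  have hint : ∀ (n : ℕ) (z : ℂ) (a : ℕ), 1 ≤ n → z ^ n = (a : ℂ) → IsIntegral ℚ z := by
    intro n z a hn hz
    refine IsIntegral.of_pow hn ?_
    rw [hz]
    have h0 := isIntegral_algebraMap (R := ℚ) (A := ℂ) (x := (a : ℚ))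
    simpa using h0
  have hfd : FiniteDimensional ℚ F₀ := by
    rw [hF₀]
    refine finiteDimensional_adjoin fun z hz => ?_
    rcases hz with rfl | hz
    · exact hint N _ 1 hN (by rw [(hξ N hN0).pow_eq_one]; simp)
    · rw [Set.mem_singleton_iff.1 hz]
      exact hint p _ b hp (by rw [← pow_mul, hy])
  rw [← hF₀]
  obtain ⟨G, hG1, hG2, hG3, hG4⟩ := adj_pow F₀ y m hm (by
    rw [hF₀]
    exact subset_adjoin _ _ (Or.inr rfl))
  have hGK : FiniteDimensional ℚ (G ⊔ K : IntermediateField ℚ ℂ) := inferInstance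
  have h1 : S N ≤ G ⊔ K := by
    rw [hS' N hN0, adjoin_le_iff]
    rintro z (hz | rfl | hz)
    · exact (le_sup_right : K ≤ G ⊔ K) hz
    · refine (le_sup_left : G ≤ G ⊔ K) (hG1 ?_)
      rw [hF₀]
      exact subset_adjoin _ _ (Or.inl rfl)
    · rw [Set.mem_singleton_iff.1 hz]
      exact (le_sup_left : G ≤ G ⊔ K) hG2
  have h2 := nd_mono _ _ h1 α hα
  have h3 := deg_le F₀ (G ⊔ K) (hG1.trans le_sup_left) α hα
  have h4 : Module.finrank ℚ (G ⊔ K : IntermediateField ℚ ℂ) ≤ Module.finrank ℚ G * Module.finrank ℚ K :=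
    finrank_sup_le G K
  have h5 : 0 < Module.finrank ℚ F₀ := Module.finrank_pos
  refine Nat.le_of_mul_le_mul_left (h3.trans ?_) h5
  calc Module.finrank ℚ (G ⊔ K : IntermediateField ℚ ℂ) * (minpoly (G ⊔ K : IntermediateField ℚ ℂ) α).natDegree
      ≤ (Module.finrank ℚ F₀ * m * Module.finrank ℚ K) *
          (minpoly (IntermediateField.adjoin ℚ ((K : Set ℂ) ∪ Γ)) α).natDegree :=
        Nat.mul_le_mul (h4.trans (Nat.mul_le_mul_right _ hG4)) (h2.trans hdeg)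
    _ = _ := by ring

end Pool.Agent.H72.WD
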