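import Pool.Agent.H72.WD.Def

/-!
# [H72 WD La] THEOREM WD: elementary properties of the coefficients `LL`

Everything is a computation with characters of `ZMod P` (`H61/WN/Def`: `ch_add`, `ch_neg`, `ch_pow`, `norm_ch`, `sum_ch_mul`).
`D.e (s,t) D.zP = ch s`, `D.e (s,t) (D.pi P1) = ch (-(P1 s)) - 1`.
`LL_pi`: `e(π (π w)) = (ch(-(P1 s)) - 1) e(π w)` and `ch(-(s i)) ch(-(P1 s)) = ch(-(s (i + P1)))`.
`LL_row`: `∑_(i' : ZMod p) ch(-(s i' P1)) = 0` for a unit `s` (`ch_level`: `ch (N/d * a) = ch a`, `P / p = P1`; `sum_ch_mul` for `ZMod p`, `s ≠ 0` mod `p`).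
`LL_inv`: insert the definition, exchange the sums, `sum_ch_mul`: `∑_i ch((s - s') i) = P` if `s = s'`, `0` otherwise.
`LL_en` (Parseval): for fixed `t`, `∑_i |∑_s c_s ch(-(s i))|^2 = P ∑_s |c_s|^2` (distinct `s : (ZMod P)ˣ` are distinct characters).
-/

set_option autoImplicit false

namespace Pool.Agent.H72.WD

open Finset
open Pool.Agent.H61.WN (ch)

variable {P M : ℕ} [NeZero P] [NeZero M] {A : Type} [Field A] [NumberField A]

theorem e_pi (D : Cy P M A) (P1 : ℕ) (s : (ZMod P)ˣ) (t : (ZMod M)ˣ) :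
    D.e (s, t) (D.pi P1) = ch (-((P1 : ZMod P) * (s : ZMod P))) - 1 := by
  rw [Cy.pi, map_sub, map_pow, map_inv₀, map_one, D.ezP, Pool.Agent.H61.WN.ch_inv,
    Pool.Agent.H61.WN.ch_pow, mul_neg]

theorem LL_add (D : Cy P M A) (P1 : ℕ) (u w : A) (i : ZMod P) (t : (ZMod M)ˣ) :
    D.LL P1 (u + w) i t = D.LL P1 u i t + D.LL P1 w i t := by
  unfold Cy.LL
  rw [← add_div, ← Finset.sum_add_distrib]
  congr 1
  refine Finset.sum_congr rfl fun s _ => ?_
  rw [mul_add, map_add, add_mul]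

theorem LL_int (D : Cy P M A) (P1 : ℕ) (c : ℤ) (w : A) (i : ZMod P) (t : (ZMod M)ˣ) :
    D.LL P1 ((c : A) * w) i t = c * D.LL P1 w i t := by
  unfold Cy.LL
  rw [← mul_div_assoc, Finset.mul_sum]
  congr 1
  refine Finset.sum_congr rfl fun s _ => ?_
  rw [show D.pi P1 * ((c : A) * w) = (c : A) * (D.pi P1 * w) by ring, map_mul, map_intCast]
  ring

theorem LL_pi (D : Cy P M A) (P1 : ℕ) (w : A) (i : ZMod P) (t : (ZMod M)ˣ) :
    D.LL P1 (D.pi P1 * w) i t = D.LL P1 w (i + (P1 : ZMod P)) t - D.LL P1 w i t := by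
  unfold Cy.LL
  rw [← sub_div, ← Finset.sum_sub_distrib]
  congr 1
  refine Finset.sum_congr rfl fun s _ => ?_
  have h1 : ch (-((s : ZMod P) * (i + (P1 : ZMod P)))) =
      ch (-((s : ZMod P) * i)) * ch (-((P1 : ZMod P) * (s : ZMod P))) := by
    rw [← Pool.Agent.H61.WN.ch_add]
    congr 1
    ring
  rw [map_mul, e_pi, h1]
  ring

theorem LL_row (D : Cy P M A) (p P1 : ℕ) [Fact p.Prime] (hP : P = p * P1) (w : A) (a : ZMod P) (t : (ZMod M)ˣ) :
    ∑ i : ZMod p, D.LL P1 w (a + ((i.val * P1 : ℕ) : ZMod P)) t = 0 := by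
  have hp : p.Prime := Fact.out
  have : NeZero p := ⟨hp.ne_zero⟩
  have hPp : P / p = P1 := by rw [hP, Nat.mul_div_cancel_left _ hp.pos]
  have key : ∀ s : (ZMod P)ˣ, ∑ i : ZMod p, ch (-((s : ZMod P) * (a + ((i.val * P1 : ℕ) : ZMod P)))) = 0 := by
    intro s
    have h1 : ∀ i : ZMod p, ch (-((s : ZMod P) * (a + ((i.val * P1 : ℕ) : ZMod P)))) =
        ch (-((s : ZMod P) * a)) * ch (i * (-((s : ZMod P).val : ZMod p))) := by
      intro i
      have h2 : ch (i * (-((s : ZMod P).val : ZMod p))) =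
          ch (((P / p : ℕ) * (-((s : ZMod P).val * i.val : ℕ) : ℤ) : ℤ) : ZMod P) := by
        rw [Pool.Agent.H61.WN.ch_level p (Dvd.intro _ hP.symm)]
        congr 1
        push_cast
        rw [ZMod.natCast_zmod_val]
        ring
      rw [h2, ← Pool.Agent.H61.WN.ch_add, hPp]
      congr 1
      push_cast
      rw [ZMod.natCast_zmod_val]
      ring
    rw [Finset.sum_congr rfl fun i _ => h1 i, ← Finset.mul_sum, Pool.Agent.H61.WN.sum_ch_mul,
      if_neg, mul_zero]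
    intro h3
    rw [neg_eq_zero, ZMod.natCast_eq_zero_iff] at h3
    have h4 : Nat.Coprime (s : ZMod P).val P := ZMod.val_coe_unit_coprime s
    have h5 : p ∣ Nat.gcd (s : ZMod P).val P := Nat.dvd_gcd h3 (Dvd.intro _ hP.symm)
    rw [h4] at h5
    exact hp.one_lt.ne' (Nat.dvd_one.1 h5)
  unfold Cy.LL
  rw [← Finset.sum_div, Finset.sum_comm]
  rw [Finset.sum_eq_zero, zero_div]
  intro s _
  rw [← Finset.mul_sum, key s, mul_zero]

theorem sum_ch_units (c : (ZMod P)ˣ → ℂ) (s : (ZMod P)ˣ) :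
    ∑ i : ZMod P, (∑ s' : (ZMod P)ˣ, c s' * ch (-((s' : ZMod P) * i))) * ch ((s : ZMod P) * i) = P * c s := by
  have h1 : ∀ i : ZMod P, (∑ s' : (ZMod P)ˣ, c s' * ch (-((s' : ZMod P) * i))) * ch ((s : ZMod P) * i) =
      ∑ s' : (ZMod P)ˣ, c s' * ch (i * ((s : ZMod P) - (s' : ZMod P))) := by
    intro i
    rw [Finset.sum_mul]
    refine Finset.sum_congr rfl fun s' _ => ?_
    rw [mul_assoc, ← Pool.Agent.H61.WN.ch_add]
    congr 2
    ring
  rw [Finset.sum_congr rfl fun i _ => h1 i, Finset.sum_comm]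
  rw [Finset.sum_eq_single s]
  · rw [← Finset.mul_sum, Pool.Agent.H61.WN.sum_ch_mul, if_pos (sub_self _), mul_comm]
  · intro s' _ hs'
    rw [← Finset.mul_sum, Pool.Agent.H61.WN.sum_ch_mul, if_neg, mul_zero]
    intro h
    exact hs' (Units.ext (sub_eq_zero.1 h).symm)
  · intro h
    exact absurd (Finset.mem_univ _) h

theorem LL_inv (D : Cy P M A) (P1 : ℕ) (w : A) (s : (ZMod P)ˣ) (t : (ZMod M)ˣ) :
    D.e (s, t) (D.pi P1 * w) = ∑ i : ZMod P, D.LL P1 w i t * ch ((s : ZMod P) * i) := by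
  have hP0 : (P : ℂ) ≠ 0 := by exact_mod_cast NeZero.ne P
  have h1 := sum_ch_units (P := P) (fun s' => D.e (s', t) (D.pi P1 * w)) s
  have h2 : ∑ i : ZMod P, D.LL P1 w i t * ch ((s : ZMod P) * i) =
      (∑ i : ZMod P, (∑ s' : (ZMod P)ˣ, D.e (s', t) (D.pi P1 * w) * ch (-((s' : ZMod P) * i))) *
        ch ((s : ZMod P) * i)) / P := by
    rw [Finset.sum_div]
    refine Finset.sum_congr rfl fun i _ => ?_
    unfold Cy.LL
    ring
  rw [h2, h1]
  field_simp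

theorem parseval_units (c : (ZMod P)ˣ → ℂ) :
    ∑ i : ZMod P, ‖∑ s : (ZMod P)ˣ, c s * ch (-((s : ZMod P) * i))‖ ^ 2 = P * ∑ s : (ZMod P)ˣ, ‖c s‖ ^ 2 := by
  have h1 : ∀ z : ℂ, ((‖z‖ ^ 2 : ℝ) : ℂ) = z * (starRingEnd ℂ) z := by
    intro z
    rw [Complex.mul_conj, Complex.normSq_eq_norm_sq]
  apply Complex.ofReal_injective
  push_cast
  have h3 : ∀ z : ℂ, ((‖z‖ : ℂ)) ^ 2 = z * (starRingEnd ℂ) z := by
    intro z
    rw [← h1 z]
    push_cast
    rfl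
  calc ∑ i : ZMod P, ((‖∑ s : (ZMod P)ˣ, c s * ch (-((s : ZMod P) * i))‖ : ℝ) : ℂ) ^ 2
      = ∑ i : ZMod P, ∑ s : (ZMod P)ˣ, (starRingEnd ℂ) (c s) *
          ((∑ s' : (ZMod P)ˣ, c s' * ch (-((s' : ZMod P) * i))) * ch ((s : ZMod P) * i)) := by
        refine Finset.sum_congr rfl fun i _ => ?_
        rw [h3]
        conv_lhs => rw [map_sum, Finset.mul_sum]
        refine Finset.sum_congr rfl fun s _ => ?_
        rw [map_mul, Pool.Agent.H61.WN.ch_neg, Complex.conj_conj]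
        ring
    _ = ∑ s : (ZMod P)ˣ, (starRingEnd ℂ) (c s) * (P * c s) := by
        rw [Finset.sum_comm]
        refine Finset.sum_congr rfl fun s _ => ?_
        rw [← Finset.mul_sum, sum_ch_units]
    _ = (P : ℂ) * ∑ s : (ZMod P)ˣ, ((‖c s‖ : ℝ) : ℂ) ^ 2 := by
        rw [Finset.mul_sum]
        refine Finset.sum_congr rfl fun s _ => ?_
        rw [h3]
        ring

theorem LL_en (D : Cy P M A) (P1 : ℕ) (w : A) :
    (P : ℝ) * ∑ i : ZMod P, ∑ t : (ZMod M)ˣ, ‖D.LL P1 w i t‖ ^ 2 =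
      ∑ st : (ZMod P)ˣ × (ZMod M)ˣ, ‖D.e st (D.pi P1 * w)‖ ^ 2 := by
  have hP0 : (P : ℝ) ≠ 0 := by exact_mod_cast NeZero.ne P
  rw [Finset.sum_comm, Finset.mul_sum, Fintype.sum_prod_type_right]
  refine Finset.sum_congr rfl fun t _ => ?_
  have h1 := parseval_units (P := P) (fun s => D.e (s, t) (D.pi P1 * w))
  have h2 : ∑ i : ZMod P, ‖D.LL P1 w i t‖ ^ 2 =
      (∑ i : ZMod P, ‖∑ s : (ZMod P)ˣ, D.e (s, t) (D.pi P1 * w) * ch (-((s : ZMod P) * i))‖ ^ 2) / (P : ℝ) ^ 2 := by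
    rw [Finset.sum_div]
    refine Finset.sum_congr rfl fun i _ => ?_
    unfold Cy.LL
    rw [norm_div, div_pow, Complex.norm_natCast]
  rw [h2, h1]
  field_simp

theorem norm_pi (D : Cy P M A) (P1 : ℕ) (st : (ZMod P)ˣ × (ZMod M)ˣ) : ‖D.e st (D.pi P1)‖ ≤ 2 := by
  obtain ⟨s, t⟩ := st
  rw [e_pi]
  refine (norm_sub_le _ _).trans ?_
  rw [Pool.Agent.H61.WN.norm_ch, norm_one]
  norm_num

end Pool.Agent.H72.WD
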