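import Pool.Agent.H72.WD.La

/-!
# [H72 WD Lb] THEOREM WD: the coefficients of integers are in the lattice

`ram`: `∑_(s unit mod P) (ch (s (c - P1)) - ch (s c)) = P ([c = P1] - [c = 0])`, `P = p P1`, `P1 = p ^ κ`.
PROOF. The summand vanishes if `s` is not a unit: then `p` divides `s` and `s P1 = 0` in `ZMod P`. `sum_ch_mul`.
`LL_mem`: by `D.rep`, `w = ∑ c i' a zP^i' zM^a`; `LL (zP^i' zM^a) i t = ch(t a) (1/P) ∑_s (ch(-(P1 s)) - 1) ch(s i') ch(-(s i))
= ch(t a) ([i' - i = P1] - [i' - i = 0])`. So `LL w i t = ∑_a (c (i + P1) a - c i a) ch(t a)`.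
-/

set_option autoImplicit false

namespace Pool.Agent.H72.WD

open Finset
open Pool.Agent.H61.WN (ch)

variable {P M : ℕ} [NeZero P] [NeZero M] {A : Type} [Field A] [NumberField A]

theorem ram (p P1 : ℕ) [Fact p.Prime] (hP : P = p * P1) (hP1 : ∃ κ, P1 = p ^ κ) (c : ZMod P) :
    ∑ s : (ZMod P)ˣ, (ch ((s : ZMod P) * (c - (P1 : ZMod P))) - ch ((s : ZMod P) * c)) =
      (if c = (P1 : ZMod P) then (P : ℂ) else 0) - (if c = 0 then (P : ℂ) else 0) := by
  classical
  have hp : p.Prime := Fact.out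
  have hnu : ∀ s : ZMod P, ¬ IsUnit s → s * (P1 : ZMod P) = 0 := by
    intro s hs
    obtain ⟨κ, hκ⟩ := hP1
    have h0 : ((s.val : ℕ) : ZMod P) = s := ZMod.natCast_zmod_val s
    have h1 : ¬ Nat.Coprime s.val P := by
      intro h
      apply hs
      rw [← h0]
      exact (ZMod.isUnit_iff_coprime _ _).2 h
    have h2 : p ∣ s.val := by
      by_contra h
      apply h1
      have h3 : Nat.Coprime p s.val := (Nat.Prime.coprime_iff_not_dvd hp).2 h
      have h4 : P = p ^ (κ + 1) := by rw [hP, hκ, pow_succ, mul_comm]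
      have h6 : ∀ n : ℕ, Nat.Coprime n p → Nat.Coprime n P := fun n hn => by
        rw [h4]
        exact hn.pow_right _
      exact h6 _ h3.symm
    obtain ⟨k, hk⟩ := h2
    have h5 : s * (P1 : ZMod P) = ((k * P : ℕ) : ZMod P) := by
      have h6 : ((s.val * P1 : ℕ) : ZMod P) = ((k * P : ℕ) : ZMod P) := by
        congr 1
        conv_rhs => rw [hP]
        rw [hk]
        ring
      rw [← h6]
      rw [Nat.cast_mul, h0]
    rw [h5, Nat.cast_mul, ZMod.natCast_self, mul_zero]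
  have h1 : ∑ s : (ZMod P)ˣ, (ch ((s : ZMod P) * (c - (P1 : ZMod P))) - ch ((s : ZMod P) * c)) =
      ∑ s : ZMod P, (ch (s * (c - (P1 : ZMod P))) - ch (s * c)) := by
    refine Finset.sum_of_injOn (fun s : (ZMod P)ˣ => (s : ZMod P)) (fun s _ s' _ h => Units.ext h)
      (fun s _ => Finset.mem_coe.2 (Finset.mem_univ _)) (fun s _ hs => ?_) (fun s _ => rfl)
    have h2 : ¬ IsUnit s := by
      rintro ⟨u, rfl⟩
      exact hs ⟨u, Finset.mem_coe.2 (Finset.mem_univ _), rfl⟩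
    rw [mul_sub, hnu s h2, sub_zero, sub_self]
  rw [h1, Finset.sum_sub_distrib, H61.WN.sum_ch_mul, H61.WN.sum_ch_mul]
  simp only [sub_eq_zero]

theorem LL_mem (D : Cy P M A) (p P1 : ℕ) [Fact p.Prime] (hP : P = p * P1) (hP1 : ∃ κ, P1 = p ^ κ)
    (w : A) (hw : IsIntegral ℤ w) (i : ZMod P) : D.LL P1 w i ∈ VV M := by
  classical
  obtain ⟨c, hc⟩ := D.rep w hw
  refine ⟨fun a => c (i + (P1 : ZMod P)) a - c i a, fun t => ?_⟩
  have hP0 : (P : ℂ) ≠ 0 := by exact_mod_cast NeZero.ne P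
  unfold Cy.LL
  rw [div_eq_iff hP0]
  have hpi : ∀ s : (ZMod P)ˣ, D.e (s, t) (D.pi P1) = ch ((P1 : ZMod P) * -(s : ZMod P)) - 1 := by
    intro s
    unfold Cy.pi
    rw [map_sub, map_one, map_pow, map_inv₀, D.ezP, H61.WN.ch_inv, H61.WN.ch_pow]
  have hwe : ∀ s : (ZMod P)ˣ, D.e (s, t) w =
      ∑ i', ∑ a, (c i' a : ℂ) * (ch (i' * (s : ZMod P)) * ch (a * (t : ZMod M))) := by
    intro s
    conv_lhs => rw [hc]
    rw [map_sum]
    refine Finset.sum_congr rfl fun i' _ => ?_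
    rw [map_sum]
    refine Finset.sum_congr rfl fun a _ => ?_
    rw [map_mul, map_mul, map_pow, map_pow, D.ezP, D.ezM, map_intCast, H61.WN.ch_pow, H61.WN.ch_pow,
      ZMod.natCast_zmod_val, ZMod.natCast_zmod_val]
  have h1 : ∀ s : (ZMod P)ˣ, D.e (s, t) (D.pi P1 * w) * ch (-((s : ZMod P) * i)) =
      ∑ i', ∑ a, (c i' a : ℂ) * ch ((t : ZMod M) * a) *
        (ch ((s : ZMod P) * ((i' - i) - (P1 : ZMod P))) - ch ((s : ZMod P) * (i' - i))) := by
    intro s
    rw [map_mul, hpi, hwe, Finset.mul_sum, Finset.sum_mul]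
    refine Finset.sum_congr rfl fun i' _ => ?_
    rw [Finset.mul_sum, Finset.sum_mul]
    refine Finset.sum_congr rfl fun a _ => ?_
    have e1 : ch ((s : ZMod P) * ((i' - i) - (P1 : ZMod P))) =
        ch ((P1 : ZMod P) * -(s : ZMod P)) * ch (i' * (s : ZMod P)) * ch (-((s : ZMod P) * i)) := by
      rw [← H61.WN.ch_add, ← H61.WN.ch_add]
      congr 1
      ring
    have e2 : ch ((s : ZMod P) * (i' - i)) = ch (i' * (s : ZMod P)) * ch (-((s : ZMod P) * i)) := by
      rw [← H61.WN.ch_add]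
      congr 1
      ring
    rw [e1, e2, mul_comm (t : ZMod M) a]
    ring
  rw [Finset.sum_congr rfl fun s _ => h1 s, Finset.sum_comm]
  have h2 : ∀ i' : ZMod P, ∑ s : (ZMod P)ˣ, ∑ a, (c i' a : ℂ) * ch ((t : ZMod M) * a) *
        (ch ((s : ZMod P) * ((i' - i) - (P1 : ZMod P))) - ch ((s : ZMod P) * (i' - i))) =
      (∑ a, (c i' a : ℂ) * ch ((t : ZMod M) * a)) *
        ((if i' = i + (P1 : ZMod P) then (P : ℂ) else 0) - (if i' = i then (P : ℂ) else 0)) := by
    intro i'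
    have h3 := ram p P1 hP hP1 (i' - i)
    have h4 : (i' - i = (P1 : ZMod P)) = (i' = i + (P1 : ZMod P)) :=
      propext ⟨fun h => by rw [← h]; ring, fun h => by rw [h]; ring⟩
    have h5 : (i' - i = 0) = (i' = i) := propext sub_eq_zero
    simp only [h4, h5] at h3
    rw [← h3, Finset.sum_mul_sum, Finset.sum_comm]
  rw [Finset.sum_congr rfl fun i' _ => h2 i']
  simp only [mul_sub, mul_ite, mul_zero]
  rw [Finset.sum_sub_distrib, Finset.sum_ite_eq' Finset.univ (i + (P1 : ZMod P)),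
    Finset.sum_ite_eq' Finset.univ i, if_pos (Finset.mem_univ _), if_pos (Finset.mem_univ _),
    ← sub_mul, ← Finset.sum_sub_distrib]
  congr 1
  refine Finset.sum_congr rfl fun a _ => ?_
  rw [Int.cast_sub]
  ring

end Pool.Agent.H72.WD
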