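import Pool.Agent.H72.WD.Lb

/-!
# [H72 WD Lc] THEOREM WD: constant rows

`dvd_VV`: if `ψ v ∈ pℤ` for all `ψ : VV M →+ ℤ` then `v = p u`, `u ∈ VV M`: `VV M` is a finitely generated torsion free group (quotient of `ZMod M → ℤ`
by construction; subgroup of the vector space `(ZMod M)ˣ → ℂ`), hence free (`Module.Free ℤ`), take a basis.
`LL_fin`: if on each coset `a + {i P1}` all the `LL w` are congruent modulo `p` (for all `ψ`), then `π w ∈ p 𝓞_A`.
PROOF. Choose the representative `r = r(i) = i.val % P1` of the coset of `i : ZMod P` (`i = r + (i.val / P1) P1`). By `dvd_VV` `LL w i - LL w (r i) = p u_i`, `u_i ∈ VV M`,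
`u_i t = ∑_a c_i(a) ch(t a)`. By `LL_inv`: `e(s,t)(π w) = ∑_i LL w i t ch(s i) = ∑_i LL w (r i) t ch(s i) + p ∑_i u_i t ch(s i)`; the first sum is `0`
(`∑_(i in a coset) ch(s i) = 0` for a unit `s`, as in `LL_row`). So `π w = p ∑_(i,a) c_i(a) zP^i.val zM^a.val` (compare one embedding; it is injective).
-/

set_option autoImplicit false

namespace Pool.Agent.H72.WD

open Finset
open Pool.Agent.H61.WN (ch ch_zero ch_add ch_pow ch_eq_one ch_ne_zero)

variable {P M : ℕ} [NeZero P] [NeZero M] {A : Type} [Field A] [NumberField A]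

/-- the map of the coefficients -/
private noncomputable def vvMap (M : ℕ) [NeZero M] : (ZMod M → ℤ) →ₗ[ℤ] VV M where
  toFun c := ⟨fun t => ∑ a, (c a : ℂ) * ch ((t : ZMod M) * a), c, fun _ => rfl⟩
  map_add' c c' := by
    apply Subtype.ext
    funext t
    change ∑ a, ((c + c') a : ℤ) * ch ((t : ZMod M) * a) =
      ∑ a, (c a : ℂ) * ch ((t : ZMod M) * a) + ∑ a, (c' a : ℂ) * ch ((t : ZMod M) * a)
    rw [← Finset.sum_add_distrib]
    refine Finset.sum_congr rfl fun a _ => ?_
    rw [Pi.add_apply]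
    push_cast
    ring
  map_smul' n c := by
    apply Subtype.ext
    funext t
    change ∑ a, ((n • c) a : ℤ) * ch ((t : ZMod M) * a) =
      n • ∑ a, (c a : ℂ) * ch ((t : ZMod M) * a)
    rw [Finset.smul_sum]
    refine Finset.sum_congr rfl fun a _ => ?_
    simp only [Pi.smul_apply, zsmul_eq_mul, Int.cast_id]
    push_cast
    ring

private theorem vvMap_surj : Function.Surjective (vvMap M) := by
  rintro ⟨v, c, hc⟩
  exact ⟨c, Subtype.ext (funext fun t => (hc t).symm)⟩

private theorem vv_finite : Module.Finite ℤ (VV M) := Module.Finite.of_surjective _ vvMap_surj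

private theorem vv_free : Module.Free ℤ (VV M) := by
  have := vv_finite (M := M)
  have h : IsAddTorsionFree (VV M) := by infer_instance
  exact Module.free_of_finite_type_torsion_free'

private theorem zP_pow (D : Cy P M A) : D.zP ^ P = 1 := by
  apply (D.e (1, 1)).injective
  rw [map_pow, D.ezP, ch_pow, CharP.cast_eq_zero, zero_mul, ch_zero, map_one]

private theorem zM_pow (D : Cy P M A) : D.zM ^ M = 1 := by
  apply (D.e (1, 1)).injective
  rw [map_pow, D.ezM, ch_pow, CharP.cast_eq_zero, zero_mul, ch_zero, map_one]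

private theorem zP_int (D : Cy P M A) : IsIntegral ℤ D.zP :=
  IsIntegral.of_pow (Nat.pos_of_ne_zero (NeZero.ne P)) (by rw [zP_pow D]; exact isIntegral_one)

private theorem zM_int (D : Cy P M A) : IsIntegral ℤ D.zM :=
  IsIntegral.of_pow (Nat.pos_of_ne_zero (NeZero.ne M)) (by rw [zM_pow D]; exact isIntegral_one)

/-- a sum of a function constant on the cosets against a nontrivial character -/
private theorem sum_coset (G : ZMod P → ℂ) (q s : ZMod P) (hG : ∀ i, G (i + q) = G i)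
    (hs : s * q ≠ 0) : ∑ i, G i * ch (s * i) = 0 := by
  have h1 : ∑ i, G i * ch (s * i) = ∑ i, G (i + q) * ch (s * (i + q)) :=
    (Fintype.sum_equiv (Equiv.addRight q) _ _ fun i => rfl).symm
  have h2 : ∑ i, G (i + q) * ch (s * (i + q)) = (∑ i, G i * ch (s * i)) * ch (s * q) := by
    rw [Finset.sum_mul]
    refine Finset.sum_congr rfl fun i _ => ?_
    rw [hG, mul_add, ch_add]
    ring
  rw [h2] at h1
  have h3 : (∑ i, G i * ch (s * i)) * (ch (s * q) - 1) = 0 := by
    rw [mul_sub, mul_one, ← h1, sub_self]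
  rcases mul_eq_zero.1 h3 with h4 | h4
  · exact h4
  · exact absurd (ch_eq_one (sub_eq_zero.1 h4)) hs

theorem dvd_VV (n : ℕ) (v : VV M) (h : ∀ ψ : VV M →+ ℤ, (n : ℤ) ∣ ψ v) : ∃ u : VV M, v = n • u := by
  classical
  have := vv_finite (M := M)
  have := vv_free (M := M)
  set b := Module.Free.chooseBasis ℤ (VV M) with hb
  have h1 : ∀ i, ∃ c : ℤ, b.repr v i = n * c := fun i => h (b.coord i).toAddMonoidHom
  choose c hc using h1
  refine ⟨∑ i, c i • b i, ?_⟩
  rw [Finset.smul_sum]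
  conv_lhs => rw [← b.sum_repr v]
  refine Finset.sum_congr rfl fun i _ => ?_
  rw [hc i, mul_smul, natCast_zsmul]

theorem LL_fin (D : Cy P M A) (p P1 : ℕ) [Fact p.Prime] (hP : P = p * P1) (hP1 : ∃ κ, P1 = p ^ κ)
    (w : A) (hw : IsIntegral ℤ w)
    (h : ∀ (a : ZMod P) (ψ : VV M →+ ℤ), ∃ c : ℤ, ∀ i : ZMod p,
      (p : ℤ) ∣ ψ ⟨D.LL P1 w (a + ((i.val * P1 : ℕ) : ZMod P)), LL_mem D p P1 hP hP1 w hw _⟩ - c) :
    ∃ w' : A, IsIntegral ℤ w' ∧ D.pi P1 * w = p * w' := by
  classical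
  have hp : p.Prime := Fact.out
  have hP1' : 0 < P1 := by
    rcases Nat.eq_zero_or_pos P1 with h0 | h0
    · exact absurd (by rw [hP, h0, mul_zero]) (NeZero.ne P)
    · exact h0
  have hlt : P1 < P := by
    rw [hP]
    have := hp.two_le
    nlinarith
  have hdvd : P1 ∣ P := ⟨p, by rw [hP, mul_comm]⟩
  set r : ZMod P → ZMod P := fun i => ((i.val % P1 : ℕ) : ZMod P) with hr
  have hrP : ∀ i, r (i + (P1 : ZMod P)) = r i := by
    intro i
    have h1 : (i + (P1 : ZMod P)).val % P1 = i.val % P1 := by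
      rw [ZMod.val_add, ZMod.val_natCast, Nat.mod_mod_of_dvd _ hdvd, Nat.add_mod,
        Nat.mod_mod_of_dvd _ hdvd, Nat.mod_self, add_zero, Nat.mod_mod]
    rw [hr]
    change (((i + (P1 : ZMod P)).val % P1 : ℕ) : ZMod P) = _
    rw [h1]
  have hu : ∀ i : ZMod P, ∃ u : VV M,
      (⟨D.LL P1 w i, LL_mem D p P1 hP hP1 w hw i⟩ : VV M) -
        ⟨D.LL P1 w (r i), LL_mem D p P1 hP hP1 w hw (r i)⟩ = p • u := by
    intro i
    apply dvd_VV
    intro ψ
    obtain ⟨c, hc⟩ := h (r i) ψ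
    have hi : r i + (((i.val / P1 : ℕ) : ZMod p).val * P1 : ℕ) = i := by
      rw [ZMod.val_natCast, Nat.mod_eq_of_lt, hr]
      · change ((i.val % P1 : ℕ) : ZMod P) + _ = i
        rw [← Nat.cast_add, mul_comm, Nat.mod_add_div, ZMod.natCast_zmod_val]
      · rw [Nat.div_lt_iff_lt_mul hP1', ← hP]
        exact ZMod.val_lt i
    have h0 : r i + (((0 : ZMod p).val * P1 : ℕ) : ZMod P) = r i := by
      rw [ZMod.val_zero, zero_mul, Nat.cast_zero, add_zero]
    have h1 := hc ((i.val / P1 : ℕ) : ZMod p)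
    have h2 := hc 0
    simp only [hi] at h1
    simp only [h0] at h2
    rw [map_sub]
    have h3 := dvd_sub h1 h2
    rwa [sub_sub_sub_cancel_right] at h3
  choose u hu using hu
  have hc : ∀ i : ZMod P, ∃ c : ZMod M → ℤ, ∀ t, (u i : (ZMod M)ˣ → ℂ) t =
      ∑ a, (c a : ℂ) * ch ((t : ZMod M) * a) := fun i => (u i).2
  choose c hc using hc
  have hLL : ∀ i t, D.LL P1 w i t = D.LL P1 w (r i) t +
      p * ∑ a, (c i a : ℂ) * ch ((t : ZMod M) * a) := by
    intro i t
    have h1 := congrFun (congrArg Subtype.val (hu i)) t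
    change D.LL P1 w i t - D.LL P1 w (r i) t = (p • (u i : (ZMod M)ˣ → ℂ)) t at h1
    rw [Pi.smul_apply, hc, nsmul_eq_mul] at h1
    rw [← h1]
    ring
  refine ⟨∑ i, ∑ a, (c i a : A) * (D.zP ^ i.val * D.zM ^ a.val), ?_, ?_⟩
  · refine IsIntegral.sum _ fun i _ => IsIntegral.sum _ fun a _ => ?_
    refine IsIntegral.mul ?_ (((zP_int D).pow _).mul ((zM_int D).pow _))
    have := isIntegral_algebraMap (R := ℤ) (A := A) (x := c i a)
    simpa using this
  · apply (D.e (1, 1)).injective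
    rw [LL_inv, map_mul, map_natCast, map_sum]
    have h1 : ∀ i, D.LL P1 w i 1 * ch (((1 : (ZMod P)ˣ) : ZMod P) * i) =
        D.LL P1 w (r i) 1 * ch (((1 : (ZMod P)ˣ) : ZMod P) * i) +
        p * D.e (1, 1) (∑ a, (c i a : A) * (D.zP ^ i.val * D.zM ^ a.val)) := by
      intro i
      rw [hLL i 1, map_sum, add_mul, mul_assoc, Finset.sum_mul]
      congr 2
      refine Finset.sum_congr rfl fun a _ => ?_
      rw [map_mul, map_intCast, map_mul, map_pow, map_pow, D.ezP, D.ezM, ch_pow, ch_pow,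
        ZMod.natCast_zmod_val, ZMod.natCast_zmod_val, mul_comm i, mul_comm a]
      ring
    rw [Finset.sum_congr rfl fun i _ => h1 i, Finset.sum_add_distrib, ← Finset.mul_sum]
    rw [sum_coset (fun i => D.LL P1 w (r i) 1) (P1 : ZMod P) _ (fun i => by rw [hrP]) ?_, zero_add]
    rw [Units.val_one, one_mul, Ne, ZMod.natCast_eq_zero_iff]
    exact fun h2 => absurd (Nat.le_of_dvd hP1' h2) (not_le.2 hlt)

end Pool.Agent.H72.WD
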