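import Pool.Agent.H72.WD.St
import Pool.Agent.H72.WD.Cof
import Pool.Agent.H72.WD.Frf

/-!
# [H72 WD Sf] THEOREM WD: the structure theorem for `F`

`st b hb (b ^ 2 * E)` with `Z j := Z y j`, `Z' j := φ⁻¹ (Z y' (q j))` (`φ` from `FrQ A q q φ`; `q ^ 1 = q`). Energies by `Z_en` (`card` of the embeddings of `F` is `p` times that
of `A`), `fr_sum`, and `j ↦ q j` is a bijection of `ZMod p` (`q < p₀ ≤ p`). Differences: `Z_cod`. Congruence: `φ⁻¹` of `Z_fr` with `f = 1`.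
-/

set_option autoImplicit false

namespace Pool.Agent.H72.WD

open Finset
open Pool.Agent.H61.WN (ch)

theorem sf (b : ℕ) (hb : 2 ≤ b) (E : ℕ) : ∃ Q0 : ℕ, ∀ q : ℕ, q.Prime → Q0 ≤ q → ¬ q ∣ b ∧ ∃ p₀ : ℕ, q < p₀ ∧
    ∀ (p P P1 M : ℕ) [Fact p.Prime] [NeZero P] [NeZero M], p₀ ≤ p → P = p * P1 → (∃ κ, P1 = p ^ κ) → ¬ p ∣ b →
    ∀ (A F : Type) [Field A] [NumberField A] [Field F] [NumberField F] [Algebra A F] (D : Dt p b P M A F)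
      (φ : A →+* A) (y y' c : F), FrQ A q q φ → IsIntegral ℤ y → IsIntegral ℤ y' → IsIntegral ℤ c →
      y' = y ^ q + q * c → D.En E y → D.En E y' → D.Den P1 y := by
  classical
  obtain ⟨Q0, hQ⟩ := st b hb (b ^ 2 * E)
  refine ⟨Q0, fun q hq hqQ => ⟨(hQ q hq hqQ).1, ?_⟩⟩
  have hqb := (hQ q hq hqQ).1
  obtain ⟨p₀, hqp, hst⟩ := (hQ q hq hqQ).2
  refine ⟨p₀, hqp, ?_⟩
  intro p P P1 M _ _ _ hp0 hP hP1 hpb A F _ _ _ _ _ D φ y y' c hφ hy hy' hc hyy hE hE'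
  have hp : p.Prime := Fact.out
  obtain ⟨φ', hφ1, hφ2⟩ := fr_bij φ
  have hq0 : (q : ZMod p) ≠ 0 := by
    rw [Ne, ZMod.natCast_eq_zero_iff]
    intro hd
    have := Nat.le_of_dvd hq.pos hd
    omega
  have hcard : (Fintype.card (((ZMod P)ˣ × (ZMod M)ˣ) × ZMod p) : ℝ) = Fintype.card ((ZMod P)ˣ × (ZMod M)ˣ) * p := by
    rw [Fintype.card_prod, ZMod.card, Nat.cast_mul]
  have hpR : (0 : ℝ) ≤ p := Nat.cast_nonneg p
  have hen : ∀ u : F, D.En E u → ∑ j, ∑ st : (ZMod P)ˣ × (ZMod M)ˣ, ‖D.e st (D.Z u j)‖ ^ 2 ≤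
      ((b ^ 2 * E : ℕ) : ℝ) * p ^ 2 * Fintype.card ((ZMod P)ˣ × (ZMod M)ˣ) := by
    intro u hu
    refine (Z_en D u).trans ?_
    unfold Dt.En at hu
    rw [hcard] at hu
    have h1 : (0 : ℝ) ≤ (b : ℝ) ^ 2 * p := by positivity
    refine (mul_le_mul_of_nonneg_left hu h1).trans (le_of_eq ?_)
    push_cast
    ring
  refine hst p P P1 M hp0 hP hP1 A D.toCy (fun j => D.Z y j) (fun j => φ' (D.Z y' ((q : ZMod p) * j)))
    (fun j => Z_int D y hy j) (fun j => ?_) (hen y hE) ?_ ?_ ?_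
  · exact (fr_int φ' _).2 (Z_int D y' hy' _)
  · have h1 : ∀ j : ZMod p, ∑ st : (ZMod P)ˣ × (ZMod M)ˣ, ‖D.e st (φ' (D.Z y' ((q : ZMod p) * j)))‖ ^ 2 =
        ∑ st : (ZMod P)ˣ × (ZMod M)ˣ, ‖D.e st (D.Z y' ((q : ZMod p) * j))‖ ^ 2 := fun j =>
      fr_sum D.toCy φ' (fun z => ‖z‖ ^ 2) (D.Z y' ((q : ZMod p) * j))
    rw [Finset.sum_congr rfl fun j _ => h1 j]
    refine le_trans (le_of_eq ?_) (hen y' hE')
    exact Fintype.sum_equiv (Equiv.mulLeft₀ (q : ZMod p) hq0) _ _ fun j => rfl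
  · intro k l hk hl hkl
    exact Z_cod D P1 hP hP1 hpb y hy k l hk hl hkl
  · intro j
    have hφ1' : FrQ A (q ^ 1) q φ := by rw [pow_one]; exact hφ
    obtain ⟨w, hw, hw2⟩ := Z_fr D q 1 hq hqb φ hφ1' y y' c hy hc (by rw [pow_one]; exact hyy) j
    refine ⟨φ' w, (fr_int φ' _).2 hw, ?_⟩
    have h2 := congrArg φ' hw2
    rw [map_sub, map_mul, map_mul, map_pow, map_natCast, map_natCast, hφ2] at h2
    simp only [pow_one] at h2
    exact h2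

end Pool.Agent.H72.WD
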