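import Pool.Agent.H61.WG.Gen

/-!
# [H72 WD Wc] THEOREM WD: the combinatorial theorem for EVERY large prime `q` (owner helper72)

`wc_all`: `wc_genq` (`H61/WG/Gen`) with the congruence in the form `q ∣ m i j - b ^ (q j / p) n i j` (put `m' i j = m (q⁻¹ i) (q⁻¹ j)`, `q` is invertible mod `p` for `p > q`;
the energy of `m'` is the energy of `m`).
-/

set_option autoImplicit false

namespace Pool.Agent.H72.WD

theorem wc_all (b : ℕ) (hb : 2 ≤ b) (E : ℕ) : ∃ Q0 : ℕ, ∀ q : ℕ, q.Prime → Q0 ≤ q → ¬ q ∣ b ∧ ∃ p₀ : ℕ, q < p₀ ∧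
    ∀ (p : ℕ) [Fact p.Prime], p₀ ≤ p → ∀ n m : ZMod p → ZMod p → ℤ,
      ∑ i, ∑ j, (n i j) ^ 2 ≤ E * (p : ℤ) ^ 2 → ∑ i, ∑ j, (m i j) ^ 2 ≤ E * (p : ℤ) ^ 2 →
      (∀ j, ∑ i, n i j = 0) →
      (∀ i j, (q : ℤ) ∣ m i j - (b : ℤ) ^ ((q * j.val) / p) * n i j) →
      (∀ k l : ℕ, k < p → l < p → p ≤ k + l →
        (p : ℤ) ∣ ∑ s ∈ Finset.range (k + 1), ∑ t ∈ Finset.range (l + 1),
          (-1) ^ ((k - s) + (l - t)) * (k.choose s : ℤ) * (l.choose t : ℤ) * ((b : ℤ) ^ t * n (s : ZMod p) (t : ZMod p))) →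
      ∀ j, ∃ c : ℤ, ∀ i, (p : ℤ) ∣ n i j - c := by
  obtain ⟨Q₀, p₀, h⟩ := Pool.Agent.H61.WG.wc_genq b hb E
  refine ⟨Q₀, fun q hq hqQ => ⟨(h q hq hqQ).1, max p₀ (q + 1), lt_of_lt_of_le (Nat.lt_succ_self q) (le_max_right _ _), ?_⟩⟩
  intro p _ hp n m h1 h2 hR hFr hCo
  have hpp := (Fact.out : p.Prime)
  have hp0 : p₀ ≤ p := (le_max_left _ _).trans hp
  have hqp : q < p := Nat.lt_of_succ_le ((le_max_right _ _).trans hp)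
  have hq0 : (q : ZMod p) ≠ 0 := by
    rw [Ne, ZMod.natCast_eq_zero_iff]
    intro hd
    have := Nat.le_of_dvd hq.pos hd
    omega
  refine (h q hq hqQ).2 p hp0 hqp n (fun i j => m ((q : ZMod p)⁻¹ * i) ((q : ZMod p)⁻¹ * j)) h1 ?_ hR ?_ hCo
  · refine le_trans (le_of_eq ?_) h2
    have e1 : ∀ i, ∑ j, (m i ((q : ZMod p)⁻¹ * j)) ^ 2 = ∑ j, (m i j) ^ 2 := fun i =>
      Fintype.sum_equiv (Equiv.mulLeft₀ (q : ZMod p)⁻¹ (inv_ne_zero hq0)) _ _ fun j => rfl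
    simp only [e1]
    exact Fintype.sum_equiv (Equiv.mulLeft₀ (q : ZMod p)⁻¹ (inv_ne_zero hq0)) _ _ fun i => rfl
  · intro i j
    simp only [inv_mul_cancel_left₀ hq0]
    exact hFr i j

end Pool.Agent.H72.WD
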