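import Pool.Agent.H72.WD.Lc
import Pool.Agent.H72.WD.Gc
import Pool.Agent.H72.WD.Wc

/-!
# [H72 WD St] THEOREM WD: the structure theorem over `A`

Fix `a : ZMod P`. `G = Bool × ZMod p × ZMod p`, `f (true, i, j) = LL (Z j) (a + i P1)`, `f (false, i, j) = LL (Z' j) (a + i P1)` in `VV M`.
`C c`: the sums over `i` of `c (true, ·, j)` are `0`, the congruences mod `q` between `c (false, ·)` and `c (true, ·)`, the mixed differences of `c (true, ·)`.
`N`: the `c` such that each `c (true, ·, j)` is constant mod `p` (subgroup). `wc_all` with `8 E`: `C c`, `∑ c ^ 2 ≤ 8 E p ^ 2` imply `c ∈ N`. `good_VV`. Energy: `LL_en`, `norm_pi`.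
-/

set_option autoImplicit false

namespace Pool.Agent.H72.WD

open Finset
open Pool.Agent.H61.WN (ch)

section

variable {P M : ℕ} [NeZero P] [NeZero M] {A : Type} [Field A] [NumberField A]

theorem LL_iter (D : Cy P M A) (P1 : ℕ) (w : A) (t : (ZMod M)ˣ) (k : ℕ) (i : ZMod P) :
    D.LL P1 (D.pi P1 ^ k * w) i t = (fwdDiff (P1 : ZMod P))^[k] (fun i => D.LL P1 w i t) i := by
  induction k generalizing i with
  | zero => simp
  | succ k ih =>
    rw [pow_succ', mul_assoc, LL_pi, ih, ih, Function.iterate_succ_apply']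
    rfl

theorem LL_pows (D : Cy P M A) (P1 : ℕ) (w : A) (t : (ZMod M)ˣ) (k : ℕ) (i : ZMod P) :
    D.LL P1 (D.pi P1 ^ k * w) i t =
      ∑ s ∈ range (k + 1), ((-1 : ℤ) ^ (k - s) * (k.choose s : ℤ)) • D.LL P1 w (i + ((s * P1 : ℕ) : ZMod P)) t := by
  rw [LL_iter, fwdDiff_iter_eq_sum_shift]
  refine Finset.sum_congr rfl fun s _ => ?_
  rw [nsmul_eq_mul, ← Nat.cast_mul]

theorem LL_sum (D : Cy P M A) (P1 : ℕ) (r : Finset ℕ) (c : ℕ → ℤ) (u : ℕ → A) (i : ZMod P) (t : (ZMod M)ˣ) :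
    D.LL P1 (∑ m ∈ r, (c m : A) * u m) i t = ∑ m ∈ r, c m • D.LL P1 (u m) i t := by
  classical
  induction r using Finset.induction_on with
  | empty =>
    simp [Cy.LL]
  | insert m r hm ih =>
    rw [Finset.sum_insert hm, Finset.sum_insert hm, LL_add, LL_int, ih, zsmul_eq_mul]

/-- the coefficients as elements of the lattice -/
noncomputable def LV (D : Cy P M A) (p P1 : ℕ) [Fact p.Prime] (hP : P = p * P1) (hP1 : ∃ κ, P1 = p ^ κ)
    (w : A) (hw : IsIntegral ℤ w) (i : ZMod P) : VV M := ⟨D.LL P1 w i, LL_mem D p P1 hP hP1 w hw i⟩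

theorem en_row (D : Cy P M A) (p P1 : ℕ) [Fact p.Prime] (hP : P = p * P1) (w : A) (a : ZMod P) :
    ∑ i : ZMod p, qf (D.LL P1 w (a + ((i.val * P1 : ℕ) : ZMod P))) ≤
      4 * (∑ st : (ZMod P)ˣ × (ZMod M)ˣ, ‖D.e st w‖ ^ 2) / Fintype.card ((ZMod P)ˣ × (ZMod M)ˣ) := by
  classical
  have hp : p.Prime := Fact.out
  have hP0 : 0 < P := Nat.pos_of_ne_zero (NeZero.ne P)
  have hP10 : 0 < P1 := by
    rcases Nat.eq_zero_or_pos P1 with h | h
    · rw [h, mul_zero] at hP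
      omega
    · exact h
  have hinj : Function.Injective fun i : ZMod p => a + ((i.val * P1 : ℕ) : ZMod P) := by
    intro i j hij
    have h1 : ((i.val * P1 : ℕ) : ZMod P) = ((j.val * P1 : ℕ) : ZMod P) := add_left_cancel hij
    have h2 : ∀ i : ZMod p, i.val * P1 < P := by
      intro i
      rw [hP]
      exact Nat.mul_lt_mul_of_pos_right (ZMod.val_lt i) hP10
    have h3 := congrArg ZMod.val h1
    rw [ZMod.val_cast_of_lt (h2 i), ZMod.val_cast_of_lt (h2 j)] at h3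
    exact ZMod.val_injective p (Nat.eq_of_mul_eq_mul_right hP10 h3)
  have h1 : ∑ i : ZMod p, qf (D.LL P1 w (a + ((i.val * P1 : ℕ) : ZMod P))) ≤ ∑ i : ZMod P, qf (D.LL P1 w i) := by
    have h2 : ∑ i : ZMod p, qf (D.LL P1 w (a + ((i.val * P1 : ℕ) : ZMod P))) =
        ∑ i ∈ Finset.univ.map ⟨_, hinj⟩, qf (D.LL P1 w i) := by
      rw [Finset.sum_map]
      rfl
    rw [h2]
    exact Finset.sum_le_sum_of_subset_of_nonneg (Finset.subset_univ _) fun i _ _ => qf_nonneg _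
  refine h1.trans ?_
  have h2 : ∑ i : ZMod P, qf (D.LL P1 w i) =
      (∑ st : (ZMod P)ˣ × (ZMod M)ˣ, ‖D.e st (D.pi P1 * w)‖ ^ 2) / (P * Fintype.card (ZMod M)ˣ) := by
    rw [← LL_en]
    unfold qf
    rw [← Finset.sum_div]
    have hP0' : (P : ℝ) ≠ 0 := by exact_mod_cast hP0.ne'
    have hM : (Fintype.card (ZMod M)ˣ : ℝ) ≠ 0 := by exact_mod_cast Fintype.card_ne_zero
    field_simp
  rw [h2]
  have h3 : ∑ st : (ZMod P)ˣ × (ZMod M)ˣ, ‖D.e st (D.pi P1 * w)‖ ^ 2 ≤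
      4 * ∑ st : (ZMod P)ˣ × (ZMod M)ˣ, ‖D.e st w‖ ^ 2 := by
    rw [Finset.mul_sum]
    refine Finset.sum_le_sum fun st _ => ?_
    rw [map_mul, norm_mul, mul_pow]
    have h4 := norm_pi D P1 st
    have h5 : ‖D.e st (D.pi P1)‖ ^ 2 ≤ 4 := by nlinarith [norm_nonneg (D.e st (D.pi P1))]
    exact mul_le_mul_of_nonneg_right h5 (by positivity)
  have hc1 : (0 : ℝ) < Fintype.card (ZMod P)ˣ := by exact_mod_cast Fintype.card_pos
  have hc2 : (0 : ℝ) < Fintype.card (ZMod M)ˣ := by exact_mod_cast Fintype.card_pos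
  have hc3 : (Fintype.card (ZMod P)ˣ : ℝ) ≤ P := by
    have h6 : Fintype.card (ZMod P)ˣ ≤ P := by
      rw [ZMod.card_units_eq_totient]
      exact Nat.totient_le P
    exact_mod_cast h6
  rw [Fintype.card_prod, Nat.cast_mul]
  have h7 : (0 : ℝ) ≤ 4 * ∑ st : (ZMod P)ˣ × (ZMod M)ˣ, ‖D.e st w‖ ^ 2 := by positivity
  refine (div_le_div_of_nonneg_right h3 (by positivity)).trans ?_
  exact div_le_div_of_nonneg_left h7 (by positivity) (mul_le_mul_of_nonneg_right hc3 hc2.le)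

end

theorem st (b : ℕ) (hb : 2 ≤ b) (E : ℕ) : ∃ Q0 : ℕ, ∀ q : ℕ, q.Prime → Q0 ≤ q → ¬ q ∣ b ∧ ∃ p₀ : ℕ, q < p₀ ∧
    ∀ (p P P1 M : ℕ) [Fact p.Prime] [NeZero P] [NeZero M], p₀ ≤ p → P = p * P1 → (∃ κ, P1 = p ^ κ) →
    ∀ (A : Type) [Field A] [NumberField A] (D : Cy P M A) (Z Z' : ZMod p → A),
      (∀ j, IsIntegral ℤ (Z j)) → (∀ j, IsIntegral ℤ (Z' j)) →
      ∑ j, ∑ st : (ZMod P)ˣ × (ZMod M)ˣ, ‖D.e st (Z j)‖ ^ 2 ≤ E * p ^ 2 * Fintype.card ((ZMod P)ˣ × (ZMod M)ˣ) →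
      ∑ j, ∑ st : (ZMod P)ˣ × (ZMod M)ˣ, ‖D.e st (Z' j)‖ ^ 2 ≤ E * p ^ 2 * Fintype.card ((ZMod P)ˣ × (ZMod M)ˣ) →
      (∀ k l : ℕ, k < p → l < p → p ≤ k + l → ∃ w : A, IsIntegral ℤ w ∧
        D.pi P1 ^ k * ∑ t ∈ range (l + 1), (-1) ^ (l - t) * (l.choose t : A) * ((b : A) ^ t * Z (t : ZMod p)) = p * w) →
      (∀ j : ZMod p, ∃ w : A, IsIntegral ℤ w ∧ Z' j - (b : A) ^ ((q * j.val) / p) * Z j = q * w) →
      ∀ j, ∃ w : A, IsIntegral ℤ w ∧ D.pi P1 * Z j = p * w := by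
  classical
  obtain ⟨Q0, hQ⟩ := wc_all b hb (8 * E)
  refine ⟨Q0, fun q hq hqQ => ⟨(hQ q hq hqQ).1, ?_⟩⟩
  obtain ⟨p₀, hqp, hwc⟩ := (hQ q hq hqQ).2
  refine ⟨p₀, hqp, ?_⟩
  intro p P P1 M _ _ _ hp0 hP hP1 A _ _ D Z Z' hZ hZ' hE hE' hCo hFr
  have hp : p.Prime := Fact.out
  have hpR : (0 : ℝ) < p := by exact_mod_cast hp.pos
  have hcard : (0 : ℝ) < Fintype.card ((ZMod P)ˣ × (ZMod M)ˣ) := by exact_mod_cast Fintype.card_pos
  -- the subgroup
  let N : AddSubgroup (Bool × ZMod p × ZMod p → ℤ) :=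
    { carrier := {c | ∀ j, ∃ c0 : ℤ, ∀ i, (p : ℤ) ∣ c (true, i, j) - c0}
      zero_mem' := fun j => ⟨0, fun i => by simp⟩
      add_mem' := by
        intro u v hu hv j
        obtain ⟨c1, h1⟩ := hu j
        obtain ⟨c2, h2⟩ := hv j
        refine ⟨c1 + c2, fun i => ?_⟩
        have h3 := dvd_add (h1 i) (h2 i)
        rw [Pi.add_apply]
        have h4 : u (true, i, j) + v (true, i, j) - (c1 + c2) = (u (true, i, j) - c1) + (v (true, i, j) - c2) := by ring
        rw [h4]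
        exact h3
      neg_mem' := by
        intro u hu j
        obtain ⟨c1, h1⟩ := hu j
        refine ⟨-c1, fun i => ?_⟩
        rw [Pi.neg_apply]
        have h4 : -u (true, i, j) - -c1 = -(u (true, i, j) - c1) := by ring
        rw [h4]
        exact (dvd_neg).2 (h1 i) }
  let C : (Bool × ZMod p × ZMod p → ℤ) → Prop := fun c =>
    (∀ j, ∑ i, c (true, i, j) = 0) ∧
    (∀ i j, (q : ℤ) ∣ c (false, i, j) - (b : ℤ) ^ ((q * j.val) / p) * c (true, i, j)) ∧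
    (∀ k l : ℕ, k < p → l < p → p ≤ k + l →
        (p : ℤ) ∣ ∑ s ∈ Finset.range (k + 1), ∑ t ∈ Finset.range (l + 1),
          (-1) ^ ((k - s) + (l - t)) * (k.choose s : ℤ) * (l.choose t : ℤ) *
            ((b : ℤ) ^ t * c (true, (s : ZMod p), (t : ZMod p))))
  have hZprop : ∀ c : Bool × ZMod p × ZMod p → ℤ, C c → ∑ g, (c g : ℝ) ^ 2 ≤ 8 * E * (p : ℝ) ^ 2 → c ∈ N := by
    intro c hc hs
    have hs2 : ∑ i, ∑ j, (c (true, i, j)) ^ 2 + ∑ i, ∑ j, (c (false, i, j)) ^ 2 ≤ ((8 * E : ℕ) : ℤ) * (p : ℤ) ^ 2 := by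
      have h1 : ∑ g, (c g : ℝ) ^ 2 = ∑ i, ∑ j, (c (true, i, j) : ℝ) ^ 2 + ∑ i, ∑ j, (c (false, i, j) : ℝ) ^ 2 := by
        rw [Fintype.sum_prod_type, Fintype.sum_bool, Fintype.sum_prod_type, Fintype.sum_prod_type]
      rw [h1] at hs
      have h2 : ((∑ i, ∑ j, (c (true, i, j)) ^ 2 + ∑ i, ∑ j, (c (false, i, j)) ^ 2 : ℤ) : ℝ) ≤
          ((((8 * E : ℕ) : ℤ) * (p : ℤ) ^ 2 : ℤ) : ℝ) := by
        push_cast
        exact hs
      exact_mod_cast h2
    have h3 : 0 ≤ ∑ i, ∑ j, (c (true, i, j)) ^ 2 := Finset.sum_nonneg fun i _ => Finset.sum_nonneg fun j _ => sq_nonneg _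
    have h4 : 0 ≤ ∑ i, ∑ j, (c (false, i, j)) ^ 2 := Finset.sum_nonneg fun i _ => Finset.sum_nonneg fun j _ => sq_nonneg _
    exact hwc p hp0 (fun i j => c (true, i, j)) (fun i j => c (false, i, j)) (by linarith) (by linarith) hc.1 hc.2.1 hc.2.2
  have hLV : ∀ w (hw : IsIntegral ℤ w) i t, ((LV D p P1 hP hP1 w hw i : VV M) : (ZMod M)ˣ → ℂ) t = D.LL P1 w i t :=
    fun _ _ _ _ => rfl
  have key : ∀ (a : ZMod P) (ψ : VV M →+ ℤ) (j : ZMod p), ∃ c0 : ℤ, ∀ i : ZMod p,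
      (p : ℤ) ∣ ψ (LV D p P1 hP hP1 (Z j) (hZ j) (a + ((i.val * P1 : ℕ) : ZMod P))) - c0 := by
    intro a
    let f : Bool × ZMod p × ZMod p → VV M := fun g =>
      if g.1 = true then LV D p P1 hP hP1 (Z g.2.2) (hZ _) (a + ((g.2.1.val * P1 : ℕ) : ZMod P))
      else LV D p P1 hP hP1 (Z' g.2.2) (hZ' _) (a + ((g.2.1.val * P1 : ℕ) : ZMod P))
    have hft : ∀ i j, f (true, i, j) = LV D p P1 hP hP1 (Z j) (hZ j) (a + ((i.val * P1 : ℕ) : ZMod P)) := fun i j => if_pos rfl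
    have hff : ∀ i j, f (false, i, j) = LV D p P1 hP hP1 (Z' j) (hZ' j) (a + ((i.val * P1 : ℕ) : ZMod P)) :=
      fun i j => if_neg (by simp)
    have hCf : ∀ ψ : VV M →+ ℤ, C (fun g => ψ (f g)) := by
      intro ψ
      refine ⟨?_, ?_, ?_⟩
      · intro j
        have h1 : ∑ i, f (true, i, j) = 0 := by
          apply Subtype.ext
          funext t
          rw [AddSubgroup.val_finset_sum, Finset.sum_apply]
          have h2 : ∀ i, ((f (true, i, j) : VV M) : (ZMod M)ˣ → ℂ) t = D.LL P1 (Z j) (a + ((i.val * P1 : ℕ) : ZMod P)) t := by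
            intro i
            rw [hft, hLV]
          rw [Finset.sum_congr rfl fun i _ => h2 i, LL_row D p P1 hP]
          rfl
        change ∑ i, ψ (f (true, i, j)) = 0
        rw [← map_sum, h1, map_zero]
      · intro i j
        obtain ⟨w, hw, hw2⟩ := hFr j
        have h1 : f (false, i, j) - ((b : ℤ) ^ ((q * j.val) / p)) • f (true, i, j) =
            (q : ℤ) • LV D p P1 hP hP1 w hw (a + ((i.val * P1 : ℕ) : ZMod P)) := by
          apply Subtype.ext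
          funext t
          rw [hft, hff]
          change D.LL P1 (Z' j) _ t - ((b : ℤ) ^ ((q * j.val) / p)) • D.LL P1 (Z j) _ t = (q : ℤ) • D.LL P1 w _ t
          have h2 : Z' j = (((b : ℤ) ^ ((q * j.val) / p) : ℤ) : A) * Z j + ((q : ℤ) : A) * w := by
            push_cast
            rw [← hw2]
            ring
          rw [h2, LL_add, LL_int, LL_int, zsmul_eq_mul, zsmul_eq_mul]
          ring
        refine ⟨ψ (LV D p P1 hP hP1 w hw (a + ((i.val * P1 : ℕ) : ZMod P))), ?_⟩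
        have h3 := congrArg ψ h1
        rw [map_sub, map_zsmul, map_zsmul, smul_eq_mul, smul_eq_mul] at h3
        exact h3
      · intro k l hk hl hkl
        obtain ⟨w, hw, hw2⟩ := hCo k l hk hl hkl
        have h1 : ∑ s ∈ Finset.range (k + 1), ∑ t ∈ Finset.range (l + 1),
            ((-1) ^ ((k - s) + (l - t)) * (k.choose s : ℤ) * (l.choose t : ℤ) * (b : ℤ) ^ t) •
              f (true, (s : ZMod p), (t : ZMod p)) = (p : ℤ) • LV D p P1 hP hP1 w hw a := by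
          apply Subtype.ext
          funext u
          rw [AddSubgroup.val_finset_sum, Finset.sum_apply]
          have h2 : ∀ s ∈ Finset.range (k + 1), ((∑ t ∈ Finset.range (l + 1),
              ((-1) ^ ((k - s) + (l - t)) * (k.choose s : ℤ) * (l.choose t : ℤ) * (b : ℤ) ^ t) •
              f (true, (s : ZMod p), (t : ZMod p)) : VV M) : (ZMod M)ˣ → ℂ) u =
              ((-1 : ℤ) ^ (k - s) * (k.choose s : ℤ)) • D.LL P1
                (∑ t ∈ range (l + 1), (((-1) ^ (l - t) * (l.choose t : ℤ) * (b : ℤ) ^ t : ℤ) : A) * Z (t : ZMod p))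
                (a + ((s * P1 : ℕ) : ZMod P)) u := by
            intro s hs
            have hs' : (s : ZMod p).val = s := ZMod.val_cast_of_lt (by have := Finset.mem_range.1 hs; omega)
            rw [LL_sum, AddSubgroup.val_finset_sum, Finset.sum_apply, Finset.smul_sum]
            refine Finset.sum_congr rfl fun t _ => ?_
            rw [hft, hs']
            change (_ : ℤ) • D.LL P1 (Z (t : ZMod p)) (a + ((s * P1 : ℕ) : ZMod P)) u = _
            rw [← mul_smul]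
            congr 1
            rw [pow_add]
            ring
          rw [Finset.sum_congr rfl h2, ← LL_pows]
          change _ = (p : ℤ) • D.LL P1 w a u
          have h3 : D.pi P1 ^ k * (∑ t ∈ range (l + 1), (((-1) ^ (l - t) * (l.choose t : ℤ) * (b : ℤ) ^ t : ℤ) : A) * Z (t : ZMod p))
              = ((p : ℤ) : A) * w := by
            push_cast
            rw [← hw2]
            congr 1
            refine Finset.sum_congr rfl fun t _ => ?_
            ring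
          rw [h3, LL_int, zsmul_eq_mul]
        refine ⟨ψ (LV D p P1 hP hP1 w hw a), ?_⟩
        have h3 := congrArg ψ h1
        rw [map_zsmul, smul_eq_mul, map_sum] at h3
        rw [← h3]
        refine Finset.sum_congr rfl fun s _ => ?_
        rw [map_sum]
        refine Finset.sum_congr rfl fun t _ => ?_
        rw [map_zsmul, smul_eq_mul]
        ring
    have hen : ∑ g, qf (f g : (ZMod M)ˣ → ℂ) ≤ 8 * E * (p : ℝ) ^ 2 := by
      have h1 : ∀ (Y : ZMod p → A) (hY : ∀ j, IsIntegral ℤ (Y j)),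
          ∑ j, ∑ st : (ZMod P)ˣ × (ZMod M)ˣ, ‖D.e st (Y j)‖ ^ 2 ≤ E * p ^ 2 * Fintype.card ((ZMod P)ˣ × (ZMod M)ˣ) →
          ∑ i : ZMod p, ∑ j : ZMod p, qf (D.LL P1 (Y j) (a + ((i.val * P1 : ℕ) : ZMod P))) ≤ 4 * E * (p : ℝ) ^ 2 := by
        intro Y hY hYE
        rw [Finset.sum_comm]
        refine (Finset.sum_le_sum fun j _ => en_row D p P1 hP (Y j) a).trans ?_
        rw [← Finset.sum_div, ← Finset.mul_sum, div_le_iff₀ hcard]
        nlinarith
      have h2 : ∑ g, qf (f g : (ZMod M)ˣ → ℂ) =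
          ∑ i : ZMod p, ∑ j : ZMod p, qf (D.LL P1 (Z j) (a + ((i.val * P1 : ℕ) : ZMod P))) +
          ∑ i : ZMod p, ∑ j : ZMod p, qf (D.LL P1 (Z' j) (a + ((i.val * P1 : ℕ) : ZMod P))) := by
        rw [Fintype.sum_prod_type, Fintype.sum_bool, Fintype.sum_prod_type, Fintype.sum_prod_type]
        congr 1
      rw [h2]
      have h3 := h1 Z hZ hE
      have h4 := h1 Z' hZ' hE'
      linarith
    intro ψ j
    have h5 := good_VV M (Bool × ZMod p × ZMod p) C N (8 * E * (p : ℝ) ^ 2) hZprop f hCf hen ψ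
    obtain ⟨c0, hc0⟩ := h5 j
    refine ⟨c0, fun i => ?_⟩
    have h6 := hc0 i
    change (p : ℤ) ∣ ψ (f (true, i, j)) - c0 at h6
    rw [hft] at h6
    exact h6
  intro j
  exact LL_fin D p P1 hP hP1 (Z j) (hZ j) fun a ψ => key a ψ j

end Pool.Agent.H72.WD
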