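import Pool.Agent.H72.WD.Def

/-!
# [H72 WD Tr] THEOREM WD: traces `Z y j = Tr_(F/A)(y x^(p-j))`, energies, coordinates

`e_tr`: `trace_eq_sum_embeddings`-type statement for `F/A` at the embedding `e st`: the embeddings of `F` over `e st` are the `ee (st, w)` (`eeA`, `hee`; `A → ℂ` via
`(D.e st).toAlgebra`, `trace_eq_sum_embeddings (K := A) (L := F) ℂ`, the `A`-algebra homomorphisms `F →ₐ[A] ℂ` are in bijection with `ZMod p` by `w ↦ ee (st, w)`:
an embedding `ee (st', w)` over `e st` has `e st' = e st`, so `st' = st` by `he`).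
`Z_en`: for fixed `st`: `e st (Z y j) = ρ^(p-j) ∑_w ee(st,w)(y) ch(w (p - j.val))`, `ρ^(p-j) ≤ ρ^p = b`, `∑_j |∑_w c_w ch(-(w j))|^2 = p ∑_w |c_w|^2` (Parseval).
`Z_row`: Cauchy-Schwarz for one `j`. `sum_co`: apply `ee (st, w)` and `∑_j ch((w - w') j)` (`sum_ch_mul`). `co_sum`: uniqueness of the coordinates (`∑_w ch(w m)`).
-/

set_option autoImplicit false

namespace Pool.Agent.H72.WD

open Finset
open Pool.Agent.H61.WN (ch)

variable {p b P M : ℕ} [Fact p.Prime] [NeZero P] [NeZero M] {A F : Type} [Field A] [NumberField A]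
  [Field F] [NumberField F] [Algebra A F]

theorem e_tr (D : Dt p b P M A F) (st : (ZMod P)ˣ × (ZMod M)ˣ) (y : F) :
    D.e st (Algebra.trace A F y) = ∑ w : ZMod p, D.ee (st, w) y := by
  let _ : Algebra A ℂ := (D.e st).toAlgebra
  have : FiniteDimensional A F := Module.Finite.of_restrictScalars_finite ℚ A F
  have h := trace_eq_sum_embeddings (K := A) (L := F) ℂ (x := y)
  have h0 : D.e st (Algebra.trace A F y) = algebraMap A ℂ (Algebra.trace A F y) := rfl
  rw [h0, h]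
  symm
  refine Fintype.sum_bijective
    (fun w => ({ D.ee (st, w) with commutes' := fun a => D.eeA st w a } : F →ₐ[A] ℂ)) ⟨?_, ?_⟩ _ _ fun w => rfl
  · intro w w' hw
    have h1 : D.ee (st, w) = D.ee (st, w') := by
      ext a
      exact congrArg (fun σ : F →ₐ[A] ℂ => σ a) hw
    exact congrArg Prod.snd (D.hee.1 h1)
  · intro σ
    obtain ⟨⟨st', w⟩, h1⟩ := D.hee.2 σ.toRingHom
    have h2 : D.e st' = D.e st := by
      ext a
      rw [← D.eeA st' w a, h1]
      exact σ.commutes a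
    have h3 : st' = st := D.he.1 h2
    subst h3
    refine ⟨w, ?_⟩
    ext a
    exact congrArg (fun τ : F →+* ℂ => τ a) h1

private theorem ch_pj (w j : ZMod p) : ch w ^ (p - j.val) = ch (-(w * j)) := by
  rw [H61.WN.ch_pow]
  congr 1
  rw [Nat.cast_sub (ZMod.val_lt j).le, ZMod.natCast_self, ZMod.natCast_zmod_val]
  ring

theorem e_Z (D : Dt p b P M A F) (st : (ZMod P)ˣ × (ZMod M)ˣ) (y : F) (j : ZMod p) :
    D.e st (D.Z y j) = (D.ρ : ℂ) ^ (p - j.val) * ∑ w : ZMod p, D.ee (st, w) y * ch (-(w * j)) := by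
  unfold Dt.Z
  rw [e_tr, Finset.mul_sum]
  refine Finset.sum_congr rfl fun w _ => ?_
  rw [map_mul, map_pow, D.eex, mul_pow, ch_pj]
  ring

theorem Z_int (D : Dt p b P M A F) (y : F) (hy : IsIntegral ℤ y) (j : ZMod p) : IsIntegral ℤ (D.Z y j) := by
  have : FiniteDimensional A F := Module.Finite.of_restrictScalars_finite ℚ A F
  unfold Dt.Z
  refine Algebra.isIntegral_trace (hy.mul (IsIntegral.pow ?_ _))
  refine IsIntegral.of_pow (n := p) (NeZero.pos p) ?_
  rw [D.hx]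
  exact isIntegral_algebraMap (R := ℤ) (A := F) (x := (b : ℤ)) |> fun h => by simpa using h

/-- Parseval -/
private theorem pars (c : ZMod p → ℂ) :
    ∑ j : ZMod p, ‖∑ w : ZMod p, c w * ch (-(w * j))‖ ^ 2 = p * ∑ w, ‖c w‖ ^ 2 := by
  have h1 : ∀ z : ℂ, ((‖z‖ ^ 2 : ℝ) : ℂ) = z * (starRingEnd ℂ) z := by
    intro z
    rw [Complex.mul_conj, Complex.normSq_eq_norm_sq]
  have h2 : ((∑ j : ZMod p, ‖∑ w : ZMod p, c w * ch (-(w * j))‖ ^ 2 : ℝ) : ℂ) =
      ((p * ∑ w, ‖c w‖ ^ 2 : ℝ) : ℂ) := by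
    rw [Complex.ofReal_sum, Complex.ofReal_mul, Complex.ofReal_sum, Complex.ofReal_natCast]
    simp only [h1]
    have h3 : ∀ j : ZMod p, (∑ w : ZMod p, c w * ch (-(w * j))) *
        (starRingEnd ℂ) (∑ w : ZMod p, c w * ch (-(w * j))) =
        ∑ w : ZMod p, ∑ w' : ZMod p, c w * (starRingEnd ℂ) (c w') * ch (j * (w' - w)) := by
      intro j
      rw [map_sum, Finset.sum_mul_sum]
      refine Finset.sum_congr rfl fun w _ => Finset.sum_congr rfl fun w' _ => ?_
      rw [map_mul, ← H61.WN.ch_neg, neg_neg]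
      have h4 : ch (j * (w' - w)) = ch (-(w * j)) * ch (w' * j) := by
        rw [← H61.WN.ch_add]
        congr 1
        ring
      rw [h4]
      ring
    rw [Finset.sum_congr rfl fun j _ => h3 j, Finset.sum_comm, Finset.mul_sum]
    refine Finset.sum_congr rfl fun w _ => ?_
    rw [Finset.sum_comm]
    have h5 : ∀ w' : ZMod p, ∑ j : ZMod p, c w * (starRingEnd ℂ) (c w') * ch (j * (w' - w)) =
        if w' = w then (p : ℂ) * (c w * (starRingEnd ℂ) (c w)) else 0 := by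
      intro w'
      rw [← Finset.mul_sum, H61.WN.sum_ch_mul]
      by_cases h : w' = w
      · subst h
        rw [sub_self, if_pos rfl, if_pos rfl]
        ring
      · rw [if_neg (sub_ne_zero.2 h), if_neg h, mul_zero]
    rw [Finset.sum_congr rfl fun w' _ => h5 w', Finset.sum_ite_eq' univ w, if_pos (Finset.mem_univ w)]
  exact_mod_cast h2

theorem Z_en (D : Dt p b P M A F) (y : F) :
    ∑ j, ∑ st : (ZMod P)ˣ × (ZMod M)ˣ, ‖D.e st (D.Z y j)‖ ^ 2 ≤
      (b : ℝ) ^ 2 * p * ∑ st : ((ZMod P)ˣ × (ZMod M)ˣ) × ZMod p, ‖D.ee st y‖ ^ 2 := by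
  have hR : ∑ st : ((ZMod P)ˣ × (ZMod M)ˣ) × ZMod p, ‖D.ee st y‖ ^ 2 =
      ∑ st : (ZMod P)ˣ × (ZMod M)ˣ, ∑ w : ZMod p, ‖D.ee (st, w) y‖ ^ 2 := Fintype.sum_prod_type _
  rw [hR, Finset.sum_comm, Finset.mul_sum]
  refine Finset.sum_le_sum fun st _ => ?_
  calc ∑ j, ‖D.e st (D.Z y j)‖ ^ 2
      ≤ ∑ j : ZMod p, (b : ℝ) ^ 2 * ‖∑ w : ZMod p, D.ee (st, w) y * ch (-(w * j))‖ ^ 2 := by
        refine Finset.sum_le_sum fun j _ => ?_
        rw [e_Z, norm_mul, mul_pow]
        refine mul_le_mul_of_nonneg_right ?_ (by positivity)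
        have h0 : (0 : ℝ) ≤ D.ρ := zero_le_one.trans D.hρ
        rw [norm_pow, Complex.norm_real, Real.norm_of_nonneg h0]
        refine pow_le_pow_left₀ (by positivity) ?_ 2
        calc D.ρ ^ (p - j.val) ≤ D.ρ ^ p := pow_le_pow_right₀ D.hρ (Nat.sub_le _ _)
          _ = b := D.hρp
    _ = (b : ℝ) ^ 2 * p * ∑ w : ZMod p, ‖D.ee (st, w) y‖ ^ 2 := by
        rw [← Finset.mul_sum, pars, mul_assoc]

theorem Z_row (D : Dt p b P M A F) (y : F) (j : ZMod p) :
    ∑ st : (ZMod P)ˣ × (ZMod M)ˣ, ‖D.e st (D.Z y j)‖ ^ 2 ≤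
      (b : ℝ) ^ 2 * p * ∑ st : ((ZMod P)ˣ × (ZMod M)ˣ) × ZMod p, ‖D.ee st y‖ ^ 2 := by
  refine le_trans ?_ (Z_en D y)
  have h0 : ∀ i ∈ (univ : Finset (ZMod p)), 0 ≤ ∑ st : (ZMod P)ˣ × (ZMod M)ˣ, ‖D.e st (D.Z y i)‖ ^ 2 :=
    fun i _ => Finset.sum_nonneg fun st _ => by positivity
  exact Finset.single_le_sum h0 (Finset.mem_univ j)

theorem sum_co (D : Dt p b P M A F) (hb : b ≠ 0) (y : F) :
    y = ∑ j : ZMod p, algebraMap A F (D.co y j) * D.x ^ j.val := by
  have hp0 : (p : ℂ) ≠ 0 := by exact_mod_cast NeZero.ne p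
  have hb0 : (b : ℂ) ≠ 0 := by exact_mod_cast hb
  refine (D.ee ((1, 1), 0)).injective ?_
  rw [map_sum]
  have h1 : ∀ j : ZMod p, D.ee ((1, 1), 0) (algebraMap A F (D.co y j) * D.x ^ j.val) =
      (p : ℂ)⁻¹ * ∑ w : ZMod p, D.ee ((1, 1), w) y * ch (j * (0 - w)) := by
    intro j
    rw [map_mul, D.eeA, map_pow, D.eex, H61.WN.ch_zero, mul_one]
    unfold Dt.co
    rw [map_div₀, e_Z, map_mul, map_natCast, map_natCast]
    have h2 : (D.ρ : ℂ) ^ (p - j.val) * (D.ρ : ℂ) ^ j.val = b := by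
      rw [← pow_add, Nat.sub_add_cancel (ZMod.val_lt j).le]
      exact_mod_cast congrArg (fun r : ℝ => (r : ℂ)) D.hρp
    have h3 : ∑ w : ZMod p, D.ee ((1, 1), w) y * ch (-(w * j)) =
        ∑ w : ZMod p, D.ee ((1, 1), w) y * ch (j * (0 - w)) := by
      refine Finset.sum_congr rfl fun w _ => ?_
      congr 2
      ring
    rw [h3]
    set S := ∑ w : ZMod p, D.ee ((1, 1), w) y * ch (j * (0 - w))
    calc (D.ρ : ℂ) ^ (p - j.val) * S / (p * b) * (D.ρ : ℂ) ^ j.val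
        = ((D.ρ : ℂ) ^ (p - j.val) * (D.ρ : ℂ) ^ j.val) * S / (p * b) := by ring
      _ = (p : ℂ)⁻¹ * S := by
        rw [h2]
        field_simp
  rw [Finset.sum_congr rfl fun j _ => h1 j, ← Finset.mul_sum, Finset.sum_comm]
  have h2 : ∀ w : ZMod p, ∑ j : ZMod p, D.ee ((1, 1), w) y * ch (j * (0 - w)) =
      if w = 0 then (p : ℂ) * D.ee ((1, 1), 0) y else 0 := by
    intro w
    rw [← Finset.mul_sum, H61.WN.sum_ch_mul]
    by_cases h : w = 0
    · subst h
      rw [sub_self, if_pos rfl, if_pos rfl, mul_comm]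
    · rw [if_neg (sub_ne_zero.2 (Ne.symm h)), if_neg h, mul_zero]
  rw [Finset.sum_congr rfl fun w _ => h2 w, Finset.sum_ite_eq' univ (0 : ZMod p),
    if_pos (Finset.mem_univ _)]
  field_simp

theorem co_sum (D : Dt p b P M A F) (hb : b ≠ 0) (a : ZMod p → A) (j : ZMod p) :
    D.co (∑ i : ZMod p, algebraMap A F (a i) * D.x ^ i.val) j = a j := by
  have hpA : (p : A) ≠ 0 := by exact_mod_cast NeZero.ne p
  have hbA : (b : A) ≠ 0 := by exact_mod_cast hb
  have hZ : D.Z (∑ i : ZMod p, algebraMap A F (a i) * D.x ^ i.val) j = p * b * a j := by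
    refine (D.e (1, 1)).injective ?_
    rw [e_Z]
    have h1 : ∀ w : ZMod p, D.ee ((1, 1), w) (∑ i : ZMod p, algebraMap A F (a i) * D.x ^ i.val) * ch (-(w * j)) =
        ∑ i : ZMod p, D.e (1, 1) (a i) * (D.ρ : ℂ) ^ i.val * ch (w * (i - j)) := by
      intro w
      rw [map_sum, Finset.sum_mul]
      refine Finset.sum_congr rfl fun i _ => ?_
      rw [map_mul, D.eeA, map_pow, D.eex, mul_pow, H61.WN.ch_pow, ZMod.natCast_zmod_val]
      have h2 : ch (w * (i - j)) = ch (i * w) * ch (-(w * j)) := by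
        rw [← H61.WN.ch_add]
        congr 1
        ring
      rw [h2]
      ring
    rw [Finset.sum_congr rfl fun w _ => h1 w, Finset.sum_comm]
    have h2 : ∀ i : ZMod p, ∑ w : ZMod p, D.e (1, 1) (a i) * (D.ρ : ℂ) ^ i.val * ch (w * (i - j)) =
        if i = j then D.e (1, 1) (a j) * (D.ρ : ℂ) ^ j.val * p else 0 := by
      intro i
      rw [← Finset.mul_sum, H61.WN.sum_ch_mul]
      by_cases h : i = j
      · subst h
        rw [sub_self, if_pos rfl, if_pos rfl]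
      · rw [if_neg (sub_ne_zero.2 h), if_neg h, mul_zero]
    rw [Finset.sum_congr rfl fun i _ => h2 i, Finset.sum_ite_eq' univ j, if_pos (Finset.mem_univ _)]
    have h3 : (D.ρ : ℂ) ^ (p - j.val) * (D.ρ : ℂ) ^ j.val = b := by
      rw [← pow_add, Nat.sub_add_cancel (ZMod.val_lt j).le]
      exact_mod_cast congrArg (fun r : ℝ => (r : ℂ)) D.hρp
    rw [map_mul, map_mul, map_natCast, map_natCast, ← h3]
    ring
  unfold Dt.co
  rw [hZ]
  field_simp

theorem finrank_dt (D : Dt p b P M A F) : Module.finrank A F = p := by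
  have h1 := e_tr D (1, 1) (algebraMap A F 1)
  rw [Algebra.trace_algebraMap] at h1
  simp only [map_one, nsmul_eq_mul, mul_one, map_natCast, Finset.sum_const, Finset.card_univ, ZMod.card] at h1
  exact_mod_cast h1

end Pool.Agent.H72.WD
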